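import Mathlib

/-!
Magnitude of finite and of compact subsets of a normed space.
-/

namespace Pool.Agent.Lib.MP_7c9f8e_gt

variable {E : Type*} [NormedAddCommGroup E]

/-- The similarity matrix `Z_X` with entries `exp (-‖x - y‖)`. -/
noncomputable def simMatrix (X : Finset E) : Matrix X X ℝ :=
  Matrix.of fun x y => Real.exp (-‖(x : E) - (y : E)‖)

open Classical in
/-- The magnitude of a finite set: the sum of the entries of the inverse similarity matrix. -/
noncomputable def finMagnitude (X : Finset E) : ℝ :=
  ∑ i, ∑ j, (simMatrix X)⁻¹ i j

/-- The magnitude of a set: the supremum of the magnitudes of its finite subsets. -/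
noncomputable def magnitude (A : Set E) : ℝ :=
  sSup {m : ℝ | ∃ X : Finset E, (X : Set E) ⊆ A ∧ m = finMagnitude X}

end Pool.Agent.Lib.MP_7c9f8e_gt
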