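import Pool.Agent.Lib.MP_7c9f8e_gt.Core
import Pool.Agent.Lib.MP_7c9f8e_gt.Defs

/-!
Variational upper and lower bounds for magnitude.
-/

open MeasureTheory Set Real Matrix
open scoped RealInnerProductSpace

namespace Pool.Agent.Lib.MP_7c9f8e_gt

variable {E : Type*} [NormedAddCommGroup E] [InnerProductSpace ℝ E] [FiniteDimensional ℝ E]
  [MeasurableSpace E] [BorelSpace E]

omit [InnerProductSpace ℝ E] [FiniteDimensional ℝ E] in
theorem En_count_left {Ω : Type*} [MeasurableSpace Ω] (k : E → ℝ) (X : Finset E) (w : X → ℝ)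
    (μ : Measure Ω) (f : Ω → ℝ) (p : Ω → E) :
    En k Measure.count w (fun i => (i : E)) μ f p = ∑ i : X, w i * ∫ b, f b * k (i - p b) ∂μ := by
  rw [En, integral_count]
  refine Finset.sum_congr rfl fun i _ => ?_
  rw [← integral_const_mul]
  congr 1 with b; ring

omit [InnerProductSpace ℝ E] [FiniteDimensional ℝ E] in
theorem En_count (k : E → ℝ) (X : Finset E) (w v : X → ℝ) :
    En k Measure.count w (fun i => (i : E)) Measure.count v (fun i => (i : E))
      = ∑ i : X, ∑ j : X, w i * v j * k (i - j) := by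
  rw [En, integral_count]
  simp only [integral_count]

theorem quad_core {δ : ℝ} {ρ K : E → ℝ} (h : Dual δ ρ K) (X : Finset E) (w v : X → ℝ) :
    2 * ∑ i : X, ∑ j : X, w i * v j * ρ (i - j)
      ≤ ∑ i : X, ∑ j : X, w i * w j * Z ((i : E) - j) + ∑ i : X, ∑ j : X, v i * v j * K (i - j) := by
  have := h.core (μ₁ := Measure.count) (μ₂ := Measure.count) (f₁ := w) (f₂ := v)
    (p₁ := fun i : X => (i : E)) (p₂ := fun i : X => (i : E)) Integrable.of_finite
    measurable_subtype_coe Integrable.of_finite measurable_subtype_coe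
  simpa only [En_count] using this

theorem quad_nonneg (X : Finset E) (w : X → ℝ) :
    0 ≤ ∑ i : X, ∑ j : X, w i * w j * Z ((i : E) - j) := by
  obtain ⟨ρ, K, h⟩ := exists_dual (E := E) one_pos
  simpa using quad_core h X w 0

theorem quad_eq_zero (X : Finset E) (w : X → ℝ)
    (h0 : ∑ i : X, ∑ j : X, w i * w j * Z ((i : E) - j) = 0) : w = 0 := by
  classical
  funext k
  obtain ⟨δ, hδ, hsep⟩ : ∃ δ > 0, ∀ i : X, i ≠ k → δ ≤ ‖(i : E) - k‖ := by
    by_cases hne : (Finset.univ.filter fun i : X => i ≠ k).Nonempty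
    · obtain ⟨i, hi, hmin⟩ := Finset.exists_min_image _ (fun i : X => ‖(i : E) - k‖) hne
      refine ⟨‖(i : E) - k‖, ?_, fun j hj => hmin j (by simpa using hj)⟩
      have : i ≠ k := by simpa using hi
      exact norm_pos_iff.2 (sub_ne_zero.2 fun h => this (Subtype.ext h))
    · exact ⟨1, one_pos, fun i hi => absurd ⟨i, by simpa using hi⟩ hne⟩
  obtain ⟨ρ, K, h⟩ := exists_dual (E := E) hδ
  have key : ∀ s : ℝ, 2 * (s * (w k * ρ 0)) ≤ s ^ 2 * K 0 := by
    intro s
    have h1 := quad_core h X w (Pi.single k s)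
    rw [h0] at h1
    have h2 : ∑ i : X, ∑ j : X, w i * (Pi.single k s : X → ℝ) j * ρ (i - j) = s * (w k * ρ 0) := by
      have : ∀ i : X, ∑ j : X, w i * (Pi.single k s : X → ℝ) j * ρ (i - j)
          = w i * s * ρ (i - k) := by
        intro i
        rw [Finset.sum_eq_single k (fun j _ hj => by simp [hj]) (by simp)]
        simp
      simp only [this]
      rw [Finset.sum_eq_single k (fun i _ hi => by simp [h.ρ_supp _ (hsep i hi)]) (by simp)]
      simp; ring
    have h3 : ∑ i : X, ∑ j : X, (Pi.single k s : X → ℝ) i * (Pi.single k s : X → ℝ) j * K (i - j)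
        = s ^ 2 * K 0 := by
      rw [Finset.sum_eq_single k (fun i _ hi => by simp [hi]) (by simp),
        Finset.sum_eq_single k (fun j _ hj => by simp [hj]) (by simp)]
      simp [sq]
    rw [h2, h3] at h1
    linarith
  set a := w k * ρ 0
  have ha : a = 0 := by
    by_contra ha
    have hpos : 0 < a ^ 2 := by positivity
    have h1 := key (a / (|K 0| + 1))
    have h2 : 0 < |K 0| + 1 := by positivity
    have h3 : (a / (|K 0| + 1)) ^ 2 * K 0 ≤ (a / (|K 0| + 1)) ^ 2 * (|K 0| + 1) :=
      mul_le_mul_of_nonneg_left (by linarith [le_abs_self (K 0)]) (by positivity)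
    have h4 : (a / (|K 0| + 1)) ^ 2 * (|K 0| + 1) = a ^ 2 / (|K 0| + 1) := by field_simp
    have h5 : a / (|K 0| + 1) * a = a ^ 2 / (|K 0| + 1) := by field_simp
    have h6 : 0 < a ^ 2 / (|K 0| + 1) := by positivity
    linarith
  have := h.ρ_zero
  simpa [a, this.ne'] using ha

theorem exists_weighting (X : Finset E) :
    ∃ w : X → ℝ, (∀ i : X, ∑ j : X, w j * Z ((i : E) - j) = 1) ∧ finMagnitude X = ∑ i, w i := by
  classical
  have hdet : IsUnit (simMatrix X).det := by
    rw [isUnit_iff_ne_zero]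
    intro hd
    obtain ⟨v, hv, hv0⟩ := Matrix.exists_mulVec_eq_zero_iff.2 hd
    apply hv
    apply quad_eq_zero X v
    have : ∀ i : X, ∑ j : X, v i * v j * Z ((i : E) - j) = v i * (simMatrix X *ᵥ v) i := by
      intro i
      simp only [Matrix.mulVec, dotProduct, simMatrix, Matrix.of_apply, Finset.mul_sum, Z]
      exact Finset.sum_congr rfl fun j _ => by ring
    simp only [this, hv0]
    simp
  refine ⟨(simMatrix X)⁻¹ *ᵥ (fun _ => 1), fun i => ?_, ?_⟩
  · have h1 : simMatrix X *ᵥ ((simMatrix X)⁻¹ *ᵥ (fun _ => 1)) = fun _ => 1 := by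
      rw [Matrix.mulVec_mulVec, Matrix.mul_nonsing_inv _ hdet, Matrix.one_mulVec]
    have h2 := congrFun h1 i
    refine Eq.trans ?_ h2
    generalize (simMatrix X)⁻¹ *ᵥ (fun _ => (1:ℝ)) = v
    simp only [Matrix.mulVec, dotProduct, simMatrix, Matrix.of_apply, Z]
    exact Finset.sum_congr rfl fun j _ => by ring
  · simp only [finMagnitude, Matrix.mulVec, dotProduct, mul_one]

theorem quad_le_finMagnitude (X : Finset E) (w : X → ℝ) :
    2 * ∑ i, w i - ∑ i : X, ∑ j : X, w i * w j * Z ((i : E) - j) ≤ finMagnitude X := by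
  obtain ⟨u, hu, hm⟩ := exists_weighting X
  have h1 := quad_nonneg X (w - u)
  have hsym : ∀ i j : X, Z ((i : E) - j) = Z ((j : E) - i) := fun i j => by
    rw [← Z_neg, neg_sub]
  have e1 : ∀ v : X → ℝ, ∑ i : X, ∑ j : X, v i * u j * Z ((i : E) - j) = ∑ i, v i := by
    intro v
    refine Finset.sum_congr rfl fun i _ => ?_
    simp only [mul_assoc, ← Finset.mul_sum, hu, mul_one]
  have e2 : ∑ i : X, ∑ j : X, u i * w j * Z ((i : E) - j) = ∑ i, w i := by
    rw [Finset.sum_comm, ← e1 w]
    exact Finset.sum_congr rfl fun i _ => Finset.sum_congr rfl fun j _ => by rw [hsym]; ring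
  have e3 : ∑ i : X, ∑ j : X, (w - u) i * (w - u) j * Z ((i : E) - j)
      = ∑ i : X, ∑ j : X, w i * w j * Z ((i : E) - j)
        - ∑ i : X, ∑ j : X, w i * u j * Z ((i : E) - j)
        - ∑ i : X, ∑ j : X, u i * w j * Z ((i : E) - j)
        + ∑ i : X, ∑ j : X, u i * u j * Z ((i : E) - j) := by
    simp only [← Finset.sum_sub_distrib, ← Finset.sum_add_distrib, Pi.sub_apply]
    exact Finset.sum_congr rfl fun i _ => Finset.sum_congr rfl fun j _ => by ring
  rw [e3, e1, e1, e2] at h1
  linarith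

/-- Upper bound for the magnitude of finite subsets. -/
theorem finMagnitude_le {δ : ℝ} {ρ K : E → ℝ} (h : Dual δ ρ K) {Ω : Type*} [MeasurableSpace Ω]
    {μ : Measure Ω} [SFinite μ] {f : Ω → ℝ} {p : Ω → E} (hf : Integrable f μ) (hp : Measurable p)
    (X : Finset E) (hX : ∀ x ∈ X, ∫ b, f b * ρ (x - p b) ∂μ = 1) :
    finMagnitude X ≤ En K μ f p μ f p := by
  obtain ⟨u, hu, hm⟩ := exists_weighting X
  have h1 := h.core (μ₁ := Measure.count) (f₁ := u) (p₁ := fun i : X => (i : E))
    Integrable.of_finite measurable_subtype_coe hf hp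
  rw [En_count_left, En_count] at h1
  have e1 : ∑ i : X, ∑ j : X, u i * u j * Z ((i : E) - j) = ∑ i, u i := by
    refine Finset.sum_congr rfl fun i _ => ?_
    simp only [mul_assoc, ← Finset.mul_sum, hu, mul_one]
  have e2 : ∑ i : X, u i * ∫ b, f b * ρ (i - p b) ∂μ = ∑ i, u i :=
    Finset.sum_congr rfl fun i _ => by rw [hX i i.2, mul_one]
  rw [e1, e2] at h1
  linarith

theorem magnitude_le {δ : ℝ} {ρ K : E → ℝ} (h : Dual δ ρ K) {Ω : Type*} [MeasurableSpace Ω]
    {μ : Measure Ω} [SFinite μ] {f : Ω → ℝ} {p : Ω → E} (hf : Integrable f μ) (hp : Measurable p)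
    (A : Set E) (hA : ∀ x ∈ A, ∫ b, f b * ρ (x - p b) ∂μ = 1) :
    BddAbove {m : ℝ | ∃ X : Finset E, (X : Set E) ⊆ A ∧ m = finMagnitude X} ∧
      magnitude A ≤ En K μ f p μ f p := by
  have hb : ∀ m ∈ {m : ℝ | ∃ X : Finset E, (X : Set E) ⊆ A ∧ m = finMagnitude X},
      m ≤ En K μ f p μ f p := by
    rintro m ⟨X, hX, rfl⟩
    exact finMagnitude_le h hf hp X fun x hx => hA x (hX hx)
  exact ⟨⟨_, hb⟩, csSup_le ⟨_, ∅, by simp, rfl⟩ hb⟩

omit [InnerProductSpace ℝ E] [FiniteDimensional ℝ E] in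
theorem exists_net [SecondCountableTopology E] {A : Set E} (hA : IsCompact A) (hne : A.Nonempty)
    {ε : ℝ} (hε : 0 < ε) :
    ∃ (X : Finset E) (q : E → E), (X : Set E) ⊆ A ∧ Measurable q ∧ (∀ x, q x ∈ X) ∧
      ∀ x ∈ A, ‖q x - x‖ ≤ ε := by
  classical
  obtain ⟨t, htA, htf, hcov⟩ := hA.finite_cover_balls hε
  have htne : t.Nonempty := by
    obtain ⟨x, hx⟩ := hne
    obtain ⟨y, hy, -⟩ := mem_iUnion₂.1 (hcov hx)
    exact ⟨y, hy⟩
  obtain ⟨e, he⟩ := htf.countable.exists_eq_range htne
  have hex : ∀ x, ∃ k : ℕ, dist x (e k) < ε ∨ x ∉ A := by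
    intro x
    by_cases hx : x ∈ A
    · obtain ⟨y, hy, hxy⟩ := mem_iUnion₂.1 (hcov hx)
      rw [he] at hy
      obtain ⟨k, rfl⟩ := hy
      exact ⟨k, Or.inl hxy⟩
    · exact ⟨0, Or.inr hx⟩
  refine ⟨htf.toFinset, fun x => e (Nat.find (hex x)), by simpa using htA, ?_, ?_, ?_⟩
  · refine measurable_from_nat.comp (measurable_find hex fun k => ?_)
    exact (Metric.isOpen_ball (x := e k) (ε := ε)).measurableSet.union hA.measurableSet.compl
  · intro x
    simp [he]
  · intro x hx
    rcases Nat.find_spec (hex x) with h | h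
    · rw [← dist_eq_norm, dist_comm]; exact h.le
    · exact absurd hx h

omit [InnerProductSpace ℝ E] [FiniteDimensional ℝ E] in
theorem integrable_En_Z [SecondCountableTopology E] {Ω : Type*} [MeasurableSpace Ω]
    {μ : Measure Ω} [SFinite μ] {f : Ω → ℝ} {p : Ω → E} (hf : Integrable f μ)
    (hp : Measurable p) :
    Integrable (fun z : Ω × Ω => f z.1 * f z.2 * Z (p z.1 - p z.2)) (μ.prod μ) := by
  refine (hf.mul_prod hf).mul_bdd (c := 1) (Measurable.aestronglyMeasurable (by fun_prop))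
    (Filter.Eventually.of_forall fun z => ?_)
  rw [Real.norm_eq_abs, abs_of_pos (Z_pos _)]
  exact exp_le_one_iff.2 (by simp)

/-- Lower bound for magnitude. -/
theorem le_magnitude {Ω : Type*} [MeasurableSpace Ω]
    {μ : Measure Ω} [SFinite μ] {f : Ω → ℝ} {p : Ω → E} (hf : Integrable f μ) (hp : Measurable p)
    {A : Set E} (hA : IsCompact A) (hne : A.Nonempty) (hfA : ∀ b, f b ≠ 0 → p b ∈ A)
    (hb : BddAbove {m : ℝ | ∃ X : Finset E, (X : Set E) ⊆ A ∧ m = finMagnitude X}) :
    2 * ∫ b, f b ∂μ - En Z μ f p μ f p ≤ magnitude A := by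
  classical
  set N := ∫ b, |f b| ∂μ with hN
  have hN0 : 0 ≤ N := integral_nonneg fun b => abs_nonneg _
  have main : ∀ ε > 0, 2 * ∫ b, f b ∂μ - En Z μ f p μ f p ≤ magnitude A + 2 * ε * N ^ 2 := by
    intro ε hε
    obtain ⟨X, q, hXA, hq, hqX, hqε⟩ := exists_net hA hne hε
    have hqp : Measurable fun b => q (p b) := hq.comp hp
    set w : X → ℝ := fun y => ∫ b, (if q (p b) = y then f b else 0) ∂μ with hw
    have hwi : ∀ y : X, Integrable (fun b => if q (p b) = y then f b else 0) μ := by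
      intro y
      have := hf.indicator (s := {b | q (p b) = y}) (hqp (measurableSet_singleton (y : E)))
      exact this.congr (Filter.Eventually.of_forall fun b => by simp [indicator])
    have hsum : ∀ g : E → ℝ, ∑ y : X, w y * g y = ∫ b, f b * g (q (p b)) ∂μ := by
      intro g
      simp only [hw, ← integral_mul_const]
      rw [← integral_finsetSum _ fun y _ => (hwi y).mul_const _]
      congr 1 with b
      rw [Finset.sum_eq_single ⟨q (p b), hqX _⟩]
      · simp
      · intro y _ hy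
        rw [if_neg fun h => hy (Subtype.ext h.symm), zero_mul]
      · simp
    have h1 : ∑ y, w y = ∫ b, f b ∂μ := by simpa using hsum fun _ => 1
    have h2 : ∑ i : X, ∑ j : X, w i * w j * Z ((i : E) - j)
        = En Z μ f (fun b => q (p b)) μ f (fun b => q (p b)) := by
      have : ∀ i : X, ∑ j : X, w i * w j * Z ((i : E) - j)
          = w i * ∫ b, f b * Z ((i : E) - q (p b)) ∂μ := by
        intro i
        rw [← hsum fun y => Z ((i : E) - y), Finset.mul_sum]
        exact Finset.sum_congr rfl fun j _ => by ring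
      simp only [this]
      rw [hsum fun y => ∫ b, f b * Z (y - q (p b)) ∂μ, En]
      congr 1 with a
      rw [← integral_const_mul]
      congr 1 with b; ring
    have h3 := quad_le_finMagnitude X w
    have h4 : finMagnitude X ≤ magnitude A := le_csSup hb ⟨X, hXA, rfl⟩
    have i1 := integrable_En_Z hf hp
    have i2 := integrable_En_Z hf hqp
    have h5 : En Z μ f (fun b => q (p b)) μ f (fun b => q (p b))
        ≤ En Z μ f p μ f p + 2 * ε * N ^ 2 := by
      have e1 := integral_prod _ i1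
      have e2 := integral_prod _ i2
      simp only at e1 e2
      rw [En, En, ← e1, ← e2, sq, hN, ← integral_prod_mul, ← integral_const_mul,
        ← integral_add i1 ((hf.abs.mul_prod hf.abs).const_mul _)]
      refine integral_mono i2 (i1.add ((hf.abs.mul_prod hf.abs).const_mul _)) fun z => ?_
      simp only
      by_cases h1 : f z.1 = 0
      · simp [h1]
      by_cases h2 : f z.2 = 0
      · simp [h2]
      have a1 := hqε _ (hfA _ h1)
      have a2 := hqε _ (hfA _ h2)
      have a3 := abs_Z_sub_le (q (p z.1) - q (p z.2)) (p z.1 - p z.2)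
      have a4 : ‖q (p z.1) - q (p z.2) - (p z.1 - p z.2)‖ ≤ 2 * ε := by
        have : q (p z.1) - q (p z.2) - (p z.1 - p z.2)
            = (q (p z.1) - p z.1) - (q (p z.2) - p z.2) := by abel
        rw [this]
        linarith [norm_sub_le (q (p z.1) - p z.1) (q (p z.2) - p z.2)]
      have a5 : f z.1 * f z.2 * (Z (q (p z.1) - q (p z.2)) - Z (p z.1 - p z.2))
          ≤ |f z.1| * |f z.2| * (2 * ε) := by
        refine (le_abs_self _).trans ?_
        rw [abs_mul, abs_mul]
        exact mul_le_mul_of_nonneg_left (a3.trans a4) (by positivity)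
      linarith
    rw [h1, h2] at h3
    linarith
  refine le_of_forall_pos_le_add fun η hη => ?_
  have := main (η / (2 * (N ^ 2 + 1))) (by positivity)
  have h2 : 2 * (η / (2 * (N ^ 2 + 1))) * N ^ 2 ≤ η := by
    rw [show 2 * (η / (2 * (N ^ 2 + 1))) * N ^ 2 = η * (N ^ 2 / (N ^ 2 + 1)) by field_simp]
    exact mul_le_of_le_one_right hη.le ((div_le_one (by positivity)).2 (by linarith))
  linarith

end Pool.Agent.Lib.MP_7c9f8e_gt
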