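import Pool.Agent.Lib.MP_7c9f8e_gt.Kernel

/-!
One-dimensional boundary profiles.
-/

open MeasureTheory Set Real
open scoped RealInnerProductSpace FourierTransform

namespace Pool.Agent.Lib.MP_7c9f8e_gt

noncomputable def gc (η : ℝ) : ℝ := (1 - cos η) / η ^ 2

theorem gc_nonneg (η : ℝ) : 0 ≤ gc η := div_nonneg (by linarith [cos_le_one η]) (sq_nonneg _)

theorem measurable_gc : Measurable gc := by unfold gc; fun_prop

theorem integrable_gc : Integrable gc := by
  refine (integrable_inv_one_add_sq.const_mul (5 / 2)).mono' measurable_gc.aestronglyMeasurable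
    (Filter.Eventually.of_forall fun η => ?_)
  rw [Real.norm_eq_abs, abs_of_nonneg (gc_nonneg η), gc]
  by_cases h : η = 0
  · simp [h]; norm_num
  have h1 : 0 < η ^ 2 := by positivity
  rw [← div_eq_mul_inv, div_le_div_iff₀ h1 (by positivity)]
  have h2 := one_sub_sq_div_two_le_cos (x := η)
  have h3 := neg_one_le_cos η
  nlinarith

theorem integral_gc_pos : 0 < ∫ η, gc η := by
  rw [integral_pos_iff_support_of_nonneg gc_nonneg integrable_gc]
  have : Ioo (1:ℝ) 2 ⊆ Function.support gc := by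
    intro x hx
    have h1 : cos x < cos 0 :=
      cos_lt_cos_of_nonneg_of_le_pi le_rfl (by linarith [hx.2, pi_gt_three]) (by linarith [hx.1])
    rw [cos_zero] at h1
    have : 0 < x := by linarith [hx.1]
    exact (div_pos (by linarith) (by positivity)).ne'
  exact lt_of_lt_of_le (by simp) (measure_mono this)

theorem integrable_sq_mul_gc (s : ℝ) : Integrable fun ξ => s ^ 2 * gc (s * ξ) := by
  by_cases h : s = 0
  · simp [h]
  · exact (integrable_gc.comp_mul_left' h).const_mul _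

theorem integral_sq_mul_gc (s : ℝ) : ∫ ξ, s ^ 2 * gc (s * ξ) = |s| * ∫ η, gc η := by
  by_cases h : s = 0
  · simp [h]
  rw [integral_const_mul, Measure.integral_comp_mul_left, smul_eq_mul, ← mul_assoc, abs_inv,
    ← sq_abs]
  have : |s| ≠ 0 := abs_ne_zero.2 h
  congr 1; field_simp

theorem sq_mul_gc (s ξ : ℝ) : s ^ 2 * gc (s * ξ) = (1 - cos (ξ * s)) / ξ ^ 2 := by
  by_cases h : s = 0
  · simp [h]
  by_cases h' : ξ = 0
  · simp [h', gc]
  rw [gc, mul_comm s ξ]; field_simp

theorem abs_positivity {Ω : Type*} [MeasurableSpace Ω] {μ : Measure Ω} [SFinite μ]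
    {f s : Ω → ℝ} (hfm : Measurable f) (hs : Measurable s) (hf : Integrable f μ)
    (hfs : Integrable (fun a => f a * s a) μ)
    (hc : ∀ ξ, ∫ a, f a * cos (ξ * s a) ∂μ ≤ ∫ a, f a ∂μ) : 0 ≤ ∫ a, f a * |s a| ∂μ := by
  set Φ : Ω → ℝ → ℝ := fun a ξ => f a * (s a ^ 2 * gc (s a * ξ)) with hΦ
  have hgm := measurable_gc
  have hΦm : Measurable (Function.uncurry Φ) := by
    simp only [hΦ]
    exact (hfm.comp measurable_fst).mul (((hs.comp measurable_fst).pow_const 2).mul
      (hgm.comp ((hs.comp measurable_fst).mul measurable_snd)))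
  have hΦi : Integrable (Function.uncurry Φ) (μ.prod volume) := by
    rw [integrable_prod_iff hΦm.aestronglyMeasurable]
    refine ⟨Filter.Eventually.of_forall fun a => (integrable_sq_mul_gc (s a)).const_mul (f a), ?_⟩
    refine (hfs.abs.mul_const (∫ η, gc η)).congr (Filter.Eventually.of_forall fun a => ?_)
    simp only [Function.uncurry_apply_pair, hΦ, norm_mul, Real.norm_eq_abs]
    rw [integral_const_mul, abs_mul, mul_assoc, ← integral_sq_mul_gc]
    congr 2 with ξ
    rw [abs_of_nonneg (sq_nonneg _), abs_of_nonneg (gc_nonneg _)]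
  have h1 := integral_integral_swap hΦi
  have h2 : ∫ a, ∫ ξ, Φ a ξ ∂volume ∂μ = (∫ a, f a * |s a| ∂μ) * ∫ η, gc η := by
    rw [← integral_mul_const]
    congr 1 with a
    simp only [hΦ]
    rw [integral_const_mul, integral_sq_mul_gc]; ring
  have h3 : 0 ≤ ∫ ξ, ∫ a, Φ a ξ ∂μ ∂volume := by
    refine integral_nonneg fun ξ => ?_
    have hi : Integrable (fun a => f a * cos (ξ * s a)) μ :=
      hf.mul_bdd (c := 1) (Measurable.aestronglyMeasurable (by fun_prop))
        (Filter.Eventually.of_forall fun x => abs_cos_le_one _)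
    have : ∫ a, Φ a ξ ∂μ = (∫ a, f a ∂μ - ∫ a, f a * cos (ξ * s a) ∂μ) / ξ ^ 2 := by
      rw [← integral_sub hf hi, ← integral_div]
      congr 1 with a
      simp only [hΦ]
      rw [sq_mul_gc]; ring
    simp only [this]
    exact div_nonneg (by linarith [hc ξ]) (sq_nonneg _)
  rw [← h1, h2] at h3
  exact nonneg_of_mul_nonneg_left h3 integral_gc_pos

/-- A signed profile of total mass one with all moments. -/
structure Prof {Ω : Type*} [MeasurableSpace Ω] (μ : Measure Ω) (v r : Ω → ℝ) : Prop where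
  v_meas : Measurable v
  r_meas : Measurable r
  mom : ∀ k : ℕ, Integrable (fun a => v a * (1 + |r a|) ^ k) μ
  one : ∫ a, v a ∂μ = 1

/-- The characteristic function of a profile. -/
noncomputable def chf {Ω : Type*} [MeasurableSpace Ω] (μ : Measure Ω) (v r : Ω → ℝ) (ξ : ℝ) : ℂ :=
  ∫ a, (v a : ℂ) * Complex.exp (((ξ * r a : ℝ) : ℂ) * Complex.I) ∂μ

namespace Prof

variable {Ω : Type*} [MeasurableSpace Ω] {μ : Measure Ω} {v r : Ω → ℝ}

theorem int (h : Prof μ v r) : Integrable v μ := by simpa using h.mom 0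

theorem int_r (h : Prof μ v r) : Integrable (fun a => v a * r a) μ := by
  refine (h.mom 1).abs.mono' (h.v_meas.mul h.r_meas).aestronglyMeasurable
    (Filter.Eventually.of_forall fun a => ?_)
  simp only [Real.norm_eq_abs, abs_mul, pow_one]
  refine mul_le_mul_of_nonneg_left ?_ (abs_nonneg _)
  rw [abs_of_nonneg (a := 1 + |r a|) (by positivity)]
  linarith

theorem int_exp (h : Prof μ v r) (ξ : ℝ) :
    Integrable (fun a => (v a : ℂ) * Complex.exp (((ξ * r a : ℝ) : ℂ) * Complex.I)) μ := by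
  have := h.r_meas
  refine h.int.ofReal.mul_bdd (c := 1) (Measurable.aestronglyMeasurable (by fun_prop))
    (Filter.Eventually.of_forall fun a => ?_)
  rw [Complex.norm_exp_ofReal_mul_I]

theorem chf_neg (ξ : ℝ) : chf μ v r (-ξ) = (starRingEnd ℂ) (chf μ v r ξ) := by
  rw [chf, chf, ← integral_conj]
  congr 1 with a
  rw [map_mul, Complex.conj_ofReal, ← Complex.exp_conj, map_mul, Complex.conj_ofReal,
    Complex.conj_I]
  congr 2
  push_cast; ring

end Prof

variable {E : Type*} [NormedAddCommGroup E] [InnerProductSpace ℝ E] [FiniteDimensional ℝ E]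
  [MeasurableSpace E] [BorelSpace E]

theorem tri_integrable {K : E → ℝ} (hKm : Measurable K)
    (hK : ∀ k : ℕ, Integrable (fun x => K x * (1 + ‖x‖) ^ k))
    {Ω : Type*} [MeasurableSpace Ω] {μ : Measure Ω} [SFinite μ] {v r : Ω → ℝ} (h : Prof μ v r)
    (k : ℕ) :
    Integrable (fun z : (E × Ω) × Ω => K z.1.1 * v z.1.2 * v z.2
      * (1 + (|r z.2| + |r z.1.2| + ‖z.1.1‖)) ^ k) ((volume.prod μ).prod μ) := by
  have h1 := (((hK k).mul_prod (h.mom k)).mul_prod (h.mom k)).abs
  have := h.v_meas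
  have := h.r_meas
  refine h1.mono' (Measurable.aestronglyMeasurable (by fun_prop))
    (Filter.Eventually.of_forall fun z => ?_)
  simp only [Real.norm_eq_abs, abs_mul, abs_pow]
  have e : |K z.1.1| * abs (1 + ‖z.1.1‖) ^ k * (|v z.1.2| * abs (1 + |r z.1.2|) ^ k)
      * (|v z.2| * abs (1 + |r z.2|) ^ k) = |K z.1.1| * |v z.1.2| * |v z.2|
        * (abs (1 + ‖z.1.1‖) * abs (1 + |r z.1.2|) * abs (1 + |r z.2|)) ^ k := by
    rw [mul_pow, mul_pow]; ring
  rw [e]
  refine mul_le_mul_of_nonneg_left (pow_le_pow_left₀ (abs_nonneg _) ?_ k) (by positivity)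
  have a1 := abs_nonneg (r z.2)
  have a2 := abs_nonneg (r z.1.2)
  have a3 := norm_nonneg z.1.1
  generalize |r z.2| = a at *
  generalize |r z.1.2| = b at *
  generalize ‖z.1.1‖ = c at *
  rw [abs_of_nonneg (by positivity), abs_of_nonneg (by positivity), abs_of_nonneg (by positivity),
    abs_of_nonneg (by positivity)]
  nlinarith [mul_nonneg a1 a2, mul_nonneg a1 a3, mul_nonneg a2 a3,
    mul_nonneg (mul_nonneg a1 a2) a3]

theorem tri_le {K : E → ℝ} (hKm : Measurable K) (hKe : ∀ x, K (-x) = K x)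
    (hK : ∀ k : ℕ, Integrable (fun x => K x * (1 + ‖x‖) ^ k))
    {Ω : Type*} [MeasurableSpace Ω] {μ : Measure Ω} [SFinite μ] {v r : Ω → ℝ} (h : Prof μ v r)
    {u : E} (hu : ‖u‖ = 1)
    (hc : ∀ ξ : ℝ, ‖chf μ v r ξ‖ ^ 2 * cosT K ((ξ / (2 * π)) • u) ≤ ∫ x, K x) :
    ∫ z : (E × Ω) × Ω, K z.1.1 * v z.1.2 * v z.2 * min (r z.2) (r z.1.2 + ⟪u, z.1.1⟫)
      ∂((volume.prod μ).prod μ) ≤ (∫ x, K x) * ∫ a, v a * r a ∂μ := by
  have hKi : Integrable K := by simpa using hK 0
  have hvm := h.v_meas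
  have hrm := h.r_meas
  have hKu : Integrable (fun x => K x * ⟪u, x⟫) := by
    refine (hK 1).abs.mono' (Measurable.aestronglyMeasurable (by fun_prop))
      (Filter.Eventually.of_forall fun a => ?_)
    simp only [Real.norm_eq_abs, abs_mul, pow_one]
    refine mul_le_mul_of_nonneg_left ?_ (abs_nonneg _)
    rw [abs_of_nonneg (a := 1 + ‖a‖) (by positivity)]
    have := abs_real_inner_le_norm u a
    rw [hu] at this
    linarith
  have hKu0 : ∫ x, K x * ⟪u, x⟫ = 0 := by
    have h := integral_neg_eq_self (fun x => K x * ⟪u, x⟫) (volume : Measure E)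
    simp only [hKe, inner_neg_right, mul_neg, integral_neg] at h
    linarith
  set P := ((volume : Measure E).prod μ).prod μ with hP
  set F : (E × Ω) × Ω → ℝ := fun z => K z.1.1 * v z.1.2 * v z.2 with hF
  set s : (E × Ω) × Ω → ℝ := fun z => r z.2 - r z.1.2 - ⟪u, z.1.1⟫ with hs
  have hFi : Integrable F P := (hKi.mul_prod h.int).mul_prod h.int
  have i1 : Integrable (fun z : (E × Ω) × Ω => K z.1.1 * v z.1.2 * (v z.2 * r z.2)) P :=
    (hKi.mul_prod h.int).mul_prod h.int_r
  have i2 : Integrable (fun z : (E × Ω) × Ω => K z.1.1 * (v z.1.2 * r z.1.2) * v z.2) P :=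
    (hKi.mul_prod h.int_r).mul_prod h.int
  have i3 : Integrable (fun z : (E × Ω) × Ω => K z.1.1 * ⟪u, z.1.1⟫ * v z.1.2 * v z.2) P :=
    (hKu.mul_prod h.int).mul_prod h.int
  have e1 : ∫ z : (E × Ω) × Ω, K z.1.1 * v z.1.2 * (v z.2 * r z.2) ∂P
      = (∫ x, K x) * ∫ a, v a * r a ∂μ := by
    rw [hP, integral_prod_mul (fun y : E × Ω => K y.1 * v y.2) (fun a => v a * r a),
      integral_prod_mul, h.one, mul_one]
  have e2 : ∫ z : (E × Ω) × Ω, K z.1.1 * (v z.1.2 * r z.1.2) * v z.2 ∂P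
      = (∫ x, K x) * ∫ a, v a * r a ∂μ := by
    rw [hP, integral_prod_mul (fun y : E × Ω => K y.1 * (v y.2 * r y.2)) v,
      integral_prod_mul K (fun a => v a * r a), h.one, mul_one]
  have e3 : ∫ z : (E × Ω) × Ω, K z.1.1 * ⟪u, z.1.1⟫ * v z.1.2 * v z.2 ∂P = 0 := by
    rw [hP, integral_prod_mul (fun y : E × Ω => K y.1 * ⟪u, y.1⟫ * v y.2) v,
      integral_prod_mul (fun x => K x * ⟪u, x⟫) v, hKu0]
    simp
  have hFs : Integrable (fun z => F z * s z) P :=
    ((i1.sub i2).sub i3).congr (Filter.Eventually.of_forall fun z => by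
      simp only [hF, hs, Pi.sub_apply]; ring)
  have hFa : Integrable (fun z => F z * |s z|) P := by
    refine hFs.abs.mono' (Measurable.aestronglyMeasurable (by simp only [hF, hs]; fun_prop))
      (Filter.Eventually.of_forall fun z => ?_)
    simp [abs_mul]
  have e0 : ∫ z, F z ∂P = ∫ x, K x := by
    rw [hP, hF, integral_prod_mul (fun y : E × Ω => K y.1 * v y.2) v, integral_prod_mul, h.one]
    simp
  have hpos : 0 ≤ ∫ z, F z * |s z| ∂P := by
    refine abs_positivity (by simp only [hF]; fun_prop) (by simp only [hs]; fun_prop) hFi hFs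
      fun ξ => ?_
    rw [e0]
    refine le_of_eq_of_le ?_ (hc ξ)
    have c1 : ∫ x : E, (K x : ℂ) * Complex.exp (((-ξ * ⟪u, x⟫ : ℝ) : ℂ) * Complex.I)
        = (cosT K ((ξ / (2 * π)) • u) : ℂ) := by
      rw [← fourier_even hKi hKe, fourier_eq']
      congr 1 with x
      rw [smul_eq_mul, mul_comm]
      congr 4
      rw [inner_smul_right, real_inner_comm]
      field_simp
    have c2 : ∫ z, (F z : ℂ) * Complex.exp (((ξ * s z : ℝ) : ℂ) * Complex.I) ∂P
        = (cosT K ((ξ / (2 * π)) • u) : ℂ) * chf μ v r (-ξ) * chf μ v r ξ := by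
      rw [← c1, chf, chf, ← integral_prod_mul, ← integral_prod_mul]
      congr 1 with z
      simp only [hF, hs]
      have : ((ξ * (r z.2 - r z.1.2 - ⟪u, z.1.1⟫) : ℝ) : ℂ) * Complex.I
          = ((-ξ * ⟪u, z.1.1⟫ : ℝ) : ℂ) * Complex.I + ((-ξ * r z.1.2 : ℝ) : ℂ) * Complex.I
            + ((ξ * r z.2 : ℝ) : ℂ) * Complex.I := by push_cast; ring
      rw [this, Complex.exp_add, Complex.exp_add]
      push_cast; ring
    have c3 : Integrable (fun z => (F z : ℂ) * Complex.exp (((ξ * s z : ℝ) : ℂ) * Complex.I)) P := by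
      refine hFi.ofReal.mul_bdd (c := 1)
        (Measurable.aestronglyMeasurable (by simp only [hs]; fun_prop))
        (Filter.Eventually.of_forall fun a => ?_)
      rw [Complex.norm_exp_ofReal_mul_I]
    have c4 := integral_re c3
    rw [c2, Prof.chf_neg, mul_assoc, Complex.conj_mul'] at c4
    have c5 : ∀ z, RCLike.re ((F z : ℂ) * Complex.exp (((ξ * s z : ℝ) : ℂ) * Complex.I))
        = F z * cos (ξ * s z) := by
      intro z
      simp only [RCLike.re_to_complex, Complex.re_ofReal_mul, Complex.exp_ofReal_mul_I_re]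
    simp only [c5] at c4
    rw [c4, ← Complex.ofReal_pow, ← Complex.ofReal_mul]
    simp [mul_comm, -Complex.ofReal_mul, -Complex.ofReal_pow]
  have e4 : ∀ z : (E × Ω) × Ω, K z.1.1 * v z.1.2 * v z.2 * min (r z.2) (r z.1.2 + ⟪u, z.1.1⟫)
      = (K z.1.1 * v z.1.2 * (v z.2 * r z.2) + K z.1.1 * (v z.1.2 * r z.1.2) * v z.2
        + K z.1.1 * ⟪u, z.1.1⟫ * v z.1.2 * v z.2 - F z * |s z|) / 2 := by
    intro z
    simp only [hF, hs]
    rcases le_total (r z.2) (r z.1.2 + ⟪u, z.1.1⟫) with h | h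
    · rw [min_eq_left h, abs_of_nonpos (by linarith)]; ring
    · rw [min_eq_right h, abs_of_nonneg (by linarith)]; ring
  simp only [e4]
  have i12 : Integrable (fun z : (E × Ω) × Ω => K z.1.1 * v z.1.2 * (v z.2 * r z.2)
      + K z.1.1 * (v z.1.2 * r z.1.2) * v z.2) P := i1.add i2
  have i123 : Integrable (fun z : (E × Ω) × Ω => K z.1.1 * v z.1.2 * (v z.2 * r z.2)
      + K z.1.1 * (v z.1.2 * r z.1.2) * v z.2 + K z.1.1 * ⟪u, z.1.1⟫ * v z.1.2 * v z.2) P :=
    i12.add i3
  rw [integral_div, integral_sub i123 hFa, integral_add i12 i3,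
    integral_add i1 i2, e1, e2, e3]
  linarith

section gauss

variable (F : Type*) [NormedAddCommGroup F] [InnerProductSpace ℝ F] [FiniteDimensional ℝ F]
  [MeasurableSpace F] [BorelSpace F]

theorem integrable_gauss {b : ℝ} (hb : 0 < b) : Integrable (fun x : F => exp (-b * ‖x‖ ^ 2)) := by
  have := GaussianFourier.integrable_cexp_neg_mul_sq_norm_add (V := F) (b := (b : ℂ))
    (by simpa using hb) 0 0
  refine this.norm.congr (Filter.Eventually.of_forall fun x => ?_)
  simp only [zero_mul, add_zero]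
  rw [Complex.norm_exp]
  congr 1
  simp [← Complex.ofReal_pow]

/-- The normalised Gaussian weight. -/
noncomputable def gw (x : F) : ℝ := π ^ (-((Module.finrank ℝ F : ℝ) / 2)) * exp (-‖x‖ ^ 2)

theorem integral_gw : ∫ x, gw F x = 1 := by
  have := GaussianFourier.integral_rexp_neg_mul_sq_norm (V := F) (b := 1) one_pos
  simp only [neg_mul, one_mul, div_one] at this
  simp only [gw]
  rw [integral_const_mul, this, ← rpow_add pi_pos]
  simp

theorem prof_gw (σ δ : ℝ) (hσ : |σ| ≤ 1) :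
    Prof volume (gw F) (fun x => σ * ‖x‖ ^ 2 + δ) := by
  refine ⟨by unfold gw; fun_prop, by fun_prop, fun k => ?_, integral_gw F⟩
  set c := π ^ (-((Module.finrank ℝ F : ℝ) / 2)) with hc
  have hc0 : 0 < c := rpow_pos_of_pos pi_pos _
  refine ((integrable_gauss F (b := 1 / 2) (by norm_num)).const_mul
    (c * (2 ^ k * (k.factorial : ℝ) * exp ((1 + |δ|) / 2)))).mono'
    (Measurable.aestronglyMeasurable (by unfold gw; fun_prop))
    (Filter.Eventually.of_forall fun x => ?_)
  have h1 : 1 + |σ * ‖x‖ ^ 2 + δ| ≤ 2 * ((1 + |δ| + ‖x‖ ^ 2) / 2) := by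
    have := abs_add_le (σ * ‖x‖ ^ 2) δ
    rw [abs_mul, abs_of_nonneg (sq_nonneg ‖x‖)] at this
    nlinarith [sq_nonneg ‖x‖]
  have h2 := pow_div_factorial_le_exp ((1 + |δ| + ‖x‖ ^ 2) / 2) (by positivity) k
  rw [div_le_iff₀ (by positivity)] at h2
  have h3 : (1 + |σ * ‖x‖ ^ 2 + δ|) ^ k
      ≤ 2 ^ k * (exp ((1 + |δ| + ‖x‖ ^ 2) / 2) * (k.factorial : ℝ)) := by
    refine (pow_le_pow_left₀ (by positivity) h1 k).trans ?_
    rw [mul_pow]
    exact mul_le_mul_of_nonneg_left h2 (by positivity)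
  rw [Real.norm_eq_abs, abs_of_nonneg (by unfold gw; positivity), gw, ← hc]
  have h4 : exp (-‖x‖ ^ 2) * exp ((1 + |δ| + ‖x‖ ^ 2) / 2)
      = exp ((1 + |δ|) / 2) * exp (-(1 / 2) * ‖x‖ ^ 2) := by
    rw [← exp_add, ← exp_add]; congr 1; ring
  calc c * exp (-‖x‖ ^ 2) * (1 + |σ * ‖x‖ ^ 2 + δ|) ^ k
      ≤ c * exp (-‖x‖ ^ 2) * (2 ^ k * (exp ((1 + |δ| + ‖x‖ ^ 2) / 2) * (k.factorial : ℝ))) :=
        mul_le_mul_of_nonneg_left h3 (by positivity)
    _ = c * (2 ^ k * (k.factorial : ℝ))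
        * (exp (-‖x‖ ^ 2) * exp ((1 + |δ| + ‖x‖ ^ 2) / 2)) := by ring
    _ = _ := by rw [h4]; ring

theorem integral_gw_sq [Nontrivial F] :
    ∫ x, gw F x * ‖x‖ ^ 2 = (Module.finrank ℝ F : ℝ) / 2 := by
  set D := Module.finrank ℝ F with hD
  have hD0 : 0 < D := Module.finrank_pos
  obtain ⟨d, hd⟩ : ∃ d, D = d + 1 := ⟨D - 1, by omega⟩
  have h1 := integral_fun_norm_addHaar (volume : Measure F) (fun y => exp (-y ^ 2))
  have h2 := integral_fun_norm_addHaar (volume : Measure F) (fun y => exp (-y ^ 2) * y ^ 2)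
  have hd0 : (0:ℝ) ≤ d := Nat.cast_nonneg d
  have h3 := integral_rpow_mul_exp_neg_rpow (p := 2) (q := d) two_pos (by linarith)
  have h4 := integral_rpow_mul_exp_neg_rpow (p := 2) (q := d + 2) two_pos (by linarith)
  have e3 : ∫ y in Ioi (0:ℝ), y ^ (D - 1) • exp (-y ^ 2) = 1 / 2 * Gamma ((d + 1) / 2) := by
    rw [← h3]
    refine setIntegral_congr_fun measurableSet_Ioi fun y _ => ?_
    simp [hd]
  have e4 : ∫ y in Ioi (0:ℝ), y ^ (D - 1) • (exp (-y ^ 2) * y ^ 2)
      = 1 / 2 * Gamma ((d + 2 + 1) / 2) := by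
    rw [← h4]
    refine setIntegral_congr_fun measurableSet_Ioi fun y hy => ?_
    have hy' : 0 < y := hy
    simp only [hd, add_tsub_cancel_right, smul_eq_mul, rpow_two]
    rw [rpow_add hy', rpow_natCast, rpow_two]; ring
  have e5 : Gamma (((d:ℝ) + 2 + 1) / 2) = (d + 1) / 2 * Gamma ((d + 1) / 2) := by
    rw [← Gamma_add_one (by positivity)]; congr 1; ring
  rw [← hD] at h1 h2
  rw [e3] at h1
  rw [e4, e5] at h2
  have h5 := integral_gw F
  simp only [gw, mul_assoc] at h5 ⊢
  rw [integral_const_mul] at h5 ⊢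
  rw [h1] at h5
  rw [h2]
  simp only [nsmul_eq_mul, smul_eq_mul] at h5 ⊢
  have : (D : ℝ) = d + 1 := by rw [hd]; push_cast; ring
  rw [← hD, this] at h5 ⊢
  linear_combination ((d + 1) / 2) * h5

theorem mean_gw [Nontrivial F] (σ δ : ℝ) :
    ∫ x, gw F x * (σ * ‖x‖ ^ 2 + δ) = σ * ((Module.finrank ℝ F : ℝ) / 2) + δ := by
  have h1 := (prof_gw F 1 0 (by simp)).int_r
  have h2 := (prof_gw F 1 0 (by simp)).int
  simp only [one_mul, add_zero] at h1
  have : ∀ x, gw F x * (σ * ‖x‖ ^ 2 + δ) = σ * (gw F x * ‖x‖ ^ 2) + δ * gw F x := fun x => by ring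
  simp only [this]
  rw [integral_add (h1.const_mul σ) (h2.const_mul δ), integral_const_mul, integral_const_mul,
    integral_gw_sq, integral_gw, mul_one]

theorem chf_gw (σ δ : ℝ) (hσ : σ ^ 2 = 1) (ξ : ℝ) :
    ‖chf volume (gw F) (fun x => σ * ‖x‖ ^ 2 + δ) ξ‖ ^ 2
      = (1 + ξ ^ 2) ^ (-((Module.finrank ℝ F : ℝ) / 2)) := by
  set m : ℝ := (Module.finrank ℝ F : ℝ) / 2 with hm
  set b : ℂ := 1 - (ξ * σ : ℝ) * Complex.I with hb
  have hbre : 0 < b.re := by simp [hb]
  have h1 := GaussianFourier.integral_cexp_neg_mul_sq_norm (V := F) hbre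
  have h2 : chf volume (gw F) (fun x => σ * ‖x‖ ^ 2 + δ) ξ
      = ((π ^ (-m) : ℝ) : ℂ) * Complex.exp (((ξ * δ : ℝ) : ℂ) * Complex.I)
        * ((π : ℂ) / b) ^ (m : ℂ) := by
    have : ((m : ℝ) : ℂ) = (Module.finrank ℝ F : ℂ) / 2 := by rw [hm]; push_cast; rfl
    rw [this, ← h1, chf, ← integral_const_mul]
    congr 1 with x
    simp only [gw, ← hm]
    rw [Complex.ofReal_mul, Complex.ofReal_exp, mul_assoc, mul_assoc, ← Complex.exp_add,
      ← Complex.exp_add]
    congr 2
    rw [hb]; push_cast; ring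
  have hb2 : ‖b‖ ^ 2 = 1 + ξ ^ 2 := by
    rw [Complex.sq_norm, Complex.normSq_apply]
    simp only [hb, Complex.sub_re, Complex.one_re, Complex.mul_re, Complex.ofReal_re,
      Complex.I_re, Complex.ofReal_im, Complex.I_im, Complex.sub_im, Complex.one_im,
      Complex.mul_im]
    nlinarith
  have hb0 : 0 < ‖b‖ := by
    by_contra h
    have : ‖b‖ = 0 := le_antisymm (not_lt.1 h) (norm_nonneg _)
    rw [this] at hb2
    nlinarith [sq_nonneg ξ]
  rw [h2, norm_mul, norm_mul, Complex.norm_exp_ofReal_mul_I, Complex.norm_cpow_real, norm_div,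
    Complex.norm_real, Complex.norm_real, Real.norm_eq_abs, Real.norm_eq_abs,
    abs_of_pos (rpow_pos_of_pos pi_pos _), abs_of_pos pi_pos, mul_one,
    div_rpow pi_pos.le hb0.le, ← hb2, rpow_neg pi_pos.le]
  have : π ^ m ≠ 0 := (rpow_pos_of_pos pi_pos _).ne'
  rw [← mul_div_assoc, inv_mul_cancel₀ this, one_div, ← rpow_neg hb0.le, ← rpow_natCast,
    ← rpow_natCast, ← rpow_mul hb0.le, ← rpow_mul hb0.le]
  congr 1; ring

end gauss

theorem integral_prod_bool {Ω G : Type*} [MeasurableSpace Ω] {μ : Measure Ω} [SFinite μ]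
    [NormedAddCommGroup G] [NormedSpace ℝ G] [CompleteSpace G] {g : Ω × Bool → G}
    (hm : AEStronglyMeasurable g (μ.prod Measure.count))
    (h1 : Integrable (fun a => g (a, true)) μ) (h2 : Integrable (fun a => g (a, false)) μ) :
    Integrable g (μ.prod Measure.count) ∧
      ∫ z, g z ∂(μ.prod Measure.count) = ∫ a, g (a, true) ∂μ + ∫ a, g (a, false) ∂μ := by
  have hi : Integrable g (μ.prod Measure.count) := by
    rw [integrable_prod_iff' hm]
    refine ⟨Filter.Eventually.of_forall fun y => ?_, Integrable.of_finite⟩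
    cases y
    · exact h2
    · exact h1
  refine ⟨hi, ?_⟩
  rw [integral_prod_symm _ hi, integral_count]
  simp

theorem prof_step {Ω : Type} [MeasurableSpace Ω] {μ : Measure Ω} [SFinite μ] {v r : Ω → ℝ}
    (h : Prof μ v r) {b : ℝ} (hb : 0 ≤ b) :
    ∃ (v' r' : Ω × Bool → ℝ), Prof (μ.prod Measure.count) v' r' ∧ (∀ z, r' z ≤ r z.1) ∧
      ∫ z, v' z * r' z ∂(μ.prod Measure.count) = ∫ a, v a * r a ∂μ + b / (1 + b) ∧
      ∀ ξ, ‖chf (μ.prod Measure.count) v' r' ξ‖ ^ 2 ≤ (1 + ξ ^ 2) * ‖chf μ v r ξ‖ ^ 2 := by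
  set ε : ℝ := 1 / (1 + b) with hε
  have hε0 : 0 < ε := by positivity
  set c : Bool → ℝ := fun t => if t then 1 + b else -b with hc
  set e : Bool → ℝ := fun t => if t then 0 else ε with he
  have hvm := h.v_meas
  have hrm := h.r_meas
  have hcm : Measurable c := measurable_from_top
  have hem : Measurable e := measurable_from_top
  have hv'm : Measurable fun z : Ω × Bool => v z.1 * c z.2 := by fun_prop
  have hr'm : Measurable fun z : Ω × Bool => r z.1 - e z.2 := by fun_prop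
  have hmom : ∀ (k : ℕ) (t : ℝ), Integrable (fun a => v a * (1 + |r a - t|) ^ k) μ := by
    intro k t
    refine ((h.mom k).abs.mul_const ((1 + |t|) ^ k)).mono'
      (Measurable.aestronglyMeasurable (by fun_prop)) (Filter.Eventually.of_forall fun a => ?_)
    simp only [Real.norm_eq_abs, abs_mul, abs_pow, mul_assoc, ← mul_pow]
    refine mul_le_mul_of_nonneg_left (pow_le_pow_left₀ (abs_nonneg _) ?_ k) (abs_nonneg _)
    have a1 := abs_sub (r a) t
    have a2 := abs_nonneg (r a)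
    have a3 := abs_nonneg t
    have a4 := abs_nonneg (r a - t)
    generalize |r a - t| = x at *
    generalize |r a| = y at *
    generalize |t| = w at *
    rw [abs_of_nonneg (by positivity), abs_of_nonneg (by positivity)]
    nlinarith [mul_nonneg a2 a3]
  refine ⟨fun z => v z.1 * c z.2, fun z => r z.1 - e z.2, ⟨hv'm, hr'm, fun k => ?_, ?_⟩, ?_, ?_, ?_⟩
  · refine (integral_prod_bool (Measurable.aestronglyMeasurable (by fun_prop)) ?_ ?_).1
    · exact ((hmom k (e true)).const_mul (c true)).congr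
        (Filter.Eventually.of_forall fun a => by simp only; ring)
    · exact ((hmom k (e false)).const_mul (c false)).congr
        (Filter.Eventually.of_forall fun a => by simp only; ring)
  · rw [(integral_prod_bool hv'm.aestronglyMeasurable (h.int.mul_const _) (h.int.mul_const _)).2]
    simp only
    rw [integral_mul_const, integral_mul_const, h.one]
    simp [hc]
  · rintro ⟨a, t⟩
    cases t <;> simp [he, hε0.le]
  · have i1 : ∀ t, Integrable (fun a => v a * c t * (r a - e t)) μ := fun t =>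
      ((h.int_r.const_mul (c t)).sub (h.int.const_mul (c t * e t))).congr
        (Filter.Eventually.of_forall fun a => by simp only [Pi.sub_apply]; ring)
    have i2 : ∀ t, ∫ a, v a * c t * (r a - e t) ∂μ = c t * ∫ a, v a * r a ∂μ - c t * e t := by
      intro t
      have : ∀ a, v a * c t * (r a - e t) = c t * (v a * r a) - (c t * e t) * v a :=
        fun a => by ring
      simp only [this]
      rw [integral_sub (h.int_r.const_mul (c t)) (h.int.const_mul (c t * e t)),
        integral_const_mul, integral_const_mul, h.one, mul_one]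
    have hm2 : Measurable fun z : Ω × Bool => v z.1 * c z.2 * (r z.1 - e z.2) := hv'm.mul hr'm
    simp only
    rw [(integral_prod_bool hm2.aestronglyMeasurable (i1 true) (i1 false)).2]
    simp only
    rw [i2, i2]
    simp only [hc, he, hε]
    simp
    ring
  · intro ξ
    have e1 : ∀ t a, ((v a * c t : ℝ) : ℂ) * Complex.exp (((ξ * (r a - e t) : ℝ) : ℂ) * Complex.I)
        = ((c t : ℂ) * Complex.exp (((-(ξ * e t) : ℝ) : ℂ) * Complex.I))
          * ((v a : ℂ) * Complex.exp (((ξ * r a : ℝ) : ℂ) * Complex.I)) := by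
      intro t a
      have : ((ξ * (r a - e t) : ℝ) : ℂ) * Complex.I
          = ((-(ξ * e t) : ℝ) : ℂ) * Complex.I + ((ξ * r a : ℝ) : ℂ) * Complex.I := by
        push_cast; ring
      rw [this, Complex.exp_add]; push_cast; ring
    have i1 : ∀ t, Integrable (fun a => ((v a * c t : ℝ) : ℂ)
        * Complex.exp (((ξ * (r a - e t) : ℝ) : ℂ) * Complex.I)) μ := by
      intro t
      simp only [e1]
      exact (h.int_exp ξ).const_mul _
    have e2 : chf (μ.prod Measure.count) (fun z => v z.1 * c z.2) (fun z => r z.1 - e z.2) ξ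
        = (((1 + b : ℝ) : ℂ) - (b : ℂ) * Complex.exp (((-(ξ * ε) : ℝ) : ℂ) * Complex.I))
          * chf μ v r ξ := by
      rw [chf, (integral_prod_bool (Measurable.aestronglyMeasurable (by fun_prop))
        (i1 true) (i1 false)).2]
      simp only [e1]
      rw [integral_const_mul, integral_const_mul, chf]
      simp only [hc, he]
      simp
      ring
    rw [e2, norm_mul, mul_pow]
    refine mul_le_mul_of_nonneg_right ?_ (sq_nonneg _)
    rw [Complex.sq_norm, Complex.normSq_apply]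
    simp only [Complex.sub_re, Complex.sub_im, Complex.ofReal_re, Complex.ofReal_im,
      Complex.re_ofReal_mul, Complex.im_ofReal_mul, Complex.exp_ofReal_mul_I_re,
      Complex.exp_ofReal_mul_I_im, cos_neg, sin_neg]
    have a1 := sin_sq_add_cos_sq (ξ * ε)
    have a2 := one_sub_sq_div_two_le_cos (x := ξ * ε)
    have a3 : (1 + b) * ε = 1 := by rw [hε]; field_simp
    have a4 : b * (1 + b) * (ξ * ε) ^ 2 ≤ ξ ^ 2 := by
      have : b * (1 + b) * (ξ * ε) ^ 2 = (b * ε) * ((1 + b) * ε) * ξ ^ 2 := by ring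
      rw [this, a3, mul_one]
      have : b * ε ≤ 1 := by nlinarith
      nlinarith [sq_nonneg ξ]
    have a5 : 0 ≤ b * (1 + b) := by positivity
    nlinarith [mul_le_mul_of_nonneg_left a2 a5]

theorem exists_lower_prof (d : ℕ) {b : ℝ} (hb : 0 ≤ b) (k : ℕ) :
    ∃ (Ω : Type) (_ : MeasurableSpace Ω) (μ : Measure Ω) (_ : SFinite μ) (v r : Ω → ℝ),
      Prof μ v r ∧ (∀ a, r a ≤ 0) ∧ ∫ a, v a * r a ∂μ = -((d + 1) / 2) + k * (b / (1 + b)) ∧
      ∀ ξ, ‖chf μ v r ξ‖ ^ 2 ≤ (1 + ξ ^ 2) ^ ((k : ℝ) - (d + 1) / 2) := by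
  induction k with
  | zero =>
    have hs : SFinite (volume : Measure (EuclideanSpace ℝ (Fin (d + 1)))) := inferInstance
    refine ⟨EuclideanSpace ℝ (Fin (d + 1)), _, volume, hs, gw _,
      fun x => -1 * ‖x‖ ^ 2 + 0, prof_gw _ _ _ (by simp), fun a => by simp, ?_, fun ξ => ?_⟩
    · rw [mean_gw]; simp
    · rw [chf_gw _ _ _ (by simp)]; simp
  | succ k ih =>
    obtain ⟨Ω, _, μ, _, v, r, h, h0, hm, hc⟩ := ih
    obtain ⟨v', r', h', h0', hm', hc'⟩ := prof_step h hb
    refine ⟨Ω × Bool, inferInstance, μ.prod Measure.count, inferInstance, v', r', h',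
      fun z => (h0' z).trans (h0 _), ?_, fun ξ => ?_⟩
    · rw [hm', hm]; push_cast; ring
    · refine (hc' ξ).trans ((mul_le_mul_of_nonneg_left (hc ξ) (by positivity)).trans_eq ?_)
      rw [mul_comm, ← rpow_add_one (by positivity)]
      congr 1; push_cast; ring

end Pool.Agent.Lib.MP_7c9f8e_gt
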