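import Pool.Agent.Lib.MP_7c9f8e_gt.Layer
import Pool.Agent.Lib.MP_7c9f8e_gt.OneDim
import Pool.Agent.Lib.MP_7c9f8e_gt.Finite

/-!
Averaging the layer asymptotics, and energies of layered weights.
-/

open MeasureTheory Set Real Metric Filter Topology
open scoped ENNReal NNReal RealInnerProductSpace Pointwise

namespace Pool.Agent.Lib.MP_7c9f8e_gt

variable {E : Type*} [NormedAddCommGroup E] [InnerProductSpace ℝ E] [FiniteDimensional ℝ E]
  [MeasurableSpace E] [BorelSpace E]

theorem measurable_lay {Ω : Type*} [MeasurableSpace Ω] (A : Set E) (ε : ℝ) {r r' : Ω → ℝ}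
    {h : Ω → E} (hr : Measurable r) (hr' : Measurable r') (hh : Measurable h) :
    Measurable fun a => volume.real (lay A ε (r a) (r' a) (h a)) := by
  have hs := (continuous_sd A).measurable
  have h0 : MeasurableSet {z : Ω × E | sd A z.2 ≤ ε * r z.1} :=
    measurableSet_le (by fun_prop) (by fun_prop)
  have h0' : MeasurableSet {z : Ω × E | sd A (z.2 - ε • h z.1) ≤ ε * r' z.1} :=
    measurableSet_le (by fun_prop) (by fun_prop)
  have h1 : MeasurableSet {z : Ω × E | sd A z.2 ≤ ε * r z.1 ∧ sd A (z.2 - ε • h z.1) ≤ ε * r' z.1} :=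
    h0.inter h0'
  exact (measurable_measure_prodMk_left (ν := volume) h1).ennreal_toReal

namespace LayerData

variable {A : Set E} {ν : Measure E} {G : E → E} {C M : ℝ}
  {Ω : Type*} [MeasurableSpace Ω] {μ : Measure Ω} {F r r' : Ω → ℝ} {h : Ω → E}

theorem avg_aux (H : LayerData A ν G C M) (hF : Measurable F) (hr : Measurable r)
    (hr' : Measurable r') (hh : Measurable h)
    (hm : ∀ k : ℕ, Integrable (fun a => F a * (1 + (|r a| + |r' a| + ‖h a‖)) ^ k) μ)
    {ε : ℝ} (hε : 0 < ε) (hε1 : ε ≤ 1) :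
    Integrable (fun a => F a * ((volume.real (lay A ε (r a) (r' a) (h a)) - volume.real A) / ε)) μ
      ∧ ∀ a, ‖F a * ((volume.real (lay A ε (r a) (r' a) (h a)) - volume.real A) / ε)‖
        ≤ |C| * |F a * (1 + (|r a| + |r' a| + ‖h a‖)) ^ Module.finrank ℝ E| := by
  have hb : ∀ a, ‖F a * ((volume.real (lay A ε (r a) (r' a) (h a)) - volume.real A) / ε)‖
        ≤ |C| * |F a * (1 + (|r a| + |r' a| + ‖h a‖)) ^ Module.finrank ℝ E| := by
    intro a
    have h1 := H.bound ε hε hε1 (r a) (r' a) (h a)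
    rw [Real.norm_eq_abs, abs_mul, abs_mul, mul_left_comm, ← abs_mul C]
    exact mul_le_mul_of_nonneg_left (h1.trans (le_abs_self _)) (abs_nonneg _)
  have := measurable_lay A ε hr hr' hh
  exact ⟨((hm _).abs.const_mul |C|).mono' (Measurable.aestronglyMeasurable (by fun_prop))
    (Eventually.of_forall hb), hb⟩

theorem avg_integrable (H : LayerData A ν G C M) (hF : Measurable F) (hr : Measurable r)
    (hr' : Measurable r') (hh : Measurable h)
    (hm : ∀ k : ℕ, Integrable (fun a => F a * (1 + (|r a| + |r' a| + ‖h a‖)) ^ k) μ)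
    {ε : ℝ} (hε : 0 < ε) (hε1 : ε ≤ 1) :
    Integrable (fun a => F a * volume.real (lay A ε (r a) (r' a) (h a))) μ := by
  have hFi : Integrable F μ := by simpa using hm 0
  refine (((H.avg_aux hF hr hr' hh hm hε hε1).1.mul_const ε).add
    (hFi.mul_const (volume.real A))).congr (Eventually.of_forall fun a => ?_)
  simp only [Pi.add_apply]
  field_simp
  ring

theorem avg_tendsto (H : LayerData A ν G C M) (hF : Measurable F) (hr : Measurable r)
    (hr' : Measurable r') (hh : Measurable h)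
    (hm : ∀ k : ℕ, Integrable (fun a => F a * (1 + (|r a| + |r' a| + ‖h a‖)) ^ k) μ) :
    Tendsto (fun ε => (∫ a, F a * volume.real (lay A ε (r a) (r' a) (h a)) ∂μ
        - (∫ a, F a ∂μ) * volume.real A) / ε) (𝓝[>] 0)
      (𝓝 (∫ a, F a * ∫ y, min (r a * ‖G y‖) (r' a * ‖G y‖ + ⟪G y, h a⟫) ∂ν ∂μ)) := by
  have hFi : Integrable F μ := by simpa using hm 0
  have h1 : Tendsto (fun ε => ∫ a, F a
      * ((volume.real (lay A ε (r a) (r' a) (h a)) - volume.real A) / ε) ∂μ) (𝓝[>] 0)
      (𝓝 (∫ a, F a * ∫ y, min (r a * ‖G y‖) (r' a * ‖G y‖ + ⟪G y, h a⟫) ∂ν ∂μ)) := by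
    refine tendsto_integral_filter_of_dominated_convergence
      (fun a => |C| * |F a * (1 + (|r a| + |r' a| + ‖h a‖)) ^ Module.finrank ℝ E|) ?_ ?_
      ((hm _).abs.const_mul _)
      (Eventually.of_forall fun a => (H.lim (r a) (r' a) (h a)).const_mul (F a))
    · filter_upwards [Ioc_mem_nhdsGT one_pos] with ε hε
      exact (H.avg_aux hF hr hr' hh hm hε.1 hε.2).1.aestronglyMeasurable
    · filter_upwards [Ioc_mem_nhdsGT one_pos] with ε hε
      exact Eventually.of_forall (H.avg_aux hF hr hr' hh hm hε.1 hε.2).2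
  refine h1.congr' ?_
  filter_upwards [Ioc_mem_nhdsGT one_pos] with ε hε
  rw [← integral_mul_const, ← integral_sub (H.avg_integrable hF hr hr' hh hm hε.1 hε.2)
    (hFi.mul_const _), ← integral_div]
  congr 1 with a
  ring

theorem avg_le [SFinite μ] (H : LayerData A ν G C M) (hF : Measurable F) (hr : Measurable r)
    (hr' : Measurable r') (hh : Measurable h)
    (hm : ∀ k : ℕ, Integrable (fun a => F a * (1 + (|r a| + |r' a| + ‖h a‖)) ^ k) μ) {T : ℝ}
    (hT : ∀ u : E, ‖u‖ = 1 → ∫ a, F a * min (r a) (r' a + ⟪u, h a⟫) ∂μ ≤ T) :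
    ∫ a, F a * ∫ y, min (r a * ‖G y‖) (r' a * ‖G y‖ + ⟪G y, h a⟫) ∂ν ∂μ
      ≤ (∫ y, ‖G y‖ ∂ν) * T := by
  have := H.fin
  have hG := H.meas
  have hGi : Integrable (fun y => ‖G y‖) ν :=
    (integrable_const M).mono' (Measurable.aestronglyMeasurable (by fun_prop))
      (Eventually.of_forall fun y => by simpa using H.bdd y)
  set Φ : Ω → E → ℝ := fun a y => F a * min (r a * ‖G y‖) (r' a * ‖G y‖ + ⟪G y, h a⟫) with hΦ
  have hΦi : Integrable (Function.uncurry Φ) (μ.prod ν) := by
    refine ((hm 1).abs.mul_prod hGi).mono'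
      (Measurable.aestronglyMeasurable (by simp only [hΦ]; fun_prop))
      (Eventually.of_forall fun z => ?_)
    simp only [Function.uncurry, hΦ, Real.norm_eq_abs, abs_mul, pow_one, mul_assoc]
    refine mul_le_mul_of_nonneg_left ?_ (abs_nonneg _)
    have a1 := abs_real_inner_le_norm (G z.2) (h z.1)
    have a2 := norm_nonneg (G z.2)
    have a3 := norm_nonneg (h z.1)
    have a4 := abs_nonneg (r z.1)
    have a5 := abs_nonneg (r' z.1)
    have b1 := mul_le_mul_of_nonneg_right (le_abs_self (r z.1)) a2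
    have b2 := mul_le_mul_of_nonneg_right (neg_abs_le (r z.1)) a2
    have b3 := mul_le_mul_of_nonneg_right (neg_abs_le (r' z.1)) a2
    have b4 := neg_abs_le ⟪G z.2, h z.1⟫
    rw [abs_of_nonneg (a := 1 + _) (by positivity), abs_le]
    constructor
    · refine le_min ?_ ?_ <;> nlinarith [mul_nonneg a4 a2, mul_nonneg a5 a2, mul_nonneg a3 a2]
    · refine (min_le_left _ _).trans ?_
      nlinarith [mul_nonneg a4 a2, mul_nonneg a5 a2, mul_nonneg a3 a2]
  have h1 := integral_integral_swap hΦi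
  have h2 : ∫ a, F a * ∫ y, min (r a * ‖G y‖) (r' a * ‖G y‖ + ⟪G y, h a⟫) ∂ν ∂μ
      = ∫ a, ∫ y, Φ a y ∂ν ∂μ := by
    simp only [hΦ, integral_const_mul]
  rw [h2, h1, ← integral_mul_const]
  refine integral_mono hΦi.integral_prod_right (hGi.mul_const T) fun y => ?_
  by_cases hy : G y = 0
  · simp [hΦ, hy]
  have hn : 0 < ‖G y‖ := norm_pos_iff.2 hy
  have h3 := hT (‖G y‖⁻¹ • G y) (by rw [norm_smul, norm_inv, norm_norm]; field_simp)
  refine le_of_eq_of_le ?_ (mul_le_mul_of_nonneg_left h3 hn.le)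
  rw [← integral_const_mul]
  simp only [hΦ]
  congr 1 with a
  rw [mul_left_comm, mul_min_of_nonneg _ _ hn.le, real_inner_smul_left]
  congr 2
  · ring
  · field_simp

end LayerData

/-- The layered weight. -/
noncomputable def lw (A : Set E) (ε : ℝ) {Ω : Type*} (v r : Ω → ℝ) (z : E × Ω) : ℝ :=
  if sd A (ε • z.1) ≤ ε * r z.2 then v z.2 else 0

section energy

variable {A : Set E} {ν : Measure E} {G : E → E} {C M : ℝ}
  {Ω : Type*} [MeasurableSpace Ω] {μ : Measure Ω} [SFinite μ] {v r : Ω → ℝ}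

omit [SFinite μ] in
theorem measurable_lw (h : Prof μ v r) (ε : ℝ) : Measurable (lw A ε v r) := by
  have hs := (continuous_sd A).measurable
  have := h.r_meas
  have := h.v_meas
  exact Measurable.ite (measurableSet_le (by fun_prop) (by fun_prop)) (by fun_prop)
    measurable_const

theorem slice_eq (H : LayerData A ν G C M) {ε : ℝ} (hε : 0 < ε) (r r' c : ℝ) (h : E) :
    Integrable (fun x : E => if sd A (ε • x) ≤ ε * r ∧ sd A (ε • (x - h)) ≤ ε * r' then c else 0) ∧
    ∫ x : E, (if sd A (ε • x) ≤ ε * r ∧ sd A (ε • (x - h)) ≤ ε * r' then c else 0)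
      = (ε ^ Module.finrank ℝ E)⁻¹ * (c * volume.real (lay A ε r r' h)) := by
  set S := (fun x : E => ε • x) ⁻¹' lay A ε r r' h with hS
  have hSm : MeasurableSet S := (isClosed_lay A ε r r' h).measurableSet.preimage (by fun_prop)
  have h1 : (fun x : E => if sd A (ε • x) ≤ ε * r ∧ sd A (ε • (x - h)) ≤ ε * r' then c else 0)
      = S.indicator fun _ => c := by
    ext x
    simp only [indicator, hS, lay, mem_preimage, mem_ofPred_eq, smul_sub]
  have h2 : volume S = ENNReal.ofReal |(ε ^ Module.finrank ℝ E)⁻¹| * volume (lay A ε r r' h) :=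
    Measure.addHaar_preimage_smul volume hε.ne' _
  have h3 : volume S < ⊤ := by
    rw [h2]; exact ENNReal.mul_lt_top ENNReal.ofReal_lt_top (H.lt_top ε hε r r' h)
  rw [h1]
  refine ⟨(integrable_indicator_iff hSm).2 (integrableOn_const h3.ne), ?_⟩
  rw [integral_indicator hSm, setIntegral_const, Measure.real, h2, ENNReal.toReal_mul,
    ENNReal.toReal_ofReal (abs_nonneg _), abs_of_pos (by positivity), smul_eq_mul, Measure.real]
  ring

omit [SFinite μ] [InnerProductSpace ℝ E] [FiniteDimensional ℝ E] [MeasurableSpace E]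
  [BorelSpace E] in
theorem Prof.mom2 (h : Prof μ v r) (k : ℕ) :
    Integrable (fun a => v a * (1 + (|r a| + |r a| + ‖(0 : E)‖)) ^ k) μ := by
  have := h.r_meas
  have := h.v_meas
  refine ((h.mom k).abs.mul_const (2 ^ k)).mono' (Measurable.aestronglyMeasurable (by fun_prop))
    (Eventually.of_forall fun a => ?_)
  simp only [Real.norm_eq_abs, abs_mul, abs_pow, mul_assoc, ← mul_pow, norm_zero]
  refine mul_le_mul_of_nonneg_left (pow_le_pow_left₀ (abs_nonneg _) ?_ k) (abs_nonneg _)
  have a2 := abs_nonneg (r a)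
  generalize |r a| = y at *
  rw [abs_of_nonneg (by positivity), abs_of_nonneg (by positivity)]
  linarith

omit [SFinite μ] in
theorem Prof.abs_mom2 (h : Prof μ v r) (k : ℕ) :
    Integrable (fun a => |v a| * (1 + (|r a| + |r a| + ‖(0 : E)‖)) ^ k) μ := by
  refine (h.mom2 (E := E) k).abs.congr (Eventually.of_forall fun a => ?_)
  simp only [abs_mul]
  rw [abs_of_nonneg (a := _ ^ k) (by positivity)]

theorem lw_integral (H : LayerData A ν G C M) (h : Prof μ v r) {ε : ℝ} (hε : 0 < ε)
    (hε1 : ε ≤ 1) :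
    Integrable (lw A ε v r) (volume.prod μ) ∧ ∫ z, lw A ε v r z ∂(volume.prod μ)
      = (ε ^ Module.finrank ℝ E)⁻¹ * ∫ a, v a * volume.real (lay A ε (r a) (r a) 0) ∂μ := by
  have e1 : ∀ a, (fun x : E => lw A ε v r (x, a)) = fun x : E =>
      if sd A (ε • x) ≤ ε * r a ∧ sd A (ε • (x - 0)) ≤ ε * r a then v a else 0 := by
    intro a; ext x; simp [lw]
  have e2 : ∀ a, (fun x : E => ‖lw A ε v r (x, a)‖) = fun x : E =>
      if sd A (ε • x) ≤ ε * r a ∧ sd A (ε • (x - 0)) ≤ ε * r a then |v a| else 0 := by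
    intro a; ext x
    simp only [lw, sub_zero, and_self]
    split_ifs <;> simp
  have hi : Integrable (lw A ε v r) (volume.prod μ) := by
    rw [integrable_prod_iff' (measurable_lw h ε).aestronglyMeasurable]
    refine ⟨Eventually.of_forall fun a => ?_, ?_⟩
    · rw [e1]; exact (slice_eq H hε _ _ _ _).1
    · simp only [e2, (slice_eq H hε _ _ _ _).2]
      exact (H.avg_integrable (h := fun _ => 0) h.v_meas.abs h.r_meas h.r_meas measurable_const
        h.abs_mom2 hε hε1).const_mul _
  refine ⟨hi, ?_⟩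
  rw [integral_prod_symm _ hi, ← integral_const_mul]
  congr 1 with a
  rw [e1, (slice_eq H hε _ _ _ _).2]

theorem lw_energy (H : LayerData A ν G C M) (h : Prof μ v r) {K : E → ℝ} (hKm : Measurable K)
    (hK : ∀ k : ℕ, Integrable (fun x => K x * (1 + ‖x‖) ^ k)) {ε : ℝ} (hε : 0 < ε)
    (hε1 : ε ≤ 1) :
    En K (volume.prod μ) (lw A ε v r) Prod.fst (volume.prod μ) (lw A ε v r) Prod.fst
      = (ε ^ Module.finrank ℝ E)⁻¹ * ∫ z : (E × Ω) × Ω, K z.1.1 * v z.1.2 * v z.2
        * volume.real (lay A ε (r z.2) (r z.1.2) z.1.1) ∂((volume.prod μ).prod μ) := by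
  have hKi : Integrable K := by simpa using hK 0
  have hvm := h.v_meas
  have hrm := h.r_meas
  have hlm := measurable_lw (A := A) h ε
  obtain ⟨hli, -⟩ := lw_integral H h hε hε1
  set Φ : E × Ω → E × Ω → ℝ := fun a b => lw A ε v r a * lw A ε v r (a.1 - b.1, b.2) * K b.1
    with hΦ
  have hΦb : ∀ a b, ‖Φ a b‖ ≤ |lw A ε v r a| * (|K b.1| * |v b.2|) := by
    intro a b
    simp only [hΦ, Real.norm_eq_abs, abs_mul, mul_assoc]
    refine mul_le_mul_of_nonneg_left ?_ (abs_nonneg _)
    rw [mul_comm]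
    refine mul_le_mul_of_nonneg_left ?_ (abs_nonneg _)
    simp only [lw]
    split_ifs <;> simp
  have hΦm : Measurable (Function.uncurry Φ) := by
    simp only [hΦ]
    refine ((hlm.comp measurable_fst).mul (hlm.comp (f := fun z : (E × Ω) × (E × Ω) =>
      (z.1.1 - z.2.1, z.2.2)) (by fun_prop))).mul (by fun_prop)
  have hΦi : Integrable (Function.uncurry Φ) ((volume.prod μ).prod (volume.prod μ)) :=
    (hli.abs.mul_prod (hKi.abs.mul_prod h.int.abs)).mono' hΦm.aestronglyMeasurable
      (Eventually.of_forall fun z => hΦb z.1 z.2)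
  have h1 : ∀ a : E × Ω, ∫ b, lw A ε v r a * lw A ε v r b * K (a.1 - b.1) ∂(volume.prod μ)
      = ∫ b, Φ a b ∂(volume.prod μ) := by
    intro a
    have hp : MeasurePreserving (Prod.map (fun x : E => a.1 - x) (id : Ω → Ω))
        (volume.prod μ) (volume.prod μ) :=
      (Measure.measurePreserving_sub_left volume a.1).prod (MeasurePreserving.id μ)
    have hme : MeasurableEmbedding (Prod.map (fun x : E => a.1 - x) (id : Ω → Ω)) :=
      (MeasurableEquiv.subLeft a.1).measurableEmbedding.prodMap MeasurableEmbedding.id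
    rw [← hp.integral_comp hme]
    congr 1 with b
    simp [hΦ, Prod.map]
  have hti := H.avg_integrable (μ := (volume.prod μ).prod μ)
    (F := fun z : (E × Ω) × Ω => K z.1.1 * v z.1.2 * v z.2) (r := fun z => r z.2)
    (r' := fun z => r z.1.2) (h := fun z => z.1.1) (by fun_prop) (by fun_prop) (by fun_prop)
    (by fun_prop) (tri_integrable hKm hK h) hε hε1
  rw [En]
  simp only [h1]
  rw [integral_integral_swap hΦi, integral_prod _ hti, ← integral_const_mul]
  congr 1 with b
  have hb : Integrable (fun a => Φ a b) (volume.prod μ) :=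
    (hli.abs.mul_const (|K b.1| * |v b.2|)).mono'
      (hΦm.comp (f := fun a => (a, b)) (by fun_prop)).aestronglyMeasurable
      (Eventually.of_forall fun a => hΦb a b)
  rw [integral_prod_symm _ hb, ← integral_const_mul]
  congr 1 with a
  rw [← (slice_eq H hε _ _ _ _).2]
  congr 1 with x
  simp only [hΦ, lw]
  by_cases h1 : sd A (ε • x) ≤ ε * r a <;> by_cases h2 : sd A (ε • (x - b.1)) ≤ ε * r b.2 <;>
    simp [h1, h2]
  ring

end energy

end Pool.Agent.Lib.MP_7c9f8e_gt
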