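import Mathlib

/-!
Polar coordinates with respect to a positively homogeneous function.
-/

open MeasureTheory Set Real
open scoped ENNReal

namespace Pool.Agent.Lib.MP_7c9f8e_gt

variable {E : Type*} [NormedAddCommGroup E] [InnerProductSpace ℝ E] [FiniteDimensional ℝ E]
  [MeasurableSpace E] [BorelSpace E]

theorem lintegral_scale_Ioi (G : ℝ → ℝ≥0∞) {c : ℝ} (hc : 0 < c) :
    ∫⁻ l in Ioi (0:ℝ), G l = ∫⁻ m in Ioi (0:ℝ), ENNReal.ofReal c * G (c * m) := by
  have h := lintegral_image_eq_lintegral_abs_deriv_mul (s := Ioi (0:ℝ)) (f := fun m => c * m)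
    (f' := fun _ => c) measurableSet_Ioi
    (fun x _ => by simpa using ((hasDerivAt_id x).const_mul c).hasDerivWithinAt)
    (fun x _ y _ hxy => mul_left_cancel₀ hc.ne' hxy) G
  have himg : (fun m => c * m) '' Ioi (0:ℝ) = Ioi 0 := by
    ext v; constructor
    · rintro ⟨s, hs, rfl⟩; exact mul_pos hc hs
    · intro hv; exact ⟨v / c, div_pos hv hc, by field_simp⟩
  rw [himg, abs_of_pos hc] at h
  exact h

theorem lintegral_comp_smul' {G : E → ℝ≥0∞} (hG : Measurable G) {m : ℝ} (hm : 0 < m) :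
    ∫⁻ y, G (m • y) = ENNReal.ofReal ((m ^ Module.finrank ℝ E)⁻¹) * ∫⁻ x, G x := by
  rw [← lintegral_map hG (measurable_const_smul m), Measure.map_addHaar_smul volume hm.ne',
    lintegral_smul_measure, abs_of_pos (by positivity), smul_eq_mul]

theorem lintegral_tail {d : ℕ} (hd : 0 < d) {c : ℝ} (hc : 0 < c) :
    ∫⁻ m in Ioi (0:ℝ), (Ici c).indicator
      (fun m => ENNReal.ofReal (d * c ^ d * m ^ (-(d:ℝ) - 1))) m = 1 := by
  have hd' : (0:ℝ) < d := by exact_mod_cast hd
  rw [lintegral_indicator measurableSet_Ici, Measure.restrict_restrict measurableSet_Ici,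
    show Ici c ∩ Ioi 0 = Ici c from inter_eq_left.2 fun x hx => lt_of_lt_of_le hc hx,
    ← setLIntegral_congr Ioi_ae_eq_Ici, ← ofReal_integral_eq_lintegral_ofReal]
  · rw [integral_const_mul, integral_Ioi_rpow_of_lt (by linarith) hc]
    have : -(d:ℝ) - 1 + 1 = -d := by ring
    rw [this, rpow_neg hc.le, rpow_natCast]
    have : (d:ℝ) * c ^ d * (-(c ^ d)⁻¹ / -(d:ℝ)) = 1 := by field_simp
    rw [this, ENNReal.ofReal_one]
  · exact (integrableOn_Ioi_rpow_of_lt (by linarith) hc).const_mul _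
  · refine (ae_restrict_iff' measurableSet_Ioi).2 (Filter.Eventually.of_forall fun x hx => ?_)
    have : 0 < x := lt_trans hc hx
    positivity

theorem cone_formula [Nontrivial E] {γ : E → ℝ} (hγ : Measurable γ)
    (hh : ∀ c : ℝ, 0 ≤ c → ∀ x, γ (c • x) = c * γ x) (hpos : ∀ x, x ≠ 0 → 0 < γ x)
    {F : E → ℝ≥0∞} (hF : Measurable F) :
    ∫⁻ x, F x = ∫⁻ y in {y | γ y ≤ 1}, ∫⁻ l in Ioi (0:ℝ),
      ENNReal.ofReal (Module.finrank ℝ E * l ^ (Module.finrank ℝ E - 1))
        * F (l • (γ y)⁻¹ • y) := by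
  set d := Module.finrank ℝ E with hd
  have hd0 : 0 < d := Module.finrank_pos
  obtain ⟨k, hk⟩ : ∃ k, d = k + 1 := ⟨d - 1, by omega⟩
  have hA : MeasurableSet {y | γ y ≤ 1} := measurableSet_le hγ measurable_const
  have hne : ∀ᵐ y : E, y ≠ 0 := by simp [ae_iff]
  set H : ℝ → E → ℝ≥0∞ := fun m x => (Ici (γ x)).indicator
    (fun m => ENNReal.ofReal (d * m ^ k * (γ x / m) ^ d)) m * F x with hH
  have hS : MeasurableSet {p : ℝ × E | γ p.2 ≤ p.1} :=
    measurableSet_le (hγ.comp measurable_snd) measurable_fst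
  have hHm : Measurable (Function.uncurry H) := by
    have : Function.uncurry H = fun p : ℝ × E => {p : ℝ × E | γ p.2 ≤ p.1}.indicator
        (fun p => ENNReal.ofReal (d * p.1 ^ k * (γ p.2 / p.1) ^ d)) p * F p.2 := by
      ext p; simp only [hH, Function.uncurry, indicator, mem_Ici, mem_ofPred_eq]
    rw [this]
    exact (Measurable.indicator (by fun_prop) hS).mul (hF.comp measurable_snd)
  have step1 : ∫⁻ y in {y | γ y ≤ 1}, ∫⁻ l in Ioi (0:ℝ),
      ENNReal.ofReal (d * l ^ (d - 1)) * F (l • (γ y)⁻¹ • y)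
      = ∫⁻ y, ∫⁻ m in Ioi (0:ℝ), H m (m • y) := by
    rw [← lintegral_indicator hA]
    refine lintegral_congr_ae ?_
    filter_upwards [hne] with y hy
    have hc := hpos y hy
    by_cases hyA : γ y ≤ 1
    · rw [indicator_of_mem (show y ∈ {y | γ y ≤ 1} from hyA), lintegral_scale_Ioi _ hc]
      refine setLIntegral_congr_fun measurableSet_Ioi fun m hm => ?_
      have hm' : 0 < m := hm
      simp only [hH]
      rw [hh m hm'.le, indicator_of_mem (show m ∈ Ici (m * γ y) by
        simp only [mem_Ici]; nlinarith), smul_smul, ← mul_assoc,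
        ← ENNReal.ofReal_mul hc.le]
      congr 2
      · rw [hk]; simp only [add_tsub_cancel_right]; field_simp; ring
      · congr 1; field_simp
    · rw [indicator_of_notMem (show y ∉ {y | γ y ≤ 1} from hyA)]
      symm
      refine setLIntegral_eq_zero measurableSet_Ioi fun m hm => ?_
      have hm' : 0 < m := hm
      simp only [hH, Pi.zero_apply]
      rw [hh m hm'.le, indicator_of_notMem (show m ∉ Ici (m * γ y) by
        simp only [mem_Ici, not_le] at hyA ⊢; nlinarith), zero_mul]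
  have hHm2 : Measurable (Function.uncurry fun (y : E) (m : ℝ) => H m (m • y)) :=
    hHm.comp (f := fun p : E × ℝ => (p.2, p.2 • p.1)) (by fun_prop)
  rw [step1, lintegral_lintegral_swap hHm2.aemeasurable]
  have step3 : ∫⁻ m in Ioi (0:ℝ), ∫⁻ y, H m (m • y)
      = ∫⁻ m in Ioi (0:ℝ), ∫⁻ x, ENNReal.ofReal ((m ^ d)⁻¹) * H m x := by
    refine setLIntegral_congr_fun measurableSet_Ioi fun m hm => ?_
    have hm1 : Measurable (H m) := hHm.comp (f := fun x => (m, x)) (by fun_prop)
    rw [lintegral_comp_smul' hm1 hm, lintegral_const_mul _ hm1]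
  have hHm3 : Measurable (Function.uncurry fun (m : ℝ) (x : E) =>
      ENNReal.ofReal ((m ^ d)⁻¹) * H m x) :=
    (by fun_prop : Measurable fun p : ℝ × E => ENNReal.ofReal ((p.1 ^ d)⁻¹)).mul hHm
  rw [step3, lintegral_lintegral_swap hHm3.aemeasurable]
  refine lintegral_congr_ae ?_
  filter_upwards [hne] with x hx
  have hc := hpos x hx
  have h1 := lintegral_tail hd0 hc
  calc F x = (∫⁻ m in Ioi (0:ℝ), (Ici (γ x)).indicator
        (fun m => ENNReal.ofReal (d * (γ x) ^ d * m ^ (-(d:ℝ) - 1))) m) * F x := by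
        rw [h1, one_mul]
    _ = ∫⁻ m in Ioi (0:ℝ), (Ici (γ x)).indicator
        (fun m => ENNReal.ofReal (d * (γ x) ^ d * m ^ (-(d:ℝ) - 1))) m * F x := by
        rw [lintegral_mul_const _ (Measurable.indicator (by fun_prop) measurableSet_Ici)]
    _ = _ := by
        refine setLIntegral_congr_fun measurableSet_Ioi fun m hm => ?_
        have hm' : 0 < m := hm
        simp only [hH]
        rw [← mul_assoc]
        congr 1
        by_cases hmx : m ∈ Ici (γ x)
        · rw [indicator_of_mem hmx, indicator_of_mem hmx, ← ENNReal.ofReal_mul (by positivity)]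
          congr 1
          rw [rpow_sub hm', rpow_neg hm'.le, rpow_natCast, rpow_one, div_pow, hk]
          field_simp
          ring
        · rw [indicator_of_notMem hmx, indicator_of_notMem hmx, mul_zero]

theorem lintegral_pow_Ioc {d : ℕ} (hd : 0 < d) {a : ℝ} (ha : 0 ≤ a) :
    ∫⁻ l in Ioi (0:ℝ), ENNReal.ofReal (d * l ^ (d - 1)) * (Iic a).indicator 1 l
      = ENNReal.ofReal (a ^ d) := by
  obtain ⟨k, rfl⟩ : ∃ k, d = k + 1 := ⟨d - 1, by omega⟩
  have h1 : ∀ l : ℝ, ENNReal.ofReal (((k + 1 : ℕ) : ℝ) * l ^ (k + 1 - 1)) * (Iic a).indicator 1 l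
      = (Iic a).indicator (fun l => ENNReal.ofReal (((k + 1 : ℕ) : ℝ) * l ^ k)) l := by
    intro l
    by_cases h : l ∈ Iic a <;> simp [h]
  simp only [h1]
  rw [lintegral_indicator measurableSet_Iic, Measure.restrict_restrict measurableSet_Iic,
    show Iic a ∩ Ioi 0 = Ioc 0 a by ext; simp [and_comm], ← ofReal_integral_eq_lintegral_ofReal]
  · rw [← intervalIntegral.integral_of_le ha, intervalIntegral.integral_const_mul, integral_pow]
    congr 1
    push_cast
    field_simp
    simp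
  · exact (by fun_prop : Continuous fun l : ℝ => ((k + 1 : ℕ) : ℝ) * l ^ k).integrableOn_Ioc
  · refine (ae_restrict_iff' measurableSet_Ioc).2 (Filter.Eventually.of_forall fun x hx => ?_)
    have : 0 < x := hx.1
    positivity

/-- The radial mass of a set along the ray through `θ`. -/
noncomputable def ray (C : Set E) (θ : E) : ℝ≥0∞ :=
  ∫⁻ l in Ioi (0:ℝ), ENNReal.ofReal (Module.finrank ℝ E * l ^ (Module.finrank ℝ E - 1))
    * C.indicator 1 (l • θ)

omit [MeasurableSpace E] [BorelSpace E] in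
theorem le_ray [Nontrivial E] {C : Set E} {θ : E} {a : ℝ} (ha : 0 ≤ a)
    (h : ∀ l, 0 < l → l ≤ a → l • θ ∈ C) :
    ENNReal.ofReal (a ^ Module.finrank ℝ E) ≤ ray C θ := by
  rw [← lintegral_pow_Ioc Module.finrank_pos ha, ray]
  refine setLIntegral_mono' measurableSet_Ioi fun l hl => ?_
  by_cases hla : l ∈ Iic a
  · rw [indicator_of_mem hla, indicator_of_mem (h l hl hla)]; simp
  · rw [indicator_of_notMem hla]; simp

omit [MeasurableSpace E] [BorelSpace E] in
theorem ray_le [Nontrivial E] {C : Set E} {θ : E} {a : ℝ} (ha : 0 ≤ a)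
    (h : ∀ l, 0 < l → l • θ ∈ C → l ≤ a) :
    ray C θ ≤ ENNReal.ofReal (a ^ Module.finrank ℝ E) := by
  rw [← lintegral_pow_Ioc Module.finrank_pos ha, ray]
  refine setLIntegral_mono' measurableSet_Ioi fun l hl => ?_
  by_cases hla : l • θ ∈ C
  · rw [indicator_of_mem hla, indicator_of_mem (show l ∈ Iic a from h l hl hla)]; simp
  · rw [indicator_of_notMem hla]; simp

theorem measurable_ray {C : Set E} (hC : MeasurableSet C) : Measurable (ray C) := by
  refine Measurable.lintegral_prod_right (f := fun (θ : E) (l : ℝ) =>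
    ENNReal.ofReal (Module.finrank ℝ E * l ^ (Module.finrank ℝ E - 1))
      * C.indicator (1 : E → ℝ≥0∞) (l • θ)) ?_
  refine Measurable.mul (by fun_prop) ?_
  exact (measurable_one.indicator hC).comp (f := fun p : E × ℝ => p.2 • p.1) (by fun_prop)

theorem volume_eq_ray [Nontrivial E] {γ : E → ℝ} (hγ : Measurable γ)
    (hh : ∀ c : ℝ, 0 ≤ c → ∀ x, γ (c • x) = c * γ x) (hpos : ∀ x, x ≠ 0 → 0 < γ x)
    {C : Set E} (hC : MeasurableSet C) :
    volume C = ∫⁻ y in {y | γ y ≤ 1}, ray C ((γ y)⁻¹ • y) := by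
  rw [← lintegral_indicator_one hC, cone_formula hγ hh hpos (measurable_one.indicator hC)]
  rfl

end Pool.Agent.Lib.MP_7c9f8e_gt
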