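import Pool.Agent.Lib.MP_7c9f8e_gt.Kernel

/-!
Bilinear energies of weighted families of points, and the basic inequality between the energies
for the kernel `Z`, a bump `ρ` and the dual kernel `K`.
-/

open MeasureTheory Set Real
open scoped RealInnerProductSpace FourierTransform SchwartzMap

namespace Pool.Agent.Lib.MP_7c9f8e_gt

variable {E : Type*} [NormedAddCommGroup E] [InnerProductSpace ℝ E] [FiniteDimensional ℝ E]
  [MeasurableSpace E] [BorelSpace E]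

section bilin

variable {Ω₁ Ω₂ : Type*} [MeasurableSpace Ω₁] [MeasurableSpace Ω₂]

/-- The mutual energy of two weighted families for the kernel `k`. -/
noncomputable def En (k : E → ℝ) (μ₁ : Measure Ω₁) (f₁ : Ω₁ → ℝ) (p₁ : Ω₁ → E)
    (μ₂ : Measure Ω₂) (f₂ : Ω₂ → ℝ) (p₂ : Ω₂ → E) : ℝ :=
  ∫ a, ∫ b, f₁ a * f₂ b * k (p₁ a - p₂ b) ∂μ₂ ∂μ₁

noncomputable def Cw (μ : Measure Ω₁) (f : Ω₁ → ℝ) (p : Ω₁ → E) (w : E) : ℝ :=
  ∫ a, f a * cos (2 * π * ⟪w, p a⟫) ∂μ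

noncomputable def Sw (μ : Measure Ω₁) (f : Ω₁ → ℝ) (p : Ω₁ → E) (w : E) : ℝ :=
  ∫ a, f a * sin (2 * π * ⟪w, p a⟫) ∂μ

theorem En_eq {k kh : E → ℝ} (hk : ∀ x, k x = cosT kh x) (hkh : Integrable kh)
    {μ₁ : Measure Ω₁} [SFinite μ₁] {f₁ : Ω₁ → ℝ} {p₁ : Ω₁ → E} (hf₁ : Integrable f₁ μ₁)
    (hp₁ : Measurable p₁)
    {μ₂ : Measure Ω₂} [SFinite μ₂] {f₂ : Ω₂ → ℝ} {p₂ : Ω₂ → E} (hf₂ : Integrable f₂ μ₂)
    (hp₂ : Measurable p₂) :
    Integrable (fun w => kh w * (Cw μ₁ f₁ p₁ w * Cw μ₂ f₂ p₂ w + Sw μ₁ f₁ p₁ w * Sw μ₂ f₂ p₂ w)) ∧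
    En k μ₁ f₁ p₁ μ₂ f₂ p₂
      = ∫ w, kh w * (Cw μ₁ f₁ p₁ w * Cw μ₂ f₂ p₂ w + Sw μ₁ f₁ p₁ w * Sw μ₂ f₂ p₂ w) := by
  set Φ : Ω₁ × Ω₂ → E → ℝ := fun z w =>
    f₁ z.1 * f₂ z.2 * kh w * cos (2 * π * ⟪w, p₁ z.1 - p₂ z.2⟫) with hΦ
  have hΦi : Integrable (Function.uncurry Φ) ((μ₁.prod μ₂).prod volume) := by
    refine ((hf₁.mul_prod hf₂).mul_prod hkh).mul_bdd (c := 1) ?_
      (Filter.Eventually.of_forall fun x => abs_cos_le_one _)
    apply Measurable.aestronglyMeasurable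
    fun_prop
  have h1 : ∀ z : Ω₁ × Ω₂, ∫ w, Φ z w = f₁ z.1 * f₂ z.2 * k (p₁ z.1 - p₂ z.2) := by
    intro z
    rw [hk, cosT, ← integral_const_mul]
    congr 1 with w
    simp only [hΦ]; ring
  have h2 : ∀ w, ∫ z, Φ z w ∂(μ₁.prod μ₂)
      = kh w * (Cw μ₁ f₁ p₁ w * Cw μ₂ f₂ p₂ w + Sw μ₁ f₁ p₁ w * Sw μ₂ f₂ p₂ w) := by
    intro w
    have c1 : Integrable (fun a => f₁ a * cos (2 * π * ⟪w, p₁ a⟫)) μ₁ :=
      hf₁.mul_bdd (c := 1) (Measurable.aestronglyMeasurable (by fun_prop))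
        (Filter.Eventually.of_forall fun x => abs_cos_le_one _)
    have c2 : Integrable (fun a => f₂ a * cos (2 * π * ⟪w, p₂ a⟫)) μ₂ :=
      hf₂.mul_bdd (c := 1) (Measurable.aestronglyMeasurable (by fun_prop))
        (Filter.Eventually.of_forall fun x => abs_cos_le_one _)
    have s1 : Integrable (fun a => f₁ a * sin (2 * π * ⟪w, p₁ a⟫)) μ₁ :=
      hf₁.mul_bdd (c := 1) (Measurable.aestronglyMeasurable (by fun_prop))
        (Filter.Eventually.of_forall fun x => abs_sin_le_one _)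
    have s2 : Integrable (fun a => f₂ a * sin (2 * π * ⟪w, p₂ a⟫)) μ₂ :=
      hf₂.mul_bdd (c := 1) (Measurable.aestronglyMeasurable (by fun_prop))
        (Filter.Eventually.of_forall fun x => abs_sin_le_one _)
    rw [Cw, Cw, Sw, Sw, ← integral_prod_mul, ← integral_prod_mul,
      ← integral_add (c1.mul_prod c2) (s1.mul_prod s2), ← integral_const_mul]
    congr 1 with z
    simp only [hΦ, inner_sub_right, mul_sub, cos_sub]
    ring
  refine ⟨?_, ?_⟩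
  · have := hΦi.integral_prod_right
    simpa only [Function.uncurry_apply_pair, h2] using this
  · have h3 := hΦi.integral_prod_left
    simp only [Function.uncurry_apply_pair, h1] at h3
    rw [En, ← integral_prod _ h3]
    simp_rw [← h1, ← h2]
    exact integral_integral_swap hΦi

end bilin

/-- A bump `ρ` supported in the ball of radius `δ` and the kernel `K` dual to it. -/
structure Dual (δ : ℝ) (ρ K : E → ℝ) : Prop where
  ρ_cont : Continuous ρ
  ρ_zero : 0 < ρ 0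
  ρ_supp : ∀ x, δ ≤ ‖x‖ → ρ x = 0
  ρ_int : Integrable ρ
  ρ_even : ∀ x, ρ (-x) = ρ x
  ρ_one : ∫ x, ρ x = 1
  ρ_le : ∀ w, |cosT ρ w| ≤ 1
  ρ_hat : Integrable (cosT ρ)
  K_cont : Continuous K
  K_even : ∀ x, K (-x) = K x
  K_mom : ∀ k : ℕ, Integrable (fun x => K x * (1 + ‖x‖) ^ k)
  K_hat : ∀ w, cosT K w = (cosT ρ w) ^ 2 / cosT Z w
  K_hat_int : Integrable (cosT K)

theorem exists_dual {δ : ℝ} (hδ : 0 < δ) : ∃ ρ K : E → ℝ, Dual δ ρ K := by
  let b : ContDiffBump (0 : E) := ⟨δ / 2, δ, by positivity, by linarith⟩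
  set ρ : E → ℝ := b.normed volume with hρ
  have hρi : Integrable ρ := b.integrable_normed
  have hρe : ∀ x, ρ (-x) = ρ x := fun x => b.normed_neg x
  have hρc : HasCompactSupport (fun x => (ρ x : ℂ)) :=
    b.hasCompactSupport_normed.comp_left (g := Complex.ofReal) Complex.ofReal_zero
  have hρs : ContDiff ℝ (⊤ : ℕ∞) (fun x => (ρ x : ℂ)) :=
    Complex.ofRealCLM.contDiff.comp b.contDiff_normed
  set R : 𝓢(E, ℂ) := hρc.toSchwartzMap hρs with hR
  have hRh : ∀ w, (𝓕 R) w = (cosT ρ w : ℂ) := fun w => by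
    rw [SchwartzMap.fourier_coe]; exact fourier_even hρi hρe w
  set m : ℝ := ((Module.finrank ℝ E : ℝ) + 1) / 2 with hm
  set g : E → ℝ := fun w => (cZ E)⁻¹ * (1 + ‖(2 * π) • w‖ ^ 2) ^ m with hg
  have hgt : g.HasTemperateGrowth := by
    have h1 := (Function.hasTemperateGrowth_one_add_norm_sq_rpow E m).comp
      ((2 * π) • ContinuousLinearMap.id ℝ E).hasTemperateGrowth
    exact (Function.HasTemperateGrowth.const _).mul h1
  have hgZ : ∀ w, g w = (cosT Z w)⁻¹ := by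
    intro w
    rw [cosT_Z, mul_inv, neg_div, rpow_neg (by positivity), inv_inv]
    simp only [hg, norm_smul]
    rw [Real.norm_eq_abs, abs_of_pos (by positivity)]
    congr 2; ring
  set KH : 𝓢(E, ℂ) := SchwartzMap.smulLeftCLM ℂ g
    (SchwartzMap.smulLeftCLM ℂ (𝓕 R : 𝓢(E, ℂ)) (𝓕 R)) with hKH
  set kh : E → ℝ := fun w => (cosT ρ w) ^ 2 / cosT Z w with hkh
  have hKHa : ∀ w, KH w = (kh w : ℂ) := by
    intro w
    rw [hKH, SchwartzMap.smulLeftCLM_apply_apply hgt,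
      SchwartzMap.smulLeftCLM_apply_apply (𝓕 R : 𝓢(E, ℂ)).hasTemperateGrowth, hRh, hgZ]
    simp only [hkh, smul_eq_mul, Complex.real_smul]
    push_cast; ring
  have hKHf : (KH : E → ℂ) = fun w => (kh w : ℂ) := funext hKHa
  have hkhi : Integrable kh := by
    have := KH.integrable (μ := volume)
    rw [hKHf] at this
    simpa using this.re
  have hkhc : Continuous kh := by
    have := KH.continuous
    rw [hKHf] at this
    simpa [Function.comp_def] using Complex.continuous_re.comp this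
  have hkhe : ∀ w, kh (-w) = kh w := fun w => by simp only [hkh, cosT_neg]
  have hK : ∀ x, (𝓕 KH) x = (cosT kh x : ℂ) := fun x => by
    rw [SchwartzMap.fourier_coe, hKHf]; exact fourier_even hkhi hkhe x
  have hKf : ((𝓕 KH : 𝓢(E, ℂ)) : E → ℂ) = fun w => (cosT kh w : ℂ) := funext hK
  have hKc : Continuous (cosT kh) := by
    have := (𝓕 KH : 𝓢(E, ℂ)).continuous
    rw [hKf] at this
    simpa [Function.comp_def] using Complex.continuous_re.comp this
  have hKm : ∀ k : ℕ, Integrable (fun x => cosT kh x * (1 + ‖x‖) ^ k) := by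
    intro k
    have h1 : ∀ j : ℕ, Integrable (fun x => cosT kh x * ‖x‖ ^ j) := by
      intro j
      have := (𝓕 KH : 𝓢(E, ℂ)).integrable_pow_mul volume j
      refine this.mono' (by fun_prop) (Filter.Eventually.of_forall fun x => ?_)
      rw [hK, norm_mul, Complex.norm_real, mul_comm]
      simp
    simp only [add_comm (1:ℝ), add_pow, Finset.mul_sum, one_pow, mul_one]
    refine integrable_finsetSum _ fun j _ => ?_
    simpa only [mul_assoc] using (h1 j).mul_const (k.choose j : ℝ)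
  have hKi : Integrable (cosT kh) := by simpa using hKm 0
  have hKK : ∀ w, cosT (cosT kh) w = kh w := cosT_cosT hkhc hkhi hkhe hKi
  have hρh : Integrable (cosT ρ) := by
    have := (𝓕 R : 𝓢(E, ℂ)).integrable (μ := volume)
    rw [show ((𝓕 R : 𝓢(E, ℂ)) : E → ℂ) = fun w => (cosT ρ w : ℂ) from funext hRh] at this
    simpa using this.re
  refine ⟨ρ, cosT kh, b.continuous_normed, ?_, ?_, hρi, hρe, b.integral_normed, ?_, hρh, hKc,
    cosT_neg kh, hKm, hKK, ?_⟩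
  · have : (0 : E) ∈ Function.support ρ := by
      rw [hρ, b.support_normed_eq]; simpa using hδ
    exact lt_of_le_of_ne (b.nonneg_normed 0) (Ne.symm this)
  · intro x hx
    by_contra h
    have : x ∈ Function.support ρ := h
    rw [hρ, b.support_normed_eq] at this
    simp at this
    linarith
  · intro w
    refine (abs_integral_le_integral_abs).trans ?_
    rw [← b.integral_normed (μ := volume)]
    refine integral_mono (integrable_mul_cos hρi w).abs hρi fun x => ?_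
    simp only [abs_mul]
    rw [abs_of_nonneg (b.nonneg_normed x)]
    exact mul_le_of_le_one_right (b.nonneg_normed x) (abs_cos_le_one _)
  · rw [show cosT (cosT kh) = kh from funext hKK]; exact hkhi

theorem Dual.K_int {δ : ℝ} {ρ K : E → ℝ} (h : Dual δ ρ K) : Integrable K := by
  simpa using h.K_mom 0

/-- The basic inequality. -/
theorem Dual.core {δ : ℝ} {ρ K : E → ℝ} (h : Dual δ ρ K)
    {Ω₁ Ω₂ : Type*} [MeasurableSpace Ω₁] [MeasurableSpace Ω₂]
    {μ₁ : Measure Ω₁} [SFinite μ₁] {f₁ : Ω₁ → ℝ} {p₁ : Ω₁ → E} (hf₁ : Integrable f₁ μ₁)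
    (hp₁ : Measurable p₁)
    {μ₂ : Measure Ω₂} [SFinite μ₂] {f₂ : Ω₂ → ℝ} {p₂ : Ω₂ → E} (hf₂ : Integrable f₂ μ₂)
    (hp₂ : Measurable p₂) :
    2 * En ρ μ₁ f₁ p₁ μ₂ f₂ p₂ ≤ En Z μ₁ f₁ p₁ μ₁ f₁ p₁ + En K μ₂ f₂ p₂ μ₂ f₂ p₂ := by
  obtain ⟨i1, e1⟩ := En_eq (fun x => (cosT_cosT h.ρ_cont h.ρ_int h.ρ_even h.ρ_hat x).symm)
    h.ρ_hat hf₁ hp₁ hf₂ hp₂
  obtain ⟨i2, e2⟩ := En_eq (fun x => (cosT_cosT_Z x).symm) integrable_cosT_Z hf₁ hp₁ hf₁ hp₁
  obtain ⟨i3, e3⟩ := En_eq (fun x => (cosT_cosT h.K_cont h.K_int h.K_even h.K_hat_int x).symm)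
    h.K_hat_int hf₂ hp₂ hf₂ hp₂
  rw [e1, e2, e3, ← integral_const_mul, ← integral_add i2 i3]
  refine integral_mono (i1.const_mul 2) (i2.add i3) fun w => ?_
  simp only [h.K_hat]
  have hz := cosT_Z_pos (E := E) w
  set z := cosT (Z : E → ℝ) w
  set r := cosT ρ w
  set c1 := Cw μ₁ f₁ p₁ w
  set c2 := Cw μ₂ f₂ p₂ w
  set s1 := Sw μ₁ f₁ p₁ w
  set s2 := Sw μ₂ f₂ p₂ w
  have key : z * (c1 * c1 + s1 * s1) + r ^ 2 / z * (c2 * c2 + s2 * s2)
      - 2 * (r * (c1 * c2 + s1 * s2)) = ((z * c1 - r * c2) ^ 2 + (z * s1 - r * s2) ^ 2) / z := by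
    field_simp; ring
  have : 0 ≤ ((z * c1 - r * c2) ^ 2 + (z * s1 - r * s2) ^ 2) / z := by positivity
  linarith

end Pool.Agent.Lib.MP_7c9f8e_gt
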