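import Mathlib

/-!
The action of plane rotations and quaternionic space rotations on pairs of vectors of `ℝ^3`.
-/

namespace Pool.Agent.Lib.MP_7c9f8e_gt.Iso

/-- Quaternions written as pairs of complex numbers. -/
abbrev Q := ℂ × ℂ

def N (q : Q) : ℝ := q.1.re ^ 2 + q.1.im ^ 2 + q.2.re ^ 2 + q.2.im ^ 2

def qmul (p q : Q) : Q :=
  (⟨p.1.re * q.1.re - p.2.re * q.2.re - p.2.im * q.2.im - p.1.im * q.1.im,
    p.1.re * q.1.im + p.2.re * q.2.im - p.2.im * q.2.re + p.1.im * q.1.re⟩,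
   ⟨p.1.re * q.2.re + p.2.re * q.1.re + p.2.im * q.1.im - p.1.im * q.2.im,
    p.1.re * q.2.im - p.2.re * q.1.im + p.2.im * q.1.re + p.1.im * q.2.re⟩)

def qconj (q : Q) : Q := (⟨q.1.re, -q.1.im⟩, ⟨-q.2.re, -q.2.im⟩)

def r0 (q : Q) (x y z : ℝ) : ℝ :=
  (q.1.re ^ 2 + q.2.re ^ 2 - q.2.im ^ 2 - q.1.im ^ 2) * x
    + 2 * (q.2.re * q.2.im - q.1.re * q.1.im) * y + 2 * (q.2.re * q.1.im + q.1.re * q.2.im) * z

def r1 (q : Q) (x y z : ℝ) : ℝ :=
  2 * (q.2.re * q.2.im + q.1.re * q.1.im) * x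
    + (q.1.re ^ 2 - q.2.re ^ 2 + q.2.im ^ 2 - q.1.im ^ 2) * y
    + 2 * (q.2.im * q.1.im - q.1.re * q.2.re) * z

def r2 (q : Q) (x y z : ℝ) : ℝ :=
  2 * (q.2.re * q.1.im - q.1.re * q.2.im) * x + 2 * (q.2.im * q.1.im + q.1.re * q.2.re) * y
    + (q.1.re ^ 2 - q.2.re ^ 2 - q.2.im ^ 2 + q.1.im ^ 2) * z

/-- The unnormalised action. -/
def Gm (w : ℂ) (q : Q) (h : Fin 6 → ℝ) : Fin 6 → ℝ :=
  ![w.re * r0 q (h 0) (h 1) (h 2) - w.im * r0 q (h 3) (h 4) (h 5),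
    w.re * r1 q (h 0) (h 1) (h 2) - w.im * r1 q (h 3) (h 4) (h 5),
    w.re * r2 q (h 0) (h 1) (h 2) - w.im * r2 q (h 3) (h 4) (h 5),
    w.im * r0 q (h 0) (h 1) (h 2) + w.re * r0 q (h 3) (h 4) (h 5),
    w.im * r1 q (h 0) (h 1) (h 2) + w.re * r1 q (h 3) (h 4) (h 5),
    w.im * r2 q (h 0) (h 1) (h 2) + w.re * r2 q (h 3) (h 4) (h 5)]

def ip (h g : Fin 6 → ℝ) : ℝ :=
  h 0 * g 0 + h 1 * g 1 + h 2 * g 2 + h 3 * g 3 + h 4 * g 4 + h 5 * g 5

def pp (h : Fin 6 → ℝ) : ℝ := h 0 ^ 2 + h 1 ^ 2 + h 2 ^ 2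
def qq (h : Fin 6 → ℝ) : ℝ := h 3 ^ 2 + h 4 ^ 2 + h 5 ^ 2
def rr (h : Fin 6 → ℝ) : ℝ := h 0 * h 3 + h 1 * h 4 + h 2 * h 5
def S (h : Fin 6 → ℝ) : ℝ := pp h + qq h
def K2 (h : Fin 6 → ℝ) : ℝ := (pp h - qq h) ^ 2 + 4 * rr h ^ 2
def H2 (h : Fin 6 → ℝ) : ℝ := 4 * (pp h * qq h - rr h ^ 2)

def dg (a b : ℝ) : Fin 6 → ℝ := ![a, 0, 0, 0, b, 0]

section entries
variable (w : ℂ) (q : Q) (h : Fin 6 → ℝ)
theorem Gm_0 : Gm w q h 0 = w.re * r0 q (h 0) (h 1) (h 2) - w.im * r0 q (h 3) (h 4) (h 5) := rfl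
theorem Gm_1 : Gm w q h 1 = w.re * r1 q (h 0) (h 1) (h 2) - w.im * r1 q (h 3) (h 4) (h 5) := rfl
theorem Gm_2 : Gm w q h 2 = w.re * r2 q (h 0) (h 1) (h 2) - w.im * r2 q (h 3) (h 4) (h 5) := rfl
theorem Gm_3 : Gm w q h 3 = w.im * r0 q (h 0) (h 1) (h 2) + w.re * r0 q (h 3) (h 4) (h 5) := rfl
theorem Gm_4 : Gm w q h 4 = w.im * r1 q (h 0) (h 1) (h 2) + w.re * r1 q (h 3) (h 4) (h 5) := rfl
theorem Gm_5 : Gm w q h 5 = w.im * r2 q (h 0) (h 1) (h 2) + w.re * r2 q (h 3) (h 4) (h 5) := rfl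
end entries

section dgentries
variable (a b : ℝ)
theorem dg_0 : dg a b 0 = a := rfl
theorem dg_1 : dg a b 1 = 0 := rfl
theorem dg_2 : dg a b 2 = 0 := rfl
theorem dg_3 : dg a b 3 = 0 := rfl
theorem dg_4 : dg a b 4 = b := rfl
theorem dg_5 : dg a b 5 = 0 := rfl
end dgentries

theorem ext6 {h g : Fin 6 → ℝ} (h0 : h 0 = g 0) (h1 : h 1 = g 1) (h2 : h 2 = g 2)
    (h3 : h 3 = g 3) (h4 : h 4 = g 4) (h5 : h 5 = g 5) : h = g := by
  funext i
  fin_cases i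
  exacts [h0, h1, h2, h3, h4, h5]

theorem N_qmul (p q : Q) : N (qmul p q) = N p * N q := by
  simp only [N, qmul]; ring

theorem N_qconj (q : Q) : N (qconj q) = N q := by
  simp only [N, qconj]; ring

theorem N_nonneg (q : Q) : 0 ≤ N q := by unfold N; positivity

theorem N_pos {q : Q} (hq : q ≠ 0) : 0 < N q := by
  rcases (N_nonneg q).lt_or_eq with h | h
  · exact h
  · exfalso
    apply hq
    unfold N at h
    have h1 : q.1.re = 0 := by nlinarith [sq_nonneg q.1.re, sq_nonneg q.1.im, sq_nonneg q.2.re, sq_nonneg q.2.im]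
    have h2 : q.1.im = 0 := by nlinarith [sq_nonneg q.1.re, sq_nonneg q.1.im, sq_nonneg q.2.re, sq_nonneg q.2.im]
    have h3 : q.2.re = 0 := by nlinarith [sq_nonneg q.1.re, sq_nonneg q.1.im, sq_nonneg q.2.re, sq_nonneg q.2.im]
    have h4 : q.2.im = 0 := by nlinarith [sq_nonneg q.1.re, sq_nonneg q.1.im, sq_nonneg q.2.re, sq_nonneg q.2.im]
    exact Prod.ext (Complex.ext h1 h2) (Complex.ext h3 h4)

theorem ip_adj (w0 w : ℂ) (q0 q : Q) (h g : Fin 6 → ℝ) :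
    ip (Gm w0 q0 h) (Gm w q g) = ip h (Gm ((starRingEnd ℂ) w0 * w) (qmul (qconj q0) q) g) := by
  simp only [ip, Gm_0, Gm_1, Gm_2, Gm_3, Gm_4, Gm_5, r0, r1, r2, qmul, qconj, Complex.mul_re,
    Complex.mul_im, Complex.conj_re, Complex.conj_im]
  ring

theorem ip_sym (w : ℂ) (q : Q) (h g : Fin 6 → ℝ) :
    ip h (Gm w q g) = ip g (Gm ((starRingEnd ℂ) w) (qconj q) h) := by
  simp only [ip, Gm_0, Gm_1, Gm_2, Gm_3, Gm_4, Gm_5, r0, r1, r2, qconj,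
    Complex.conj_re, Complex.conj_im]
  ring

theorem pp_Gm (w : ℂ) (q : Q) (h : Fin 6 → ℝ) :
    pp (Gm w q h) = N q ^ 2 * (w.re ^ 2 * pp h - 2 * w.re * w.im * rr h + w.im ^ 2 * qq h) := by
  simp only [pp, qq, rr, N, Gm_0, Gm_1, Gm_2, r0, r1, r2]; ring

theorem qq_Gm (w : ℂ) (q : Q) (h : Fin 6 → ℝ) :
    qq (Gm w q h) = N q ^ 2 * (w.im ^ 2 * pp h + 2 * w.re * w.im * rr h + w.re ^ 2 * qq h) := by
  simp only [pp, qq, rr, N, Gm_3, Gm_4, Gm_5, r0, r1, r2]; ring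

theorem rr_Gm (w : ℂ) (q : Q) (h : Fin 6 → ℝ) :
    rr (Gm w q h) = N q ^ 2 * (w.re * w.im * (pp h - qq h) + (w.re ^ 2 - w.im ^ 2) * rr h) := by
  simp only [pp, qq, rr, N, Gm_0, Gm_1, Gm_2, Gm_3, Gm_4, Gm_5, r0, r1, r2]; ring

theorem unit_sq {w : ℂ} (hw : ‖w‖ = 1) : w.re ^ 2 + w.im ^ 2 = 1 := by
  have := Complex.sq_norm w
  rw [hw, Complex.normSq_apply] at this
  linarith

theorem S_Gm {w : ℂ} {q : Q} (hw : ‖w‖ = 1) (hq : N q = 1) (h : Fin 6 → ℝ) :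
    S (Gm w q h) = S h := by
  have := unit_sq hw
  simp only [S, pp_Gm, qq_Gm, hq]
  linear_combination (pp h + qq h) * this

theorem H2_Gm {w : ℂ} {q : Q} (hw : ‖w‖ = 1) (hq : N q = 1) (h : Fin 6 → ℝ) :
    H2 (Gm w q h) = H2 h := by
  have := unit_sq hw
  simp only [H2, pp_Gm, qq_Gm, rr_Gm, hq]
  linear_combination 4 * (pp h * qq h - rr h ^ 2) * (w.re ^ 2 + w.im ^ 2 + 1) * this

theorem K2_eq (h : Fin 6 → ℝ) : K2 h = S h ^ 2 - H2 h := by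
  simp only [K2, S, H2]; ring

theorem K2_Gm {w : ℂ} {q : Q} (hw : ‖w‖ = 1) (hq : N q = 1) (h : Fin 6 → ℝ) :
    K2 (Gm w q h) = K2 h := by
  rw [K2_eq, K2_eq, S_Gm hw hq, H2_Gm hw hq]

theorem ip_self (h : Fin 6 → ℝ) : ip h h = S h := by
  simp only [ip, S, pp, qq]; ring

theorem ip_smul_right (c : ℝ) (h g : Fin 6 → ℝ) : ip h (c • g) = c * ip h g := by
  simp only [ip, Pi.smul_apply, smul_eq_mul]; ring

theorem Gm_scale (s r : ℝ) (w : ℂ) (q : Q) (h : Fin 6 → ℝ) :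
    Gm (s • w) (r • q) h = (s * r ^ 2) • Gm w q h := by
  apply ext6 <;>
  simp only [Pi.smul_apply, smul_eq_mul, Gm_0, Gm_1, Gm_2, Gm_3, Gm_4, Gm_5, r0, r1, r2,
    Prod.smul_fst, Prod.smul_snd, Complex.smul_re, Complex.smul_im] <;> ring

theorem N_smul (r : ℝ) (q : Q) : N (r • q) = r ^ 2 * N q := by
  simp only [N, Prod.smul_fst, Prod.smul_snd, Complex.smul_re, Complex.smul_im, smul_eq_mul]
  ring

/-- The normalised action agrees with the action of unit parameters. -/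
theorem exists_unit {w : ℂ} {q : Q} (hw : w ≠ 0) (hq : q ≠ 0) :
    ∃ (w' : ℂ) (q' : Q), ‖w'‖ = 1 ∧ N q' = 1 ∧
      ∀ h, (‖w‖ * N q)⁻¹ • Gm w q h = Gm w' q' h := by
  have hN := N_pos hq
  have hw' : 0 < ‖w‖ := norm_pos_iff.2 hw
  have hs : √(N q) ^ 2 = N q := Real.sq_sqrt hN.le
  have hs0 : 0 < √(N q) := Real.sqrt_pos.2 hN
  refine ⟨(‖w‖⁻¹ : ℝ) • w, (√(N q))⁻¹ • q, ?_, ?_, fun h => ?_⟩
  · rw [norm_smul, norm_inv, norm_norm, inv_mul_cancel₀ hw'.ne']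
  · rw [N_smul, inv_pow, hs, inv_mul_cancel₀ hN.ne']
  · rw [Gm_scale, inv_pow, hs, mul_inv]

theorem exists_sq (α : ℂ) : ∃ ζ : ℂ, ‖ζ‖ = 1 ∧ α = ‖α‖ * ζ ^ 2 := by
  refine ⟨Complex.exp ((α.arg / 2 : ℝ) * Complex.I), Complex.norm_exp_ofReal_mul_I _, ?_⟩
  rw [← Complex.exp_nat_mul]
  conv_lhs => rw [← Complex.norm_mul_exp_arg_mul_I α]
  congr 2
  push_cast
  ring

/-- A relation stable under the action holds between every point and a diagonal one. -/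
theorem normal_form (R : (Fin 6 → ℝ) → (Fin 6 → ℝ) → Prop)
    (hsymm : ∀ h g, R h g → R g h) (htrans : ∀ h g f, R h g → R g f → R h f)
    (hact : ∀ w q h, ‖w‖ = 1 → N q = 1 → R (Gm w q h) h) (h : Fin 6 → ℝ) :
    ∃ a b, R h (dg a b) := by
  have hone : N ((1 : ℂ), (0 : ℂ)) = 1 := by simp [N]
  -- step 3
  have step3 : ∀ g : Fin 6 → ℝ, g 1 = 0 → g 2 = 0 → g 3 = 0 → ∃ a b, R g (dg a b) := by
    intro g h1 h2 h3
    obtain ⟨ζ, hζ, hα⟩ := exists_sq ⟨g 4, g 5⟩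
    set b := ‖(⟨g 4, g 5⟩ : ℂ)‖
    have hu := unit_sq hζ
    have e4 : g 4 = b * (ζ.re ^ 2 - ζ.im ^ 2) := by
      have := congrArg Complex.re hα
      simpa [sq] using this
    have e5 : g 5 = b * (2 * (ζ.re * ζ.im)) := by
      have := congrArg Complex.im hα
      simp [sq] at this
      linarith
    refine ⟨g 0, b, ?_⟩
    have hN : N ((ζ.re : ℂ), (ζ.im : ℂ)) = 1 := by simp [N]; linarith
    have : g = Gm 1 ((ζ.re : ℂ), (ζ.im : ℂ)) (dg (g 0) b) := by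
      apply ext6 <;>
      simp only [Gm_0, Gm_1, Gm_2, Gm_3, Gm_4, Gm_5, r0, r1, r2, dg_0, dg_1, dg_2, dg_3, dg_4,
        dg_5, Complex.one_re, Complex.one_im, Complex.ofReal_re, Complex.ofReal_im]
      · linear_combination (-g 0) * hu
      · linear_combination h1
      · linear_combination h2
      · linear_combination h3
      · linear_combination e4
      · linear_combination e5
    conv_lhs => rw [this]
    exact hact _ _ _ norm_one hN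
  have fin3 : ∀ g : Fin 6 → ℝ, g 1 = 0 → g 2 = 0 → rr g = 0 → qq g ≤ pp g →
      ∃ a b, R g (dg a b) := by
    intro g h1 h2 hr hpq
    apply step3 g h1 h2
    simp only [rr, pp, qq, h1, h2] at hr hpq
    by_cases h0 : g 0 = 0
    · rw [h0] at hpq
      nlinarith [sq_nonneg (g 3), sq_nonneg (g 4), sq_nonneg (g 5)]
    · have : g 0 * g 3 = 0 := by linarith
      exact (mul_eq_zero.1 this).resolve_left h0
  -- step 2
  have step2 : ∀ g : Fin 6 → ℝ, rr g = 0 → qq g ≤ pp g → ∃ a b, R g (dg a b) := by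
    intro g hr hpq
    by_cases h12 : g 1 = 0 ∧ g 2 = 0
    · exact fin3 g h12.1 h12.2 hr hpq
    have hp : 0 ≤ pp g := by unfold pp; positivity
    set a := √(pp g)
    have ha : a ^ 2 = g 0 ^ 2 + g 1 ^ 2 + g 2 ^ 2 := Real.sq_sqrt hp
    let q : Q := (⟨a + g 0, -g 1⟩, ⟨0, g 2⟩)
    have hq : q ≠ 0 := by
      intro h0
      apply h12
      have h1 := congrArg (fun z : Q => z.1.im) h0
      have h2 := congrArg (fun z : Q => z.2.im) h0
      simp only [q, Prod.fst_zero, Prod.snd_zero, Complex.zero_im, neg_eq_zero] at h1 h2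
      exact ⟨h1, h2⟩
    obtain ⟨w', q', hw', hq', he⟩ := exists_unit (one_ne_zero (α := ℂ)) hq
    have e1 : Gm 1 q g 1 = 0 := by
      simp only [Gm_1, r1, q, Complex.one_re, Complex.one_im]
      linear_combination (g 1) * ha
    have e2 : Gm 1 q g 2 = 0 := by
      simp only [Gm_2, r2, q, Complex.one_re, Complex.one_im]
      linear_combination (g 2) * ha
    set c := (‖(1 : ℂ)‖ * N q)⁻¹
    have hc : ∀ i, Gm w' q' g i = c * Gm 1 q g i := fun i => by rw [← he g]; rfl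
    obtain ⟨a', b', hR⟩ := fin3 (Gm w' q' g) (by rw [hc, e1, mul_zero]) (by rw [hc, e2, mul_zero])
      (by
        have := rr_Gm 1 q g
        simp only [hr, Complex.one_im, mul_zero, zero_mul, add_zero] at this
        simp only [rr, hc] at this ⊢
        linear_combination c ^ 2 * this)
      (by
        have h1 := pp_Gm 1 q g
        have h2 := qq_Gm 1 q g
        simp only [Complex.one_im, Complex.one_re] at h1 h2
        have h3 : qq (Gm 1 q g) ≤ pp (Gm 1 q g) := by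
          rw [h1, h2]
          nlinarith [sq_nonneg (N q)]
        simp only [pp, qq, hc] at h3 ⊢
        nlinarith [sq_nonneg c])
    exact ⟨a', b', htrans _ _ _ (hsymm _ _ (hact _ _ _ hw' hq')) hR⟩
  -- step 1
  obtain ⟨ζ, hζ, hα⟩ := exists_sq ⟨pp h - qq h, -(2 * rr h)⟩
  set m := ‖(⟨pp h - qq h, -(2 * rr h)⟩ : ℂ)‖
  have hm : 0 ≤ m := norm_nonneg _
  have hu := unit_sq hζ
  have e4 : pp h - qq h = m * (ζ.re ^ 2 - ζ.im ^ 2) := by
    have := congrArg Complex.re hα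
    simpa [sq] using this
  have e5 : -(2 * rr h) = m * (2 * (ζ.re * ζ.im)) := by
    have := congrArg Complex.im hα
    simp [sq] at this
    linarith
  obtain ⟨a, b, hR⟩ := step2 (Gm ζ (1, 0) h)
    (by
      rw [rr_Gm, hone, e4]
      linear_combination (-(ζ.re ^ 2 - ζ.im ^ 2) / 2) * e5)
    (by
      rw [pp_Gm, qq_Gm, hone]
      have : (ζ.re ^ 2 - ζ.im ^ 2) * (pp h - qq h) - 4 * ζ.re * ζ.im * rr h
          = m * (ζ.re ^ 2 + ζ.im ^ 2) ^ 2 := by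
        rw [e4]
        linear_combination (2 * ζ.re * ζ.im) * e5
      rw [hu] at this
      nlinarith)
  exact ⟨a, b, htrans _ _ _ (hsymm _ _ (hact _ _ _ hζ hone)) hR⟩

end Pool.Agent.Lib.MP_7c9f8e_gt.Iso
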