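import Pool.Agent.Lib.MP_7c9f8e_gt.IsoTransfer

/-!
Two smooth convex bodies with exchanged invariants.
-/

open Set Real
open scoped Pointwise RealInnerProductSpace ContDiff

namespace Pool.Agent.Lib.MP_7c9f8e_gt.Iso

variable {k : ℕ}

def Y (x : Ek k) : ℝ := ∑ j, tl x j ^ 2

def φA (x : Ek k) : ℝ := 3 * S (hd x) ^ 2 + K2 (hd x) + 8 * Y x - 3
def φB (x : Ek k) : ℝ := 3 * S (hd x) ^ 2 + H2 (hd x) + 8 * Y x - 3

theorem Y_nonneg (x : Ek k) : 0 ≤ Y x := Finset.sum_nonneg fun _ _ => sq_nonneg _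

theorem S_nonneg (h : Fin 6 → ℝ) : 0 ≤ S h := by unfold S pp qq; positivity

theorem K2_nonneg (h : Fin 6 → ℝ) : 0 ≤ K2 h := by unfold K2; positivity

theorem H2_eq (h : Fin 6 → ℝ) : H2 h = 4 * ((h 1 * h 5 - h 2 * h 4) ^ 2
    + (h 2 * h 3 - h 0 * h 5) ^ 2 + (h 0 * h 4 - h 1 * h 3) ^ 2) := by
  simp only [H2, pp, qq, rr]; ring

theorem H2_nonneg (h : Fin 6 → ℝ) : 0 ≤ H2 h := by rw [H2_eq]; positivity

theorem contDiff_φA : ContDiff ℝ ω (φA : Ek k → ℝ) := by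
  unfold φA S K2 Y pp qq rr hd tl
  fun_prop

theorem contDiff_φB : ContDiff ℝ ω (φB : Ek k → ℝ) := by
  unfold φB S H2 Y pp qq rr hd tl
  fun_prop

theorem hd_smul (s : ℝ) (x : Ek k) : hd (s • x) = s • hd x := rfl
theorem tl_smul (s : ℝ) (x : Ek k) : tl (s • x) = s • tl x := rfl

theorem S_smul (s : ℝ) (h : Fin 6 → ℝ) : S (s • h) = s ^ 2 * S h := by
  simp only [S, pp, qq, Pi.smul_apply, smul_eq_mul]; ring
theorem K2_smul (s : ℝ) (h : Fin 6 → ℝ) : K2 (s • h) = s ^ 4 * K2 h := by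
  simp only [K2, pp, qq, rr, Pi.smul_apply, smul_eq_mul]; ring
theorem H2_smul (s : ℝ) (h : Fin 6 → ℝ) : H2 (s • h) = s ^ 4 * H2 h := by
  simp only [H2, pp, qq, rr, Pi.smul_apply, smul_eq_mul]; ring
theorem Y_smul (s : ℝ) (x : Ek k) : Y (s • x) = s ^ 2 * Y x := by
  simp only [Y, tl_smul, Pi.smul_apply, smul_eq_mul, mul_pow, Finset.mul_sum]

/-! Convexity. -/

def Lin (l : Ek k → ℝ) : Prop := ∀ (a b : ℝ) (x y : Ek k), l (a • x + b • y) = a * l x + b * l y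

theorem Lin.cvx {l : Ek k → ℝ} (h : Lin l) : ConvexOn ℝ univ fun x => l x ^ 2 := by
  refine ⟨convex_univ, fun x _ y _ a b ha hb hab => ?_⟩
  simp only [h a b x y, smul_eq_mul]
  have : b = 1 - a := by linarith
  subst this
  nlinarith [mul_nonneg (mul_nonneg ha hb) (sq_nonneg (l x - l y))]

theorem lin_hd (i j : Fin 6) (c : ℝ) : Lin fun x : Ek k => hd x i + c * hd x j := by
  intro a b x y
  simp only [hd, PiLp.add_apply, PiLp.smul_apply, smul_eq_mul]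
  ring

theorem cvx_Y : ConvexOn ℝ univ (Y : Ek k → ℝ) := by
  refine ⟨convex_univ, fun x _ y _ a b ha hb hab => ?_⟩
  simp only [Y, smul_eq_mul, Finset.mul_sum, ← Finset.sum_add_distrib]
  refine Finset.sum_le_sum fun j _ => ?_
  have : Lin fun x : Ek k => tl x j := by
    intro a b x y
    simp only [tl, PiLp.add_apply, PiLp.smul_apply, smul_eq_mul]
  exact this.cvx.2 (mem_univ x) (mem_univ y) ha hb hab

theorem cvx_four {l1 l2 l3 l4 : Ek k → ℝ} (h1 : Lin l1) (h2 : Lin l2) (h3 : Lin l3) (h4 : Lin l4) :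
    ConvexOn ℝ univ fun x => (l1 x ^ 2 + l2 x ^ 2 + l3 x ^ 2 + l4 x ^ 2) ^ 2 :=
  (((h1.cvx.add h2.cvx).add h3.cvx).add h4.cvx).pow (fun x _ => by
    change 0 ≤ l1 x ^ 2 + l2 x ^ 2 + l3 x ^ 2 + l4 x ^ 2
    positivity) 2

theorem lin_zero : Lin fun _ : Ek k => (0 : ℝ) := fun _ _ _ _ => by simp

theorem cvx_S2 : ConvexOn ℝ univ fun x : Ek k => S (hd x) ^ 2 := by
  have h := fun i => (lin_hd (k := k) i i 0).cvx
  have h1 := ((((((h 0).add (h 1)).add (h 2)).add (h 3)).add (h 4)).add (h 5))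
  have h2 : ConvexOn ℝ univ fun x : Ek k => S (hd x) := by
    refine h1.congr fun x _ => ?_
    simp only [S, pp, qq, Pi.add_apply]
    ring
  exact h2.pow (fun x _ => S_nonneg _) 2

theorem cvx_φA : ConvexOn ℝ univ (φA : Ek k → ℝ) := by
  have l := lin_hd (k := k)
  have a1 := cvx_four (l 0 0 0) (l 1 1 0) (l 2 2 0) lin_zero
  have a2 := cvx_four (l 3 3 0) (l 4 4 0) (l 5 5 0) lin_zero
  have a3 := cvx_four (l 0 3 1) (l 1 4 1) (l 2 5 1) lin_zero
  have a4 := cvx_four (l 0 3 (-1)) (l 1 4 (-1)) (l 2 5 (-1)) lin_zero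
  have h := (((cvx_S2.add ((a1.add a2).smul (c := (2 : ℝ)) (by norm_num))).add
    ((a3.add a4).smul (c := (1 / 2 : ℝ)) (by norm_num))).add
    (cvx_Y.smul (c := (8 : ℝ)) (by norm_num))).add_const (-3)
  refine h.congr fun x _ => ?_
  simp only [φA, S, K2, pp, qq, rr, Pi.add_apply, smul_eq_mul]
  ring

theorem cvx_φB : ConvexOn ℝ univ (φB : Ek k → ℝ) := by
  have l := lin_hd (k := k)
  have a1 := cvx_four (l 0 4 1) (l 1 3 (-1)) (l 2 2 0) (l 5 5 0)
  have a2 := cvx_four (l 0 4 (-1)) (l 1 3 1) (l 2 2 0) (l 5 5 0)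
  have a3 := cvx_four (l 1 5 1) (l 2 4 (-1)) (l 0 0 0) (l 3 3 0)
  have a4 := cvx_four (l 1 5 (-1)) (l 2 4 1) (l 0 0 0) (l 3 3 0)
  have a5 := cvx_four (l 2 3 1) (l 0 5 (-1)) (l 1 1 0) (l 4 4 0)
  have a6 := cvx_four (l 2 3 (-1)) (l 0 5 1) (l 1 1 0) (l 4 4 0)
  have h := (((((((a1.add a2).add a3).add a4).add a5).add a6).smul (c := (1 / 2 : ℝ))
    (by norm_num)).add (cvx_Y.smul (c := (8 : ℝ)) (by norm_num))).add_const (-3)
  refine h.congr fun x _ => ?_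
  simp only [φB, S, H2, pp, qq, rr, Pi.add_apply, smul_eq_mul]
  ring

/-! Size, compactness, smoothness. -/

theorem size {x : Ek k} {e : ℝ} (he : 0 ≤ e) (hx : 3 * S (hd x) ^ 2 + e + 8 * Y x - 3 ≤ 0) :
    ‖x‖ ^ 2 ≤ 1 ∧ (‖x‖ ^ 2 = 1 → e = 0 ∧ Y x = 0) := by
  have h1 := norm_sq_eq x
  have h2 := S_nonneg (hd x)
  have h3 := Y_nonneg x
  change ‖x‖ ^ 2 = S (hd x) + Y x at h1
  have h4 : S (hd x) ≤ 1 := by nlinarith
  refine ⟨by nlinarith, fun h => ?_⟩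
  constructor <;> nlinarith

theorem props {φ : Ek k → ℝ} {e : Ek k → ℝ} (hφ : ContDiff ℝ ω φ) (hc : ConvexOn ℝ univ φ)
    (he : ∀ x, 0 ≤ e x) (hs : ∀ (s : ℝ) x, e (s • x) = s ^ 4 * e x)
    (hdef : ∀ x, φ x = 3 * S (hd x) ^ 2 + e x + 8 * Y x - 3) :
    IsCompact {x | φ x ≤ 0} ∧ Convex ℝ {x | φ x ≤ 0} ∧ (0 : Ek k) ∈ interior {x | φ x ≤ 0} ∧
      ∀ x, φ x = 0 → fderiv ℝ φ x ≠ 0 := by
  have hsm : ∀ (s : ℝ) x, φ (s • x)
      = s ^ 4 * (3 * S (hd x) ^ 2 + e x) + s ^ 2 * (8 * Y x) - 3 := by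
    intro s x
    rw [hdef, hd_smul, S_smul, hs, Y_smul]
    ring
  refine ⟨?_, ?_, ?_, fun x hx h0 => ?_⟩
  · refine Metric.isCompact_of_isClosed_isBounded (isClosed_le hφ.continuous continuous_const)
      ((Metric.isBounded_closedBall (x := (0 : Ek k)) (r := 1)).subset fun x hx => ?_)
    rw [mem_closedBall_zero_iff]
    have h1 := (size (he x) (by rw [← hdef]; exact hx)).1
    nlinarith [norm_nonneg x]
  · simpa using hc.convex_le 0
  · refine mem_interior.2 ⟨{x | φ x < 0}, fun x (hx : φ x < 0) => (hx.le : φ x ≤ 0),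
      isOpen_lt hφ.continuous continuous_const, ?_⟩
    have := hsm 0 0
    rw [zero_smul] at this
    change φ 0 < 0
    rw [this]
    norm_num
  · have h1 : HasDerivAt (fun s : ℝ => φ (s • x)) (fderiv ℝ φ x x) 1 := by
      have a : HasFDerivAt φ (fderiv ℝ φ x) ((1 : ℝ) • x) := by
        rw [one_smul]
        exact (hφ.differentiable (by simp) x).hasFDerivAt
      have b : HasDerivAt (fun s : ℝ => s • x) x 1 := by
        simpa using (hasDerivAt_id (1 : ℝ)).smul_const x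
      exact a.comp_hasDerivAt 1 b
    have h2 : HasDerivAt (fun s : ℝ => φ (s • x))
        (4 * (3 * S (hd x) ^ 2 + e x) + 2 * (8 * Y x)) 1 := by
      simp only [hsm]
      have := ((((hasDerivAt_pow 4 (1 : ℝ)).mul_const (3 * S (hd x) ^ 2 + e x)).add
        ((hasDerivAt_pow 2 (1 : ℝ)).mul_const (8 * Y x))).sub_const 3)
      refine this.congr_deriv ?_
      norm_num
    have h3 := h1.unique h2
    rw [h0, zero_apply] at h3
    rw [hdef] at hx
    nlinarith [he x, Y_nonneg x, sq_nonneg (S (hd x))]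

theorem propsA : IsCompact {x : Ek k | φA x ≤ 0} ∧ Convex ℝ {x : Ek k | φA x ≤ 0} ∧
    (0 : Ek k) ∈ interior {x | φA x ≤ 0} ∧ ∀ x : Ek k, φA x = 0 → fderiv ℝ φA x ≠ 0 :=
  props (e := fun x => K2 (hd x)) contDiff_φA cvx_φA (fun _ => K2_nonneg _)
    (fun s x => by rw [hd_smul, K2_smul]) fun _ => rfl

theorem propsB : IsCompact {x : Ek k | φB x ≤ 0} ∧ Convex ℝ {x : Ek k | φB x ≤ 0} ∧
    (0 : Ek k) ∈ interior {x | φB x ≤ 0} ∧ ∀ x : Ek k, φB x = 0 → fderiv ℝ φB x ≠ 0 :=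
  props (e := fun x => H2 (hd x)) contDiff_φB cvx_φB (fun _ => H2_nonneg _)
    (fun s x => by rw [hd_smul, H2_smul]) fun _ => rfl

/-! Equal magnitude functions. -/

theorem magnitude_eq {t : ℝ} (ht : 0 < t) :
    magnitude (t • {x : Ek k | φA x ≤ 0}) = magnitude (t • {x : Ek k | φB x ≤ 0}) := by
  let ψ : ℝ → ℝ → ℝ → (Fin k → ℝ) → Prop := fun s a _ y =>
    3 * (t⁻¹ ^ 2 * s) ^ 2 + t⁻¹ ^ 4 * a + 8 * (t⁻¹ ^ 2 * ∑ j, y j ^ 2) - 3 ≤ 0
  have hA : t • {x : Ek k | φA x ≤ 0} = Body ψ := by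
    ext x
    rw [mem_smul_set_iff_inv_smul_mem₀ ht.ne']
    simp only [mem_ofPred_eq, φA, hd_smul, S_smul, K2_smul, Y_smul]
    rfl
  have hB : t • {x : Ek k | φB x ≤ 0} = Body fun s a b y => ψ s b a y := by
    ext x
    rw [mem_smul_set_iff_inv_smul_mem₀ ht.ne']
    simp only [mem_ofPred_eq, φB, hd_smul, S_smul, H2_smul, Y_smul]
    rfl
  have cA := (propsA (k := k)).1.smul t
  have cB := (propsB (k := k)).1.smul t
  have nA : (t • {x : Ek k | φA x ≤ 0}).Nonempty :=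
    ⟨_, smul_mem_smul_set (interior_subset propsA.2.2.1)⟩
  have nB : (t • {x : Ek k | φB x ≤ 0}).Nonempty :=
    ⟨_, smul_mem_smul_set (interior_subset propsB.2.2.1)⟩
  rw [hA] at cA nA ⊢
  rw [hB] at cB nB ⊢
  exact le_antisymm (transfer ψ cB nB) (transfer (fun s a b y => ψ s b a y) cA nA)

/-! The bodies are not isometric. -/

theorem no_frame (u : Fin 3 → Fin 6 → ℝ)
    (h1 : ∀ i j, ip (u i) (u j) = if i = j then 1 else 0) (h2 : ∀ i, K2 (u i) = 0)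
    (h3 : ∀ i j, i ≠ j → K2 ((3 / 5 : ℝ) • u i + (4 / 5 : ℝ) • u j) = 0) : False := by
  have key : ∀ h : Fin 6 → ℝ, K2 h = 0 → pp h = qq h ∧ rr h = 0 := by
    intro h hh
    unfold K2 at hh
    constructor <;> nlinarith [sq_nonneg (pp h - qq h), sq_nonneg (rr h)]
  let a : Matrix (Fin 3) (Fin 3) ℝ := Matrix.of fun i j => u i (Fin.castAdd 3 j)
  let b : Matrix (Fin 3) (Fin 3) ℝ := Matrix.of fun i j => u i (Fin.natAdd 3 j)
  have ea : ∀ i j, (a * a.transpose) i j = u i 0 * u j 0 + u i 1 * u j 1 + u i 2 * u j 2 :=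
    fun i j => by rw [Matrix.mul_apply, Fin.sum_univ_three]; rfl
  have eb : ∀ i j, (b * b.transpose) i j = u i 3 * u j 3 + u i 4 * u j 4 + u i 5 * u j 5 :=
    fun i j => by rw [Matrix.mul_apply, Fin.sum_univ_three]; rfl
  have ec : ∀ i j, (a * b.transpose) i j = u i 0 * u j 3 + u i 1 * u j 4 + u i 2 * u j 5 :=
    fun i j => by rw [Matrix.mul_apply, Fin.sum_univ_three]; rfl
  have pol : ∀ i j, (a * a.transpose) i j = (b * b.transpose) i j ∧
      (a * b.transpose) i j + (a * b.transpose) j i = 0 := by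
    intro i j
    rw [ea, eb, ec, ec]
    obtain ⟨p1, p2⟩ := key _ (h2 i)
    obtain ⟨p3, p4⟩ := key _ (h2 j)
    by_cases hij : i = j
    · subst hij
      simp only [pp, qq, rr] at p1 p2
      constructor <;> linarith
    · obtain ⟨p5, p6⟩ := key _ (h3 i j hij)
      simp only [pp, qq, rr, Pi.add_apply, Pi.smul_apply, smul_eq_mul] at p1 p2 p3 p4 p5 p6
      constructor
      · linear_combination (25 / 24) * p5 - (9 / 24) * p1 - (16 / 24) * p3
      · linear_combination (25 / 12) * p6 - (9 / 12) * p2 - (16 / 12) * p4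
  have ga : a * a.transpose = (1 / 2 : ℝ) • (1 : Matrix (Fin 3) (Fin 3) ℝ) := by
    ext i j
    have e1 := (pol i j).1
    have e2 := h1 i j
    rw [Matrix.smul_apply, Matrix.one_apply, ← e2, smul_eq_mul, ip]
    rw [ea, eb] at e1
    rw [ea]
    linarith
  have gb : b * b.transpose = (1 / 2 : ℝ) • (1 : Matrix (Fin 3) (Fin 3) ℝ) := by
    rw [← ga]
    ext i j
    exact (pol i j).1.symm
  have da := congrArg Matrix.det ga
  have db := congrArg Matrix.det gb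
  rw [Matrix.det_mul, Matrix.det_transpose, Matrix.det_smul, Matrix.det_one] at da db
  have dc : (a * b.transpose).det = 0 := by
    set c := a * b.transpose
    have c00 : c 0 0 = 0 := by linarith [(pol 0 0).2]
    have c11 : c 1 1 = 0 := by linarith [(pol 1 1).2]
    have c22 : c 2 2 = 0 := by linarith [(pol 2 2).2]
    have c10 : c 1 0 = -c 0 1 := by linarith [(pol 0 1).2]
    have c20 : c 2 0 = -c 0 2 := by linarith [(pol 0 2).2]
    have c21 : c 2 1 = -c 1 2 := by linarith [(pol 1 2).2]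
    rw [Matrix.det_fin_three, c00, c11, c22, c10, c20, c21]
    ring
  rw [Matrix.det_mul, Matrix.det_transpose] at dc
  rcases mul_eq_zero.1 dc with h | h
  · rw [h] at da; norm_num at da
  · rw [h] at db; norm_num at db

theorem ip_eq (x y : Ek k) (hx : Y x = 0) : ⟪x, y⟫ = ip (hd x) (hd y) := by
  have h0 : ∀ j, tl x j = 0 := by
    intro j
    have := (Finset.sum_eq_zero_iff_of_nonneg fun j _ => sq_nonneg (tl x j)).1 hx j
      (Finset.mem_univ j)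
    exact pow_eq_zero_iff two_ne_zero |>.1 this
  have h1 := norm_sub_sq_eq x y
  have h2 := norm_sub_sq_real x y
  rw [norm_sq_eq x, norm_sq_eq y] at h2
  simp only [h0, zero_sub, even_two, Even.neg_pow, ne_eq, OfNat.ofNat_ne_zero, not_false_eq_true,
    zero_pow, Finset.sum_const_zero] at h1 h2
  linarith

theorem not_isometric : IsEmpty ({x : Ek k | φA x ≤ 0} ≃ᵢ {x : Ek k | φB x ≤ 0}) := by
  classical
  refine ⟨fun T => ?_⟩
  let f : Ek k → Ek k := fun x => if h : φB x ≤ 0 then (T.symm ⟨x, h⟩ : Ek k) else 0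
  have fA : ∀ x, φB x ≤ 0 → φA (f x) ≤ 0 := fun x h => by
    simp only [f, dif_pos h]
    exact (T.symm ⟨x, h⟩).2
  have fd : ∀ x y, φB x ≤ 0 → φB y ≤ 0 → ‖f x - f y‖ = ‖x - y‖ := fun x y h h' => by
    simp only [f, dif_pos h, dif_pos h']
    rw [← dist_eq_norm, ← dist_eq_norm]
    exact T.symm.dist_eq ⟨x, h⟩ ⟨y, h'⟩
  have sA : ∀ x : Ek k, φA x ≤ 0 → ‖x‖ ^ 2 ≤ 1 ∧ (‖x‖ ^ 2 = 1 → K2 (hd x) = 0 ∧ Y x = 0) :=
    fun x h => size (K2_nonneg _) h
  let ι : ℝ → ℝ → ℝ → Ek k := fun a b c => mk ![a, b, c, 0, 0, 0] 0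
  have ιS : ∀ a b c, S (hd (ι a b c)) = a ^ 2 + b ^ 2 + c ^ 2 := fun a b c => by
    simp only [ι, hd_mk]
    change a ^ 2 + b ^ 2 + c ^ 2 + ((0 : ℝ) ^ 2 + 0 ^ 2 + 0 ^ 2) = _
    ring
  have ιH : ∀ a b c, H2 (hd (ι a b c)) = 0 := fun a b c => by
    simp only [ι, hd_mk]
    change 4 * ((a ^ 2 + b ^ 2 + c ^ 2) * ((0 : ℝ) ^ 2 + 0 ^ 2 + 0 ^ 2)
      - (a * 0 + b * 0 + c * 0) ^ 2) = _
    ring
  have ιY : ∀ a b c, Y (ι a b c) = 0 := fun a b c => by simp [Y, ι, tl_mk]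
  have ιB : ∀ a b c, a ^ 2 + b ^ 2 + c ^ 2 = 1 → φB (ι a b c) ≤ 0 := fun a b c h => by
    rw [φB, ιS, ιH, ιY, h]; norm_num
  have ιi : ∀ a b c a' b' c', ⟪ι a b c, ι a' b' c'⟫ = a * a' + b * b' + c * c' := by
    intro a b c a' b' c'
    rw [ip_eq _ _ (ιY a b c)]
    simp only [ι, hd_mk]
    change a * a' + b * b' + c * c' + 0 * 0 + 0 * 0 + (0 : ℝ) * 0 = _
    ring
  have ιn : ∀ a b c, ‖ι a b c‖ ^ 2 = a ^ 2 + b ^ 2 + c ^ 2 := fun a b c => by
    rw [← real_inner_self_eq_norm_sq, ιi]; ring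
  have B0 : φB (0 : Ek k) ≤ 0 :=
    interior_subset (s := {x : Ek k | φB x ≤ 0}) (propsB (k := k)).2.2.1
  have f0 : f 0 = 0 := by
    have b1 := ιB 1 0 0 (by norm_num)
    have b2 := ιB (-1) 0 0 (by norm_num)
    have d12 : ‖f (ι 1 0 0) - f (ι (-1) 0 0)‖ ^ 2 = 4 := by
      rw [fd _ _ b1 b2, norm_sub_sq_real, ιn, ιn, ιi]; norm_num
    have d1 : ‖f (ι 1 0 0) - f 0‖ ^ 2 = 1 := by
      rw [fd _ _ b1 B0, sub_zero, ιn]; norm_num
    have d2 : ‖f (ι (-1) 0 0) - f 0‖ ^ 2 = 1 := by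
      rw [fd _ _ b2 B0, sub_zero, ιn]; norm_num
    have n1 := (sA _ (fA _ b1)).1
    have n2 := (sA _ (fA _ b2)).1
    rw [norm_sub_sq_real] at d12 d1 d2
    set a := f (ι 1 0 0)
    set a' := f (ι (-1) 0 0)
    have s0 : a + a' = 0 := by
      have := norm_add_sq_real a a'
      refine norm_eq_zero.1 (pow_eq_zero_iff two_ne_zero |>.1 (le_antisymm ?_ (sq_nonneg _)))
      linarith
    have s1 : ⟪a, f 0⟫ + ⟪a', f 0⟫ = 0 := by rw [← inner_add_left, s0, inner_zero_left]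
    have s2 := norm_add_sq_real a a'
    rw [s0, norm_zero] at s2
    refine norm_eq_zero.1 (pow_eq_zero_iff two_ne_zero |>.1 (le_antisymm ?_ (sq_nonneg _)))
    linarith
  have fn : ∀ x, φB x ≤ 0 → ‖f x‖ = ‖x‖ := fun x h => by
    simpa [f0] using fd x 0 h B0
  have fi : ∀ x y, φB x ≤ 0 → φB y ≤ 0 → ⟪f x, f y⟫ = ⟪x, y⟫ := fun x y h h' => by
    have e1 := norm_sub_sq_real (f x) (f y)
    have e2 := norm_sub_sq_real x y
    rw [fd x y h h', fn x h, fn y h'] at e1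
    linarith
  have top : ∀ a b c, a ^ 2 + b ^ 2 + c ^ 2 = 1 →
      K2 (hd (f (ι a b c))) = 0 ∧ Y (f (ι a b c)) = 0 := fun a b c h =>
    (sA _ (fA _ (ιB a b c h))).2 (by rw [fn _ (ιB a b c h), ιn, h])
  let d : Fin 3 → Fin 3 → ℝ := fun i j => if i = j then 1 else 0
  let e : Fin 3 → Ek k := fun i => ι (d i 0) (d i 1) (d i 2)
  have dd : ∀ i j, d i 0 * d j 0 + d i 1 * d j 1 + d i 2 * d j 2 = if i = j then 1 else 0 := by
    intro i j
    fin_cases i <;> fin_cases j <;> simp [d]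
  have d1 : ∀ i, d i 0 ^ 2 + d i 1 ^ 2 + d i 2 ^ 2 = 1 := fun i => by
    have := dd i i
    rw [if_pos rfl] at this
    linarith
  have ee : ∀ i j, ⟪f (e i), f (e j)⟫ = if i = j then 1 else 0 := fun i j => by
    rw [fi _ _ (ιB _ _ _ (d1 i)) (ιB _ _ _ (d1 j)), ιi, dd]
  refine no_frame (fun i => hd (f (e i))) (fun i j => ?_) (fun i => (top _ _ _ (d1 i)).1)
    fun i j hij => ?_
  · rw [← ip_eq _ _ (top _ _ _ (d1 i)).2, ee]
  · have hd0 := dd i j
    rw [if_neg hij] at hd0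
    have hu : (3 / 5 * d i 0 + 4 / 5 * d j 0) ^ 2 + (3 / 5 * d i 1 + 4 / 5 * d j 1) ^ 2
        + (3 / 5 * d i 2 + 4 / 5 * d j 2) ^ 2 = 1 := by
      linear_combination (9 / 25) * d1 i + (16 / 25) * d1 j + (24 / 25) * hd0
    set z := f (ι (3 / 5 * d i 0 + 4 / 5 * d j 0) (3 / 5 * d i 1 + 4 / 5 * d j 1)
      (3 / 5 * d i 2 + 4 / 5 * d j 2)) with hz
    have z0 : ‖z‖ ^ 2 = 1 := by rw [hz, fn _ (ιB _ _ _ hu), ιn, hu]
    have z1 : ⟪z, f (e i)⟫ = 3 / 5 := by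
      rw [hz, fi _ _ (ιB _ _ _ hu) (ιB _ _ _ (d1 i)), ιi]
      linear_combination (3 / 5) * d1 i + (4 / 5) * hd0
    have z2 : ⟪z, f (e j)⟫ = 4 / 5 := by
      rw [hz, fi _ _ (ιB _ _ _ hu) (ιB _ _ _ (d1 j)), ιi]
      linear_combination (4 / 5) * d1 j + (3 / 5) * hd0
    have z3 : z = (3 / 5 : ℝ) • f (e i) + (4 / 5 : ℝ) • f (e j) := by
      refine sub_eq_zero.1 (norm_eq_zero.1 (pow_eq_zero_iff two_ne_zero |>.1 ?_))
      have a1 := ee i i
      have a2 := ee j j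
      have a3 := ee i j
      have a4 := ee j i
      rw [if_pos rfl] at a1 a2
      rw [if_neg hij] at a3
      rw [if_neg (Ne.symm hij)] at a4
      rw [norm_sub_sq_real, z0, ← real_inner_self_eq_norm_sq]
      simp only [inner_add_left, inner_add_right, real_inner_smul_left, real_inner_smul_right,
        z1, z2, a1, a2, a3, a4]
      norm_num
    have := (top _ _ _ hu).1
    rw [← hz, z3] at this
    exact this

end Pool.Agent.Lib.MP_7c9f8e_gt.Iso
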