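import Pool.Agent.Lib.MP_7c9f8e_gt.IsoAlg

/-!
The law of the inner product of a point with a random point of another orbit.
-/

open MeasureTheory ProbabilityTheory
open scoped ENNReal

namespace Pool.Agent.Lib.MP_7c9f8e_gt.Iso

/-- Standard Gaussian measure on the plane. -/
noncomputable def ν : Measure ℂ := stdGaussian ℂ

instance : IsProbabilityMeasure ν := by unfold ν; infer_instance

/-- The parameter measure. -/
noncomputable def P : Measure (ℂ × Q) := ν.prod (ν.prod ν)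

instance : IsProbabilityMeasure P := by unfold P; infer_instance

theorem ν_zero : ν {0} = 0 := by
  have : ∀ x, stdGaussian ℂ ≠ Measure.dirac x := by
    intro x hx
    have h1 := variance_dual_stdGaussian (E := ℂ) Complex.reCLM
    rw [hx, variance_dirac, Complex.reCLM_norm] at h1
    norm_num at h1
  have := IsGaussian.nullSingletonClass this
  exact measure_singleton (μ := stdGaussian ℂ) _

theorem ae_ne : ∀ᵐ z ∂ν, z ≠ 0 := by
  rw [ae_iff]
  simpa using ν_zero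

theorem ae_ne2 : ∀ᵐ q ∂(ν.prod ν), q ≠ 0 := by
  rw [ae_iff]
  have : {q : Q | ¬ q ≠ 0} = ({0} : Set ℂ) ×ˢ ({0} : Set ℂ) := by
    ext q
    simp [Prod.ext_iff]
  rw [this, Measure.prod_prod, ν_zero, zero_mul]

theorem ae_good : ∀ᵐ ω ∂P, ω.1 ≠ 0 ∧ ω.2 ≠ 0 := by
  unfold P
  refine Filter.Eventually.and ?_ ?_
  · exact Measure.quasiMeasurePreserving_fst.ae ae_ne
  · exact Measure.quasiMeasurePreserving_snd.ae ae_ne2

theorem mp_rot {ζ : ℂ} (hζ : ‖ζ‖ = 1) : MeasurePreserving (fun z => ζ * z) ν ν := by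
  refine ⟨by fun_prop, ?_⟩
  have := stdGaussian_map (rotation ⟨ζ, by simpa [Submonoid.unitSphere] using hζ⟩)
  exact this

theorem mp_conj : MeasurePreserving (fun z => (starRingEnd ℂ) z) ν ν := by
  refine ⟨by fun_prop, ?_⟩
  exact stdGaussian_map Complex.conjLIE

theorem N_eq (q : Q) : N q = ‖q.1‖ ^ 2 + ‖q.2‖ ^ 2 := by
  simp only [N, Complex.sq_norm, Complex.normSq_apply]; ring

theorem map_toLp : (ν.prod ν).map (WithLp.toLp 2) = stdGaussian (WithLp 2 (ℂ × ℂ)) := by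
  apply Measure.ext_of_charFun
  ext t
  rw [charFun_prod, charFun_stdGaussian]
  simp only [ν, charFun_stdGaussian]
  rw [← Complex.exp_add]
  congr 1
  have : ‖t‖ ^ 2 = ‖(WithLp.ofLp t).1‖ ^ 2 + ‖(WithLp.ofLp t).2‖ ^ 2 :=
    WithLp.prod_norm_sq_eq_of_L2 t
  have h2 := congrArg (fun x : ℝ => (x : ℂ)) this
  push_cast at h2
  rw [h2]
  ring

theorem mp_orth (L : Q →ₗ[ℝ] Q) (hL : ∀ q, N (L q) = N q) :
    MeasurePreserving L (ν.prod ν) (ν.prod ν) := by
  let e := WithLp.linearEquiv 2 ℝ (ℂ × ℂ)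
  let L' : WithLp 2 (ℂ × ℂ) →ₗᵢ[ℝ] WithLp 2 (ℂ × ℂ) :=
    { toLinearMap := e.symm.toLinearMap ∘ₗ L ∘ₗ e.toLinearMap
      norm_map' := fun x => by
        have h1 := WithLp.prod_norm_sq_eq_of_L2 x
        have h2 := WithLp.prod_norm_sq_eq_of_L2 (WithLp.toLp 2 (L (WithLp.ofLp x)))
        have h3 := hL (WithLp.ofLp x)
        rw [N_eq, N_eq] at h3
        refine (sq_eq_sq₀ (norm_nonneg _) (norm_nonneg _)).1 ?_
        exact h2.trans (h3.trans h1.symm) }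
  have hm : Measurable L := L.continuous_of_finiteDimensional.measurable
  refine ⟨hm, ?_⟩
  have h1 := stdGaussian_map (L'.toLinearIsometryEquiv rfl)
  have hto : Measurable (WithLp.toLp 2 : ℂ × ℂ → WithLp 2 (ℂ × ℂ)) := WithLp.measurable_toLp 2 _
  have hof : Measurable (WithLp.ofLp : WithLp 2 (ℂ × ℂ) → ℂ × ℂ) := WithLp.measurable_ofLp 2 _
  have hback : (stdGaussian (WithLp 2 (ℂ × ℂ))).map WithLp.ofLp = ν.prod ν := by
    rw [← map_toLp, Measure.map_map hof hto]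
    exact Measure.map_id
  have hL' : Measurable (L'.toLinearIsometryEquiv rfl) := (L'.toLinearIsometryEquiv rfl).continuous.measurable
  calc (ν.prod ν).map L
      = (ν.prod ν).map (WithLp.ofLp ∘ (L'.toLinearIsometryEquiv rfl) ∘ WithLp.toLp 2) := rfl
    _ = ν.prod ν := by
      rw [← Measure.map_map hof (hL'.comp hto), ← Measure.map_map hL' hto, map_toLp, h1, hback]

/-- Left multiplication by a quaternion. -/
def qmulL (p : Q) : Q →ₗ[ℝ] Q where
  toFun := qmul p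
  map_add' x y := by
    refine Prod.ext (Complex.ext ?_ ?_) (Complex.ext ?_ ?_) <;> simp [qmul] <;> ring
  map_smul' c x := by
    refine Prod.ext (Complex.ext ?_ ?_) (Complex.ext ?_ ?_) <;> simp [qmul] <;> ring

def qconjL : Q →ₗ[ℝ] Q where
  toFun := qconj
  map_add' x y := by
    refine Prod.ext (Complex.ext ?_ ?_) (Complex.ext ?_ ?_) <;> simp [qconj] <;> ring
  map_smul' c x := by
    refine Prod.ext (Complex.ext ?_ ?_) (Complex.ext ?_ ?_) <;> simp [qconj]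

/-- Regrouping of the four real coordinates. -/
def regroup : Q →ₗ[ℝ] Q where
  toFun q := (⟨q.1.re, q.2.re⟩, ⟨q.1.im, q.2.im⟩)
  map_add' x y := by
    refine Prod.ext (Complex.ext ?_ ?_) (Complex.ext ?_ ?_) <;> simp
  map_smul' c x := by
    refine Prod.ext (Complex.ext ?_ ?_) (Complex.ext ?_ ?_) <;> simp

/-- The inner product of `h` with the random image of `g`. -/
noncomputable def τ (h g : Fin 6 → ℝ) (ω : ℂ × Q) : ℝ := ip h (Gm ω.1 ω.2 g) / (‖ω.1‖ * N ω.2)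

theorem measurable_N : Measurable N := by unfold N; fun_prop

theorem measurable_Gm (g : Fin 6 → ℝ) (i : Fin 6) :
    Measurable fun ω : ℂ × Q => Gm ω.1 ω.2 g i := by
  fin_cases i
  · change Measurable fun ω : ℂ × Q => Gm ω.1 ω.2 g 0
    simp only [Gm_0, r0]; fun_prop
  · change Measurable fun ω : ℂ × Q => Gm ω.1 ω.2 g 1
    simp only [Gm_1, r1]; fun_prop
  · change Measurable fun ω : ℂ × Q => Gm ω.1 ω.2 g 2
    simp only [Gm_2, r2]; fun_prop
  · change Measurable fun ω : ℂ × Q => Gm ω.1 ω.2 g 3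
    simp only [Gm_3, r0]; fun_prop
  · change Measurable fun ω : ℂ × Q => Gm ω.1 ω.2 g 4
    simp only [Gm_4, r1]; fun_prop
  · change Measurable fun ω : ℂ × Q => Gm ω.1 ω.2 g 5
    simp only [Gm_5, r2]; fun_prop

theorem measurable_τ (h g : Fin 6 → ℝ) : Measurable (τ h g) := by
  have := measurable_Gm g
  have hN := measurable_N
  unfold τ ip
  fun_prop

/-- The law of the inner product. -/
noncomputable def law (h g : Fin 6 → ℝ) : Measure ℝ := P.map (τ h g)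

theorem law_of_mp {h g h' g' : Fin 6 → ℝ} {T : ℂ × Q → ℂ × Q} (hT : MeasurePreserving T P P)
    (he : ∀ ω, τ h g ω = τ h' g' (T ω)) : law h g = law h' g' := by
  unfold law
  conv_rhs => rw [← hT.map_eq, Measure.map_map (measurable_τ _ _) hT.measurable]
  congr 1
  exact funext he

theorem law_act {w0 : ℂ} {q0 : Q} (hw : ‖w0‖ = 1) (hq : N q0 = 1) (h g : Fin 6 → ℝ) :
    law (Gm w0 q0 h) g = law h g := by
  have h1 : ‖(starRingEnd ℂ) w0‖ = 1 := by simpa using hw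
  have h2 : ∀ q, N (qmulL (qconj q0) q) = N q := fun q => by
    change N (qmul _ _) = _
    rw [N_qmul, N_qconj, hq, one_mul]
  refine law_of_mp ((mp_rot h1).prod (mp_orth _ h2)) fun ω => ?_
  simp only [τ, Prod.map, ip_adj, norm_mul, h1, one_mul, h2]
  rfl

theorem law_symm (h g : Fin 6 → ℝ) : law h g = law g h := by
  refine law_of_mp (mp_conj.prod (mp_orth qconjL N_qconj)) fun ω => ?_
  simp only [τ, Prod.map, Complex.norm_conj]
  rw [ip_sym]
  change _ = _ / (_ * N (qconj _))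
  rw [N_qconj]
  rfl

/-- Cosine of twice the argument. -/
noncomputable def Cs (z : ℂ) : ℝ := (z.re ^ 2 - z.im ^ 2) / (z.re ^ 2 + z.im ^ 2)

theorem measurable_Cs : Measurable Cs := by unfold Cs; fun_prop

theorem Cs_smul {r : ℝ} (hr : r ≠ 0) (z : ℂ) : Cs (r * z) = Cs z := by
  simp only [Cs, Complex.mul_re, Complex.mul_im, Complex.ofReal_re, Complex.ofReal_im, zero_mul,
    sub_zero, add_zero, mul_pow, ← mul_sub, ← mul_add]
  exact mul_div_mul_left _ _ (pow_ne_zero 2 hr)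

theorem unit_of_ne {w : ℂ} (hw : w ≠ 0) : ∃ ζ : ℂ, ‖ζ‖ = 1 ∧ w = ‖w‖ * ζ := by
  have h : (‖w‖ : ℂ) ≠ 0 := by simpa using hw
  refine ⟨w / ‖w‖, ?_, by field_simp⟩
  rw [norm_div, Complex.norm_real, norm_norm, div_self (norm_ne_zero_iff.2 hw)]

/-- Direction and modulus of a Gaussian point are independent. -/
theorem decouple {H : ℝ × ℝ → ℝ≥0∞} (hH : Measurable H) :
    ∫⁻ u, H (Cs u, ‖u‖) ∂ν = ∫⁻ w, ∫⁻ u, H (Cs w, ‖u‖) ∂ν ∂ν := by
  have hC := measurable_Cs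
  have h1 : ∫⁻ w, ∫⁻ u, H (Cs (w * u), ‖u‖) ∂ν ∂ν = ∫⁻ u, H (Cs u, ‖u‖) ∂ν := by
    have : ∀ᵐ w ∂ν, ∫⁻ u, H (Cs (w * u), ‖u‖) ∂ν = ∫⁻ u, H (Cs u, ‖u‖) ∂ν := by
      filter_upwards [ae_ne] with w hw
      obtain ⟨ζ, hζ, e⟩ := unit_of_ne hw
      rw [← (mp_rot hζ).lintegral_comp (f := fun u => H (Cs u, ‖u‖)) (by fun_prop)]
      congr 1 with u
      rw [norm_mul, hζ, one_mul]
      conv_lhs => rw [e, mul_assoc, Cs_smul (norm_ne_zero_iff.2 hw)]
    rw [lintegral_congr_ae this]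
    simp
  have h2 : ∫⁻ u, ∫⁻ w, H (Cs (w * u), ‖u‖) ∂ν ∂ν = ∫⁻ u, ∫⁻ w, H (Cs w, ‖u‖) ∂ν ∂ν := by
    refine lintegral_congr_ae ?_
    filter_upwards [ae_ne] with u hu
    obtain ⟨ζ, hζ, e⟩ := unit_of_ne hu
    rw [← (mp_rot hζ).lintegral_comp (f := fun w => H (Cs w, ‖u‖)) (by fun_prop)]
    congr 1 with w
    have : w * u = ‖u‖ * (ζ * w) := by
      conv_lhs => rw [e]
      ring
    rw [this, Cs_smul (norm_ne_zero_iff.2 hu)]
  rw [← h1, lintegral_lintegral_swap (Measurable.aemeasurable (by fun_prop)), h2,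
    lintegral_lintegral_swap (Measurable.aemeasurable (by fun_prop))]

theorem exists_rot (α : ℂ) : ∃ ζ : ℂ, ‖ζ‖ = 1 ∧ ∀ u : ℂ,
    (α * (ζ * u) ^ 2).re = 2 * ‖α‖ * (u.re * u.im) := by
  by_cases hα : α = 0
  · exact ⟨1, norm_one, fun u => by simp [hα]⟩
  obtain ⟨ζ, hζ, e⟩ := exists_sq (-Complex.I * (starRingEnd ℂ) α)
  have hn : ‖-Complex.I * (starRingEnd ℂ) α‖ = ‖α‖ := by simp
  rw [hn] at e
  have h0 : (‖α‖ : ℂ) ≠ 0 := by simpa using hα
  have e2 : α * ζ ^ 2 = -Complex.I * ‖α‖ := by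
    apply mul_left_cancel₀ h0
    have := Complex.mul_conj' α
    linear_combination (-α) * e + (-Complex.I) * this
  refine ⟨ζ, hζ, fun u => ?_⟩
  rw [mul_pow, ← mul_assoc, e2]
  simp [sq]
  ring

/-- The radial average. -/
noncomputable def Θ (F : ℝ → ℝ≥0∞) (m : ℝ) : ℝ≥0∞ :=
  ∫⁻ u, ∫⁻ v, F (2 * (‖u‖ * √m) * v.re / (‖u‖ ^ 2 + ‖v‖ ^ 2)) ∂ν ∂ν

theorem measurable_Θ {F : ℝ → ℝ≥0∞} (hF : Measurable F) : Measurable (Θ F) := by
  unfold Θ
  refine Measurable.lintegral_prod_right (f := fun (m : ℝ) (u : ℂ) =>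
    ∫⁻ v, F (2 * (‖u‖ * √m) * v.re / (‖u‖ ^ 2 + ‖v‖ ^ 2)) ∂ν) ?_
  refine Measurable.lintegral_prod_right (f := fun (z : ℝ × ℂ) (v : ℂ) =>
    F (2 * (‖z.2‖ * √z.1) * v.re / (‖z.2‖ ^ 2 + ‖v‖ ^ 2))) ?_
  fun_prop

theorem quad_law {F : ℝ → ℝ≥0∞} (hF : Measurable F) (α β : ℂ) {m η : ℝ}
    (hα : ‖α‖ ^ 2 = m + η) (hβ : ‖β‖ ^ 2 = m - η) :
    ∫⁻ q, F (((α * q.1 ^ 2).re + (β * q.2 ^ 2).re) / N q) ∂(ν.prod ν)
      = ∫⁻ w, Θ F (m + η * Cs w) ∂ν := by
  have hN := measurable_N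
  have hC := measurable_Cs
  obtain ⟨ζ, hζ, e1⟩ := exists_rot α
  obtain ⟨ξ, hξ, e2⟩ := exists_rot β
  set A := ‖α‖
  set B := ‖β‖
  have s1 : ∫⁻ q, F (((α * q.1 ^ 2).re + (β * q.2 ^ 2).re) / N q) ∂(ν.prod ν)
      = ∫⁻ q, F (2 * (A * q.1.re * q.2.re + B * q.1.im * q.2.im) / N q) ∂(ν.prod ν) := by
    have hr : ∀ q, N (regroup q) = N q := fun q => by
      change N (_, _) = _
      simp only [N]; ring
    rw [← ((mp_rot hζ).prod (mp_rot hξ)).lintegral_comp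
        (f := fun q => F (((α * q.1 ^ 2).re + (β * q.2 ^ 2).re) / N q)) (by fun_prop),
      ← (mp_orth regroup hr).lintegral_comp
        (f := fun q => F (2 * (A * q.1.re * q.2.re + B * q.1.im * q.2.im) / N q)) (by fun_prop)]
    congr 1 with q
    rw [hr]
    simp only [Prod.map, e1, e2]
    congr 2
    · change _ = 2 * (A * q.1.re * q.1.im + B * q.2.re * q.2.im)
      ring
    · simp only [N_eq, norm_mul, hζ, hξ, one_mul]
  rw [s1, lintegral_prod _ (Measurable.aemeasurable (by fun_prop))]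
  have s2 : ∀ u : ℂ, ∫⁻ v, F (2 * (A * u.re * v.re + B * u.im * v.im) / N (u, v)) ∂ν
      = ∫⁻ v, F (2 * (‖u‖ * √(m + η * Cs u)) * v.re / (‖u‖ ^ 2 + ‖v‖ ^ 2)) ∂ν := by
    intro u
    let δ : ℂ := ⟨A * u.re, B * u.im⟩
    have hδ : ‖δ‖ = ‖u‖ * √(m + η * Cs u) := by
      by_cases hu : u = 0
      · have : δ = 0 := by simp [δ, hu, Complex.ext_iff]
        simp [this, hu]
      have hs : ‖u‖ ^ 2 = u.re ^ 2 + u.im ^ 2 := by
        rw [Complex.sq_norm, Complex.normSq_apply]; ring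
      have hpos : 0 < u.re ^ 2 + u.im ^ 2 := by
        rw [← hs]; exact pow_pos (norm_pos_iff.2 hu) 2
      have h1 : ‖δ‖ ^ 2 = ‖u‖ ^ 2 * (m + η * Cs u) := by
        rw [Complex.sq_norm δ, Complex.normSq_apply, hs, Cs]
        simp only [δ]
        field_simp
        linear_combination (u.re ^ 2) * hα + (u.im ^ 2) * hβ
      rw [← Real.sqrt_sq (norm_nonneg δ), h1, Real.sqrt_mul (sq_nonneg _),
        Real.sqrt_sq (norm_nonneg u)]
    obtain ⟨θ, hθ, e⟩ : ∃ θ : ℂ, ‖θ‖ = 1 ∧ δ = ‖δ‖ * θ := by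
      by_cases h0 : δ = 0
      · exact ⟨1, norm_one, by simp [h0]⟩
      · exact unit_of_ne h0
    rw [← (mp_rot hθ).lintegral_comp
      (f := fun v => F (2 * (A * u.re * v.re + B * u.im * v.im) / N (u, v))) (by fun_prop)]
    congr 1 with v
    have hu := unit_sq hθ
    have a1 : A * u.re = ‖δ‖ * θ.re := by simpa using congrArg Complex.re e
    have a2 : B * u.im = ‖δ‖ * θ.im := by simpa using congrArg Complex.im e
    congr 2
    · rw [a1, a2, ← hδ, Complex.mul_re, Complex.mul_im]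
      linear_combination (2 * ‖δ‖ * v.re) * hu
    · simp only [N_eq, norm_mul, hθ, one_mul]
  simp only [s2]
  exact decouple (H := fun z => ∫⁻ v, F (2 * (z.2 * √(m + η * z.1)) * v.re
    / (z.2 ^ 2 + ‖v‖ ^ 2)) ∂ν) (Measurable.lintegral_prod_right (f := fun (z : ℝ × ℝ) (v : ℂ) =>
      F (2 * (z.2 * √(m + η * z.1)) * v.re / (z.2 ^ 2 + ‖v‖ ^ 2))) (by fun_prop))

theorem lint_dg {F : ℝ → ℝ≥0∞} (hF : Measurable F) (a b c d : ℝ) :
    ∫⁻ x, F x ∂(law (dg a b) (dg c d)) = ∫⁻ w, ∫⁻ w', Θ F ((a ^ 2 + b ^ 2) * (c ^ 2 + d ^ 2) / 2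
      + (a ^ 2 - b ^ 2) * (c ^ 2 - d ^ 2) / 2 * Cs w + 2 * a * b * c * d * Cs w') ∂ν ∂ν := by
  rw [law, lintegral_map hF (measurable_τ _ _), P,
    lintegral_prod (fun ω => F (τ (dg a b) (dg c d) ω)) (hF.comp (measurable_τ _ _)).aemeasurable]
  refine lintegral_congr_ae ?_
  filter_upwards [ae_ne] with w hw
  have hn : 0 < ‖w‖ := norm_pos_iff.2 hw
  have hs : ‖w‖ ^ 2 = w.re ^ 2 + w.im ^ 2 := by
    rw [Complex.sq_norm, Complex.normSq_apply]; ring
  have hpos : 0 < w.re ^ 2 + w.im ^ 2 := by rw [← hs]; positivity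
  rw [← quad_law hF ⟨w.re * (a * c + b * d) / ‖w‖, -(w.im * (a * d + b * c)) / ‖w‖⟩
    ⟨w.re * (a * c - b * d) / ‖w‖, -(w.im * (b * c - a * d)) / ‖w‖⟩]
  · congr 1 with q
    congr 1
    simp only [τ, ip, Gm_0, Gm_1, Gm_2, Gm_3, Gm_4, Gm_5, r0, r1, r2, dg_0, dg_1, dg_2, dg_3,
      dg_4, dg_5, sq, Complex.mul_re, Complex.mul_im]
    rw [← div_div]
    congr 1
    field_simp
    ring
  · rw [Complex.sq_norm, Complex.normSq_apply, Cs]
    simp only
    rw [div_mul_div_comm, div_mul_div_comm, ← sq ‖w‖, hs]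
    field_simp
    ring
  · rw [Complex.sq_norm, Complex.normSq_apply, Cs]
    simp only
    rw [div_mul_div_comm, div_mul_div_comm, ← sq ‖w‖, hs]
    field_simp
    ring

theorem law_dg_swap (a b c d : ℝ) :
    law (dg ((a + b) / √2) ((a - b) / √2)) (dg ((c + d) / √2) ((c - d) / √2))
      = law (dg a b) (dg c d) := by
  refine Measure.ext_of_lintegral _ fun F hF => ?_
  have hΘ := measurable_Θ hF
  have hC := measurable_Cs
  rw [lint_dg hF, lint_dg hF, lintegral_lintegral_swap (Measurable.aemeasurable (by fun_prop))]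
  congr 1 with w
  congr 1 with w'
  congr 1
  have h2 : √2 ^ 2 = (2 : ℝ) := Real.sq_sqrt (by norm_num)
  have h0 : √2 ≠ (0 : ℝ) := by positivity
  have h4 : ∀ x y z t : ℝ, 2 * (x / √2) * (y / √2) * (z / √2) * (t / √2) = x * y * z * t / 2 := by
    intro x y z t
    field_simp
    rw [show √2 ^ 4 = (√2 ^ 2) ^ 2 by ring, h2]
    ring
  rw [h4]
  simp only [div_pow, h2]
  ring

/-- Every point has a partner with exchanged invariants, compatibly with the laws. -/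
theorem exists_partner : ∃ σ : (Fin 6 → ℝ) → (Fin 6 → ℝ),
    (∀ h, S (σ h) = S h ∧ K2 (σ h) = H2 h ∧ H2 (σ h) = K2 h) ∧
      ∀ h g, law (σ h) (σ g) = law h g := by
  have key := normal_form (fun h g => (∀ f, law h f = law g f) ∧ S h = S g ∧ H2 h = H2 g)
    (fun h g H => ⟨fun f => (H.1 f).symm, H.2.1.symm, H.2.2.symm⟩)
    (fun h g f H H' => ⟨fun k => (H.1 k).trans (H'.1 k), H.2.1.trans H'.2.1, H.2.2.trans H'.2.2⟩)
    (fun w q h hw hq => ⟨fun f => law_act hw hq h f, S_Gm hw hq h, H2_Gm hw hq h⟩)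
  choose a b hab using key
  have h2 : √2 ^ 2 = (2 : ℝ) := Real.sq_sqrt (by norm_num)
  refine ⟨fun h => dg ((a h + b h) / √2) ((a h - b h) / √2), fun h => ?_, fun h g => ?_⟩
  · rw [K2_eq, K2_eq h, (hab h).2.1, (hab h).2.2]
    simp only [S, H2, pp, qq, rr, dg_0, dg_1, dg_2, dg_3, dg_4, dg_5, div_pow, h2]
    refine ⟨?_, ?_, ?_⟩ <;> ring
  · rw [law_dg_swap, (hab h).1 g, law_symm _ g, (hab g).1, law_symm]

end Pool.Agent.Lib.MP_7c9f8e_gt.Iso
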