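import Pool.Agent.Lib.MP_7c9f8e_gt.IsoLaw
import Pool.Agent.Lib.MP_7c9f8e_gt.Finite

/-!
Transfer of magnitude between invariant sets with exchanged invariants.
-/

open MeasureTheory Set Real

namespace Pool.Agent.Lib.MP_7c9f8e_gt.Iso

variable {k : ℕ}

abbrev Ek (k : ℕ) := EuclideanSpace ℝ (Fin (6 + k))

def hd (x : Ek k) : Fin 6 → ℝ := fun i => x (Fin.castAdd k i)
def tl (x : Ek k) : Fin k → ℝ := fun j => x (Fin.natAdd 6 j)
def mk (h : Fin 6 → ℝ) (t : Fin k → ℝ) : Ek k := WithLp.toLp 2 (Fin.append h t)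

theorem hd_mk (h : Fin 6 → ℝ) (t : Fin k → ℝ) : hd (mk h t) = h := by
  funext i; simp [hd, mk]

theorem tl_mk (h : Fin 6 → ℝ) (t : Fin k → ℝ) : tl (mk h t) = t := by
  funext i; simp [tl, mk]

theorem mk_hd_tl (x : Ek k) : mk (hd x) (tl x) = x := by
  ext i
  refine Fin.addCases (fun i => ?_) (fun i => ?_) i <;> simp [mk, hd, tl]

theorem norm_sq_eq (x : Ek k) : ‖x‖ ^ 2 = S (hd x) + ∑ j, tl x j ^ 2 := by
  rw [EuclideanSpace.real_norm_sq_eq, Fin.sum_univ_add, Fin.sum_univ_six]
  simp only [S, pp, qq, hd, tl]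
  ring

theorem norm_sub_sq_eq (x y : Ek k) :
    ‖x - y‖ ^ 2 = S (hd x) + S (hd y) + ∑ j, (tl x j - tl y j) ^ 2 - 2 * ip (hd x) (hd y) := by
  rw [norm_sq_eq]
  simp only [S, pp, qq, ip, hd, tl, PiLp.sub_apply]
  ring

theorem ip_Gm {w : ℂ} {q : Q} (hw : ‖w‖ = 1) (hq : N q = 1) (h g : Fin 6 → ℝ) :
    ip (Gm w q h) (Gm w q g) = ip h g := by
  have h1 := unit_sq hw
  have : ip (Gm w q h) (Gm w q g) = (w.re ^ 2 + w.im ^ 2) * N q ^ 2 * ip h g := by
    simp only [ip, N, Gm_0, Gm_1, Gm_2, Gm_3, Gm_4, Gm_5, r0, r1, r2]; ring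
  rw [this, h1, hq]; ring

open Classical in
/-- The random isometry. -/
noncomputable def act (ω : ℂ × Q) (x : Ek k) : Ek k :=
  if ω.1 ≠ 0 ∧ ω.2 ≠ 0 then mk ((‖ω.1‖ * N ω.2)⁻¹ • Gm ω.1 ω.2 (hd x)) (tl x) else x

theorem measurable_act (x : Ek k) : Measurable fun ω => act ω x := by
  unfold act
  refine Measurable.ite ?_ ?_ measurable_const
  · exact ((measurableSet_singleton (0 : ℂ)).compl.preimage measurable_fst).inter
      ((measurableSet_singleton (0 : Q)).compl.preimage measurable_snd)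
  · refine (WithLp.measurable_toLp 2 _).comp (measurable_pi_lambda _ fun i => ?_)
    refine Fin.addCases (fun i => ?_) (fun i => ?_) i
    · simp only [Fin.append_left, Pi.smul_apply, smul_eq_mul]
      have := measurable_Gm (hd x) i
      have := measurable_N
      fun_prop
    · simp only [Fin.append_right]
      exact measurable_const

theorem act_unit {ω : ℂ × Q} (hω : ω.1 ≠ 0 ∧ ω.2 ≠ 0) : ∃ (w : ℂ) (q : Q), ‖w‖ = 1 ∧ N q = 1 ∧
    ∀ x : Ek k, act ω x = mk (Gm w q (hd x)) (tl x) := by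
  obtain ⟨w, q, hw, hq, he⟩ := exists_unit hω.1 hω.2
  exact ⟨w, q, hw, hq, fun x => by rw [act, if_pos hω, he]⟩

noncomputable def Fk (D s : ℝ) : ℝ := exp (-√(D - 2 * s))

theorem continuous_Fk (D : ℝ) : Continuous (Fk D) := by unfold Fk; fun_prop

theorem Z_eq (x y : Ek k) :
    Z (x - y) = Fk (S (hd x) + S (hd y) + ∑ j, (tl x j - tl y j) ^ 2) (ip (hd x) (hd y)) := by
  rw [Z, Fk, ← norm_sub_sq_eq, sqrt_sq (norm_nonneg _)]

theorem single (x y : Ek k) : ∫ ω, Z (x - act ω y) ∂P
    = ∫ s, Fk (S (hd x) + S (hd y) + ∑ j, (tl x j - tl y j) ^ 2) s ∂(law (hd x) (hd y)) := by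
  rw [law, integral_map (measurable_τ _ _).aemeasurable
    (continuous_Fk _).aestronglyMeasurable]
  refine integral_congr_ae ?_
  filter_upwards [ae_good] with ω hω
  obtain ⟨w, q, hw, hq, he⟩ := act_unit (k := k) hω
  have h1 : S (hd (act ω y)) = S (hd y) := by rw [he, hd_mk, S_Gm hw hq]
  have h2 : tl (act ω y) = tl y := by rw [he, tl_mk]
  rw [Z_eq, h1, h2]
  congr 1
  rw [act, if_pos hω, hd_mk, ip_smul_right, τ, div_eq_inv_mul]

theorem double (x y : Ek k) : ∀ᵐ ω ∂P, ∫ ω', Z (act ω x - act ω' y) ∂P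
    = ∫ s, Fk (S (hd x) + S (hd y) + ∑ j, (tl x j - tl y j) ^ 2) s ∂(law (hd x) (hd y)) := by
  filter_upwards [ae_good] with ω hω
  obtain ⟨w, q, hw, hq, he⟩ := act_unit (k := k) hω
  rw [single, he, hd_mk, tl_mk, S_Gm hw hq, law_act hw hq]

theorem Z_act {ω : ℂ × Q} (hω : ω.1 ≠ 0 ∧ ω.2 ≠ 0) (x y : Ek k) :
    Z (act ω x - act ω y) = Z (x - y) := by
  obtain ⟨w, q, hw, hq, he⟩ := act_unit (k := k) hω
  rw [Z_eq, Z_eq, he, he]
  simp only [hd_mk, tl_mk, S_Gm hw hq, ip_Gm hw hq]

theorem quad_fam {ι : Type} [Fintype ι] (p : ι → Ek k) (w : ι → ℝ) :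
    0 ≤ ∑ i, ∑ j, w i * w j * Z (p i - p j) := by
  let _ : MeasurableSpace ι := ⊤
  obtain ⟨ρ, K, h⟩ := exists_dual (E := Ek k) one_pos
  have := h.core (μ₁ := Measure.count) (μ₂ := Measure.count) (f₁ := w) (f₂ := fun _ : ι => 0)
    (p₁ := p) (p₂ := p) Integrable.of_finite measurable_from_top Integrable.of_finite
    measurable_from_top
  simpa [En, integral_count] using this

theorem cross_le {ω : ℂ × Q} (hω : ω.1 ≠ 0 ∧ ω.2 ≠ 0) (X : Finset (Ek k)) (w : X → ℝ) :
    ∑ i : X, ∑ j : X, w i * w j * Z ((i : Ek k) - act ω j)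
      ≤ ∑ i : X, ∑ j : X, w i * w j * Z ((i : Ek k) - j) := by
  have h := quad_fam (ι := X ⊕ X) (Sum.elim (fun i => (i : Ek k)) fun i => act ω i)
    (Sum.elim w fun i => -w i)
  simp only [Fintype.sum_sum_type, Sum.elim_inl, Sum.elim_inr, Finset.sum_add_distrib,
    Z_act hω, mul_neg, neg_mul, Finset.sum_neg_distrib] at h
  have e : ∑ i : X, ∑ j : X, w i * w j * Z (act ω (i : Ek k) - j)
      = ∑ i : X, ∑ j : X, w i * w j * Z ((i : Ek k) - act ω j) := by
    rw [Finset.sum_comm]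
    refine Finset.sum_congr rfl fun i _ => Finset.sum_congr rfl fun j _ => ?_
    rw [← Z_neg, neg_sub, mul_comm (w j)]
  linarith

theorem integrable_Z_comp {f : ℂ × Q → Ek k} (hf : Measurable f) :
    Integrable (fun ω => Z (f ω)) P := by
  refine Integrable.of_bound (continuous_Z.measurable.comp hf).aestronglyMeasurable 1
    (Filter.Eventually.of_forall fun z => ?_)
  rw [Real.norm_eq_abs, abs_of_pos (Z_pos _)]
  exact exp_le_one_iff.2 (by simp)

theorem bdd {B : Set (Ek k)} (hB : IsCompact B) :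
    BddAbove {m : ℝ | ∃ X : Finset (Ek k), (X : Set (Ek k)) ⊆ B ∧ m = finMagnitude X} := by
  obtain ⟨ρ, K, h⟩ := exists_dual (E := Ek k) one_pos
  obtain ⟨R, hR⟩ := hB.isBounded.subset_closedBall 0
  refine (magnitude_le h (μ := volume) (f := (Metric.closedBall (0 : Ek k) (R + 1)).indicator 1)
    (p := id) ?_ measurable_id B fun x hx => ?_).1
  · exact (integrableOn_const (measure_closedBall_lt_top).ne).integrable_indicator
      measurableSet_closedBall
  · have : ∀ b : Ek k, (Metric.closedBall (0 : Ek k) (R + 1)).indicator 1 b * ρ (x - id b)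
        = ρ (x - b) := by
      intro b
      by_cases hb : b ∈ Metric.closedBall (0 : Ek k) (R + 1)
      · simp [hb]
      · have h1 := hR hx
        rw [mem_closedBall_zero_iff] at hb h1
        have : 1 ≤ ‖x - b‖ := by
          have := norm_sub_norm_le b x
          rw [norm_sub_rev] at this
          linarith [not_le.1 hb]
        simp [h.ρ_supp _ this]
    simp only [this]
    rw [integral_sub_left_eq_self, h.ρ_one]

/-- The invariant set cut out by a condition on the invariants. -/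
def Body (ψ : ℝ → ℝ → ℝ → (Fin k → ℝ) → Prop) : Set (Ek k) :=
  {x | ψ (S (hd x)) (K2 (hd x)) (H2 (hd x)) (tl x)}

theorem act_mem {ψ : ℝ → ℝ → ℝ → (Fin k → ℝ) → Prop} {x : Ek k} (hx : x ∈ Body ψ) (ω : ℂ × Q) :
    act ω x ∈ Body ψ := by
  by_cases hω : ω.1 ≠ 0 ∧ ω.2 ≠ 0
  · obtain ⟨w, q, hw, hq, he⟩ := act_unit (k := k) hω
    rw [he]
    simpa only [Body, mem_ofPred_eq, hd_mk, tl_mk, S_Gm hw hq, K2_Gm hw hq, H2_Gm hw hq] using hx
  · rwa [act, if_neg hω]

theorem transfer (ψ : ℝ → ℝ → ℝ → (Fin k → ℝ) → Prop)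
    (hB : IsCompact (Body fun s a b t => ψ s b a t))
    (hne : (Body fun s a b t => ψ s b a t).Nonempty) :
    magnitude (Body ψ) ≤ magnitude (Body fun s a b t => ψ s b a t) := by
  refine csSup_le ⟨_, ∅, by simp, rfl⟩ ?_
  rintro m ⟨X, hX, rfl⟩
  obtain ⟨w, hw, hm⟩ := exists_weighting X
  obtain ⟨σ, hσ, hlaw⟩ := exists_partner
  let y : X → Ek k := fun i => mk (σ (hd (i : Ek k))) (tl (i : Ek k))
  have hy : ∀ i, y i ∈ Body fun s a b t => ψ s b a t := by
    intro i
    have := hX i.2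
    simpa only [Body, mem_ofPred_eq, y, hd_mk, tl_mk, (hσ _).1, (hσ _).2.1, (hσ _).2.2] using this
  let p : X × (ℂ × Q) → Ek k := fun z => act z.2 (y z.1)
  have hp : Measurable p := measurable_from_prod_countable_right fun i => measurable_act (y i)
  have hf : Integrable (fun z : X × (ℂ × Q) => w z.1) (Measure.count.prod P) :=
    (Integrable.of_finite (μ := Measure.count) (f := w)).comp_fst P
  have key := le_magnitude hf hp hB hne (fun b _ => act_mem (hy b.1) b.2) (bdd hB)
  have e1 : ∫ b : X × (ℂ × Q), w b.1 ∂(Measure.count.prod P) = ∑ i, w i := by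
    rw [integral_prod _ hf, integral_count]
    simp
  set c : X → X → ℝ := fun i j => ∫ s, Fk (S (hd (i : Ek k)) + S (hd (j : Ek k))
    + ∑ l, (tl (i : Ek k) l - tl (j : Ek k) l) ^ 2) s ∂(law (hd (i : Ek k)) (hd (j : Ek k)))
    with hc
  have e2 : En Z (Measure.count.prod P) (fun z => w z.1) p (Measure.count.prod P)
      (fun z => w z.1) p = ∑ i, ∑ j, w i * w j * c i j := by
    have hi := integrable_En_Z hf hp
    have hin : ∀ a : X × (ℂ × Q), ∫ b : X × (ℂ × Q), w a.1 * w b.1 * Z (p a - p b)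
        ∂(Measure.count.prod P) = ∑ j, w a.1 * w j * ∫ ω', Z (p a - act ω' (y j)) ∂P := by
      intro a
      rw [integral_prod, integral_count]
      · simp only [integral_const_mul, p]
      · refine (hf.const_mul (w a.1)).mul_bdd (c := 1)
          (continuous_Z.measurable.comp (measurable_const.sub hp)).aestronglyMeasurable
          (Filter.Eventually.of_forall fun z => ?_)
        rw [Real.norm_eq_abs, abs_of_pos (Z_pos _)]
        exact exp_le_one_iff.2 (by simp)
    rw [En, integral_prod _ hi.integral_prod_left, integral_count]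
    refine Finset.sum_congr rfl fun i _ => ?_
    have : ∀ᵐ ω ∂P, ∀ j, ∫ ω', Z (act ω (y i) - act ω' (y j)) ∂P = c i j := by
      rw [ae_all_iff]
      intro j
      filter_upwards [double (y i) (y j)] with ω hω
      rw [hω]
      simp only [y, hd_mk, tl_mk, (hσ _).1, hlaw, hc]
    rw [integral_congr_ae (g := fun _ => ∑ j, w i * w j * c i j)]
    · simp
    · filter_upwards [this] with ω hω
      refine (hin (i, ω)).trans ?_
      simp only [p, hω]
  have e3 : ∑ i, ∑ j, w i * w j * c i j ≤ ∑ i, w i := by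
    have h1 : ∑ i, ∑ j, w i * w j * c i j
        = ∫ ω, ∑ i : X, ∑ j : X, w i * w j * Z ((i : Ek k) - act ω j) ∂P := by
      have hint : ∀ i j : X, Integrable (fun ω => w i * w j * Z ((i : Ek k) - act ω j)) P :=
        fun i j => (integrable_Z_comp (measurable_const.sub (measurable_act _))).const_mul _
      rw [integral_finsetSum _ fun i _ => integrable_finsetSum _ fun j _ => hint i j]
      refine Finset.sum_congr rfl fun i _ => ?_
      rw [integral_finsetSum _ fun j _ => hint i j]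
      refine Finset.sum_congr rfl fun j _ => ?_
      rw [integral_const_mul, single]
    have h2 : ∑ i : X, ∑ j : X, w i * w j * Z ((i : Ek k) - j) = ∑ i, w i := by
      refine Finset.sum_congr rfl fun i _ => ?_
      simp only [mul_assoc, ← Finset.mul_sum, hw, mul_one]
    rw [h1, ← h2]
    refine (integral_mono_ae (g := fun _ => ∑ i : X, ∑ j : X, w i * w j * Z ((i : Ek k) - j))
      (integrable_finsetSum _ fun i _ => integrable_finsetSum _ fun j _ =>
        (integrable_Z_comp (measurable_const.sub (measurable_act _))).const_mul _)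
      (integrable_const _) ?_).trans (by simp)
    filter_upwards [ae_good] with ω hω
    exact cross_le hω X w
  rw [e1, e2] at key
  linarith

end Pool.Agent.Lib.MP_7c9f8e_gt.Iso
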