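import Mathlib

/-!
The cosine transform, and the transform of the kernel `exp (-‖x‖)` on a Euclidean space.
-/

open MeasureTheory Set Real
open scoped RealInnerProductSpace FourierTransform

namespace Pool.Agent.Lib.MP_7c9f8e_gt

theorem schloemilch_pos {b : ℝ} (hb : 0 < b) :
    ∫ s in Ioi (0:ℝ), exp (-(s - b / s) ^ 2) = √π / 2 := by
  set φ : ℝ → ℝ := fun s => s - b / s with hφ
  have hderiv : ∀ s ∈ Ioi (0:ℝ), HasDerivWithinAt φ (1 + b / s ^ 2) (Ioi 0) s := by
    intro s hs
    have hs' : s ≠ 0 := (mem_Ioi.mp hs).ne'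
    have h1 : HasDerivAt (fun s : ℝ => s - b / s) (1 - b * (-(s ^ 2)⁻¹)) s := by
      have := (hasDerivAt_id s).sub ((hasDerivAt_inv hs').const_mul b)
      exact this
    have h2 : 1 - b * (-(s ^ 2)⁻¹) = 1 + b / s ^ 2 := by field_simp; ring
    rw [h2] at h1
    exact h1.hasDerivWithinAt
  have hinj : InjOn φ (Ioi 0) := by
    have : StrictMonoOn φ (Ioi 0) := by
      intro x hx y hy hxy
      have hx' : 0 < x := hx
      have : b / y < b / x := div_lt_div_of_pos_left hb hx' hxy
      simp only [hφ]; linarith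
    exact this.injOn
  have himg : φ '' Ioi 0 = univ := by
    apply eq_univ_of_forall
    intro v
    have hq : 0 < v ^ 2 + 4 * b := by positivity
    have hsq := sq_sqrt hq.le
    have hgt : |v| < √(v ^ 2 + 4 * b) := by
      apply lt_sqrt_of_sq_lt; rw [sq_abs]; linarith
    have hpos : 0 < (v + √(v ^ 2 + 4 * b)) / 2 := by
      have := neg_abs_le v; linarith
    refine ⟨(v + √(v ^ 2 + 4 * b)) / 2, hpos, ?_⟩
    simp only [hφ]
    have hne : (v + √(v ^ 2 + 4 * b)) ≠ 0 := by linarith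
    field_simp
    nlinarith
  have h1 := integral_image_eq_integral_abs_deriv_smul measurableSet_Ioi hderiv hinj
    (fun v => exp (-v ^ 2))
  have hI := (integrableOn_image_iff_integrableOn_abs_deriv_smul measurableSet_Ioi hderiv hinj
    (fun v => exp (-v ^ 2))).1 (by
      rw [himg, integrableOn_univ]
      simpa using integrable_exp_neg_mul_sq (b := 1) one_pos)
  rw [himg, Measure.restrict_univ] at h1
  have hg : ∫ v : ℝ, exp (-v ^ 2) = √π := by
    simpa using integral_gaussian 1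
  rw [hg] at h1
  -- the inversion s -> b / s
  set ψ : ℝ → ℝ := fun s => b / s with hψ
  have hderiv2 : ∀ s ∈ Ioi (0:ℝ), HasDerivWithinAt ψ (-(b / s ^ 2)) (Ioi 0) s := by
    intro s hs
    have hs' : s ≠ 0 := (mem_Ioi.mp hs).ne'
    have h1 : HasDerivAt (fun s : ℝ => b / s) (b * (-(s ^ 2)⁻¹)) s := by
      have := ((hasDerivAt_inv hs').const_mul b)
      simpa [div_eq_mul_inv] using this
    have h2 : b * (-(s ^ 2)⁻¹) = -(b / s ^ 2) := by field_simp
    rw [h2] at h1
    exact h1.hasDerivWithinAt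
  have hinj2 : InjOn ψ (Ioi 0) := by
    have : StrictAntiOn ψ (Ioi 0) := by
      intro x hx y hy hxy
      exact div_lt_div_of_pos_left hb hx hxy
    exact this.injOn
  have himg2 : ψ '' Ioi 0 = Ioi 0 := by
    ext v; constructor
    · rintro ⟨s, hs, rfl⟩; exact div_pos hb hs
    · intro hv
      have hv' : 0 < v := hv
      exact ⟨b / v, div_pos hb hv', by simp only [hψ]; field_simp⟩
  have h2 := integral_image_eq_integral_abs_deriv_smul measurableSet_Ioi hderiv2 hinj2
    (fun s => exp (-(φ s) ^ 2))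
  rw [himg2] at h2
  have h3 : ∫ s in Ioi (0:ℝ), |(-(b / s ^ 2))| • exp (-(φ (ψ s)) ^ 2)
      = ∫ s in Ioi (0:ℝ), (b / s ^ 2) * exp (-(φ s) ^ 2) := by
    refine setIntegral_congr_fun measurableSet_Ioi fun s hs => ?_
    have hs' : 0 < s := hs
    have : φ (ψ s) = -φ s := by simp only [hφ, hψ]; field_simp; ring
    simp only [this, neg_sq, abs_neg, smul_eq_mul]
    rw [abs_of_pos (by positivity)]
  rw [h3] at h2
  have hmeas : Measurable φ := by simp only [hφ]; fun_prop
  have hA : IntegrableOn (fun s => exp (-(φ s) ^ 2)) (Ioi 0) := by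
    refine hI.mono' (by fun_prop) ?_
    refine (ae_restrict_iff' measurableSet_Ioi).2 (Filter.Eventually.of_forall fun s hs => ?_)
    have hs' : 0 < s := hs
    have h0 : 0 ≤ b / s ^ 2 := by positivity
    rw [Real.norm_eq_abs, abs_of_pos (exp_pos _), smul_eq_mul, abs_of_pos (by positivity)]
    nlinarith [exp_pos (-(φ s) ^ 2)]
  have hB : IntegrableOn (fun s => (b / s ^ 2) * exp (-(φ s) ^ 2)) (Ioi 0) := by
    refine hI.mono' (by fun_prop) ?_
    refine (ae_restrict_iff' measurableSet_Ioi).2 (Filter.Eventually.of_forall fun s hs => ?_)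
    have hs' : 0 < s := hs
    have h0 : 0 ≤ b / s ^ 2 := by positivity
    rw [Real.norm_eq_abs, abs_of_nonneg (by positivity), smul_eq_mul, abs_of_pos (by positivity)]
    nlinarith [exp_pos (-(φ s) ^ 2)]
  have h4 : ∫ s in Ioi (0:ℝ), |1 + b / s ^ 2| • exp (-(φ s) ^ 2)
      = (∫ s in Ioi (0:ℝ), exp (-(φ s) ^ 2)) + ∫ s in Ioi (0:ℝ), (b / s ^ 2) * exp (-(φ s) ^ 2) := by
    rw [← integral_add hA hB]
    refine setIntegral_congr_fun measurableSet_Ioi fun s hs => ?_
    have hs' : 0 < s := hs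
    simp only [smul_eq_mul]
    rw [abs_of_pos (by positivity)]; ring
  rw [h4, ← h2] at h1
  show ∫ s in Ioi (0:ℝ), exp (-(φ s) ^ 2) = √π / 2
  linarith

/-- Subordination: `exp (-r)` is a mixture of Gaussians. -/
theorem subordination {r : ℝ} (hr : 0 ≤ r) :
    ∫ s in Ioi (0:ℝ), exp (-s ^ 2) * exp (-(1 / (4 * s ^ 2)) * r ^ 2) = √π / 2 * exp (-r) := by
  rcases hr.eq_or_lt with h | h
  · subst h
    have := integral_gaussian_Ioi 1
    simpa using this
  · have h1 := schloemilch_pos (b := r / 2) (by positivity)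
    rw [← h1, ← integral_mul_const]
    refine setIntegral_congr_fun measurableSet_Ioi fun s hs => ?_
    have hs' : 0 < s := hs
    simp only [← exp_add]
    congr 1
    field_simp
    ring

variable {E : Type*} [NormedAddCommGroup E] [InnerProductSpace ℝ E] [FiniteDimensional ℝ E]
  [MeasurableSpace E] [BorelSpace E]

/-- The cosine transform. -/
noncomputable def cosT (f : E → ℝ) (w : E) : ℝ := ∫ x, f x * cos (2 * π * ⟪x, w⟫)

theorem cosT_neg (f : E → ℝ) (w : E) : cosT f (-w) = cosT f w := by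
  simp [cosT, inner_neg_right]

theorem integral_sin_eq_zero {f : E → ℝ} (he : ∀ x, f (-x) = f x) (w : E) :
    ∫ x, f x * sin (2 * π * ⟪x, w⟫) = 0 := by
  have h := integral_neg_eq_self (fun x => f x * sin (2 * π * ⟪x, w⟫)) (volume : Measure E)
  simp only [he, inner_neg_left, mul_neg, sin_neg, integral_neg] at h
  linarith

theorem integrable_mul_cos {f : E → ℝ} (hf : Integrable f) (w : E) :
    Integrable (fun x => f x * cos (2 * π * ⟪x, w⟫)) := by
  refine hf.mul_bdd (c := 1) (by fun_prop) (Filter.Eventually.of_forall fun x => ?_)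
  exact abs_cos_le_one _

theorem integrable_mul_sin {f : E → ℝ} (hf : Integrable f) (w : E) :
    Integrable (fun x => f x * sin (2 * π * ⟪x, w⟫)) := by
  refine hf.mul_bdd (c := 1) (by fun_prop) (Filter.Eventually.of_forall fun x => ?_)
  exact abs_sin_le_one _

theorem fourier_even {f : E → ℝ} (hf : Integrable f) (he : ∀ x, f (-x) = f x) (w : E) :
    𝓕 (fun x => (f x : ℂ)) w = (cosT f w : ℂ) := by
  rw [fourier_eq']
  have h1 : ∀ x : E, Complex.exp (((-2 * π * ⟪x, w⟫ : ℝ) : ℂ) * Complex.I) • (f x : ℂ)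
      = ((f x * cos (2 * π * ⟪x, w⟫) : ℝ) : ℂ)
        - ((f x * sin (2 * π * ⟪x, w⟫) : ℝ) : ℂ) * Complex.I := by
    intro x
    rw [Complex.exp_mul_I, ← Complex.ofReal_cos, ← Complex.ofReal_sin]
    have : (-2 * π * ⟪x, w⟫ : ℝ) = -(2 * π * ⟪x, w⟫) := by ring
    rw [this, cos_neg, sin_neg]
    push_cast
    simp only [smul_eq_mul]
    ring
  simp_rw [h1]
  rw [integral_sub (integrable_mul_cos hf w).ofReal
    ((integrable_mul_sin hf w).ofReal.mul_const _), integral_mul_const, integral_complex_ofReal,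
    integral_complex_ofReal, integral_sin_eq_zero he]
  simp [cosT]

theorem fourierInv_even {f : E → ℝ} (hf : Integrable f) (he : ∀ x, f (-x) = f x) (w : E) :
    𝓕⁻ (fun x => (f x : ℂ)) w = (cosT f w : ℂ) := by
  rw [fourierInv_eq_fourier_neg, fourier_even hf he, cosT_neg]

/-- Fourier inversion for the cosine transform. -/
theorem cosT_cosT {f : E → ℝ} (hc : Continuous f) (hf : Integrable f) (he : ∀ x, f (-x) = f x)
    (hi : Integrable (cosT f)) (x : E) : cosT (cosT f) x = f x := by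
  have h1 : 𝓕 (fun x => (f x : ℂ)) = fun w => (cosT f w : ℂ) := funext (fourier_even hf he)
  have h2 := Continuous.fourierInv_fourier_eq (f := fun x => (f x : ℂ)) (by fun_prop) hf.ofReal
    (by rw [h1]; exact hi.ofReal)
  have h3 := congrFun h2 x
  rw [h1, fourierInv_even hi (cosT_neg f)] at h3
  exact_mod_cast h3

theorem cosT_gaussian {b : ℝ} (hb : 0 < b) (w : E) :
    cosT (fun x : E => exp (-b * ‖x‖ ^ 2)) w
      = (π / b) ^ ((Module.finrank ℝ E : ℝ) / 2) * exp (-π ^ 2 * ‖w‖ ^ 2 / b) := by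
  have hi : Integrable (fun x : E => exp (-b * ‖x‖ ^ 2)) := by
    have := GaussianFourier.integrable_cexp_neg_mul_sq_norm_add (V := E) (b := (b : ℂ))
      (by simpa using hb) 0 0
    refine this.norm.congr (Filter.Eventually.of_forall fun x => ?_)
    simp only [zero_mul, add_zero]
    rw [Complex.norm_exp]
    congr 1
    simp [← Complex.ofReal_pow]
  have h1 := fourier_even hi (by simp) w
  have h2 := fourier_gaussian_innerProductSpace (V := E) (b := (b : ℂ)) (by simpa using hb) w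
  have h3 : (fun x : E => ((exp (-b * ‖x‖ ^ 2) : ℝ) : ℂ))
      = fun v : E => Complex.exp (-(b : ℂ) * (‖v‖ : ℂ) ^ 2) := by
    ext x; push_cast; rfl
  rw [h3, h2] at h1
  apply Complex.ofReal_injective
  rw [← h1]
  push_cast
  rw [Complex.ofReal_cpow (by positivity)]
  push_cast
  rfl

/-- The kernel. -/
noncomputable def Z (x : E) : ℝ := exp (-‖x‖)

omit [InnerProductSpace ℝ E] [FiniteDimensional ℝ E] [MeasurableSpace E] [BorelSpace E] in
theorem Z_pos (x : E) : 0 < Z x := exp_pos _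

omit [InnerProductSpace ℝ E] [FiniteDimensional ℝ E] [MeasurableSpace E] [BorelSpace E] in
theorem Z_neg (x : E) : Z (-x) = Z x := by simp [Z]

omit [InnerProductSpace ℝ E] [FiniteDimensional ℝ E] [MeasurableSpace E] [BorelSpace E] in
@[fun_prop]
theorem continuous_Z : Continuous (Z : E → ℝ) := by unfold Z; fun_prop

omit [InnerProductSpace ℝ E] [FiniteDimensional ℝ E] [MeasurableSpace E] [BorelSpace E] in
theorem abs_Z_sub_le (x y : E) : |Z x - Z y| ≤ ‖x - y‖ := by
  have key : ∀ a b : ℝ, 0 ≤ a → a ≤ b → exp (-a) - exp (-b) ≤ b - a := by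
    intro a b ha hab
    have h1 : exp (-a) ≤ 1 := exp_le_one_iff.2 (by linarith)
    have h2 := add_one_le_exp (-(b - a))
    have h3 : exp (-b) = exp (-a) * exp (-(b - a)) := by rw [← exp_add]; congr 1; ring
    rw [h3]
    nlinarith [exp_pos (-a)]
  have hn := abs_norm_sub_norm_le x y
  rw [abs_le] at hn ⊢
  simp only [Z]
  rcases le_total ‖x‖ ‖y‖ with h | h
  · have := key _ _ (norm_nonneg x) h
    have h2 : exp (-‖y‖) ≤ exp (-‖x‖) := exp_le_exp.2 (by linarith)
    constructor <;> linarith [norm_nonneg (x - y)]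
  · have := key _ _ (norm_nonneg y) h
    have h2 : exp (-‖x‖) ≤ exp (-‖y‖) := exp_le_exp.2 (by linarith)
    constructor <;> linarith [norm_nonneg (x - y)]

theorem integrable_Z_mul_pow (k : ℕ) : Integrable (fun x : E => Z x * (1 + ‖x‖) ^ k) := by
  set d := Module.finrank ℝ E
  have h1 := (integrable_one_add_norm (E := E) (μ := volume) (r := (d + 1 : ℝ))
    (by simp [d])).const_mul (((k + d + 1).factorial : ℝ) * exp 1)
  refine h1.mono' (by fun_prop) (Filter.Eventually.of_forall fun x => ?_)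
  have hx : 0 < 1 + ‖x‖ := by positivity
  rw [Real.norm_eq_abs, abs_of_nonneg (mul_nonneg (Z_pos x).le (by positivity))]
  have h2 := pow_div_factorial_le_exp (1 + ‖x‖) hx.le (k + d + 1)
  have h3 : (1 + ‖x‖) ^ (-(d + 1 : ℝ)) = ((1 + ‖x‖) ^ (d + 1))⁻¹ := by
    rw [rpow_neg hx.le]; norm_cast
  rw [h3, div_le_iff₀ (by positivity)] at *
  have h4 : Z x * exp (1 + ‖x‖) = exp 1 := by rw [Z, ← exp_add]; congr 1; ring
  rw [← div_eq_mul_inv, le_div_iff₀ (by positivity)]
  have h5 : (1 + ‖x‖) ^ k * (1 + ‖x‖) ^ (d + 1) = (1 + ‖x‖) ^ (k + d + 1) := by ring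
  calc Z x * (1 + ‖x‖) ^ k * (1 + ‖x‖) ^ (d + 1) = Z x * (1 + ‖x‖) ^ (k + d + 1) := by
        rw [mul_assoc, h5]
    _ ≤ Z x * (exp (1 + ‖x‖) * ((k + d + 1).factorial : ℝ)) :=
        mul_le_mul_of_nonneg_left h2 (Z_pos x).le
    _ = _ := by rw [← mul_assoc, h4]; ring

theorem integrable_Z : Integrable (Z : E → ℝ) := by
  simpa using integrable_Z_mul_pow (E := E) 0

theorem exists_cosT_Z : ∃ c : ℝ, ∀ w : E,
    cosT Z w = c * (1 + 4 * π ^ 2 * ‖w‖ ^ 2) ^ (-((Module.finrank ℝ E : ℝ) + 1) / 2) := by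
  set d := Module.finrank ℝ E
  refine ⟨2 / √π * (4 * π) ^ ((d : ℝ) / 2) * (1 / 2 * Gamma (((d : ℝ) + 1) / 2)), fun w => ?_⟩
  have hπ : 0 < √π := sqrt_pos.2 pi_pos
  set F : E → ℝ → ℝ := fun x s => exp (-s ^ 2) * exp (-(1 / (4 * s ^ 2)) * ‖x‖ ^ 2) with hF
  have hFm : Measurable (Function.uncurry F) := by simp only [hF]; fun_prop
  have hFi : ∀ x, IntegrableOn (F x) (Ioi 0) := by
    intro x
    refine ((integrable_exp_neg_mul_sq (b := 1) one_pos).integrableOn).mono'
      (by simp only [hF]; fun_prop) (Filter.Eventually.of_forall fun s => ?_)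
    simp only [hF]
    rw [Real.norm_eq_abs, abs_of_pos (by positivity)]
    have : exp (-(1 / (4 * s ^ 2)) * ‖x‖ ^ 2) ≤ 1 := by
      apply exp_le_one_iff.2
      have : 0 ≤ (1 / (4 * s ^ 2)) * ‖x‖ ^ 2 := by positivity
      linarith
    simp only [neg_mul, one_mul] at *
    nlinarith [exp_pos (-s ^ 2)]
  have hFint : Integrable (Function.uncurry F) (volume.prod (volume.restrict (Ioi (0:ℝ)))) := by
    rw [integrable_prod_iff hFm.aestronglyMeasurable]
    refine ⟨Filter.Eventually.of_forall hFi, ?_⟩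
    refine ((integrable_Z (E := E)).const_mul (√π / 2)).congr
      (Filter.Eventually.of_forall fun x => ?_)
    have := subordination (norm_nonneg x)
    simp only [Z, Function.uncurry_apply_pair]
    rw [← this]
    refine setIntegral_congr_fun measurableSet_Ioi fun s _ => ?_
    simp only [hF]
    rw [Real.norm_eq_abs, abs_of_pos (by positivity)]
  have hG : Integrable (Function.uncurry fun (x : E) (s : ℝ) => F x s * cos (2 * π * ⟪x, w⟫))
      (volume.prod (volume.restrict (Ioi (0:ℝ)))) := by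
    refine hFint.mul_bdd (c := 1) (by fun_prop) (Filter.Eventually.of_forall fun x => ?_)
    exact abs_cos_le_one _
  have h1 : cosT Z w = 2 / √π * ∫ x, ∫ s in Ioi (0:ℝ), F x s * cos (2 * π * ⟪x, w⟫) := by
    rw [cosT, ← integral_const_mul]
    congr 1 with x
    rw [integral_mul_const]
    simp only [hF]
    rw [subordination (norm_nonneg x), Z]
    field_simp
  rw [h1, integral_integral_swap hG]
  have h2 : ∫ s in Ioi (0:ℝ), ∫ x : E, F x s * cos (2 * π * ⟪x, w⟫)
      = ∫ s in Ioi (0:ℝ), (4 * π) ^ ((d : ℝ) / 2) *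
          (s ^ (d : ℝ) * exp (-(1 + 4 * π ^ 2 * ‖w‖ ^ 2) * s ^ (2 : ℝ))) := by
    refine setIntegral_congr_fun measurableSet_Ioi fun s hs => ?_
    have hs' : 0 < s := hs
    have h3 := cosT_gaussian (E := E) (b := 1 / (4 * s ^ 2)) (by positivity) w
    simp only [hF, mul_assoc]
    rw [integral_const_mul]
    simp only [cosT, mul_assoc] at h3
    rw [h3]
    have h4 : π / (1 / (4 * s ^ 2)) = (4 * π) * s ^ (2 : ℝ) := by
      rw [rpow_two]; field_simp
    rw [h4, mul_rpow (by positivity) (by positivity), ← rpow_mul hs'.le]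
    have h5 : (2 : ℝ) * ((d : ℝ) / 2) = d := by ring
    rw [h5, rpow_two]
    have h6 : exp (-(1 + 4 * (π ^ 2 * ‖w‖ ^ 2)) * s ^ 2)
        = exp (-s ^ 2) * exp (-π ^ 2 * ‖w‖ ^ 2 / (1 / (4 * s ^ 2))) := by
      rw [← exp_add]; congr 1; field_simp; ring
    rw [h6]; ring
  rw [h2, integral_const_mul, integral_rpow_mul_exp_neg_mul_rpow two_pos
    (by have : (0:ℝ) ≤ d := Nat.cast_nonneg d; linarith) (by positivity)]
  ring

/-- The total mass of the kernel. -/
noncomputable def cZ (E : Type*) [NormedAddCommGroup E] [InnerProductSpace ℝ E]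
    [FiniteDimensional ℝ E] [MeasurableSpace E] [BorelSpace E] : ℝ := ∫ x : E, Z x

theorem cZ_pos : 0 < cZ E :=
  integral_exp_pos (integrable_Z (E := E))

theorem cosT_Z (w : E) :
    cosT Z w = cZ E * (1 + 4 * π ^ 2 * ‖w‖ ^ 2) ^ (-((Module.finrank ℝ E : ℝ) + 1) / 2) := by
  obtain ⟨c, hc⟩ := exists_cosT_Z (E := E)
  have h0 := hc 0
  simp [cosT] at h0
  rw [hc w, cZ, h0]

theorem cosT_Z_pos (w : E) : 0 < cosT Z w := by
  rw [cosT_Z]; exact mul_pos cZ_pos (by positivity)

theorem integrable_cosT_Z : Integrable (cosT (Z : E → ℝ)) := by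
  have h1 := integrable_rpow_neg_one_add_norm_sq (E := E) (μ := volume)
    (r := (Module.finrank ℝ E : ℝ) + 1) (by linarith)
  have h2 := (h1.comp_smul (R := 2 * π) (by positivity)).const_mul (cZ E)
  refine h2.congr (Filter.Eventually.of_forall fun w => ?_)
  simp only [cosT_Z, norm_smul]
  rw [Real.norm_eq_abs, abs_of_pos (by positivity)]
  congr 2; ring

theorem cosT_cosT_Z (x : E) : cosT (cosT Z) x = Z x :=
  cosT_cosT continuous_Z integrable_Z Z_neg integrable_cosT_Z x

end Pool.Agent.Lib.MP_7c9f8e_gt
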