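import Pool.Agent.Lib.MP_7c9f8e_gt.Cone

/-!
First-order volume asymptotics for intersections of shifted parallel bodies of a convex body.
-/

open MeasureTheory Set Real Metric Filter Topology
open scoped ENNReal NNReal RealInnerProductSpace

namespace Pool.Agent.Lib.MP_7c9f8e_gt

section sd

variable {E : Type*} [NormedAddCommGroup E]

/-- Signed distance. -/
noncomputable def sd (A : Set E) (x : E) : ℝ := infDist x A - infDist x Aᶜ

theorem continuous_sd (A : Set E) : Continuous (sd A) :=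
  (continuous_infDist_pt A).sub (continuous_infDist_pt Aᶜ)

theorem sd_le_dist {A : Set E} {x a : E} (ha : a ∈ A) : sd A x ≤ dist x a := by
  have h1 := infDist_le_dist_of_mem (x := x) ha
  have h2 := infDist_nonneg (x := x) (s := Aᶜ)
  simp only [sd]; linarith

theorem sd_le_of_ball {A : Set E} (hc : Aᶜ.Nonempty) {x : E} {ρ : ℝ} (hρ : 0 ≤ ρ)
    (h : closedBall x ρ ⊆ A) : sd A x ≤ -ρ := by
  have h1 : infDist x A = 0 := infDist_zero_of_mem (h (mem_closedBall_self hρ))
  have h2 : ρ ≤ infDist x Aᶜ := (le_infDist hc).2 fun y hy => by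
    by_contra hlt
    exact hy (h (by rw [mem_closedBall, dist_comm]; exact (not_le.1 hlt).le))
  simp only [sd]; linarith

theorem exists_near_of_sd_le {A : Set E} (hA : IsCompact A) (hne : A.Nonempty) {x : E} {ρ : ℝ}
    (hρ : 0 ≤ ρ) (h : sd A x ≤ ρ) : ∃ a ∈ A, dist x a ≤ ρ := by
  by_cases hx : x ∈ A
  · exact ⟨x, hx, by simpa using hρ⟩
  · obtain ⟨a, ha, had⟩ := hA.exists_infDist_eq_dist hne x
    have h1 : infDist x Aᶜ = 0 := infDist_zero_of_mem hx
    refine ⟨a, ha, ?_⟩
    simp only [sd] at h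
    linarith

theorem mem_of_sd_nonpos {A : Set E} (hA : IsCompact A) (hne : A.Nonempty) {x : E}
    (h : sd A x ≤ 0) : x ∈ A := by
  obtain ⟨a, ha, had⟩ := exists_near_of_sd_le hA hne le_rfl h
  rw [dist_le_zero] at had
  exact had ▸ ha

variable [InnerProductSpace ℝ E]

theorem le_sd_of_halfspace {A : Set E} (hne : A.Nonempty) {N : E} (hN : ‖N‖ = 1) {c : ℝ}
    (h : ∀ a ∈ A, ⟪N, a⟫ ≤ c) (x : E) : ⟪N, x⟫ - c ≤ sd A x := by
  rcases lt_or_ge c ⟪N, x⟫ with hx | hx
  · have hxA : x ∉ A := fun hxA => absurd (h x hxA) (not_le.2 hx)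
    have h1 : infDist x Aᶜ = 0 := infDist_zero_of_mem hxA
    have h2 : ⟪N, x⟫ - c ≤ infDist x A := (le_infDist hne).2 fun a ha => by
      have := real_inner_le_norm N (x - a)
      rw [hN, inner_sub_right, one_mul, ← dist_eq_norm] at this
      linarith [h a ha]
    simp only [sd]; linarith
  · have h1 := infDist_nonneg (x := x) (s := A)
    have h2 : infDist x Aᶜ ≤ c - ⟪N, x⟫ := by
      refine le_of_forall_pos_le_add fun η hη => ?_
      have hy : x + (c - ⟪N, x⟫ + η) • N ∈ Aᶜ := by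
        intro hy
        have := h _ hy
        rw [inner_add_right, inner_smul_right, real_inner_self_eq_norm_sq, hN] at this
        linarith
      refine (infDist_le_dist_of_mem hy).trans ?_
      rw [dist_self_add_right, norm_smul, hN, mul_one, Real.norm_eq_abs,
        abs_of_nonneg (by linarith)]
    simp only [sd]; linarith

/-- The intersection of two shifted signed parallel bodies. -/
def lay (A : Set E) (ε r r' : ℝ) (h : E) : Set E :=
  {x | sd A x ≤ ε * r ∧ sd A (x - ε • h) ≤ ε * r'}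

theorem isClosed_lay (A : Set E) (ε r r' : ℝ) (h : E) : IsClosed (lay A ε r r' h) :=
  (isClosed_le (continuous_sd A) continuous_const).inter
    (isClosed_le ((continuous_sd A).comp (by fun_prop)) continuous_const)

/-- A gauge function for a convex body containing the origin in its interior. -/
structure Gau (A : Set E) (γ : E → ℝ) (M : ℝ≥0) : Prop where
  mem : ∀ x, x ∈ A ↔ γ x ≤ 1
  lip : LipschitzWith M γ
  hom : ∀ c : ℝ, 0 ≤ c → ∀ x, γ (c • x) = c * γ x
  pos : ∀ x, x ≠ 0 → 0 < γ x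
  add : ∀ x y, γ (x + y) ≤ γ x + γ y
  cpt : IsCompact A

theorem exists_gau {A : Set E} (hA : IsCompact A) (hc : Convex ℝ A) (h0 : A ∈ 𝓝 (0 : E)) :
    ∃ M, Gau A (gauge A) M := by
  obtain ⟨M, hM⟩ := hc.lipschitz_gauge h0
  have hab := absorbent_nhds_zero (𝕜 := ℝ) h0
  refine ⟨M, fun x => ?_, hM, fun c hc0 x => ?_, fun x hx => ?_, gauge_add_le hc hab, hA⟩
  · rw [gauge_le_one_iff_mem_closure hc h0, hA.isClosed.closure_eq]
  · rw [gauge_smul_of_nonneg hc0, smul_eq_mul]
  · exact (gauge_pos hab (hA.isVonNBounded ℝ)).2 hx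

namespace Gau

variable {A : Set E} {γ : E → ℝ} {M : ℝ≥0}

theorem nonempty (H : Gau A γ M) : A.Nonempty := by
  refine ⟨0, (H.mem 0).2 ?_⟩
  have := H.hom 0 le_rfl 0
  simp at this
  rw [this]; exact zero_le_one

theorem compl_nonempty [Nontrivial E] (H : Gau A γ M) : Aᶜ.Nonempty := by
  obtain ⟨x, hx⟩ := exists_ne (0 : E)
  have h := H.pos x hx
  refine ⟨(2 / γ x) • x, fun hm => ?_⟩
  rw [H.mem, H.hom _ (by positivity)] at hm
  field_simp at hm
  linarith

theorem le_add (H : Gau A γ M) (x y : E) : γ x ≤ γ y + M * dist x y := H.lip.le_add_mul x y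

theorem outer (H : Gau A γ M) {x : E} {ρ : ℝ} (hρ : 0 ≤ ρ) (h : sd A x ≤ ρ) :
    γ x ≤ 1 + M * ρ := by
  obtain ⟨a, ha, had⟩ := exists_near_of_sd_le H.cpt H.nonempty hρ h
  have h1 := H.le_add x a
  have h2 := (H.mem a).1 ha
  have h3 : (M : ℝ) * dist x a ≤ M * ρ := mul_le_mul_of_nonneg_left had M.2
  linarith

theorem inner' (H : Gau A γ M) {x : E} {ρ : ℝ} (h : γ x ≤ 1 - M * ρ) : closedBall x ρ ⊆ A := by
  intro y hy
  rw [H.mem]
  have h1 := H.le_add y x
  have h3 : (M : ℝ) * dist y x ≤ M * ρ := mul_le_mul_of_nonneg_left hy M.2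
  linarith

theorem mem_lay [Nontrivial E] (H : Gau A γ M) {ε r r' : ℝ} {h x : E} (hε : 0 ≤ ε)
    (hx : γ x ≤ 1 - M * (ε * (|r| + |r'| + ‖h‖))) : x ∈ lay A ε r r' h := by
  have hb := H.inner' hx
  have a1 := abs_nonneg r
  have a2 := abs_nonneg r'
  have a3 := norm_nonneg h
  constructor
  · refine (sd_le_of_ball H.compl_nonempty (by positivity) hb).trans ?_
    nlinarith [neg_abs_le r]
  · refine (sd_le_of_ball H.compl_nonempty (ρ := ε * |r'|) (by positivity) ?_).trans ?_
    · refine Subset.trans (closedBall_subset_closedBall' ?_) hb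
      rw [dist_self_sub_left, norm_smul, Real.norm_eq_abs, abs_of_nonneg hε]
      nlinarith
    · nlinarith [neg_abs_le r']

theorem le_of_mem_lay (H : Gau A γ M) {ε r r' : ℝ} {h x : E} (hε : 0 ≤ ε)
    (hx : x ∈ lay A ε r r' h) : γ x ≤ 1 + M * (ε * (|r| + |r'| + ‖h‖)) := by
  have a1 := abs_nonneg r
  have a2 := abs_nonneg r'
  have a3 := norm_nonneg h
  refine H.outer (by positivity) (hx.1.trans ?_)
  nlinarith [le_abs_self r]

theorem support (H : Gau A γ M) {θ G : E} (hθ : γ θ = 1)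
    (hd : HasFDerivAt γ (innerSL ℝ G) θ) : (∀ x, ⟪G, x⟫ ≤ γ x) ∧ ⟪G, θ⟫ = 1 := by
  have hder : ∀ x, HasDerivAt (fun t : ℝ => γ (θ + t • x)) ⟪G, x⟫ 0 := by
    intro x
    have h1 : HasDerivAt (fun t : ℝ => θ + t • x) x 0 := by
      simpa using ((hasDerivAt_id (0:ℝ)).smul_const x).const_add θ
    have h2 : HasFDerivAt γ (innerSL ℝ G) (θ + (0:ℝ) • x) := by simpa using hd
    exact h2.comp_hasDerivAt (0:ℝ) h1
  constructor
  · intro x
    refine le_of_tendsto (hder x).tendsto_slope_zero_right ?_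
    filter_upwards [self_mem_nhdsWithin] with t ht
    have ht' : 0 < t := ht
    have h1 := H.add θ (t • x)
    rw [H.hom t ht'.le] at h1
    simp only [zero_add, zero_smul, add_zero, smul_eq_mul]
    rw [inv_mul_le_iff₀ ht']
    linarith
  · have h1 : HasDerivAt (fun t : ℝ => 1 + t) 1 0 := by
      simpa using (hasDerivAt_id (0:ℝ)).const_add 1
    have h2 : HasDerivAt (fun t : ℝ => γ (θ + t • θ)) 1 0 := by
      refine h1.congr_of_eventuallyEq ?_
      filter_upwards [Ioi_mem_nhds (show (-1:ℝ) < 0 by norm_num)] with t ht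
      have ht' : -1 < t := ht
      rw [show θ + t • θ = (1 + t) • θ by rw [add_smul, one_smul], H.hom _ (by linarith), hθ,
        mul_one]
    exact (hder θ).unique h2

theorem near_mem (H : Gau A γ M) {θ G : E} (hθ : γ θ = 1)
    (hd : HasFDerivAt γ (innerSL ℝ G) θ) {η B : ℝ} (hη : 0 < η) (hB : 0 < B) :
    ∀ᶠ ε in 𝓝[>] (0:ℝ), ∀ q : E, ‖q‖ ≤ B → ⟪G, q⟫ ≤ -η → θ + ε • q ∈ A := by
  have h1 := (hasFDerivAt_iff_isLittleO_nhds_zero.1 hd).bound (c := η / B) (by positivity)
  obtain ⟨δ, hδ, h2⟩ := Metric.eventually_nhds_iff.1 h1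
  filter_upwards [Ioo_mem_nhdsGT (show (0:ℝ) < δ / B by positivity)] with ε hε q hq hGq
  have hn : ‖ε • q‖ ≤ ε * B := by
    rw [norm_smul, Real.norm_eq_abs, abs_of_pos hε.1]
    exact mul_le_mul_of_nonneg_left hq hε.1.le
  have h3 := h2 (y := ε • q) (by
    rw [dist_zero_right]
    exact hn.trans_lt ((lt_div_iff₀ hB).1 hε.2))
  rw [H.mem]
  simp only [innerSL_apply_apply, inner_smul_right, Real.norm_eq_abs, hθ] at h3
  have h4 : η / B * ‖ε • q‖ ≤ ε * η := by
    refine (mul_le_mul_of_nonneg_left hn (by positivity)).trans_eq ?_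
    field_simp
  have h5 : ε * ⟪G, q⟫ ≤ ε * (-η) := mul_le_mul_of_nonneg_left hGq hε.1.le
  linarith [le_abs_self (γ (θ + ε • q) - 1 - ε * ⟪G, q⟫)]

theorem near_sd [Nontrivial E] (H : Gau A γ M) {θ G : E} (hθ : γ θ = 1)
    (hd : HasFDerivAt γ (innerSL ℝ G) θ) {η B : ℝ} (hη : 0 < η) (hB : 0 < B) :
    ∀ᶠ ε in 𝓝[>] (0:ℝ), ∀ (y : E) (r : ℝ), ‖y‖ ≤ B → |r| ≤ B → ⟪G, y⟫ ≤ r * ‖G‖ - η →
      sd A (θ + ε • y) ≤ ε * r := by
  have hG : G ≠ 0 := by
    rintro rfl
    simpa using (H.support hθ hd).2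
  have hGn : 0 < ‖G‖ := norm_pos_iff.2 hG
  filter_upwards [H.near_mem hθ hd hη (show 0 < 2 * B by positivity), self_mem_nhdsWithin]
    with ε h1 hε y r hy hr hyr
  have hε' : 0 < ε := hε
  rcases le_or_gt 0 r with h0 | h0
  · have hn : ‖(r / ‖G‖) • G‖ = r := by
      rw [norm_smul, Real.norm_eq_abs, abs_of_nonneg (by positivity)]; field_simp
    have h2 := h1 (y - (r / ‖G‖) • G) (by
      have := norm_sub_le y ((r / ‖G‖) • G)
      rw [hn] at this
      linarith [le_abs_self r]) (by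
      rw [inner_sub_right, inner_smul_right, real_inner_self_eq_norm_sq]
      have : r / ‖G‖ * ‖G‖ ^ 2 = r * ‖G‖ := by field_simp
      linarith)
    refine (sd_le_dist h2).trans_eq ?_
    rw [dist_add_left, dist_eq_norm, ← smul_sub, sub_sub_cancel, norm_smul, hn, Real.norm_eq_abs,
      abs_of_pos hε']
  · have h2 : closedBall (θ + ε • y) (ε * (-r)) ⊆ A := by
      intro x hx
      rw [mem_closedBall, dist_eq_norm] at hx
      set p := ε⁻¹ • (x - (θ + ε • y)) with hp
      have hpn : ‖p‖ ≤ -r := by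
        rw [hp, norm_smul, Real.norm_eq_abs, abs_of_pos (inv_pos.2 hε'), inv_mul_le_iff₀ hε']
        exact hx
      have hx' : x = θ + ε • (y + p) := by
        rw [hp, smul_add, smul_smul, mul_inv_cancel₀ hε'.ne', one_smul]; abel
      rw [hx']
      refine h1 _ ?_ ?_
      · linarith [norm_add_le y p, neg_abs_le r]
      · have := real_inner_le_norm G p
        rw [inner_add_right]
        nlinarith
    have := sd_le_of_ball H.compl_nonempty (by nlinarith) h2
    linarith

theorem inner_le_of_sd (H : Gau A γ M) {θ G : E} (hθ : γ θ = 1)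
    (hd : HasFDerivAt γ (innerSL ℝ G) θ) {ε r : ℝ} (hε : 0 < ε) {y : E}
    (h : sd A (θ + ε • y) ≤ ε * r) : ⟪G, y⟫ ≤ r * ‖G‖ := by
  obtain ⟨h1, h2⟩ := H.support hθ hd
  have hG : G ≠ 0 := by
    rintro rfl
    simp at h2
  have hGn : 0 < ‖G‖ := norm_pos_iff.2 hG
  have h3 := le_sd_of_halfspace H.nonempty (N := ‖G‖⁻¹ • G) (c := ‖G‖⁻¹)
    (by rw [norm_smul, norm_inv, norm_norm]; field_simp) (fun a ha => by
      rw [real_inner_smul_left]
      exact mul_le_of_le_one_right (by positivity) ((h1 a).trans ((H.mem a).1 ha))) (θ + ε • y)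
  rw [real_inner_smul_left, inner_add_right, h2, inner_smul_right] at h3
  have h4 : ε * (‖G‖⁻¹ * ⟪G, y⟫) ≤ ε * r := by linarith
  have h5 := le_of_mul_le_mul_left h4 hε
  rwa [inv_mul_le_iff₀ hGn, mul_comm] at h5

end Gau

end sd

theorem pow_sub_one_le {ε x : ℝ} (h0 : 0 ≤ ε) (h1 : ε ≤ 1) (hx : 0 ≤ x) (d : ℕ) :
    (1 + ε * x) ^ d - 1 ≤ ε * ((1 + x) ^ d - 1) := by
  induction d with
  | zero => simp
  | succ d ih =>
    have a1 : 1 ≤ (1 + x) ^ d := one_le_pow₀ (by linarith)
    have a2 : 0 ≤ ε * x := by positivity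
    have a3 : ε * x ≤ x := by nlinarith
    have a4 : (1 + ε * x) * ((1 + ε * x) ^ d - 1) ≤ (1 + ε * x) * (ε * ((1 + x) ^ d - 1)) :=
      mul_le_mul_of_nonneg_left ih (by positivity)
    have a5 : (1 + ε * x) * (ε * ((1 + x) ^ d - 1)) ≤ (1 + x) * (ε * ((1 + x) ^ d - 1)) :=
      mul_le_mul_of_nonneg_right (by linarith) (mul_nonneg h0 (by linarith))
    rw [pow_succ, pow_succ]
    nlinarith

theorem tendsto_pow_slope (c : ℝ) (d : ℕ) :
    Tendsto (fun ε : ℝ => ((1 + ε * c) ^ d - 1) / ε) (𝓝[>] 0) (𝓝 (d * c)) := by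
  have h1 : HasDerivAt (fun ε : ℝ => (1 + ε * c) ^ d) (d * c) 0 := by
    have := (((hasDerivAt_id (0:ℝ)).mul_const c).const_add 1).fun_pow d
    simpa using this
  have := h1.tendsto_slope_zero_right
  simpa [div_eq_inv_mul] using this

variable {E : Type*} [NormedAddCommGroup E] [InnerProductSpace ℝ E] [FiniteDimensional ℝ E]
  [Nontrivial E]

namespace Gau

variable {A : Set E} {γ : E → ℝ} {M : ℝ≥0}

theorem ray_bound (H : Gau A γ M) {θ : E} (hθ : γ θ = 1) {ε : ℝ} (hε : 0 < ε) (r r' : ℝ) (h : E) :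
    ray (lay A ε r r' h) θ < ⊤ ∧ (ε ≤ 1 →
      |((ray (lay A ε r r' h) θ).toReal - 1) / ε|
        ≤ (1 + M * (|r| + |r'| + ‖h‖)) ^ Module.finrank ℝ E) := by
  set d := Module.finrank ℝ E
  have hd0 : 0 < d := Module.finrank_pos
  set R := |r| + |r'| + ‖h‖ with hR
  have hR0 : 0 ≤ R := by positivity
  have hM : (0:ℝ) ≤ M := M.2
  have hup := ray_le (C := lay A ε r r' h) (θ := θ) (a := 1 + ε * (M * R)) (by positivity)
    fun l hl hm => by
      have := H.le_of_mem_lay hε.le hm
      rw [H.hom l hl.le, hθ] at this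
      linarith
  have hlo := le_ray (C := lay A ε r r' h) (θ := θ) (a := max (1 - ε * (M * R)) 0)
    (le_max_right _ _) fun l hl hm => by
      refine H.mem_lay hε.le ?_
      rw [H.hom l hl.le, hθ]
      rcases le_max_iff.1 hm with h | h <;> linarith
  have hfin := hup.trans_lt ENNReal.ofReal_lt_top
  refine ⟨hfin, fun hε1 => ?_⟩
  have h1 := ENNReal.toReal_le_of_le_ofReal (by positivity) hup
  have h2 := (ENNReal.ofReal_le_iff_le_toReal hfin.ne).1 hlo
  have h3 := pow_sub_one_le hε.le hε1 (mul_nonneg hM hR0) d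
  have h4 : 1 + d * (M * R) ≤ (1 + M * R) ^ d :=
    one_add_mul_le_pow (by nlinarith [mul_nonneg hM hR0]) d
  have h5 : 1 - ε * (d * (M * R)) ≤ (max (1 - ε * (M * R)) 0) ^ d := by
    have hx : 0 ≤ ε * (M * R) := by positivity
    rcases le_total (ε * (M * R)) 1 with h | h
    · rw [max_eq_left (by linarith)]
      have := one_add_mul_le_pow (a := -(ε * (M * R))) (by linarith) d
      rw [← sub_eq_add_neg] at this
      linarith
    · rw [max_eq_right (by linarith), zero_pow hd0.ne']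
      have : (1:ℝ) ≤ d := by exact_mod_cast hd0
      nlinarith
  rw [abs_div, abs_of_pos hε, div_le_iff₀ hε, abs_le]
  constructor <;> nlinarith

theorem ray_tendsto (H : Gau A γ M) {θ G : E} (hθ : γ θ = 1)
    (hd : HasFDerivAt γ (innerSL ℝ G) θ) (r r' : ℝ) (h : E) :
    Tendsto (fun ε : ℝ => ((ray (lay A ε r r' h) θ).toReal - 1) / ε) (𝓝[>] 0)
      (𝓝 (Module.finrank ℝ E * min (r * ‖G‖) (r' * ‖G‖ + ⟪G, h⟫))) := by
  set d := Module.finrank ℝ E
  have hd0 : 0 < d := Module.finrank_pos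
  have hd0' : (0:ℝ) < d := by exact_mod_cast hd0
  set g := min (r * ‖G‖) (r' * ‖G‖ + ⟪G, h⟫) with hg
  set R := |r| + |r'| + ‖h‖ with hR
  have hR0 : 0 ≤ R := by positivity
  have hM : (0:ℝ) ≤ M := M.2
  have hGθ := (H.support hθ hd).2
  have hpos : ∀ c : ℝ, ∀ᶠ ε in 𝓝[>] (0:ℝ), 0 ≤ 1 + ε * c := by
    intro c
    have : Tendsto (fun ε : ℝ => 1 + ε * c) (𝓝[>] 0) (𝓝 1) := by
      have : Continuous fun ε : ℝ => 1 + ε * c := by fun_prop
      simpa using (this.tendsto 0).mono_left nhdsWithin_le_nhds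
    exact this.eventually (eventually_ge_nhds one_pos)
  have hl : ∀ ε l : ℝ, 0 < ε → l • θ = θ + ε • (((l - 1) / ε) • θ) := by
    intro ε l hε
    rw [smul_smul, mul_div_cancel₀ _ hε.ne', sub_smul, one_smul]; abel
  have hl' : ∀ ε l : ℝ, 0 < ε → l • θ - ε • h = θ + ε • (((l - 1) / ε) • θ - h) := by
    intro ε l hε
    rw [smul_sub, hl ε l hε]; abel
  rw [tendsto_order]
  constructor
  · intro a ha
    obtain ⟨η, hη, haη⟩ : ∃ η > 0, a < d * (g - η) :=
      ⟨(d * g - a) / (2 * d), by apply div_pos <;> linarith, by field_simp; linarith⟩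
    set B := (M * R + |g| + η) * ‖θ‖ + R + 1 with hB
    have hB0 : 0 < B := by positivity
    filter_upwards [(tendsto_order.1 (tendsto_pow_slope (g - η) d)).1 a haη, hpos (g - η),
      H.near_sd hθ hd hη hB0, self_mem_nhdsWithin] with ε h1 h2 h3 hε
    have hε' : 0 < ε := hε
    refine h1.trans_le (div_le_div_of_nonneg_right ?_ hε'.le)
    have hlo := le_ray (C := lay A ε r r' h) (θ := θ) h2 fun l hl0 hm => by
      rcases le_or_gt l (1 - M * (ε * R)) with hc | hc
      · refine H.mem_lay hε'.le ?_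
        rw [H.hom l hl0.le, hθ]; linarith
      · set s := (l - 1) / ε with hs
        have hs1 : s ≤ g - η := by rw [hs, div_le_iff₀ hε']; linarith
        have hs2 : -(M * R) ≤ s := by rw [hs, le_div_iff₀ hε']; linarith
        have hs3 : |s| ≤ M * R + |g| + η := by
          have := mul_nonneg hM hR0
          rw [abs_le]; constructor <;> linarith [abs_nonneg g, le_abs_self g]
        have hs4 : ‖s • θ‖ ≤ (M * R + |g| + η) * ‖θ‖ := by
          rw [norm_smul, Real.norm_eq_abs]
          exact mul_le_mul_of_nonneg_right hs3 (norm_nonneg _)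
        have a0 : 0 ≤ (M * R + |g| + η) * ‖θ‖ := by positivity
        have a1 := abs_nonneg r
        have a2 := abs_nonneg r'
        have a3 := norm_nonneg h
        constructor
        · rw [hl ε l hε']
          refine h3 _ _ (by linarith) (by linarith) ?_
          rw [inner_smul_right, hGθ]
          linarith [min_le_left (r * ‖G‖) (r' * ‖G‖ + ⟪G, h⟫)]
        · rw [hl' ε l hε']
          refine h3 _ _ (by linarith [norm_sub_le (s • θ) h]) (by linarith) ?_
          rw [inner_sub_right, inner_smul_right, hGθ]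
          linarith [min_le_right (r * ‖G‖) (r' * ‖G‖ + ⟪G, h⟫)]
    have := (ENNReal.ofReal_le_iff_le_toReal (H.ray_bound hθ hε' r r' h).1.ne).1 hlo
    linarith
  · intro a ha
    filter_upwards [(tendsto_order.1 (tendsto_pow_slope g d)).2 a ha, hpos g,
      self_mem_nhdsWithin] with ε h1 h2 hε
    have hε' : 0 < ε := hε
    refine lt_of_le_of_lt (div_le_div_of_nonneg_right ?_ hε'.le) h1
    have hup := ray_le (C := lay A ε r r' h) (θ := θ) h2 fun l _ hm => by
      have b1 := hm.1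
      have b2 := hm.2
      rw [hl ε l hε'] at b1
      rw [hl' ε l hε'] at b2
      have c1 := H.inner_le_of_sd hθ hd hε' b1
      have c2 := H.inner_le_of_sd hθ hd hε' b2
      rw [inner_smul_right, hGθ] at c1
      rw [inner_sub_right, inner_smul_right, hGθ] at c2
      have : (l - 1) / ε ≤ g := le_min (by linarith) (by linarith)
      rw [div_le_iff₀ hε'] at this
      linarith
    have := ENNReal.toReal_le_of_le_ofReal (by positivity) hup
    linarith

end Gau

variable [MeasurableSpace E] [BorelSpace E]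

/-- The data of the first variation of volume. -/
structure LayerData (A : Set E) (ν : Measure E) (G : E → E) (C M : ℝ) : Prop where
  fin : IsFiniteMeasure ν
  meas : Measurable G
  bdd : ∀ y, ‖G y‖ ≤ M
  lt_top : ∀ ε, 0 < ε → ∀ r r' h, volume (lay A ε r r' h) < ⊤
  bound : ∀ ε, 0 < ε → ε ≤ 1 → ∀ r r' h,
    |(volume.real (lay A ε r r' h) - volume.real A) / ε|
      ≤ C * (1 + (|r| + |r'| + ‖h‖)) ^ Module.finrank ℝ E
  lim : ∀ r r' h, Tendsto (fun ε => (volume.real (lay A ε r r' h) - volume.real A) / ε) (𝓝[>] 0)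
    (𝓝 (∫ y, min (r * ‖G y‖) (r' * ‖G y‖ + ⟪G y, h⟫) ∂ν))

theorem Gau.layerData {A : Set E} {γ : E → ℝ} {M : ℝ≥0} (H : Gau A γ M) :
    ∃ ν G C M', LayerData A ν G C M' := by
  set d := Module.finrank ℝ E with hd
  have hM : (0:ℝ) ≤ M := M.2
  have hγm : Measurable γ := H.lip.continuous.measurable
  have hAeq : {y | γ y ≤ 1} = A := by ext y; exact (H.mem y).symm
  have hAm : MeasurableSet A := H.cpt.measurableSet
  have hAfin : volume A < ⊤ := H.cpt.measure_lt_top
  have : IsFiniteMeasure (volume.restrict A) := ⟨by simpa using hAfin⟩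
  set θ : E → E := fun y => (γ y)⁻¹ • y with hθ
  have hθm : Measurable θ := by simp only [hθ]; fun_prop
  set G0 : E → E := fun x => (InnerProductSpace.toDual ℝ E).symm (fderiv ℝ γ x) with hG0
  have hG0m : Measurable G0 :=
    (InnerProductSpace.toDual ℝ E).symm.continuous.measurable.comp (measurable_fderiv ℝ γ)
  have hne : ∀ᵐ y : E, y ≠ 0 := by simp [ae_iff]
  have hθ1 : ∀ y, y ≠ 0 → γ (θ y) = 1 := by
    intro y hy
    have := H.pos y hy
    simp only [hθ]
    rw [H.hom _ (by positivity)]; field_simp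
  have hdiff : ∀ᵐ y : E, HasFDerivAt γ (innerSL ℝ (G0 (θ y))) (θ y) := by
    filter_upwards [hne, H.lip.ae_differentiableAt (μ := volume)] with y hy hdy
    have hc := H.pos y hy
    have h1 : γ = fun x => (γ y)⁻¹ * γ (γ y • x) := by
      ext x; rw [H.hom _ hc.le]; field_simp
    have h2 : γ y • θ y = y := by simp only [hθ]; rw [smul_smul]; field_simp; simp
    have h3 : DifferentiableAt ℝ γ (θ y) := by
      rw [h1]
      refine DifferentiableAt.const_mul ?_ _
      exact DifferentiableAt.comp (g := γ) (f := fun x => γ y • x) _ (by rw [h2]; exact hdy)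
        (by fun_prop)
    have h4 : innerSL ℝ (G0 (θ y)) = fderiv ℝ γ (θ y) := by
      ext v; simp [hG0]
    rw [h4]
    exact h3.hasFDerivAt
  set j : ℝ → ℝ → ℝ → E → E → ℝ := fun ε r r' h y =>
    ((ray (lay A ε r r' h) (θ y)).toReal - 1) / ε with hj
  have hrm : ∀ ε r r' h, Measurable fun y => ray (lay A ε r r' h) (θ y) := fun ε r r' h =>
    (measurable_ray (isClosed_lay A ε r r' h).measurableSet).comp hθm
  have hjm : ∀ ε r r' h, Measurable (j ε r r' h) := fun ε r r' h =>
    ((hrm ε r r' h).ennreal_toReal.sub_const 1).div_const ε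
  have hfin : ∀ ε, 0 < ε → ∀ r r' h, volume (lay A ε r r' h) < ⊤ := by
    intro ε hε r r' h
    set a := 1 + M * (ε * (|r| + |r'| + ‖h‖)) with ha
    have ha0 : 0 < a := by positivity
    have : lay A ε r r' h ⊆ (fun x => a • x) '' A := by
      intro x hx
      refine ⟨a⁻¹ • x, ?_, by simp [smul_smul, ha0.ne']⟩
      rw [H.mem, H.hom _ (by positivity), inv_mul_le_iff₀ ha0, mul_one]
      exact H.le_of_mem_lay hε.le hx
    exact (measure_mono this).trans_lt (H.cpt.image (by fun_prop)).measure_lt_top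
  have hjb : ∀ ε, 0 < ε → ε ≤ 1 → ∀ r r' h, ∀ᵐ y ∂(volume.restrict A),
      ‖j ε r r' h y‖ ≤ (1 + M * (|r| + |r'| + ‖h‖)) ^ d := by
    intro ε hε hε1 r r' h
    filter_upwards [ae_restrict_of_ae hne] with y hy
    exact (H.ray_bound (hθ1 y hy) hε r r' h).2 hε1
  have hint : ∀ ε, 0 < ε → ε ≤ 1 → ∀ r r' h,
      (volume.real (lay A ε r r' h) - volume.real A) / ε = ∫ y in A, j ε r r' h y := by
    intro ε hε hε1 r r' h
    have h1 := volume_eq_ray hγm H.hom H.pos (isClosed_lay A ε r r' h).measurableSet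
    rw [hAeq] at h1
    have h2 : ∀ᵐ y ∂(volume.restrict A), ray (lay A ε r r' h) (θ y) < ⊤ := by
      filter_upwards [ae_restrict_of_ae hne] with y hy
      exact (H.ray_bound (hθ1 y hy) hε r r' h).1
    have h3 := integral_toReal (hrm ε r r' h).aemeasurable h2
    have h4 : Integrable (fun y => (ray (lay A ε r r' h) (θ y)).toReal) (volume.restrict A) :=
      integrable_toReal_of_lintegral_ne_top (hrm ε r r' h).aemeasurable
        (by rw [← h1]; exact (hfin ε hε r r' h).ne)
    simp only [hj]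
    rw [integral_div, integral_sub h4 (integrable_const 1), h3, ← h1]
    simp [Measure.real]
  refine ⟨volume.restrict A, fun y => (d : ℝ) • G0 (θ y), volume.real A * (1 + M) ^ d, d * M,
    inferInstance, (hG0m.comp hθm).const_smul _, fun y => ?_, hfin, ?_, ?_⟩
  · rw [norm_smul, Real.norm_natCast]
    refine mul_le_mul_of_nonneg_left ?_ (Nat.cast_nonneg _)
    simp only [hG0, LinearIsometryEquiv.norm_map]
    exact norm_fderiv_le_of_lipschitz ℝ H.lip
  · intro ε hε hε1 r r' h
    rw [hint ε hε hε1]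
    have h1 := norm_integral_le_of_norm_le_const (hjb ε hε hε1 r r' h)
    rw [Real.norm_eq_abs] at h1
    refine h1.trans ?_
    rw [measureReal_restrict_apply_univ, mul_comm, mul_assoc, ← mul_pow]
    refine mul_le_mul_of_nonneg_left (pow_le_pow_left₀ (by positivity) ?_ _) measureReal_nonneg
    have : 0 ≤ |r| + |r'| + ‖h‖ := by positivity
    nlinarith
  · intro r r' h
    have h1 : Tendsto (fun ε => ∫ y in A, j ε r r' h y) (𝓝[>] 0)
        (𝓝 (∫ y in A, min (r * ‖(d : ℝ) • G0 (θ y)‖)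
          (r' * ‖(d : ℝ) • G0 (θ y)‖ + ⟪(d : ℝ) • G0 (θ y), h⟫))) := by
      refine tendsto_integral_filter_of_dominated_convergence
        (fun _ => (1 + M * (|r| + |r'| + ‖h‖)) ^ d)
        (Eventually.of_forall fun ε => (hjm ε r r' h).aestronglyMeasurable) ?_
        (integrable_const _) ?_
      · filter_upwards [Ioc_mem_nhdsGT one_pos] with ε hε
        exact hjb ε hε.1 hε.2 r r' h
      · filter_upwards [ae_restrict_of_ae hne, ae_restrict_of_ae hdiff] with y hy hdy
        have h2 := H.ray_tendsto (hθ1 y hy) hdy r r' h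
        rw [← hd, mul_min_of_nonneg _ _ (Nat.cast_nonneg d)] at h2
        rw [norm_smul, Real.norm_natCast, real_inner_smul_left]
        have e1 : r * (d * ‖G0 (θ y)‖) = d * (r * ‖G0 (θ y)‖) := by ring
        have e2 : r' * (d * ‖G0 (θ y)‖) + d * ⟪G0 (θ y), h⟫
            = d * (r' * ‖G0 (θ y)‖ + ⟪G0 (θ y), h⟫) := by ring
        rw [e1, e2]
        exact h2
    refine h1.congr' ?_
    filter_upwards [Ioc_mem_nhdsGT one_pos] with ε hε
    exact (hint ε hε.1 hε.2 r r' h).symm

omit [InnerProductSpace ℝ E] [FiniteDimensional ℝ E] [Nontrivial E] [MeasurableSpace E]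
  [BorelSpace E] in
theorem sd_translate (A : Set E) (p x : E) : sd ((fun x => x + p) ⁻¹' A) x = sd A (x + p) := by
  have key : ∀ B : Set E, infDist x ((fun x => x + p) ⁻¹' B) = infDist (x + p) B := by
    intro B
    have h1 := infDist_image (isometry_add_right p) (x := x) (t := (fun x => x + p) ⁻¹' B)
    rw [image_preimage_eq _ (add_right_surjective p)] at h1
    exact h1.symm
  rw [sd, sd, ← preimage_compl, key, key]

theorem exists_layerData {A : Set E} (hA : IsCompact A) (hc : Convex ℝ A)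
    (hi : (interior A).Nonempty) : ∃ ν G C M, LayerData A ν G C M := by
  obtain ⟨p, hp⟩ := hi
  set A' := (fun x => x + p) ⁻¹' A with hA'
  have h1 : IsCompact A' := (Homeomorph.addRight p).isCompact_preimage.2 hA
  have h2 : Convex ℝ A' := hc.translate_preimage_left p
  have h3 : A' ∈ 𝓝 (0 : E) :=
    (continuous_add_const p).continuousAt.preimage_mem_nhds
      (by simpa using mem_interior_iff_mem_nhds.1 hp)
  obtain ⟨M, hM⟩ := exists_gau h1 h2 h3
  obtain ⟨ν, G, C, M', H⟩ := hM.layerData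
  have e1 : ∀ ε r r' h, volume (lay A' ε r r' h) = volume (lay A ε r r' h) := by
    intro ε r r' h
    rw [← measure_preimage_add_right volume p (lay A ε r r' h)]
    congr 1
    ext x
    simp only [lay, hA', sd_translate, mem_preimage, mem_ofPred_eq, add_sub_right_comm]
  have e2 : volume A' = volume A := measure_preimage_add_right volume p A
  refine ⟨ν, G, C, M', H.fin, H.meas, H.bdd, fun ε hε r r' h => ?_, fun ε hε hε1 r r' h => ?_,
    fun r r' h => ?_⟩
  · rw [← e1]; exact H.lt_top ε hε r r' h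
  · have := H.bound ε hε hε1 r r' h
    simpa only [Measure.real, e1, e2] using this
  · have := H.lim r r' h
    simpa only [Measure.real, e1, e2] using this

end Pool.Agent.Lib.MP_7c9f8e_gt
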