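import Pool.Agent.Lib.MP_7c9f8e_gt.Average

/-!
The two-term asymptotics of the magnitude function of a convex body.
-/

open MeasureTheory Set Real Metric Filter Topology
open scoped ENNReal NNReal RealInnerProductSpace Pointwise

namespace Pool.Agent.Lib.MP_7c9f8e_gt

variable {E : Type*} [NormedAddCommGroup E] [InnerProductSpace ℝ E] [FiniteDimensional ℝ E]
  [MeasurableSpace E] [BorelSpace E]

theorem cosT_zero (f : E → ℝ) : cosT f 0 = ∫ x, f x := by simp [cosT]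

theorem Dual.integral_K {δ : ℝ} {ρ K : E → ℝ} (h : Dual δ ρ K) : ∫ x, K x = (cZ E)⁻¹ := by
  rw [← cosT_zero, h.K_hat, cosT_zero, cosT_zero, h.ρ_one, cZ]
  simp

theorem cosT_Z_dir {u : E} (hu : ‖u‖ = 1) (ξ : ℝ) :
    cosT Z ((ξ / (2 * π)) • u) = cZ E * (1 + ξ ^ 2) ^ (-((Module.finrank ℝ E : ℝ) + 1) / 2) := by
  rw [cosT_Z, norm_smul, hu, mul_one, Real.norm_eq_abs, sq_abs]
  congr 3
  field_simp
  ring

theorem tri_one {K : E → ℝ} {Ω : Type*} [MeasurableSpace Ω] {μ : Measure Ω} [SFinite μ]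
    {v r : Ω → ℝ} (h : Prof μ v r) :
    ∫ z : (E × Ω) × Ω, K z.1.1 * v z.1.2 * v z.2 ∂((volume.prod μ).prod μ) = ∫ x, K x := by
  rw [integral_prod_mul (fun z : E × Ω => K z.1 * v z.2) v, integral_prod_mul K v, h.one]
  ring

variable {A : Set E} {ν : Measure E} {G : E → E} {C M : ℝ}

theorem tri_limit (H : LayerData A ν G C M) {K : E → ℝ} (hKm : Measurable K)
    (hKe : ∀ x, K (-x) = K x) (hK : ∀ k : ℕ, Integrable (fun x => K x * (1 + ‖x‖) ^ k))
    {Ω : Type*} [MeasurableSpace Ω] {μ : Measure Ω} [SFinite μ] {v r : Ω → ℝ} (h : Prof μ v r)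
    (hc : ∀ u : E, ‖u‖ = 1 → ∀ ξ : ℝ,
      ‖chf μ v r ξ‖ ^ 2 * cosT K ((ξ / (2 * π)) • u) ≤ ∫ x, K x) :
    ∃ L, L ≤ (∫ y, ‖G y‖ ∂ν) * ((∫ x, K x) * ∫ a, v a * r a ∂μ) ∧
      Tendsto (fun ε => (ε ^ Module.finrank ℝ E * En K (volume.prod μ) (lw A ε v r) Prod.fst
        (volume.prod μ) (lw A ε v r) Prod.fst - (∫ x, K x) * volume.real A) / ε) (𝓝[>] 0)
        (𝓝 L) := by
  have hvm := h.v_meas
  have hrm := h.r_meas
  refine ⟨_, H.avg_le (μ := (volume.prod μ).prod μ)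
    (F := fun z : (E × Ω) × Ω => K z.1.1 * v z.1.2 * v z.2) (r := fun z => r z.2)
    (r' := fun z => r z.1.2) (h := fun z => z.1.1) (by fun_prop) (by fun_prop) (by fun_prop)
    (by fun_prop) (tri_integrable hKm hK h) (fun u hu => tri_le hKm hKe hK h hu (hc u hu)), ?_⟩
  have h1 := H.avg_tendsto (μ := (volume.prod μ).prod μ)
    (F := fun z : (E × Ω) × Ω => K z.1.1 * v z.1.2 * v z.2) (r := fun z => r z.2)
    (r' := fun z => r z.1.2) (h := fun z => z.1.1) (by fun_prop) (by fun_prop) (by fun_prop)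
    (by fun_prop) (tri_integrable hKm hK h)
  refine h1.congr' ?_
  filter_upwards [Ioc_mem_nhdsGT one_pos] with ε hε
  have := hε.1
  rw [lw_energy H h hKm hK hε.1 hε.2, tri_one h, ← mul_assoc, mul_inv_cancel₀ (by positivity),
    one_mul]

theorem lin_limit (H : LayerData A ν G C M)
    {Ω : Type*} [MeasurableSpace Ω] {μ : Measure Ω} [SFinite μ] {v r : Ω → ℝ} (h : Prof μ v r) :
    Tendsto (fun ε => (ε ^ Module.finrank ℝ E * ∫ z, lw A ε v r z ∂(volume.prod μ)
      - volume.real A) / ε) (𝓝[>] 0) (𝓝 ((∫ y, ‖G y‖ ∂ν) * ∫ a, v a * r a ∂μ)) := by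
  have h1 := H.avg_tendsto (μ := μ) (h := fun _ => (0 : E)) h.v_meas h.r_meas h.r_meas
    measurable_const h.mom2
  simp only [inner_zero_right, add_zero, min_self, integral_const_mul, h.one, one_mul,
    ← mul_assoc, integral_mul_const] at h1
  rw [mul_comm]
  refine h1.congr' ?_
  filter_upwards [Ioc_mem_nhdsGT one_pos] with ε hε
  have := hε.1
  rw [(lw_integral H h hε.1 hε.2).2, ← mul_assoc, mul_inv_cancel₀ (by positivity), one_mul]

theorem upper (H : LayerData A ν G C M) {δ : ℝ} (hδ : 0 < δ) :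
    ∃ (u : ℝ → ℝ) (L : ℝ), Tendsto u (𝓝[>] 0) (𝓝 L) ∧
      L ≤ (∫ y, ‖G y‖ ∂ν) * ((cZ E)⁻¹ * (((Module.finrank ℝ E : ℝ) + 1) / 2 + δ)) ∧
      ∀ ε ∈ Ioc (0:ℝ) 1,
        BddAbove {m : ℝ | ∃ X : Finset E, (X : Set E) ⊆ ε⁻¹ • A ∧ m = finMagnitude X} ∧
        (ε ^ Module.finrank ℝ E * magnitude (ε⁻¹ • A) - (cZ E)⁻¹ * volume.real A) / ε ≤ u ε := by
  obtain ⟨ρ, K, hD⟩ := exists_dual (E := E) hδ
  set d := Module.finrank ℝ E with hd
  let F := EuclideanSpace ℝ (Fin (d + 1))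
  have hF : (Module.finrank ℝ F : ℝ) = d + 1 := by simp [F]
  have hP := prof_gw F 1 δ (by simp)
  obtain ⟨L, hL, hT⟩ := tri_limit H hD.K_cont.measurable hD.K_even hD.K_mom hP (by
    intro u hu ξ
    rw [chf_gw F 1 δ (by simp), hD.K_hat, cosT_Z_dir hu, hD.integral_K, hF, ← hd, neg_div]
    have h1 : 0 < (1 + ξ ^ 2) ^ (-(((d : ℝ) + 1) / 2)) := by positivity
    have h2 := cZ_pos (E := E)
    have h3 : cosT ρ ((ξ / (2 * π)) • u) ^ 2 ≤ 1 := by
      rw [← sq_abs]; exact pow_le_one₀ (abs_nonneg _) (hD.ρ_le _)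
    rw [inv_eq_one_div, mul_div_assoc', div_le_div_iff₀ (by positivity) h2]
    nlinarith [mul_pos h1 h2])
  rw [hD.integral_K] at hL hT
  rw [mean_gw, hF, one_mul] at hL
  refine ⟨_, L, hT, hL, fun ε hε => ?_⟩
  have hε0 := hε.1
  obtain ⟨h1, h2⟩ := magnitude_le hD (lw_integral H hP hε.1 hε.2).1 measurable_fst (ε⁻¹ • A) (by
    rintro x ⟨a, ha, rfl⟩
    have e : ∀ b : E × F, lw A ε (gw F) (fun x => 1 * ‖x‖ ^ 2 + δ) b * ρ (ε⁻¹ • a - b.1)
        = ρ (ε⁻¹ • a - b.1) * gw F b.2 := by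
      intro b
      by_cases hb : δ ≤ ‖ε⁻¹ • a - b.1‖
      · simp [hD.ρ_supp _ hb]
      have h1 : sd A (ε • b.1) ≤ ε * (1 * ‖b.2‖ ^ 2 + δ) := by
        refine (sd_le_dist ha).trans ?_
        have : dist (ε • b.1) a = ε * ‖ε⁻¹ • a - b.1‖ := by
          rw [dist_comm, dist_eq_norm, ← Real.norm_of_nonneg hε0.le, ← norm_smul,
            Real.norm_of_nonneg hε0.le, smul_sub, smul_inv_smul₀ hε0.ne']
        rw [this]
        refine mul_le_mul_of_nonneg_left ?_ hε0.le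
        nlinarith [sq_nonneg ‖b.2‖, not_le.1 hb]
      simp only [lw, h1, if_true]
      ring
    simp only [e]
    rw [integral_prod_mul (fun y => ρ (ε⁻¹ • a - y)) (gw F), integral_sub_left_eq_self, hD.ρ_one,
      integral_gw, mul_one])
  refine ⟨h1, ?_⟩
  gcongr

theorem En_const_mul {Ω : Type*} [MeasurableSpace Ω] (k : E → ℝ) (μ : Measure Ω) (f : Ω → ℝ)
    (p : Ω → E) (c : ℝ) :
    En k μ (fun b => c * f b) p μ (fun b => c * f b) p = c ^ 2 * En k μ f p μ f p := by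
  simp only [En, ← integral_const_mul]
  congr 1 with a
  congr 1 with b
  ring

theorem lower (H : LayerData A ν G C M) (hA : IsCompact A) (hne : A.Nonempty) {b : ℝ}
    (hb : 0 ≤ b) :
    ∃ (u : ℝ → ℝ) (L : ℝ), Tendsto u (𝓝[>] 0) (𝓝 L) ∧
      (∫ y, ‖G y‖ ∂ν) * ((cZ E)⁻¹ * (-(((Module.finrank ℝ E : ℝ) + 1) / 2)
        + ((Module.finrank ℝ E : ℝ) + 1) * (b / (1 + b)))) ≤ L ∧
      ∀ ε ∈ Ioc (0:ℝ) 1,
        u ε ≤ (ε ^ Module.finrank ℝ E * magnitude (ε⁻¹ • A) - (cZ E)⁻¹ * volume.real A) / ε := by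
  set d := Module.finrank ℝ E with hd
  obtain ⟨Ω, _, μ, _, v, r, hP, hr, hm, hc⟩ := exists_lower_prof d hb (d + 1)
  have h2 := cZ_pos (E := E)
  obtain ⟨L, hL, hT⟩ := tri_limit H continuous_Z.measurable Z_neg integrable_Z_mul_pow hP (by
    intro u hu ξ
    rw [cosT_Z_dir hu, ← hd]
    have h1 : 0 < 1 + ξ ^ 2 := by positivity
    refine (mul_le_mul_of_nonneg_right (hc ξ) (by positivity)).trans (le_of_eq ?_)
    rw [mul_left_comm, ← rpow_add h1]
    have : (((d + 1 : ℕ) : ℝ) - (d + 1) / 2 + -((d : ℝ) + 1) / 2) = 0 := by push_cast; ring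
    rw [this, rpow_zero, mul_one, cZ])
  have hT1 := lin_limit H hP
  have hZ : ∫ x : E, Z x = cZ E := rfl
  rw [hZ] at hL hT
  set a := (cZ E)⁻¹ with ha
  have ha0 : 0 < a := by positivity
  have hac : a * cZ E = 1 := inv_mul_cancel₀ h2.ne'
  refine ⟨_, _, (hT1.const_mul (2 * a)).sub (hT.const_mul (a ^ 2)), ?_, fun ε hε => ?_⟩
  · have h3 := mul_le_mul_of_nonneg_left hL (sq_nonneg a)
    rw [hm] at h3 ⊢
    push_cast at h3 ⊢
    set S := ∫ y, ‖G y‖ ∂ν
    set m := -(((d : ℝ) + 1) / 2) + ((d : ℝ) + 1) * (b / (1 + b))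
    have h4 : a ^ 2 * (S * (cZ E * m)) = a * S * m := by
      rw [show a ^ 2 * (S * (cZ E * m)) = a * S * m * (a * cZ E) by ring, hac, mul_one]
    linarith
  have hε0 := hε.1
  obtain ⟨_, _, -, -, hbd⟩ := upper H one_pos
  have h3 := le_magnitude (f := fun z => a * lw A ε v r z)
    ((lw_integral H hP hε.1 hε.2).1.const_mul a) measurable_fst (hA.smul ε⁻¹) hne.smul_set (by
      intro z hz
      have h1 : sd A (ε • z.1) ≤ ε * r z.2 := by
        by_contra h1
        simp [lw, h1] at hz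
      have h4 := mem_of_sd_nonpos hA hne (h1.trans (mul_nonpos_of_nonneg_of_nonpos hε0.le (hr _)))
      exact ⟨_, h4, inv_smul_smul₀ hε0.ne' _⟩) (hbd ε hε).1
  rw [En_const_mul, integral_const_mul] at h3
  have h4 := mul_le_mul_of_nonneg_left h3 (pow_pos hε0 d).le
  rw [← mul_div_assoc, ← mul_div_assoc, ← sub_div]
  refine div_le_div_of_nonneg_right ?_ hε0.le
  have h5 : a ^ 2 * (cZ E * volume.real A) = a * volume.real A := by
    rw [show a ^ 2 * (cZ E * volume.real A) = a * volume.real A * (a * cZ E) by ring, hac, mul_one]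
  nlinarith

theorem main_limit (H : LayerData A ν G C M) (hA : IsCompact A) (hne : A.Nonempty) :
    Tendsto (fun ε : ℝ => (ε ^ Module.finrank ℝ E * magnitude (ε⁻¹ • A)
      - (cZ E)⁻¹ * volume.real A) / ε) (𝓝[>] 0)
      (𝓝 ((∫ y, ‖G y‖ ∂ν) * ((cZ E)⁻¹ * (((Module.finrank ℝ E : ℝ) + 1) / 2)))) := by
  set d := Module.finrank ℝ E with hd
  set S := ∫ y, ‖G y‖ ∂ν
  set a := (cZ E)⁻¹
  rw [tendsto_order]
  constructor
  · intro c hc
    have h1 : Tendsto (fun b : ℝ => b / (1 + b)) atTop (𝓝 1) := by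
      have h2 : Tendsto (fun b : ℝ => 1 - (1 + b)⁻¹) atTop (𝓝 (1 - 0)) :=
        tendsto_const_nhds.sub (tendsto_inv_atTop_zero.comp
          (tendsto_atTop_add_const_left _ _ tendsto_id))
      rw [sub_zero] at h2
      refine h2.congr' ?_
      filter_upwards [eventually_gt_atTop 0] with b hb
      field_simp
      ring
    have h2 := (((h1.const_mul ((d : ℝ) + 1)).const_add (-(((d : ℝ) + 1) / 2))).const_mul
      a).const_mul S
    rw [show -(((d : ℝ) + 1) / 2) + ((d : ℝ) + 1) * 1 = ((d : ℝ) + 1) / 2 by ring] at h2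
    obtain ⟨b, hb, hb0⟩ := ((h2.eventually (lt_mem_nhds hc)).and (eventually_ge_atTop 0)).exists
    obtain ⟨u, L, hu, hL, hb1⟩ := lower H hA hne hb0
    filter_upwards [hu.eventually (lt_mem_nhds (hb.trans_le hL)), Ioc_mem_nhdsGT one_pos]
      with ε h3 hε
    exact h3.trans_le (hb1 ε hε)
  · intro c hc
    have h1 : Tendsto (fun δ : ℝ => S * (a * (((d : ℝ) + 1) / 2 + δ))) (𝓝[>] 0)
        (𝓝 (S * (a * (((d : ℝ) + 1) / 2 + 0)))) :=
      ((by fun_prop : Continuous fun δ : ℝ => S * (a * (((d : ℝ) + 1) / 2 + δ))).tendsto 0).mono_left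
        nhdsWithin_le_nhds
    rw [add_zero] at h1
    obtain ⟨δ, hδ, hδ0⟩ := ((h1.eventually (gt_mem_nhds hc)).and self_mem_nhdsWithin).exists
    obtain ⟨u, L, hu, hL, hb1⟩ := upper H hδ0
    filter_upwards [hu.eventually (gt_mem_nhds (hL.trans_lt hδ)), Ioc_mem_nhdsGT one_pos]
      with ε h3 hε
    exact (hb1 ε hε).2.trans_lt h3

theorem lay_one (hA : IsCompact A) (hne : A.Nonempty) {ε : ℝ} (hε : 0 < ε) :
    lay A ε 1 1 0 = A + ε • closedBall (0 : E) 1 := by
  rw [smul_unitClosedBall_of_nonneg hε.le]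
  ext x
  simp only [lay, smul_zero, sub_zero, and_self, mul_one, mem_ofPred_eq]
  constructor
  · intro h
    obtain ⟨a, ha, had⟩ := exists_near_of_sd_le hA hne hε.le h
    exact ⟨a, ha, x - a, by simpa [dist_eq_norm] using had, by simp⟩
  · rintro ⟨a, ha, y, hy, rfl⟩
    refine (sd_le_dist ha).trans ?_
    simpa using hy

theorem cZ_eq [Nontrivial E] :
    cZ E = (Module.finrank ℝ E).factorial * volume.real (closedBall (0 : E) 1) := by
  obtain ⟨d, hd⟩ : ∃ d, Module.finrank ℝ E = d + 1 :=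
    ⟨Module.finrank ℝ E - 1, by have := Module.finrank_pos (R := ℝ) (M := E); omega⟩
  have h1 := integral_fun_norm_addHaar (volume : Measure E) (fun y => exp (-y))
  have h2 := Real.Gamma_eq_integral (s := d + 1) (by positivity)
  rw [Real.Gamma_nat_eq_factorial] at h2
  rw [Measure.addHaar_real_closedBall_eq_addHaar_real_ball, cZ]
  simp only [Z]
  rw [h1, hd, Nat.factorial_succ]
  simp only [add_sub_cancel_right, rpow_natCast] at h2
  simp only [add_tsub_cancel_right, smul_eq_mul, nsmul_eq_mul, mul_comm (_ ^ d), ← h2]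
  push_cast
  ring

/-- The two-term asymptotics, with the surface term given by the first variation of volume. -/
theorem two_term [Nontrivial E] (hA : IsCompact A) (hc : Convex ℝ A) (hi : (interior A).Nonempty)
    {S : ℝ} (hS : Tendsto (fun ε : ℝ => (volume.real (A + ε • closedBall (0 : E) 1)
      - volume.real A) / ε) (𝓝[>] 0) (𝓝 S)) :
    Tendsto (fun t : ℝ => (magnitude (t • A) - volume.real A * t ^ Module.finrank ℝ E
      / ((Module.finrank ℝ E).factorial * volume.real (closedBall (0 : E) 1)))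
        / t ^ (Module.finrank ℝ E - 1)) atTop
      (𝓝 ((Module.finrank ℝ E + 1) * (S / 2)
        / ((Module.finrank ℝ E).factorial * volume.real (closedBall (0 : E) 1)))) := by
  obtain ⟨ν, G, C, M, H⟩ := exists_layerData hA hc hi
  have hne : A.Nonempty := hi.mono interior_subset
  have h1 := H.lim 1 1 0
  simp only [one_mul, inner_zero_right, add_zero, min_self] at h1
  have h2 : ∫ y, ‖G y‖ ∂ν = S := by
    refine tendsto_nhds_unique h1 (hS.congr' ?_)
    filter_upwards [self_mem_nhdsWithin] with ε hε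
    rw [lay_one hA hne hε]
  have h3 := (main_limit H hA hne).comp tendsto_inv_atTop_nhdsGT_zero
  rw [h2] at h3
  rw [← cZ_eq]
  have hz := cZ_pos (E := E)
  obtain ⟨d, hd⟩ : ∃ d, Module.finrank ℝ E = d + 1 :=
    ⟨Module.finrank ℝ E - 1, by have := Module.finrank_pos (R := ℝ) (M := E); omega⟩
  rw [show ((Module.finrank ℝ E : ℝ) + 1) * (S / 2) / cZ E
    = S * ((cZ E)⁻¹ * (((Module.finrank ℝ E : ℝ) + 1) / 2)) by field_simp]
  refine h3.congr' ?_
  filter_upwards [eventually_gt_atTop 0] with t ht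
  simp only [Function.comp, inv_inv, hd, add_tsub_cancel_right, inv_pow]
  field_simp
  ring

end Pool.Agent.Lib.MP_7c9f8e_gt
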