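import Mathlib

/-!
The projection of the uniform distribution on the two dimensional sphere to a line is uniform.
-/

open MeasureTheory Set Real
open scoped RealInnerProductSpace

namespace Pool.Agent.Lib.MP_7c9f8e_gt.Rev

/-- Three dimensional Euclidean space. -/
abbrev V : Type := WithLp 2 (ℝ × ℂ)

/-- The first basis vector. -/
noncomputable def e0 : V := WithLp.toLp 2 (1, 0)

theorem norm_e0 : ‖e0‖ = 1 := by
  have h := WithLp.prod_norm_sq_eq_of_L2 e0
  simp only [e0, WithLp.toLp_fst, WithLp.toLp_snd, norm_one, norm_zero] at h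
  exact (sq_eq_sq₀ (norm_nonneg _) zero_le_one).1 (by rw [e0, h]; norm_num)

theorem inner_e0 (g : V) : ⟪e0, g⟫ = g.fst := by
  simp [e0, WithLp.prod_inner_apply]

theorem polar_prod (a b : ℝ → ℝ) :
    ∫ p in polarCoord.target, a p.1 * b p.2 = (∫ x in Ioi 0, a x) * ∫ θ in Ioo (-π) π, b θ := by
  rw [polarCoord_target, Measure.volume_eq_prod, ← Measure.prod_restrict, integral_prod_mul]

/-- The integrand in cylindrical coordinates. -/
noncomputable def H (f : ℝ → ℝ) (z ρ : ℝ) : ℝ :=
  if z ^ 2 + ρ ^ 2 < 1 then f (z / √(z ^ 2 + ρ ^ 2)) else 0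

theorem measurable_H {f : ℝ → ℝ} (hf : Continuous f) :
    Measurable fun p : ℝ × ℝ => H f p.1 p.2 := by
  have := hf.measurable
  unfold H
  exact Measurable.ite (measurableSet_lt (by fun_prop) measurable_const) (by fun_prop)
    measurable_const

theorem H_bdd {f : ℝ → ℝ} (hf : Continuous f) : ∃ C, ∀ z ρ, |H f z ρ| ≤ C := by
  obtain ⟨C, hC⟩ := isCompact_Icc.exists_bound_of_continuousOn (s := Icc (-1 : ℝ) 1)
    hf.continuousOn
  have h0 : 0 ≤ C := (norm_nonneg _).trans (hC 0 (by norm_num))
  refine ⟨C, fun z ρ => ?_⟩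
  unfold H
  split_ifs
  · refine hC _ (abs_le.1 ?_)
    rw [abs_div, abs_of_nonneg (sqrt_nonneg _)]
    exact div_le_one_of_le₀ (abs_le_sqrt (by nlinarith [sq_nonneg ρ])) (sqrt_nonneg _)
  · simpa using h0

theorem arch0 {f : ℝ → ℝ} (hf : Continuous f) :
    ∫ g in Metric.ball (0 : V) 1, f (g.fst / ‖g‖) = 2 * π / 3 * ∫ u in (-1 : ℝ)..1, f u := by
  obtain ⟨C, hC⟩ := H_bdd hf
  have hm := measurable_H hf
  have hn : ∀ p : ℝ × ℂ, ‖(WithLp.toLp 2 p : V)‖ = √(p.1 ^ 2 + ‖p.2‖ ^ 2) := fun p => by
    rw [← sqrt_sq (norm_nonneg (WithLp.toLp 2 p : V)), WithLp.prod_norm_sq_eq_of_L2]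
    simp
  have e1 : ∫ g in Metric.ball (0 : V) 1, f (g.fst / ‖g‖) = ∫ p : ℝ × ℂ, H f p.1 ‖p.2‖ := by
    rw [← integral_indicator measurableSet_ball,
      ← (WithLp.volume_preserving_toLp ℝ ℂ).integral_comp
        (MeasurableEquiv.toLp 2 (ℝ × ℂ)).measurableEmbedding]
    congr 1 with p
    simp only [indicator, mem_ball_zero_iff, hn, H, sqrt_lt' one_pos, one_pow, WithLp.toLp_fst]
  have i1 : Integrable fun p : ℝ × ℂ => H f p.1 ‖p.2‖ := by
    refine (integrableOn_iff_integrable_of_support_subset
      (s := Metric.closedBall (0 : ℝ × ℂ) 1) fun p hp => ?_).1 ?_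
    · have h1 : p.1 ^ 2 + ‖p.2‖ ^ 2 < 1 := by
        by_contra h
        exact hp (if_neg h)
      rw [mem_closedBall_zero_iff, Prod.norm_def]
      refine max_le (abs_le_one_iff_mul_self_le_one.2 ?_) ?_
      · nlinarith [sq_nonneg ‖p.2‖]
      · nlinarith [sq_nonneg p.1, norm_nonneg p.2]
    · exact Measure.integrableOn_of_bounded (M := C) measure_closedBall_lt_top.ne
        (hm.comp (f := fun p : ℝ × ℂ => (p.1, ‖p.2‖)) (by fun_prop)).aestronglyMeasurable
        (Filter.Eventually.of_forall fun p => hC _ _)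
  let J : ℝ × ℝ → ℝ := fun p => if 0 < p.2 then p.2 * H f p.1 p.2 else 0
  have e2 : ∀ z : ℝ, ∫ w : ℂ, H f z ‖w‖ = 2 * π * ∫ ρ, J (z, ρ) := fun z => by
    rw [← Complex.integral_comp_polarCoord_symm,
      setIntegral_congr_fun (g := fun p => (p.1 * H f z p.1) * 1) polarCoord.open_target.measurableSet,
      polar_prod (fun ρ => ρ * H f z ρ) fun _ => 1, ← integral_indicator measurableSet_Ioi]
    · simp only [integral_const, MeasurableSet.univ, measureReal_restrict_apply, univ_inter,
        volume_real_Ioo, smul_eq_mul, mul_one]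
      rw [max_eq_left (by linarith [pi_pos]), mul_comm]
      congr 1
      ring
    · intro p hp
      simp only [Complex.norm_polarCoord_symm, abs_of_pos (show 0 < p.1 from hp.1), smul_eq_mul,
        mul_one]
  have i2 : Integrable J := by
    refine (integrableOn_iff_integrable_of_support_subset
      (s := Metric.closedBall (0 : ℝ × ℝ) 1) fun p hp => ?_).1 ?_
    · have h1 : p.1 ^ 2 + p.2 ^ 2 < 1 := by
        by_contra h
        exact hp (by simp [J, H, h])
      rw [mem_closedBall_zero_iff, Prod.norm_def]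
      refine max_le (abs_le_one_iff_mul_self_le_one.2 ?_) (abs_le_one_iff_mul_self_le_one.2 ?_)
      · nlinarith [sq_nonneg p.2]
      · nlinarith [sq_nonneg p.1]
    · refine Measure.integrableOn_of_bounded (M := C) measure_closedBall_lt_top.ne
        (Measurable.ite (measurableSet_lt measurable_const measurable_snd)
          (measurable_snd.mul hm) measurable_const).aestronglyMeasurable ?_
      filter_upwards [ae_restrict_mem measurableSet_closedBall] with p hp
      have h0 : 0 ≤ C := (abs_nonneg _).trans (hC 0 0)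
      have h1 : |p.2| ≤ 1 := (norm_snd_le p).trans (mem_closedBall_zero_iff.1 hp)
      simp only [J]
      split_ifs
      · rw [norm_mul]
        exact (mul_le_mul h1 (hC _ _) (abs_nonneg _) zero_le_one).trans_eq (one_mul C)
      · simpa using h0
  have e3 : ∫ p, J p = 1 / 3 * ∫ u in (-1 : ℝ)..1, f u := by
    rw [← integral_comp_polarCoord_symm, setIntegral_congr_fun
      (g := fun p => (Iio 1).indicator (fun x => x ^ 2) p.1 *
        (Ioi 0).indicator (fun θ => f (cos θ) * sin θ) p.2) polarCoord.open_target.measurableSet,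
      polar_prod ((Iio 1).indicator fun x => x ^ 2), setIntegral_indicator measurableSet_Iio,
      setIntegral_indicator measurableSet_Ioi, Ioi_inter_Iio, Ioo_inter_Ioi,
      max_eq_right (by linarith [pi_pos]), ← integral_Ioc_eq_integral_Ioo,
      ← integral_Ioc_eq_integral_Ioo, ← intervalIntegral.integral_of_le zero_le_one,
      ← intervalIntegral.integral_of_le pi_pos.le, integral_pow]
    · have h1 := intervalIntegral.integral_comp_mul_deriv (a := 0) (b := π) (f := cos)
        (f' := fun θ => -sin θ) (g := f) (fun x _ => hasDerivAt_cos x) (by fun_prop) hf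
      rw [cos_zero, cos_pi, intervalIntegral.integral_symm (-1) 1] at h1
      simp only [Function.comp, mul_neg, intervalIntegral.integral_neg, neg_inj] at h1
      rw [h1]
      norm_num
    · rintro ⟨R, θ⟩ ⟨hR, hθ⟩
      have hR : 0 < R := hR
      have h1 : (R * cos θ) ^ 2 + (R * sin θ) ^ 2 = R ^ 2 := by
        linear_combination R ^ 2 * cos_sq_add_sin_sq θ
      have h2 : 0 < R * sin θ ↔ 0 < θ := by
        rw [mul_pos_iff_of_pos_left hR]
        refine ⟨fun h => ?_, fun h => sin_pos_of_pos_of_lt_pi h hθ.2⟩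
        by_contra h3
        exact absurd h (not_lt.2 (sin_nonpos_of_nonpos_of_neg_pi_le (not_lt.1 h3) hθ.1.le))
      have h3 : R ^ 2 < 1 ↔ R < 1 := by
        rw [sq_lt_one_iff_abs_lt_one, abs_of_pos hR]
      simp only [polarCoord_symm_apply, J, H, h1, h2, h3, sqrt_sq hR.le,
        mul_div_cancel_left₀ _ hR.ne', indicator, mem_Iio, mem_Ioi, smul_eq_mul]
      split_ifs <;> ring
  rw [e1, Measure.volume_eq_prod, integral_prod _ i1]
  simp only [e2]
  rw [integral_const_mul, ← integral_prod _ i2, ← Measure.volume_eq_prod, e3]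
  ring

/-- The uniform distribution on the unit ball. -/
noncomputable def γ : Measure V := ProbabilityTheory.cond volume (Metric.ball 0 1)

instance : IsProbabilityMeasure γ :=
  ProbabilityTheory.cond_isProbabilityMeasure_of_finite
    (Metric.measure_ball_pos _ _ one_pos).ne' measure_ball_lt_top.ne

open Classical in
/-- The direction of a vector. -/
noncomputable def dir (g : V) : V := if g = 0 then e0 else ‖g‖⁻¹ • g

theorem norm_dir (g : V) : ‖dir g‖ = 1 := by
  unfold dir
  split_ifs with h
  · exact norm_e0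
  · rw [norm_smul, norm_inv, norm_norm, inv_mul_cancel₀ (norm_ne_zero_iff.2 h)]

theorem measurable_dir : Measurable dir := by
  unfold dir
  exact Measurable.ite (measurableSet_singleton 0) measurable_const (by fun_prop)

theorem arch {f : ℝ → ℝ} (hf : Continuous f) {e : V} (he : ‖e‖ = 1) :
    ∫ g, f ⟪e, dir g⟫ ∂γ = 1 / 2 * ∫ u in (-1 : ℝ)..1, f u := by
  let L : V ≃ₗᵢ[ℝ] V := Submodule.reflection (ℝ ∙ (e - e0))ᗮ
  have hL : L e = e0 := Submodule.reflection_sub (he.trans norm_e0.symm)
  have h1 : ∫ g in Metric.ball (0 : V) 1, f ⟪e, dir g⟫ =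
      ∫ g in Metric.ball (0 : V) 1, f (g.fst / ‖g‖) := by
    have h2 := L.measurePreserving.setIntegral_preimage_emb
      L.toHomeomorph.measurableEmbedding (fun g => f (g.fst / ‖g‖)) (Metric.ball 0 1)
    rw [L.preimage_ball, map_zero] at h2
    rw [← h2]
    refine integral_congr_ae (ae_restrict_of_ae ?_)
    filter_upwards [compl_mem_ae_iff.2 (measure_singleton (0 : V))] with g hg
    rw [dir, if_neg (show ¬g = 0 from hg), inner_smul_right, ← L.inner_map_map, hL, inner_e0, L.norm_map,
      div_eq_inv_mul]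
  have h2 := arch0 (f := fun _ => 1) continuous_const
  simp only [integral_const, MeasurableSet.univ, measureReal_restrict_apply, univ_inter,
    smul_eq_mul, mul_one, intervalIntegral.integral_const] at h2
  rw [γ, ProbabilityTheory.cond, integral_smul_measure, h1, arch0 hf, ENNReal.toReal_inv,
    ← measureReal_def, h2, smul_eq_mul]
  have := pi_pos
  field_simp
  ring

end Pool.Agent.Lib.MP_7c9f8e_gt.Rev
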