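import Pool.Agent.Lib.MP_7c9f8e_gt.RevTransfer

/-!
Two bodies of revolution with the same magnitude function which are not isometric.
-/

open Set Real
open scoped Pointwise ContDiff RealInnerProductSpace

namespace Pool.Agent.Lib.MP_7c9f8e_gt.Rev

variable {k : ℕ}

def Y (x : Ek k) : ℝ := ∑ j, tl x j ^ 2

/-- The two quartic forms: `m = 0` and `m = 1`. -/
noncomputable def quart (m r q : ℝ) : ℝ := (1 - m / 2) * (r ^ 4 + q ^ 2) + 3 * m * (r ^ 2 * q)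

noncomputable def φ (m : ℝ) (x : Ek k) : ℝ := quart m (rr x) (‖yy x‖ ^ 2) + 4 * Y x - 2

theorem Y_nonneg (x : Ek k) : 0 ≤ Y x := Finset.sum_nonneg fun _ _ => sq_nonneg _

theorem contDiff_φ (m : ℝ) : ContDiff ℝ ω (φ m : Ek k → ℝ) := by
  unfold φ quart Y tl rr
  simp only [norm_yy]
  fun_prop

theorem φ_smul (m a : ℝ) (x : Ek k) :
    φ m (a • x) = a ^ 4 * quart m (rr x) (‖yy x‖ ^ 2) + a ^ 2 * (4 * Y x) - 2 := by
  have h1 : Y (a • x) = a ^ 2 * Y x := by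
    simp only [Y, tl, PiLp.smul_apply, smul_eq_mul, mul_pow, Finset.mul_sum]
  rw [φ, h1, yy_smul, norm_smul, mul_pow, Real.norm_eq_abs, sq_abs,
    show rr (a • x) = a * rr x from rfl, quart, quart]
  ring

theorem cvx_pow (n : ℕ) (hn : Even n) {a b : ℝ} (ha : 0 ≤ a) (hb : 0 ≤ b) (hab : a + b = 1)
    (u v : ℝ) : (a * u + b * v) ^ n ≤ a * u ^ n + b * v ^ n :=
  hn.convexOn_pow.2 (mem_univ u) (mem_univ v) ha hb hab

theorem cvx_φ {m : ℝ} (h0 : 0 ≤ m) (h1 : m ≤ 1) : ConvexOn ℝ univ (φ m : Ek k → ℝ) := by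
  refine ⟨convex_univ, fun x _ y _ a b ha hb hab => ?_⟩
  have e1 : Y (a • x + b • y) ≤ a * Y x + b * Y y := by
    simp only [Y, Finset.mul_sum, ← Finset.sum_add_distrib]
    exact Finset.sum_le_sum fun j _ => cvx_pow 2 even_two ha hb hab _ _
  have e2 : ‖yy (a • x + b • y)‖ ≤ a * ‖yy x‖ + b * ‖yy y‖ := by
    rw [yy_add, yy_smul, yy_smul]
    refine (norm_add_le _ _).trans_eq ?_
    rw [norm_smul, norm_smul, Real.norm_of_nonneg ha, Real.norm_of_nonneg hb]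
  have e3 : ∀ r s : ℝ, quart m r (s ^ 2) =
      (1 - m) * (r ^ 4 + s ^ 4) + m / 4 * ((r + s) ^ 4 + (r - s) ^ 4) := fun r s => by
    rw [quart]
    ring
  have e4 : ∀ r q q' : ℝ, 0 ≤ q → q ≤ q' → quart m r q ≤ quart m r q' := fun r q q' h2 h3 => by
    unfold quart
    have : 0 ≤ 1 - m / 2 := by linarith
    gcongr
  have h4 : Even 4 := by decide
  have c1 := cvx_pow 4 h4 ha hb hab (rr x) (rr y)
  have c2 := cvx_pow 4 h4 ha hb hab ‖yy x‖ ‖yy y‖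
  have c3 := cvx_pow 4 h4 ha hb hab (rr x + ‖yy x‖) (rr y + ‖yy y‖)
  have c4 := cvx_pow 4 h4 ha hb hab (rr x - ‖yy x‖) (rr y - ‖yy y‖)
  have e5 := e4 (a * rr x + b * rr y) _ _ (sq_nonneg _) (pow_le_pow_left₀ (norm_nonneg _) e2 2)
  rw [e3 _ (a * ‖yy x‖ + b * ‖yy y‖),
    show a * rr x + b * rr y + (a * ‖yy x‖ + b * ‖yy y‖) =
      a * (rr x + ‖yy x‖) + b * (rr y + ‖yy y‖) by ring,
    show a * rr x + b * rr y - (a * ‖yy x‖ + b * ‖yy y‖) =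
      a * (rr x - ‖yy x‖) + b * (rr y - ‖yy y‖) by ring] at e5
  have e6 := mul_le_mul_of_nonneg_left (add_le_add c1 c2) (sub_nonneg.2 h1)
  have e7 := mul_le_mul_of_nonneg_left (add_le_add c3 c4) (show 0 ≤ m / 4 by positivity)
  simp only [φ, smul_eq_mul]
  rw [show rr (a • x + b • y) = a * rr x + b * rr y from rfl, e3 (rr x), e3 (rr y)]
  have : b = 1 - a := by linarith
  subst this
  linarith

theorem sizeA {x : Ek k} (hx : φ 0 x ≤ 0) :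
    ‖x‖ ^ 2 ≤ 2 ∧ (‖x‖ ^ 2 = 2 → rr x ^ 2 = 1 ∧ ‖yy x‖ ^ 2 = 1 ∧ Y x = 0) := by
  have h1 : ‖x‖ ^ 2 = rr x ^ 2 + Y x + ‖yy x‖ ^ 2 := norm_sq_eq x
  have h2 := Y_nonneg x
  rw [φ, quart] at hx
  have h3 := sq_nonneg (rr x ^ 2 - 1)
  have h4 := sq_nonneg (‖yy x‖ ^ 2 - 1)
  refine ⟨by nlinarith, fun h => ⟨?_, ?_, by nlinarith⟩⟩
  · exact sub_eq_zero.1 (pow_eq_zero_iff two_ne_zero |>.1 (le_antisymm (by nlinarith) h3))
  · exact sub_eq_zero.1 (pow_eq_zero_iff two_ne_zero |>.1 (le_antisymm (by nlinarith) h4))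

theorem sizeB {x : Ek k} (hx : φ 1 x ≤ 0) :
    ‖x‖ ^ 2 ≤ 2 ∧ (‖x‖ ^ 2 = 2 → rr x ^ 2 * (rr x ^ 2 - 2) = 0) := by
  have h1 : ‖x‖ ^ 2 = rr x ^ 2 + Y x + ‖yy x‖ ^ 2 := norm_sq_eq x
  have h2 := Y_nonneg x
  rw [φ, quart] at hx
  have h3 := sq_nonneg (rr x ^ 2 + ‖yy x‖ ^ 2 - 2)
  have h4 : 0 ≤ rr x ^ 2 * ‖yy x‖ ^ 2 := by positivity
  refine ⟨by nlinarith, fun h => ?_⟩
  have h5 : Y x = 0 := by nlinarith
  have h6 : rr x ^ 2 * ‖yy x‖ ^ 2 = 0 := by nlinarith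
  linear_combination -h6 + rr x ^ 2 * (h - h1 - h5)

theorem props {m : ℝ} (h0 : 0 ≤ m) (h1 : m ≤ 1) (hs : ∀ x : Ek k, φ m x ≤ 0 → ‖x‖ ^ 2 ≤ 2) :
    IsCompact {x : Ek k | φ m x ≤ 0} ∧ Convex ℝ {x : Ek k | φ m x ≤ 0} ∧
      (0 : Ek k) ∈ interior {x | φ m x ≤ 0} ∧ ∀ x : Ek k, φ m x = 0 → fderiv ℝ (φ m) x ≠ 0 := by
  have hφ := contDiff_φ (k := k) m
  refine ⟨?_, ?_, ?_, fun x hx h2 => ?_⟩
  · refine Metric.isCompact_of_isClosed_isBounded (isClosed_le hφ.continuous continuous_const)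
      ((Metric.isBounded_closedBall (x := (0 : Ek k)) (r := 2)).subset fun x hx => ?_)
    rw [mem_closedBall_zero_iff]
    nlinarith [norm_nonneg x, hs x hx]
  · simpa using (cvx_φ h0 h1).convex_le 0
  · refine mem_interior.2 ⟨{x | φ m x < 0}, fun x (hx : φ m x < 0) => (hx.le : φ m x ≤ 0),
      isOpen_lt hφ.continuous continuous_const, ?_⟩
    have := φ_smul m 0 (0 : Ek k)
    rw [zero_smul] at this
    change φ m 0 < 0
    rw [this]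
    norm_num
  · have h3 : HasDerivAt (fun s : ℝ => φ m (s • x)) (fderiv ℝ (φ m) x x) 1 := by
      have a : HasFDerivAt (φ m) (fderiv ℝ (φ m) x) ((1 : ℝ) • x) := by
        rw [one_smul]
        exact (hφ.differentiable (by simp) x).hasFDerivAt
      have b : HasDerivAt (fun s : ℝ => s • x) x 1 := by
        simpa using (hasDerivAt_id (1 : ℝ)).smul_const x
      exact a.comp_hasDerivAt 1 b
    have h4 : HasDerivAt (fun s : ℝ => φ m (s • x))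
        (4 * quart m (rr x) (‖yy x‖ ^ 2) + 2 * (4 * Y x)) 1 := by
      simp only [φ_smul]
      have := ((((hasDerivAt_pow 4 (1 : ℝ)).mul_const (quart m (rr x) (‖yy x‖ ^ 2))).add
        ((hasDerivAt_pow 2 (1 : ℝ)).mul_const (4 * Y x))).sub_const 2)
      refine this.congr_deriv ?_
      norm_num
    have h5 := h3.unique h4
    rw [h2, zero_apply] at h5
    have h6 : 0 ≤ quart m (rr x) (‖yy x‖ ^ 2) := by
      have : 0 ≤ 1 - m / 2 := by linarith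
      unfold quart
      positivity
    rw [φ] at hx
    linarith

theorem propsA : IsCompact {x : Ek k | φ 0 x ≤ 0} ∧ Convex ℝ {x : Ek k | φ 0 x ≤ 0} ∧
    (0 : Ek k) ∈ interior {x | φ 0 x ≤ 0} ∧ ∀ x : Ek k, φ 0 x = 0 → fderiv ℝ (φ 0) x ≠ 0 :=
  props le_rfl zero_le_one fun _ h => (sizeA h).1

theorem propsB : IsCompact {x : Ek k | φ 1 x ≤ 0} ∧ Convex ℝ {x : Ek k | φ 1 x ≤ 0} ∧
    (0 : Ek k) ∈ interior {x | φ 1 x ≤ 0} ∧ ∀ x : Ek k, φ 1 x = 0 → fderiv ℝ (φ 1) x ≠ 0 :=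
  props zero_le_one le_rfl fun _ h => (sizeB h).1

theorem φ_mk (m r : ℝ) (y : V) : φ m (mk r y (0 : Fin k → ℝ)) = quart m r (‖y‖ ^ 2) - 2 := by
  simp [φ, Y, rr_mk, yy_mk, tl_mk]

theorem magnitude_eq {t : ℝ} (ht : 0 < t) :
    magnitude (t • {x : Ek k | φ 0 x ≤ 0}) = magnitude (t • {x : Ek k | φ 1 x ≤ 0}) := by
  let ψ : ℝ → ℝ → ℝ → (Fin k → ℝ) → Prop := fun m r q y =>
    t⁻¹ ^ 4 * quart m r q + t⁻¹ ^ 2 * (4 * ∑ j, y j ^ 2) - 2 ≤ 0
  have hA : ∀ m, t • {x : Ek k | φ m x ≤ 0} = Body (ψ m) := fun m => by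
    ext x
    rw [mem_smul_set_iff_inv_smul_mem₀ ht.ne', mem_ofPred_eq, φ_smul]
    rfl
  have hz : ∀ m, 0 ≤ m → t • mk 0 e0 (0 : Fin k → ℝ) ∈ Body (ψ m) := fun m hm => by
    rw [← hA]
    refine smul_mem_smul_set ?_
    rw [mem_ofPred_eq, φ_mk, norm_e0, quart]
    linarith
  have hz0 : yy (t • mk 0 e0 (0 : Fin k → ℝ)) ≠ 0 := by
    rw [yy_smul, yy_mk]
    exact smul_ne_zero ht.ne' (norm_ne_zero_iff.1 (by rw [norm_e0]; exact one_ne_zero))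
  have cA := (propsA (k := k)).1.smul t
  have cB := (propsB (k := k)).1.smul t
  have vA := (propsA (k := k)).2.1.smul t
  have vB := (propsB (k := k)).2.1.smul t
  rw [hA] at cA cB vA vB
  rw [hA, hA]
  have hc : (√2 / 2) ^ 2 = 1 / 2 := by
    rw [div_pow, sq_sqrt zero_le_two]
    norm_num
  have hc4 : (√2 / 2) ^ 4 = 1 / 4 := by
    rw [show 4 = 2 * 2 from rfl, pow_mul, hc]
    norm_num
  have hn : ∀ m r q : ℝ, quart m (-r) q = quart m r q := fun m r q => by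
    unfold quart
    ring
  refine le_antisymm (transfer hc (fun r s y h => ⟨?_, ?_⟩) cB ⟨_, hz 1 zero_le_one⟩ vA
    (hz 0 le_rfl) hz0) (transfer hc (fun r s y h => ⟨?_, ?_⟩) cA ⟨_, hz 0 le_rfl⟩ vB
    (hz 1 zero_le_one) hz0)
  · simpa only [ψ, hn] using h
  · have : quart 1 (√2 / 2 * (s + r)) ((√2 / 2 * (s - r)) ^ 2) = quart 0 r (s ^ 2) := by
      unfold quart
      linear_combination 4 * (r ^ 4 + s ^ 4) * hc4
    simpa only [ψ, this] using h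
  · simpa only [ψ, hn] using h
  · have : quart 0 (√2 / 2 * (s + r)) ((√2 / 2 * (s - r)) ^ 2) = quart 1 r (s ^ 2) := by
      unfold quart
      linear_combination 2 * (r ^ 4 + 6 * r ^ 2 * s ^ 2 + s ^ 4) * hc4
    simpa only [ψ, this] using h

theorem far {u v : Ek k} (hu : ‖u‖ ^ 2 ≤ 2) (hv : ‖v‖ ^ 2 ≤ 2) (h : ‖u - v‖ ^ 2 = 8) :
    ‖u‖ ^ 2 = 2 := by
  have h1 := norm_sub_sq_real u v
  have h2 := norm_add_sq_real u v
  nlinarith [sq_nonneg ‖u + v‖]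

theorem not_isometric : IsEmpty ({x : Ek k | φ 0 x ≤ 0} ≃ᵢ {x : Ek k | φ 1 x ≤ 0}) := by
  refine ⟨fun T => ?_⟩
  have hd : ∀ a b : {x : Ek k | φ 0 x ≤ 0}, ‖(T a : Ek k) - T b‖ = ‖(a : Ek k) - b‖ :=
    fun a b => by
      rw [← dist_eq_norm, ← dist_eq_norm]
      exact T.dist_eq a b
  have h2 : √2 ^ 2 = 2 := sq_sqrt zero_le_two
  have hp : ∀ r : ℝ, r ^ 2 = 2 → φ 1 (mk r 0 (0 : Fin k → ℝ)) ≤ 0 := fun r hr => by
    rw [φ_mk, quart, show r ^ 4 = (r ^ 2) ^ 2 by ring, hr]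
    norm_num
  obtain ⟨a, ha⟩ := T.surjective ⟨_, hp √2 h2⟩
  obtain ⟨a', ha'⟩ := T.surjective ⟨_, hp (-√2) (by rw [neg_sq, h2])⟩
  obtain ⟨a1, a2, a3⟩ := (sizeA a.2).2 (far (sizeA a.2).1 (sizeA a'.2).1 (by
    rw [← hd, ha, ha', norm_mk_sub]
    simp only [sub_self, norm_zero, Pi.zero_apply, ne_eq, OfNat.ofNat_ne_zero, not_false_eq_true,
      zero_pow, Finset.sum_const_zero]
    linear_combination 4 * h2))
  have key : ∀ y : V, ‖y‖ = 1 → 1 ≤ ⟪yy (a : Ek k), y⟫ ^ 2 := fun y hy => by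
    have m1 : ∀ (r : ℝ) (y : V), r ^ 2 = 1 → ‖y‖ = 1 → φ 0 (mk r y (0 : Fin k → ℝ)) ≤ 0 :=
      fun r y hr hy => by
        rw [φ_mk, quart, show r ^ 4 = (r ^ 2) ^ 2 by ring, hr, hy]
        norm_num
    let b : {x : Ek k | φ 0 x ≤ 0} := ⟨_, m1 (rr (a : Ek k)) y a1 hy⟩
    let b' : {x : Ek k | φ 0 x ≤ 0} :=
      ⟨_, m1 (-rr (a : Ek k)) (-y) (by rw [neg_sq, a1]) (by rw [norm_neg, hy])⟩
    have b1 : ‖(T b : Ek k)‖ ^ 2 = 2 := far (sizeB (T b).2).1 (sizeB (T b').2).1 (by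
      rw [hd, norm_mk_sub, sub_neg_eq_add y, ← two_smul ℝ y, norm_smul, hy]
      simp only [sub_self, Pi.zero_apply, ne_eq, OfNat.ofNat_ne_zero, not_false_eq_true,
        zero_pow, Finset.sum_const_zero, Real.norm_ofNat]
      linear_combination 4 * a1)
    have b2 := (sizeB (T b).2).2 b1
    have b3 : ‖(T a : Ek k) - T b‖ ^ 2 = 4 - 2 * √2 * rr (T b : Ek k) := by
      rw [norm_sq_eq] at b1
      rw [ha, ← mk_self (T b : Ek k), norm_mk_sub, rr_mk]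
      simp only [Pi.zero_apply, zero_sub, even_two, Even.neg_pow, norm_neg]
      linear_combination h2 + b1
    have b4 : ‖(a : Ek k) - b‖ ^ 2 = 2 - 2 * ⟪yy (a : Ek k), y⟫ := by
      conv_lhs => rw [← mk_self (a : Ek k)]
      rw [norm_mk_sub, norm_sub_sq_real, a2, hy]
      simp only [Pi.zero_apply, sub_zero, sub_self]
      rw [Y] at a3
      linear_combination a3
    rw [hd, b4] at b3
    have b5 : ⟪yy (a : Ek k), y⟫ + 1 = √2 * rr (T b : Ek k) := by linarith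
    have b6 : (⟪yy (a : Ek k), y⟫ + 1) ^ 2 = 2 * rr (T b : Ek k) ^ 2 := by
      rw [b5, mul_pow, h2]
    rcases mul_eq_zero.1 b2 with h | h
    · have : ⟪yy (a : Ek k), y⟫ + 1 = 0 := pow_eq_zero_iff two_ne_zero |>.1 (by rw [b6, h, mul_zero])
      nlinarith
    · have : (⟪yy (a : Ek k), y⟫ - 1) * (⟪yy (a : Ek k), y⟫ + 3) = 0 := by
        linear_combination b6 + 2 * h
      rcases mul_eq_zero.1 this with h' | h' <;> nlinarith
  have k1 := key e0 norm_e0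
  have k2 := key (WithLp.toLp 2 (0, 1)) (by
    refine (sq_eq_sq₀ (norm_nonneg _) zero_le_one).1 ?_
    rw [norm_V]
    simp)
  rw [real_inner_comm, inner_e0] at k1
  have k3 : ⟪yy (a : Ek k), WithLp.toLp 2 (0, 1)⟫ = (yy (a : Ek k)).snd.re := by
    simp [WithLp.prod_inner_apply, Complex.inner]
  rw [norm_V] at a2
  rw [k3] at k2
  nlinarith [sq_nonneg (yy (a : Ek k)).snd.im]

end Pool.Agent.Lib.MP_7c9f8e_gt.Rev
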