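import Pool.Agent.Lib.MP_7c9f8e_gt.RevArch
import Pool.Agent.Lib.MP_7c9f8e_gt.Finite

/-!
Transfer of magnitude between bodies of revolution whose profiles differ by a rotation.
-/

open MeasureTheory Set Real Filter Topology
open scoped RealInnerProductSpace

namespace Pool.Agent.Lib.MP_7c9f8e_gt.Rev

variable {k : ℕ}

abbrev Ek (k : ℕ) := EuclideanSpace ℝ (Fin (4 + k))

def rr (x : Ek k) : ℝ := x (Fin.castAdd k 0)
def yy (x : Ek k) : V :=
  WithLp.toLp 2 (x (Fin.castAdd k 1), ⟨x (Fin.castAdd k 2), x (Fin.castAdd k 3)⟩)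
def tl (x : Ek k) : Fin k → ℝ := fun j => x (Fin.natAdd 4 j)
def mk (r : ℝ) (y : V) (t : Fin k → ℝ) : Ek k :=
  WithLp.toLp 2 (Fin.append ![r, y.fst, y.snd.re, y.snd.im] t)

theorem rr_mk (r : ℝ) (y : V) (t : Fin k → ℝ) : rr (mk r y t) = r := by simp [rr, mk]

theorem yy_mk (r : ℝ) (y : V) (t : Fin k → ℝ) : yy (mk r y t) = y := by
  simp only [yy, mk, Fin.append_left]
  rfl

theorem tl_mk (r : ℝ) (y : V) (t : Fin k → ℝ) : tl (mk r y t) = t := by
  funext i
  simp [tl, mk]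

theorem mk_self (x : Ek k) : mk (rr x) (yy x) (tl x) = x := by
  ext i
  refine Fin.addCases (fun i => ?_) (fun i => ?_) i
  · simp only [mk, Fin.append_left]
    fin_cases i <;> rfl
  · simp [mk, tl]

theorem norm_V (y : V) : ‖y‖ ^ 2 = y.fst ^ 2 + y.snd.re ^ 2 + y.snd.im ^ 2 := by
  rw [WithLp.prod_norm_sq_eq_of_L2, Complex.sq_norm, Complex.normSq_apply, Real.norm_eq_abs,
    sq_abs]
  ring

theorem norm_yy (x : Ek k) : ‖yy x‖ ^ 2 =
    x (Fin.castAdd k 1) ^ 2 + x (Fin.castAdd k 2) ^ 2 + x (Fin.castAdd k 3) ^ 2 := norm_V _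

theorem norm_sq_eq (x : Ek k) : ‖x‖ ^ 2 = rr x ^ 2 + ∑ j, tl x j ^ 2 + ‖yy x‖ ^ 2 := by
  rw [EuclideanSpace.real_norm_sq_eq, Fin.sum_univ_add, Fin.sum_univ_four, norm_yy]
  simp only [rr, tl]
  ring

theorem yy_add (x y : Ek k) : yy (x + y) = yy x + yy y := rfl
theorem yy_sub (x y : Ek k) : yy (x - y) = yy x - yy y := rfl
theorem yy_smul (a : ℝ) (x : Ek k) : yy (a • x) = a • yy x := by
  simp only [yy, PiLp.smul_apply, smul_eq_mul, ← WithLp.toLp_smul, Prod.smul_mk]
  congr 2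
  exact Complex.ext (by simp) (by simp)

theorem norm_mk_sub (r r' : ℝ) (y y' : V) (t t' : Fin k → ℝ) :
    ‖mk r y t - mk r' y' t'‖ ^ 2 = (r - r') ^ 2 + ∑ j, (t j - t' j) ^ 2 + ‖y - y'‖ ^ 2 := by
  rw [norm_sq_eq, yy_sub, yy_mk, yy_mk,
    show rr (mk r y t - mk r' y' t') = rr (mk r y t) - rr (mk r' y' t') from rfl, rr_mk, rr_mk,
    show tl (mk r y t - mk r' y' t') = tl (mk r y t) - tl (mk r' y' t') from rfl, tl_mk, tl_mk]
  rfl

theorem measurable_mk (r s : ℝ) (t : Fin k → ℝ) : Measurable fun g => mk r (s • dir g) t := by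
  have h : Continuous fun y : V => mk r y t := by
    refine (PiLp.continuous_toLp 2 _).comp (continuous_pi fun i => ?_)
    refine Fin.addCases (fun i => ?_) (fun i => ?_) i
    · simp only [Fin.append_left]
      fin_cases i
      · exact continuous_const
      · exact WithLp.continuous_fst 2 ℝ ℂ
      · exact Complex.continuous_re.comp (WithLp.continuous_snd 2 ℝ ℂ)
      · exact Complex.continuous_im.comp (WithLp.continuous_snd 2 ℝ ℂ)
    · simp only [Fin.append_right]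
      exact continuous_const
  exact h.measurable.comp (measurable_dir.const_smul s)

/-- The kernel averaged over a sphere. -/
noncomputable def K0 (D s s' : ℝ) : ℝ :=
  1 / 2 * ∫ u in (-1 : ℝ)..1, exp (-√(D + s ^ 2 + s' ^ 2 - 2 * s * s' * u))

/-- The kernel on the space of profiles. -/
noncomputable def Ψ (q : ℝ) : ℝ := (1 + √q) * exp (-√q)

theorem K0_symm (D s s' : ℝ) : K0 D s s' = K0 D s' s := by
  unfold K0
  congr 2 with u
  congr 3
  ring

theorem K0_eq {D : ℝ} (hD : 0 ≤ D) (s s' : ℝ) :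
    s * s' * K0 D s s' = (Ψ (D + (s - s') ^ 2) - Ψ (D + (s + s') ^ 2)) / 2 := by
  by_cases h0 : s * s' = 0
  · rw [h0, zero_mul, show (s - s') ^ 2 = (s + s') ^ 2 by linear_combination -4 * h0, sub_self,
      zero_div]
  have hc : Continuous Ψ := by unfold Ψ; fun_prop
  have h := intervalIntegral.integral_eq_sub_of_hasDerivAt_of_le (a := -1) (b := 1)
    (f := fun u => Ψ (D + s ^ 2 + s' ^ 2 - 2 * s * s' * u))
    (f' := fun u => s * s' * exp (-√(D + s ^ 2 + s' ^ 2 - 2 * s * s' * u))) (by norm_num)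
    (by fun_prop) (fun u hu => ?_) (Continuous.intervalIntegrable (by fun_prop) _ _)
  · rw [intervalIntegral.integral_const_mul] at h
    rw [K0, show D + (s - s') ^ 2 = D + s ^ 2 + s' ^ 2 - 2 * s * s' * 1 by ring,
      show D + (s + s') ^ 2 = D + s ^ 2 + s' ^ 2 - 2 * s * s' * (-1) by ring, ← h]
    ring
  · have hq : 0 < D + s ^ 2 + s' ^ 2 - 2 * s * s' * u := by
      rcases lt_or_gt_of_ne h0 with h1 | h1
      · nlinarith [sq_nonneg (s + s'), mul_pos (neg_pos.2 h1) (show 0 < u + 1 by linarith [hu.1])]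
      · nlinarith [sq_nonneg (s - s'), mul_pos h1 (show 0 < 1 - u by linarith [hu.2])]
    have h1 : HasDerivAt (fun u => D + s ^ 2 + s' ^ 2 - 2 * s * s' * u) (-(2 * s * s')) u := by
      simpa using ((hasDerivAt_id u).const_mul (2 * s * s')).const_sub (D + s ^ 2 + s' ^ 2)
    have h2 := h1.sqrt hq.ne'
    have h3 := (h2.const_add 1).mul h2.neg.exp
    have h4 := sqrt_pos.2 hq
    refine h3.congr_deriv ?_
    simp only [Pi.neg_apply]
    field_simp
    ring

theorem avg (r r' s s' : ℝ) (t t' : Fin k → ℝ) {e : V} (he : ‖e‖ = 1) :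
    ∫ g, Z (mk r (s • e) t - mk r' (s' • dir g) t') ∂γ =
      K0 ((r - r') ^ 2 + ∑ j, (t j - t' j) ^ 2) s s' := by
  rw [K0, ← arch (by fun_prop) he]
  congr 1 with g
  rw [Z, ← sqrt_sq (norm_nonneg (mk r (s • e) t - mk r' (s' • dir g) t')), norm_mk_sub,
    norm_sub_sq_real, norm_smul, norm_smul, he, norm_dir, inner_smul_left, inner_smul_right]
  simp only [mul_one, Real.norm_eq_abs, sq_abs, conj_trivial]
  congr 3
  ring

theorem avg2 (r r' s s' : ℝ) (t t' : Fin k → ℝ) :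
    ∫ g, ∫ g', Z (mk r (s • dir g) t - mk r' (s' • dir g') t') ∂γ ∂γ =
      K0 ((r - r') ^ 2 + ∑ j, (t j - t' j) ^ 2) s s' := by
  simp only [fun g => avg r r' s s' t t' (norm_dir g)]
  simp

theorem En_fam {κ : Type} [Fintype κ] [MeasurableSpace κ] [MeasurableSingletonClass κ]
    (v : κ → ℝ) (p : κ → V → Ek k) (hp : ∀ a, Measurable (p a)) :
    Integrable (fun z : κ × V => v z.1) (Measure.count.prod γ) ∧
    Measurable (fun z : κ × V => p z.1 z.2) ∧
    ∫ z : κ × V, v z.1 ∂(Measure.count.prod γ) = ∑ a, v a ∧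
    En Z (Measure.count.prod γ) (fun z : κ × V => v z.1) (fun z => p z.1 z.2)
      (Measure.count.prod γ) (fun z : κ × V => v z.1) (fun z => p z.1 z.2) =
      ∑ a, ∑ b, v a * v b * ∫ g, ∫ g', Z (p a g - p b g') ∂γ ∂γ := by
  have hp' : Measurable fun z : κ × V => p z.1 z.2 := measurable_from_prod_countable_right hp
  have hf : Integrable (fun z : κ × V => v z.1) (Measure.count.prod γ) :=
    (Integrable.of_finite (μ := Measure.count) (f := v)).comp_fst γ
  have hb : ∀ x : Ek k, ‖Z x‖ ≤ 1 := fun x => by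
    rw [Real.norm_eq_abs, abs_of_pos (Z_pos _)]
    exact exp_le_one_iff.2 (by simp)
  refine ⟨hf, hp', by rw [integral_prod _ hf, integral_count]; simp, ?_⟩
  have hin : ∀ a : κ × V, ∫ b : κ × V, v a.1 * v b.1 * Z (p a.1 a.2 - p b.1 b.2)
      ∂(Measure.count.prod γ) = ∑ j, v a.1 * v j * ∫ g', Z (p a.1 a.2 - p j g') ∂γ := by
    intro a
    rw [integral_prod, integral_count]
    · simp only [integral_const_mul]
    · exact (hf.const_mul (v a.1)).mul_bdd (c := 1)
        (continuous_Z.measurable.comp (measurable_const.sub hp')).aestronglyMeasurable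
        (Eventually.of_forall fun z => hb _)
  rw [En, integral_prod _ (integrable_En_Z hf hp').integral_prod_left, integral_count]
  refine Finset.sum_congr rfl fun a _ => ?_
  simp only [fun y => hin (a, y)]
  rw [integral_finsetSum _ fun b _ => ?_]
  · simp only [integral_const_mul]
  · refine (Integrable.integral_prod_left (f := fun z : V × V => Z (p a z.1 - p b z.2))
      (Integrable.of_bound (continuous_Z.measurable.comp
        (((hp a).comp measurable_fst).sub ((hp b).comp measurable_snd))).aestronglyMeasurable 1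
        (Eventually.of_forall fun z => hb _))).const_mul _

theorem bdd {B : Set (Ek k)} (hB : IsCompact B) :
    BddAbove {m : ℝ | ∃ X : Finset (Ek k), (X : Set (Ek k)) ⊆ B ∧ m = finMagnitude X} := by
  obtain ⟨ρ, K, h⟩ := exists_dual (E := Ek k) one_pos
  obtain ⟨R, hR⟩ := hB.isBounded.subset_closedBall 0
  refine (magnitude_le h (μ := volume) (f := (Metric.closedBall (0 : Ek k) (R + 1)).indicator 1)
    (p := id) ?_ measurable_id B fun x hx => ?_).1
  · exact (integrableOn_const (measure_closedBall_lt_top).ne).integrable_indicator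
      measurableSet_closedBall
  · have : ∀ b : Ek k, (Metric.closedBall (0 : Ek k) (R + 1)).indicator 1 b * ρ (x - id b)
        = ρ (x - b) := by
      intro b
      by_cases hb : b ∈ Metric.closedBall (0 : Ek k) (R + 1)
      · simp [hb]
      · have h1 := hR hx
        rw [mem_closedBall_zero_iff] at hb h1
        have : 1 ≤ ‖x - b‖ := by
          have := norm_sub_norm_le b x
          rw [norm_sub_rev] at this
          linarith [not_le.1 hb]
        simp [h.ρ_supp _ this]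
    simp only [this]
    rw [integral_sub_left_eq_self, h.ρ_one]

/-- Averaging over the symmetry group lowers the energy. -/
theorem avg_le {ι : Type} [Fintype ι] (w r s : ι → ℝ) (t : ι → Fin k → ℝ) (e : ι → V)
    (he : ∀ i, ‖e i‖ = 1) :
    ∑ i, ∑ j, w i * w j * ((K0 ((r i - r j) ^ 2 + ∑ l, (t i l - t j l) ^ 2) (s i) (s j) +
      K0 ((r i + r j) ^ 2 + ∑ l, (t i l - t j l) ^ 2) (s i) (s j)) / 2) ≤
    ∑ i, ∑ j, w i * w j * Z (mk (r i) (s i • e i) (t i) - mk (r j) (s j • e j) (t j)) := by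
  let _ : MeasurableSpace (ι × Fin 3) := ⊤
  let p : ι × Fin 3 → V → Ek k := fun a =>
    ![fun _ => mk (r a.1) (s a.1 • e a.1) (t a.1), fun g => mk (r a.1) (s a.1 • dir g) (t a.1),
      fun g => mk (-r a.1) (s a.1 • dir g) (t a.1)] a.2
  obtain ⟨h1, h2, -, h4⟩ := En_fam (fun a : ι × Fin 3 => ![w a.1, -w a.1 / 2, -w a.1 / 2] a.2) p
    fun a => by
      rcases a with ⟨i, a⟩
      fin_cases a
      exacts [measurable_const, measurable_mk _ _ _, measurable_mk _ _ _]
  obtain ⟨ρ, K, h⟩ := exists_dual (E := Ek k) one_pos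
  have h5 := h.core (μ₂ := (0 : Measure Unit)) (f₂ := fun _ => 0) (p₂ := fun _ => 0) h1 h2
    (integrable_zero_measure) measurable_const
  rw [h4] at h5
  simp only [En, integral_zero_measure, integral_zero, mul_zero, add_zero] at h5
  have a1 : ∀ (r r' s s' : ℝ) (t t' : Fin k → ℝ) {e : V}, ‖e‖ = 1 →
      ∫ g, Z (mk r (s • dir g) t - mk r' (s' • e) t') ∂γ =
        K0 ((r - r') ^ 2 + ∑ j, (t j - t' j) ^ 2) s s' := fun r r' s s' t t' e he => by
    simp only [fun g => (Z_neg (mk r (s • dir g) t - mk r' (s' • e) t')).symm, neg_sub]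
    rw [avg _ _ _ _ _ _ he, K0_symm]
    simp only [sub_sq_comm r' r, fun j => sub_sq_comm (t' j) (t j)]
  rw [← sub_nonneg, ← Finset.sum_sub_distrib]
  refine h5.trans_eq ?_
  rw [Fintype.sum_prod_type]
  refine Finset.sum_congr rfl fun i _ => ?_
  rw [Finset.sum_comm, Fintype.sum_prod_type, ← Finset.sum_sub_distrib]
  refine Finset.sum_congr rfl fun j _ => ?_
  simp only [Fin.sum_univ_three, p, Matrix.cons_val_zero, Matrix.cons_val_one,
    Matrix.cons_val_two, Matrix.head_cons, Matrix.tail_cons, avg2, avg _ _ _ _ _ _ (he i),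
    a1 _ _ _ _ _ _ (he j), integral_const, probReal_univ, one_smul, sub_neg_eq_add,
    show (-r i - r j) ^ 2 = (r i + r j) ^ 2 by ring, show (-r i + r j) ^ 2 = (r i - r j) ^ 2 by ring]
  ring

/-- The sign attached to an index. -/
def sg : Fin 2 → ℝ := ![1, -1]

theorem sixteen {c : ℝ} (hc : c ^ 2 = 1 / 2) {T : ℝ} (hT : 0 ≤ T) (w w' r r' : ℝ) {s s' : ℝ}
    (hs : s ≠ 0) (hs' : s' ≠ 0) :
    ∑ a : Fin 2 × Fin 2, ∑ b : Fin 2 × Fin 2,
      c * sg a.2 * w / (2 * s) * (c * (sg a.2 * s - sg a.1 * r)) *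
        (c * sg b.2 * w' / (2 * s') * (c * (sg b.2 * s' - sg b.1 * r'))) *
        K0 ((c * (sg a.2 * s + sg a.1 * r) - c * (sg b.2 * s' + sg b.1 * r')) ^ 2 + T)
          (c * (sg a.2 * s - sg a.1 * r)) (c * (sg b.2 * s' - sg b.1 * r')) =
      w * w' * ((K0 ((r - r') ^ 2 + T) s s' + K0 ((r + r') ^ 2 + T) s s') / 2) := by
  have h1 : ∀ a b a' b' u u' : ℝ, u * (c * (b - a)) * (u' * (c * (b' - a'))) *
      K0 ((c * (b + a) - c * (b' + a')) ^ 2 + T) (c * (b - a)) (c * (b' - a')) =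
      u * u' * ((Ψ (T + (a - a') ^ 2 + (b - b') ^ 2) - Ψ (T + (a - b') ^ 2 + (b - a') ^ 2)) / 2) := by
    intro a b a' b' u u'
    have h2 := K0_eq (D := (c * (b + a) - c * (b' + a')) ^ 2 + T) (by positivity) (c * (b - a))
      (c * (b' - a'))
    rw [show (c * (b + a) - c * (b' + a')) ^ 2 + T + (c * (b - a) - c * (b' - a')) ^ 2 =
        T + (a - a') ^ 2 + (b - b') ^ 2 by
          linear_combination 2 * ((a - a') ^ 2 + (b - b') ^ 2) * hc,
      show (c * (b + a) - c * (b' + a')) ^ 2 + T + (c * (b - a) + c * (b' - a')) ^ 2 =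
        T + (a - b') ^ 2 + (b - a') ^ 2 by
          linear_combination 2 * ((a - b') ^ 2 + (b - a') ^ 2) * hc] at h2
    rw [← h2]
    ring
  have h2 := K0_eq (D := (r - r') ^ 2 + T) (by positivity) s s'
  have h3 := K0_eq (D := (r + r') ^ 2 + T) (by positivity) s s'
  have h4 : w * w' * ((K0 ((r - r') ^ 2 + T) s s' + K0 ((r + r') ^ 2 + T) s s') / 2) =
      w * w' / (2 * s * s') * (s * s' * K0 ((r - r') ^ 2 + T) s s' +
        s * s' * K0 ((r + r') ^ 2 + T) s s') := by
    field_simp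
  simp only [h1]
  rw [h4, h2, h3]
  simp only [Fintype.sum_prod_type, Fin.sum_univ_two, sg, Matrix.cons_val_zero,
    Matrix.cons_val_one]
  ring_nf
  rw [hc]
  ring

/-- The body of revolution with a given profile. -/
def Body (ψ : ℝ → ℝ → (Fin k → ℝ) → Prop) : Set (Ek k) := {x | ψ (rr x) (‖yy x‖ ^ 2) (tl x)}

theorem transfer0 {c : ℝ} (hc : c ^ 2 = 1 / 2) {ψ ψ' : ℝ → ℝ → (Fin k → ℝ) → Prop}
    (hψ : ∀ r s t, ψ r (s ^ 2) t → ψ (-r) (s ^ 2) t ∧ ψ' (c * (s + r)) ((c * (s - r)) ^ 2) t)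
    (hB : IsCompact (Body ψ')) (hne : (Body ψ').Nonempty) {ι : Type} [Fintype ι] (w : ι → ℝ)
    (x : ι → Ek k) (hx : ∀ i, x i ∈ Body ψ ∧ yy (x i) ≠ 0) :
    2 * ∑ i, w i - ∑ i, ∑ j, w i * w j * Z (x i - x j) ≤ magnitude (Body ψ') := by
  let _ : MeasurableSpace (ι × Fin 2 × Fin 2) := ⊤
  let s : ι → ℝ := fun i => ‖yy (x i)‖
  have hs : ∀ i, s i ≠ 0 := fun i => norm_ne_zero_iff.2 (hx i).2
  have hxe : ∀ i, mk (rr (x i)) (s i • dir (yy (x i))) (tl (x i)) = x i := fun i => by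
    rw [dir, if_neg (hx i).2, smul_inv_smul₀ (hs i), mk_self]
  have h0 := avg_le w (fun i => rr (x i)) s (fun i => tl (x i)) (fun i => dir (yy (x i)))
    fun i => norm_dir _
  simp only [hxe] at h0
  obtain ⟨h1, h2, h3, h4⟩ := En_fam
    (fun a : ι × Fin 2 × Fin 2 => c * sg a.2.2 * w a.1 / (2 * s a.1) *
      (c * (sg a.2.2 * s a.1 - sg a.2.1 * rr (x a.1))))
    (fun a g => mk (c * (sg a.2.2 * s a.1 + sg a.2.1 * rr (x a.1)))
      ((c * (sg a.2.2 * s a.1 - sg a.2.1 * rr (x a.1))) • dir g) (tl (x a.1)))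
    fun a => measurable_mk _ _ _
  have key := le_magnitude h1 h2 hB hne (fun b _ => ?_) (bdd hB)
  · rw [h3, h4] at key
    refine le_trans ?_ key
    have e1 : ∑ a : ι × Fin 2 × Fin 2, c * sg a.2.2 * w a.1 / (2 * s a.1) *
        (c * (sg a.2.2 * s a.1 - sg a.2.1 * rr (x a.1))) = ∑ i, w i := by
      rw [Fintype.sum_prod_type]
      refine Finset.sum_congr rfl fun i _ => ?_
      have := hs i
      simp only [Fintype.sum_prod_type, Fin.sum_univ_two, sg, Matrix.cons_val_zero,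
        Matrix.cons_val_one]
      field_simp
      linear_combination 4 * s i * w i * hc
    rw [e1]
    refine sub_le_sub_left (le_trans (le_of_eq ?_) h0) _
    rw [Fintype.sum_prod_type]
    refine Finset.sum_congr rfl fun i _ => ?_
    rw [Finset.sum_comm, Fintype.sum_prod_type]
    refine Finset.sum_congr rfl fun j _ => ?_
    rw [Finset.sum_comm]
    simp only [avg2]
    exact sixteen hc (Finset.sum_nonneg fun l _ => sq_nonneg _) _ _ _ _ (hs i) (hs j)
  · rcases b with ⟨⟨i, a, b⟩, g⟩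
    simp only [Body, mem_ofPred_eq, rr_mk, yy_mk, tl_mk, norm_smul, norm_dir, mul_one,
      Real.norm_eq_abs, sq_abs]
    refine (hψ _ _ _ ?_).2
    have h5 : (sg b * s i) ^ 2 = s i ^ 2 := by fin_cases b <;> simp [sg]
    rw [h5]
    fin_cases a
    · simpa [sg, Body] using (hx i).1
    · simpa [sg] using (hψ _ _ _ (hx i).1).1

theorem transfer {c : ℝ} (hc : c ^ 2 = 1 / 2) {ψ ψ' : ℝ → ℝ → (Fin k → ℝ) → Prop}
    (hψ : ∀ r s t, ψ r (s ^ 2) t → ψ (-r) (s ^ 2) t ∧ ψ' (c * (s + r)) ((c * (s - r)) ^ 2) t)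
    (hB : IsCompact (Body ψ')) (hne : (Body ψ').Nonempty) (hA : Convex ℝ (Body ψ))
    {z : Ek k} (hz : z ∈ Body ψ) (hz0 : yy z ≠ 0) :
    magnitude (Body ψ) ≤ magnitude (Body ψ') := by
  classical
  refine csSup_le ⟨_, ∅, by simp, rfl⟩ ?_
  rintro m ⟨X, hX, rfl⟩
  obtain ⟨w, hw, hm⟩ := exists_weighting X
  let x : ℝ → X → Ek k := fun ε i =>
    if yy (i : Ek k) = 0 then (1 - ε) • (i : Ek k) + ε • z else i
  have hc' : ∀ i, Continuous fun ε => x ε i := fun i => by
    simp only [x]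
    split_ifs <;> fun_prop
  have h0 : ∀ i, x 0 i = i := fun i => by simp [x]
  have h1 : Continuous fun ε => 2 * ∑ i, w i - ∑ i, ∑ j, w i * w j * Z (x ε i - x ε j) := by
    fun_prop
  have h2 := ((h1.tendsto 0).mono_left (nhdsWithin_le_nhds (s := Ioi 0)))
  have h3 := le_of_tendsto h2 (b := magnitude (Body ψ')) (by
    filter_upwards [Ioc_mem_nhdsGT (zero_lt_one' ℝ)] with ε hε
    refine transfer0 hc hψ hB hne w _ fun i => ?_
    simp only [x]
    split_ifs with h
    · refine ⟨hA (hX i.2) hz (by linarith [hε.2]) hε.1.le (by ring), ?_⟩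
      rw [yy_add, yy_smul, yy_smul, h, smul_zero, zero_add]
      exact smul_ne_zero hε.1.ne' hz0
    · exact ⟨hX i.2, h⟩)
  simp only [h0, mul_assoc, ← Finset.mul_sum, hw, mul_one] at h3
  linarith

end Pool.Agent.Lib.MP_7c9f8e_gt.Rev
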