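import Pool.Agent.Lib.MP_7c9f8e_gt.SlopeG
import Pool.Agent.Lib.MP_7c9f8e_gt.Finite

/-!
The exponential bound for magnitude and the energy on an interval.
-/

open MeasureTheory Set Real Metric Filter Topology Matrix
open scoped RealInnerProductSpace Pointwise

namespace Pool.Agent.Lib.MP_7c9f8e_gt.Sl

section quad

variable {ι : Type} [Fintype ι]

/-- The quadratic form of a kernel. -/
def qf (w : ι → ℝ) (k : ι → ι → ℝ) : ℝ := ∑ i, ∑ j, w i * w j * k i j

theorem qf_eq (w : ι → ℝ) (k : ι → ι → ℝ) : star w ⬝ᵥ (Matrix.of k *ᵥ w) = qf w k := by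
  simp only [dotProduct, mulVec, qf, Finset.mul_sum, star_trivial, Matrix.of_apply]
  exact Finset.sum_congr rfl fun i _ => Finset.sum_congr rfl fun j _ => by ring

theorem qf_const (w : ι → ℝ) (c : ℝ) : qf w (fun _ _ => c) = c * (∑ i, w i) ^ 2 := by
  simp only [qf, ← Finset.sum_mul, ← Finset.mul_sum]
  ring

theorem qf_lin (w : ι → ℝ) (a b : ℝ) (k : ι → ι → ℝ) :
    qf w (fun i j => a + b * k i j) = a * (∑ i, w i) ^ 2 + b * qf w k := by
  rw [← qf_const]
  simp only [qf, Finset.mul_sum, ← Finset.sum_add_distrib]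
  exact Finset.sum_congr rfl fun i _ => Finset.sum_congr rfl fun j _ => by ring

theorem psd_pow {k : ι → ι → ℝ} (hs : ∀ i j, k j i = k i j) (h : ∀ w, 0 ≤ qf w k) (m : ℕ) :
    (Matrix.of fun i j => k i j ^ m).PosSemidef := by
  have h1 : (Matrix.of k).PosSemidef :=
    .of_dotProduct_mulVec_nonneg (by ext i j; simp [hs]) fun w => by rw [qf_eq]; exact h w
  induction m with
  | zero =>
    refine .of_dotProduct_mulVec_nonneg (by ext i j; simp) fun w => ?_
    rw [qf_eq]
    simp only [pow_zero, qf_const]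
    positivity
  | succ m ih =>
    have e : (Matrix.of fun i j => k i j ^ (m + 1)) =
        (Matrix.of fun i j => k i j ^ m) ⊙ Matrix.of k := by
      ext i j
      simp [pow_succ]
    rw [e]
    exact ih.hadamard h1

theorem qf_exp {k : ι → ι → ℝ} (hs : ∀ i j, k j i = k i j) (h : ∀ w, 0 ≤ qf w k) (w : ι → ℝ) :
    (∑ i, w i) ^ 2 ≤ qf w fun i j => exp (k i j) := by
  have h1 : HasSum (fun m : ℕ => qf w (fun i j => k i j ^ m) / m.factorial)
      (qf w fun i j => exp (k i j)) := by
    simp only [qf, Finset.sum_div, mul_div_assoc, Real.exp_eq_exp_ℝ]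
    exact hasSum_sum fun i _ => hasSum_sum fun j _ =>
      (NormedSpace.expSeries_div_hasSum_exp (k i j)).mul_left _
  have h2 := le_hasSum h1 0 fun m _ => div_nonneg (by
    rw [← qf_eq]
    exact (psd_pow hs h m).dotProduct_mulVec_nonneg w) (Nat.cast_nonneg _)
  simpa [qf_const] using h2

end quad

variable {E : Type} [NormedAddCommGroup E] [InnerProductSpace ℝ E] [FiniteDimensional ℝ E]
  [MeasurableSpace E] [BorelSpace E]

/-- The energy of every finite signed measure on `K` is at most `M` times the squared mass. -/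
def Bd (K : Set E) (M : ℝ) : Prop := ∀ (ι : Type) [Fintype ι] (x : ι → E) (w : ι → ℝ),
  (∀ i, x i ∈ K) → qf w (fun i j => ‖x i - x j‖) ≤ M * (∑ i, w i) ^ 2

theorem mag_le {K : Set E} {M : ℝ} (h : Bd K M) {t : ℝ} (ht : 0 < t) :
    BddAbove {m : ℝ | ∃ X : Finset E, (X : Set E) ⊆ t • K ∧ m = finMagnitude X} ∧
      magnitude (t • K) ≤ exp (t * M) := by
  have hb : ∀ m ∈ {m : ℝ | ∃ X : Finset E, (X : Set E) ⊆ t • K ∧ m = finMagnitude X},
      m ≤ exp (t * M) := by
    rintro m ⟨X, hX, rfl⟩
    obtain ⟨u, hu, hm⟩ := exists_weighting X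
    have e0 : ∀ i j : X, ‖(i : E) - j‖ = t * ‖t⁻¹ • (i : E) - t⁻¹ • (j : E)‖ := fun i j => by
      rw [← smul_sub, norm_smul, norm_eq_abs, abs_of_pos (inv_pos.2 ht),
        mul_inv_cancel_left₀ ht.ne']
    have h1 := qf_exp (k := fun i j : X => t * M + -t * ‖t⁻¹ • (i : E) - t⁻¹ • (j : E)‖)
      (fun i j => by rw [norm_sub_rev]) (fun w => by
        have := mul_le_mul_of_nonneg_left (h X (fun i => t⁻¹ • (i : E)) w fun i =>
          (mem_smul_set_iff_inv_smul_mem₀ ht.ne' _ _).1 (hX i.2)) ht.le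
        rw [qf_lin]
        linarith) u
    have e1 : (qf u fun i j : X => exp (t * M + -t * ‖t⁻¹ • (i : E) - t⁻¹ • (j : E)‖)) =
        exp (t * M) * ∑ i, u i := by
      rw [qf, Finset.mul_sum]
      refine Finset.sum_congr rfl fun i _ => ?_
      have e2 : exp (t * M) * u i = exp (t * M) * u i * ∑ j, u j * Z ((i : E) - j) := by
        rw [hu i, mul_one]
      rw [e2, Finset.mul_sum]
      refine Finset.sum_congr rfl fun j _ => ?_
      rw [exp_add, Z, e0, neg_mul]
      ring
    rw [e1] at h1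
    rw [hm]
    by_contra hc
    have h2 := exp_pos (t * M)
    nlinarith [not_le.1 hc]
  exact ⟨⟨_, hb⟩, csSup_le ⟨_, ∅, by simp, rfl⟩ hb⟩

/-- The sign function. -/
noncomputable def sg (y : ℝ) : ℝ := if 0 ≤ y then 1 else -1

@[fun_prop]
theorem measurable_sg : Measurable sg :=
  Measurable.ite measurableSet_Ici measurable_const measurable_const

theorem abs_sg (y : ℝ) : |sg y| = 1 := by unfold sg; split_ifs <;> simp

theorem ii {f : ℝ → ℝ} (hf : Measurable f) {x y : ℝ} (C : ℝ) (h : ∀ r ∈ uIoc x y, |f r| ≤ C) :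
    IntervalIntegrable f volume x y :=
  (intervalIntegrable_const (c := C)).mono_fun' hf.aestronglyMeasurable
    (ae_restrict_of_forall_mem measurableSet_uIoc h)

theorem int_sg {g ψ : ℝ → ℝ} (hm : Measurable g) {a b c s : ℝ} (hc : ∀ r ∈ Ioc a b, |g r| ≤ c)
    (hψ : ∀ x y, ∫ r in x..y, g r = ψ y - ψ x) (h1 : a ≤ s) (h2 : s ≤ b) :
    ∫ r in a..b, g r * sg (s - r) = 2 * ψ s - ψ a - ψ b := by
  have hb : ∀ r ∈ Ioc a b, |g r * sg (s - r)| ≤ c := fun r hr => by
    rw [abs_mul, abs_sg, mul_one]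
    exact hc r hr
  rw [← intervalIntegral.integral_add_adjacent_intervals (b := s)
    (ii (by fun_prop) c fun r hr => hb r (Ioc_subset_Ioc_right h2 (uIoc_of_le h1 ▸ hr)))
    (ii (by fun_prop) c fun r hr => hb r (Ioc_subset_Ioc_left h1 (uIoc_of_le h2 ▸ hr))),
    intervalIntegral.integral_congr_ae (g := g) (Eventually.of_forall fun r hr => by
      rw [uIoc_of_le h1] at hr
      rw [sg, if_pos (sub_nonneg.2 hr.2), mul_one]),
    intervalIntegral.integral_congr_ae (a := s) (g := fun r => -g r)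
      (Eventually.of_forall fun r hr => by
        rw [uIoc_of_le h2] at hr
        rw [sg, if_neg (not_le.2 (sub_neg.2 hr.1)), mul_neg_one]),
    intervalIntegral.integral_neg, hψ, hψ]
  ring

theorem prim_sg (s x y : ℝ) : ∫ r in x..y, sg (s - r) = -|s - y| - -|s - x| := by
  have key : ∀ x, ∫ r in x..s, sg (s - r) = |s - x| := by
    intro x
    rcases le_total x s with h | h
    · rw [intervalIntegral.integral_congr_ae (g := fun _ => 1)
        (Eventually.of_forall fun r hr => by
          rw [uIoc_of_le h] at hr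
          rw [sg, if_pos (sub_nonneg.2 hr.2)]), abs_of_nonneg (sub_nonneg.2 h)]
      simp
    · rw [intervalIntegral.integral_congr_ae (g := fun _ => -1)
        (Eventually.of_forall fun r hr => by
          rw [uIoc_of_ge h] at hr
          rw [sg, if_neg (not_le.2 (sub_neg.2 hr.1))]), abs_of_nonpos (sub_nonpos.2 h)]
      simp
  have hi : ∀ x y, IntervalIntegrable (fun r => sg (s - r)) volume x y := fun x y =>
    ii (by fun_prop) 1 fun r _ => (abs_sg _).le
  rw [← intervalIntegral.integral_add_adjacent_intervals (hi x s) (hi s y),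
    intervalIntegral.integral_symm y s, key, key]
  ring

theorem line {ι : Type} [Fintype ι] {s : ι → ℝ} (w : ι → ℝ) {a b : ℝ} (hab : a ≤ b)
    (hs : ∀ i, a ≤ s i ∧ s i ≤ b) {g ψ : ℝ → ℝ} (hm : Measurable g) {c l : ℝ}
    (hc : ∀ r ∈ Ioc a b, |g r| ≤ c) (hψ : ∀ x y, ∫ r in x..y, g r = ψ y - ψ x) (hl : 0 < l) :
    |∑ i, w i * ψ (s i) - (ψ a + ψ b) / 2 * ∑ i, w i| ≤ l * c ^ 2 * (b - a) / 2 +
      ((b - a) / 2 * (∑ i, w i) ^ 2 - qf w fun i j => |s i - s j|) / (4 * l) := by
  set Φ : ℝ → ℝ := fun r => ∑ i, w i * sg (s i - r) with hΦ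
  have hu := uIoc_of_le hab
  have i1 : ∀ i j, IntervalIntegrable (fun r => w i * w j * (sg (s i - r) * sg (s j - r)))
      volume a b := fun i j =>
    (ii (by fun_prop) 1 fun r _ => by rw [abs_mul, abs_sg, abs_sg, mul_one]).const_mul _
  have i2 : ∀ i, IntervalIntegrable (fun r => w i * (g r * sg (s i - r))) volume a b := fun i =>
    (ii (by fun_prop) c fun r hr => by
      rw [abs_mul, abs_sg, mul_one]
      exact hc r (hu ▸ hr)).const_mul _
  have e1 : ∀ r, Φ r ^ 2 = ∑ i, ∑ j, w i * w j * (sg (s i - r) * sg (s j - r)) := fun r => by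
    simp only [hΦ, sq, Finset.sum_mul_sum]
    exact Finset.sum_congr rfl fun i _ => Finset.sum_congr rfl fun j _ => by ring
  have e2 : ∀ r, g r * Φ r = ∑ i, w i * (g r * sg (s i - r)) := fun r => by
    simp only [hΦ, Finset.mul_sum]
    exact Finset.sum_congr rfl fun i _ => by ring
  have j1 : ∀ i, IntervalIntegrable
      (fun r => ∑ j, w i * w j * (sg (s i - r) * sg (s j - r))) volume a b := fun i => by
    have := IntervalIntegrable.sum Finset.univ fun j _ => i1 i j
    rwa [Finset.sum_fn] at this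
  have j2 : IntervalIntegrable (fun r => Φ r ^ 2) volume a b := by
    have := IntervalIntegrable.sum Finset.univ fun i _ => j1 i
    rw [Finset.sum_fn] at this
    simpa only [e1] using this
  have j3 : IntervalIntegrable (fun r => g r * Φ r) volume a b := by
    have := IntervalIntegrable.sum Finset.univ fun i _ => i2 i
    rw [Finset.sum_fn] at this
    simpa only [e2] using this
  have A : ∫ r in a..b, Φ r ^ 2 =
      (b - a) * (∑ i, w i) ^ 2 + -2 * qf w fun i j => |s i - s j| := by
    rw [← qf_lin, qf]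
    simp only [e1]
    rw [intervalIntegral.integral_finsetSum fun i _ => j1 i]
    refine Finset.sum_congr rfl fun i _ => ?_
    rw [intervalIntegral.integral_finsetSum fun j _ => i1 i j]
    refine Finset.sum_congr rfl fun j _ => ?_
    rw [intervalIntegral.integral_const_mul, int_sg (ψ := fun y => -|s i - y|) (c := 1)
      (by fun_prop) (fun r _ => (abs_sg _).le) (prim_sg _) (hs j).1 (hs j).2,
      abs_of_nonneg (sub_nonneg.2 (hs i).1), abs_of_nonpos (sub_nonpos.2 (hs i).2)]
    ring
  have B : ∫ r in a..b, g r * Φ r = 2 * (∑ i, w i * ψ (s i) - (ψ a + ψ b) / 2 * ∑ i, w i) := by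
    simp only [e2]
    rw [intervalIntegral.integral_finsetSum fun i _ => i2 i, Finset.mul_sum,
      ← Finset.sum_sub_distrib, Finset.mul_sum]
    refine Finset.sum_congr rfl fun i _ => ?_
    rw [intervalIntegral.integral_const_mul, int_sg hm hc hψ (hs i).1 (hs i).2]
    ring
  have j4 : IntervalIntegrable (fun r => l * c ^ 2 + (4 * l)⁻¹ * Φ r ^ 2) volume a b :=
    intervalIntegrable_const.add (j2.const_mul _)
  have C := (intervalIntegral.abs_integral_le_integral_abs (f := fun r => g r * Φ r)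
    (μ := volume) hab).trans (intervalIntegral.integral_mono_on_of_le_Ioo hab j3.abs j4
      fun r hr => by
        have h1 := pow_le_pow_left₀ (abs_nonneg _) (hc r (Ioo_subset_Ioc_self hr)) 2
        have h2 : 0 ≤ (4 * l)⁻¹ * (2 * l * |g r| - |Φ r|) ^ 2 := by positivity
        have h3 : (4 * l)⁻¹ * (2 * l * |g r| - |Φ r|) ^ 2 =
            l * |g r| ^ 2 - |g r| * |Φ r| + (4 * l)⁻¹ * |Φ r| ^ 2 := by
          field_simp
          ring
        rw [abs_mul, ← sq_abs (Φ r)]
        nlinarith)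
  rw [B, intervalIntegral.integral_add intervalIntegrable_const (j2.const_mul _),
    intervalIntegral.integral_const_mul ((4 * l)⁻¹), A, intervalIntegral.integral_const, abs_mul,
    abs_two, smul_eq_mul] at C
  refine le_of_mul_le_mul_left (C.trans (le_of_eq ?_)) two_pos
  field_simp
  ring

end Pool.Agent.Lib.MP_7c9f8e_gt.Sl
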