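import Pool.Agent.Lib.MP_7c9f8e_gt.SlopeF
import Pool.Agent.Lib.MP_7c9f8e_gt.Main

/-!
The formula of Cauchy for the perimeter of a plane convex body.
-/

open MeasureTheory Set Real Metric Filter Topology
open scoped RealInnerProductSpace Pointwise

namespace Pool.Agent.Lib.MP_7c9f8e_gt.Sl

theorem chord {s : Set ℝ} (hs : IsCompact s) (hc : Convex ℝ s) {ε : ℝ} (hε : 0 < ε) :
    volume.real {x | x ∈ s ∧ x - ε ∈ s} = volume.real s - min (volume.real s) ε := by
  rcases s.eq_empty_or_nonempty with rfl | hne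
  · simp [hε.le]
  have h := eq_Icc_of_connected_compact (hc.isConnected hne) hs
  have hab : sInf s ≤ sSup s := nonempty_Icc.1 (h ▸ hne)
  generalize sInf s = a at h hab
  generalize sSup s = b at h hab
  subst h
  have e : {x | x ∈ Icc a b ∧ x - ε ∈ Icc a b} = Icc (a + ε) b := by
    ext x
    simp only [mem_ofPred_eq, mem_Icc]
    exact ⟨fun h => ⟨by linarith [h.2.1], h.1.2⟩,
      fun h => ⟨⟨by linarith [h.1], h.2⟩, by linarith [h.1], by linarith [h.2]⟩⟩
  rw [e, volume_real_Icc, volume_real_Icc_of_le hab]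
  rcases le_total (b - a) ε with h | h
  · rw [min_eq_left h, max_eq_right (by linarith), sub_self]
  · rw [min_eq_right h, max_eq_left (by linarith)]
    ring

variable {E : Type} [NormedAddCommGroup E] [InnerProductSpace ℝ E] [FiniteDimensional ℝ E]
  [MeasurableSpace E] [BorelSpace E] {K : Set E}

theorem plane_mp (b : OrthonormalBasis (Fin 2) ℝ E) :
    MeasurePreserving (fun q : ℝ × ℝ => q.1 • b 0 + q.2 • b 1) (volume.prod volume) volume := by
  have h := (b.repr.symm.measurePreserving.comp (PiLp.volume_preserving_toLp (Fin 2))).comp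
    (volume_preserving_finTwoArrow ℝ).symm
  have e : (fun q : ℝ × ℝ => q.1 • b 0 + q.2 • b 1) =
      (b.repr.symm ∘ WithLp.toLp 2) ∘ MeasurableEquiv.finTwoArrow.symm := by
    funext q
    simp only [Function.comp, ← b.sum_repr_symm, Fin.sum_univ_two]
    rfl
  rw [e]
  exact h

theorem vol_slices (b : OrthonormalBasis (Fin 2) ℝ E) {S : Set E} (hS : MeasurableSet S)
    (hf : volume S ≠ ⊤) : Integrable (fun z : ℝ => volume.real {s : ℝ | z • b 0 + s • b 1 ∈ S}) ∧
      volume.real S = ∫ z : ℝ, volume.real {s : ℝ | z • b 0 + s • b 1 ∈ S} := by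
  have h := plane_mp b
  have h1 := h.measure_preimage hS.nullMeasurableSet
  have h2 := h.measurable hS
  have h3 := h1.trans_ne hf
  refine ⟨Measure.integrable_measure_prodMk_left h2 h3, ?_⟩
  rw [Measure.real, ← h1, Measure.prod_apply h2, ← integral_toReal
    (measurable_measure_prodMk_left h2).aemeasurable (Measure.ae_measure_lt_top h2 h3)]
  rfl

omit [FiniteDimensional ℝ E] [MeasurableSpace E] [BorelSpace E] in
theorem exists_interior (hK : IsCompact K) (hc : Convex ℝ K) (hi : (interior K).Nonempty) (v : E)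
    {z : ℝ} (h1 : -sf K (-v) < z) (h2 : z < sf K v) : ∃ x ∈ interior K, ⟪x, v⟫ = z := by
  have hne : K.Nonempty := hi.mono interior_subset
  obtain ⟨p, hp⟩ := hi
  have key : ∀ (v : E) (z : ℝ), ⟪p, v⟫ ≤ z → z < sf K v → ∃ x ∈ interior K, ⟪x, v⟫ = z := by
    intro v z h1 h2
    obtain ⟨q, hq, e⟩ := sf_attained hK hne v
    rw [e] at h2
    have h3 : 0 < ⟪q, v⟫ - ⟪p, v⟫ := by linarith
    refine ⟨_, hc.combo_interior_self_mem_interior hp hq (a := (⟪q, v⟫ - z) / (⟪q, v⟫ - ⟪p, v⟫))
      (b := (z - ⟪p, v⟫) / (⟪q, v⟫ - ⟪p, v⟫)) (div_pos (by linarith) h3)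
      (div_nonneg (by linarith) h3.le) (by field_simp; ring), ?_⟩
    rw [inner_add_left, real_inner_smul_left, real_inner_smul_left]
    field_simp
    ring
  rcases le_total ⟪p, v⟫ z with h | h
  · exact key v z h h2
  · obtain ⟨x, hx, e⟩ := key (-v) (-z) (by rw [inner_neg_right]; linarith) (by linarith)
    exact ⟨x, hx, by rwa [inner_neg_right, neg_inj] at e⟩

theorem covar (hK : IsCompact K) (hc : Convex ℝ K) (hi : (interior K).Nonempty)
    (b : OrthonormalBasis (Fin 2) ℝ E) :
    Tendsto (fun ε => (volume.real (lay K ε 0 0 (b 1)) - volume.real K) / ε) (𝓝[>] 0)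
      (𝓝 (-(sf K (b 0) - -sf K (-b 0)))) := by
  have hne : K.Nonempty := hi.mono interior_subset
  have h00 : ⟪b 0, b 0⟫ = 1 := by simp
  have h10 : ⟪b 1, b 0⟫ = 0 := b.orthonormal.inner_eq_zero (by decide)
  set sl : ℝ → Set ℝ := fun z => {s | z • b 0 + s • b 1 ∈ K} with hsl
  have hemb : ∀ z : ℝ, Isometry fun s : ℝ => z • b 0 + s • b 1 := fun z =>
    Isometry.of_dist_eq fun s s' => by
      rw [dist_add_left, dist_eq_norm, ← sub_smul, norm_smul, b.orthonormal.1, mul_one,
        dist_eq_norm]
  have c1 : ∀ z, IsCompact (sl z) := fun z => (hemb z).isClosedEmbedding.isCompact_preimage hK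
  have c2 : ∀ z, Convex ℝ (sl z) := fun z s hs s' hs' a a' ha ha' e => by
    have := hc hs hs' ha ha' e
    change z • b 0 + (a • s + a' • s') • b 1 ∈ K
    convert this using 1
    have e' : z = a * z + a' * z := by rw [← add_mul, e, one_mul]
    nth_rewrite 1 [e']
    simp only [smul_eq_mul]
    module
  obtain ⟨i1, v1⟩ := vol_slices b hK.measurableSet hK.measure_lt_top.ne
  have i2 : ∀ ε : ℝ, 0 < ε → Integrable fun z => min (volume.real (sl z)) ε := fun ε hε =>
    i1.mono' (i1.1.aemeasurable.min aemeasurable_const).aestronglyMeasurable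
      (Eventually.of_forall fun z => by
        rw [norm_eq_abs, abs_of_nonneg (le_min measureReal_nonneg hε.le)]
        exact min_le_left _ _)
  have e1 : ∀ ε : ℝ, 0 < ε → (volume.real (lay K ε 0 0 (b 1)) - volume.real K) / ε =
      -∫ z, min (volume.real (sl z)) ε / ε := by
    intro ε hε
    have hl : lay K ε 0 0 (b 1) = {x | x ∈ K ∧ x - ε • b 1 ∈ K} := by
      ext x
      simp only [lay, mul_zero, mem_ofPred_eq]
      exact ⟨fun h => ⟨mem_of_sd_nonpos hK hne h.1, mem_of_sd_nonpos hK hne h.2⟩,
        fun h => ⟨by simpa using sd_le_dist (x := x) h.1,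
          by simpa using sd_le_dist (x := x - ε • b 1) h.2⟩⟩
    obtain ⟨-, v2⟩ := vol_slices b (isClosed_lay K ε 0 0 (b 1)).measurableSet
      ((measure_mono (hl ▸ fun x hx => hx.1)).trans_lt hK.measure_lt_top).ne
    have e2 : ∀ z : ℝ, volume.real {s : ℝ | z • b 0 + s • b 1 ∈ lay K ε 0 0 (b 1)} =
        volume.real (sl z) - min (volume.real (sl z)) ε := fun z => by
      rw [← chord (c1 z) (c2 z) hε, hl]
      simp only [hsl, mem_ofPred_eq, sub_smul, add_sub_assoc]
    rw [v2, v1]
    simp only [e2]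
    rw [integral_sub i1 (i2 ε hε), integral_div]
    ring
  have out : ∀ z, z ∉ Icc (-sf K (-b 0)) (sf K (b 0)) → volume.real (sl z) = 0 := fun z hz => by
    have : sl z = ∅ := eq_empty_of_forall_notMem fun s hs => hz (by
      have := between hK hs (b 0)
      rwa [inner_add_left, real_inner_smul_left, real_inner_smul_left, h00, h10, mul_one, mul_zero,
        add_zero] at this)
    simp [this]
  have ins : ∀ z, -sf K (-b 0) < z → z < sf K (b 0) → 0 < volume.real (sl z) := fun z h1 h2 => by
    obtain ⟨x, hx, e⟩ := exists_interior hK hc hi (b 0) h1 h2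
    have h3 : IsOpen {s : ℝ | z • b 0 + s • b 1 ∈ interior K} :=
      isOpen_interior.preimage (hemb z).continuous
    refine ENNReal.toReal_pos ((h3.measure_pos volume ⟨⟪b 1, x⟫, ?_⟩).trans_le
      (measure_mono fun s hs => interior_subset (s := K) hs)).ne' (c1 z).measure_lt_top.ne
    have h4 := b.sum_repr' x
    rw [Fin.sum_univ_two, real_inner_comm x (b 0), e] at h4
    rwa [mem_ofPred_eq, h4]
  have lim := tendsto_integral_filter_of_dominated_convergence (μ := volume) (l := 𝓝[>] (0 : ℝ))
    (F := fun ε z => min (volume.real (sl z)) ε / ε)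
    (f := (Icc (-sf K (-b 0)) (sf K (b 0))).indicator 1)
    ((Icc (-sf K (-b 0)) (sf K (b 0))).indicator 1)
    (by
      filter_upwards [self_mem_nhdsWithin] with ε hε
      exact ((i2 ε hε).div_const ε).1)
    (by
      filter_upwards [self_mem_nhdsWithin] with ε (hε : 0 < ε)
      refine Eventually.of_forall fun z => ?_
      by_cases hz : z ∈ Icc (-sf K (-b 0)) (sf K (b 0))
      · rw [indicator_of_mem hz, norm_eq_abs,
          abs_of_nonneg (div_nonneg (le_min measureReal_nonneg hε.le) hε.le)]
        exact (div_le_one hε).2 (min_le_right _ _)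
      · simp [hz, out z hz, hε.le])
    ((integrable_indicator_iff measurableSet_Icc).2 (integrableOn_const measure_Icc_lt_top.ne))
    (by
      filter_upwards [Measure.ae_ne volume (-sf K (-b 0)), Measure.ae_ne volume (sf K (b 0))]
        with z n1 n2
      by_cases hz : z ∈ Icc (-sf K (-b 0)) (sf K (b 0))
      · rw [indicator_of_mem hz]
        refine tendsto_const_nhds.congr' ?_
        filter_upwards [Ioo_mem_nhdsGT (ins z (hz.1.lt_of_ne' n1) (hz.2.lt_of_ne n2))] with ε hε
        rw [min_eq_right hε.2.le, div_self hε.1.ne', Pi.one_apply]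
      · rw [indicator_of_notMem hz]
        refine tendsto_const_nhds.congr' ?_
        filter_upwards [self_mem_nhdsWithin] with ε (hε : 0 < ε)
        rw [out z hz, min_eq_left hε.le, zero_div])
  rw [integral_indicator_one measurableSet_Icc,
    volume_real_Icc_of_le (width_nonneg hK hne _)] at lim
  refine lim.neg.congr' ?_
  filter_upwards [self_mem_nhdsWithin] with ε hε
  exact (e1 ε hε).symm

omit [FiniteDimensional ℝ E] [MeasurableSpace E] [BorelSpace E] in
theorem sf_smul (hK : IsCompact K) (hne : K.Nonempty) {r : ℝ} (hr : 0 ≤ r) (x : E) :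
    sf K (r • x) = r * sf K x := by
  obtain ⟨a, ha, e⟩ := sf_attained hK hne (r • x)
  obtain ⟨a', ha', e'⟩ := sf_attained hK hne x
  have h1 := mul_le_mul_of_nonneg_left (le_sf hK ha x) hr
  have h2 := le_sf hK ha' (r • x)
  rw [real_inner_smul_right] at e h2
  rw [← e'] at h2
  linarith

theorem int_lin (c : E) : Integrable (fun x => ⟪c, x⟫ * gs x) ∧ ∫ x, ⟪c, x⟫ * gs x = 0 := by
  have e0 : ∫ x, ⟪c, x⟫ * gs x = -∫ x, ⟪c, x⟫ * gs x := by
    rw [← integral_neg, ← integral_neg_eq_self]
    simp [gs]
  exact ⟨int_pow (by fun_prop) (norm_nonneg c) 1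
    fun x => by simpa using abs_real_inner_le_norm c x, by linarith⟩

theorem cauchy (hd : Module.finrank ℝ E = 2) (hK : IsCompact K) (hc : Convex ℝ K)
    (hi : (interior K).Nonempty) {ν : Measure E} {G : E → E} {C M : ℝ}
    (H : LayerData K ν G C M) : ∫ y, ‖G y‖ ∂ν = 4 * mK K := by
  have hne : K.Nonempty := hi.mono interior_subset
  have : Fact (Module.finrank ℝ E = 2) := ⟨hd⟩
  have := H.fin
  set J := (Module.finBasisOfFinrankEq ℝ E hd).orientation.rightAngleRotation
  have hJ : ∀ x, ⟪J x, x⟫ = 0 := Orientation.inner_rightAngleRotation_self _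
  have e1 : ∀ h : E, ∫ y, min 0 ⟪G y, h⟫ ∂ν = -(sf K (J h) + sf K (-J h)) := by
    intro h
    rcases eq_or_ne h 0 with rfl | h0
    · have := sf_smul hK hne le_rfl 0
      simp only [zero_smul, zero_mul] at this
      simp [this]
    have hn : 0 < ‖h‖ := norm_pos_iff.2 h0
    set u := ‖h‖⁻¹ • h
    have hu : ‖u‖ = 1 := norm_smul_inv_norm (𝕜 := ℝ) h0
    have e : h = ‖h‖ • u := (smul_inv_smul₀ hn.ne' h).symm
    have hon : Orthonormal ℝ ![J u, u] := by
      rw [orthonormal_vecCons_iff]
      simp [hu, hJ]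
    set b := (basisOfOrthonormalOfCardEqFinrank hon (by simp [hd])).toOrthonormalBasis
      (by rwa [coe_basisOfOrthonormalOfCardEqFinrank])
    have hb : ∀ i, b i = ![J u, u] i := fun i => by simp [b]
    have h1 := tendsto_nhds_unique (H.lim 0 0 (b 1)) (covar hK hc hi b)
    simp only [hb, zero_mul, zero_add, Matrix.cons_val_zero, Matrix.cons_val_one] at h1
    rw [e, map_smul, ← smul_neg, sf_smul hK hne hn.le, sf_smul hK hne hn.le]
    simp only [real_inner_smul_right]
    have e2 : ∀ y, min 0 (‖h‖ * ⟪G y, u⟫) = ‖h‖ * min 0 ⟪G y, u⟫ := fun y => by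
      rw [mul_min_of_nonneg _ _ hn.le, mul_zero]
    simp only [e2]
    rw [integral_const_mul, h1]
    ring
  have e2 : ∀ g : E, ∫ h, min 0 ⟪g, h⟫ * gs h = -(2 * π)⁻¹ * ‖g‖ := fun g => by
    have e : ∀ h, min 0 ⟪g, h⟫ * gs h = 2⁻¹ * (⟪g, h⟫ * gs h - |⟪g, h⟫| * gs h) := fun h => by
      rcases le_total 0 ⟪g, h⟫ with h1 | h1
      · rw [min_eq_left h1, abs_of_nonneg h1]
        ring
      · rw [min_eq_right h1, abs_of_nonpos h1]
        ring
    simp only [e]
    rw [integral_const_mul, integral_sub (int_lin g).1 (int_inner g), (int_lin g).2, ← crofton]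
    field_simp
    ring
  have i1 : Integrable fun h : E => ‖h‖ * gs h :=
    int_pow continuous_norm one_pos.le 1 fun x => by simp
  have i2 : Integrable (Function.uncurry fun (y h : E) => min 0 ⟪G y, h⟫ * gs h)
      (ν.prod volume) := by
    have hG := H.meas
    have hg := (continuous_gs (E := E)).measurable
    refine ((integrable_const M).mul_prod i1).mono' (Measurable.aestronglyMeasurable ?_)
      (Eventually.of_forall fun q => ?_)
    · exact (measurable_const.min ((hG.comp measurable_fst).inner measurable_snd)).mul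
        (hg.comp measurable_snd)
    · rw [Function.uncurry_def, norm_eq_abs]
      simp only
      rw [abs_mul, abs_of_pos (gs_pos _), ← mul_assoc]
      refine mul_le_mul_of_nonneg_right ?_ (gs_pos _).le
      have h1 := (abs_real_inner_le_norm (G q.1) q.2).trans
        (mul_le_mul_of_nonneg_right (H.bdd q.1) (norm_nonneg _))
      refine le_trans ?_ h1
      rcases le_total 0 ⟪G q.1, q.2⟫ with h2 | h2
      · simp [min_eq_left h2]
      · rw [min_eq_right h2]
  have h3 := integral_integral_swap i2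
  simp only [e2, integral_mul_const, e1] at h3
  obtain ⟨j1, j2⟩ := int_sf hK hne
  have e3 := J.measurePreserving.integral_comp J.toMeasurableEquiv.measurableEmbedding
    fun h => -(sf K h + sf K (-h)) * gs h
  have e4 : ∫ x, sf K (-x) * gs x = ∫ x, sf K x * gs x := by
    rw [← integral_neg_eq_self]
    simp [gs]
  simp only [gs, J.norm_map] at e3
  simp only [← gs.eq_1] at e3
  rw [e3, integral_const_mul] at h3
  simp only [neg_mul, add_mul] at h3
  rw [integral_neg, integral_add j1 j2, e4] at h3
  rw [mK]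
  field_simp at h3
  linarith

theorem plane_inv (hd : Module.finrank ℝ E = 2) {A B : Set E} (hA : IsCompact A)
    (cA : Convex ℝ A) (iA : (interior A).Nonempty) (hB : IsCompact B) (cB : Convex ℝ B)
    (iB : (interior B).Nonempty) (h : ∀ t : ℝ, 0 < t → magnitude (t • A) = magnitude (t • B)) :
    volume.real A = volume.real B ∧ mK A = mK B := by
  have : Nontrivial E := Module.nontrivial_of_finrank_pos (R := ℝ) (by omega)
  obtain ⟨ν, G, C, M, H⟩ := exists_layerData hA cA iA
  obtain ⟨ν', G', C', M', H'⟩ := exists_layerData hB cB iB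
  have h1 := main_limit H hA (iA.mono interior_subset)
  have h2 := main_limit H' hB (iB.mono interior_subset)
  rw [cauchy hd hA cA iA H] at h1
  rw [cauchy hd hB cB iB H'] at h2
  have hz := cZ_pos (E := E)
  have h3 := (h1.sub h2).mul (tendsto_id.mono_left nhdsWithin_le_nhds)
  have h4 : (cZ E)⁻¹ * (volume.real B - volume.real A) = 0 := by
    rw [mul_zero] at h3
    refine tendsto_nhds_unique tendsto_const_nhds (h3.congr' ?_)
    filter_upwards [self_mem_nhdsWithin] with ε (hε : 0 < ε)
    rw [h _ (inv_pos.2 hε), id]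
    field_simp
    ring
  have h5 : volume.real A = volume.real B := by
    rw [mul_eq_zero, sub_eq_zero] at h4
    exact (h4.resolve_left (inv_pos.2 hz).ne').symm
  have h6 := tendsto_nhds_unique h1 (h2.congr' (by
    filter_upwards [self_mem_nhdsWithin] with ε (hε : 0 < ε)
    rw [h _ (inv_pos.2 hε), h5]))
  have := mul_right_cancel₀ (by positivity) h6
  exact ⟨h5, by linarith⟩

end Pool.Agent.Lib.MP_7c9f8e_gt.Sl
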