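import Pool.Agent.Lib.MP_7c9f8e_gt.SlopeA

/-!
If the energy bound given by the mean width is sharp, the body is an ellipsoid.
-/

open MeasureTheory Set Real Metric Filter Topology
open scoped RealInnerProductSpace Pointwise

namespace Pool.Agent.Lib.MP_7c9f8e_gt.Sl

variable {E : Type} [NormedAddCommGroup E] [InnerProductSpace ℝ E] [FiniteDimensional ℝ E]
  [MeasurableSpace E] [BorelSpace E] {K : Set E}

/-- Half of the first intrinsic volume. -/
noncomputable def mK (K : Set E) : ℝ := π * ∫ x, sf K x * gs x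

/-- The deficit in the direction `x`. -/
noncomputable def df (K : Set E) {ι : Type} [Fintype ι] (p : ι → E) (w : ι → ℝ) (x : E) : ℝ :=
  (sf K x - -sf K (-x)) / 2 * (∑ i, w i) ^ 2 - qf w fun i j => |⟪p i, x⟫ - ⟪p j, x⟫|

omit [FiniteDimensional ℝ E] [MeasurableSpace E] [BorelSpace E] in
theorem between (hK : IsCompact K) {a : E} (ha : a ∈ K) (x : E) :
    -sf K (-x) ≤ ⟪a, x⟫ ∧ ⟪a, x⟫ ≤ sf K x := by
  have := le_sf hK ha (-x)
  rw [inner_neg_right] at this
  exact ⟨by linarith, le_sf hK ha x⟩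

omit [FiniteDimensional ℝ E] [MeasurableSpace E] [BorelSpace E] in
theorem width_nonneg (hK : IsCompact K) (hne : K.Nonempty) (x : E) : -sf K (-x) ≤ sf K x :=
  let ⟨_, ha⟩ := hne
  (between hK ha x).1.trans (between hK ha x).2

theorem int_sf (hK : IsCompact K) (hne : K.Nonempty) :
    Integrable (fun x => sf K x * gs x) ∧ Integrable fun x => sf K (-x) * gs x := by
  obtain ⟨R, hR0, hR⟩ := hK.isBounded.exists_pos_norm_le
  have hc := continuous_sf hK
  exact ⟨int_pow hc hR0.le 1 (by simpa using abs_sf_le hK hne hR),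
    int_pow (by fun_prop) hR0.le 1 fun x => by simpa using abs_sf_le hK hne hR (-x)⟩

theorem int_df (hK : IsCompact K) (hne : K.Nonempty) {ι : Type} [Fintype ι] (p : ι → E)
    (w : ι → ℝ) : Integrable (fun x => df K p w x * gs x) ∧ π * ∫ x, df K p w x * gs x =
      mK K * (∑ i, w i) ^ 2 - qf w fun i j => ‖p i - p j‖ := by
  obtain ⟨i1, i2⟩ := int_sf hK hne
  have e : ∀ x, df K p w x * gs x =
      (∑ i, w i) ^ 2 / 2 * (sf K x * gs x + sf K (-x) * gs x) -
        ∑ i, ∑ j, w i * w j * (|⟪p i - p j, x⟫| * gs x) := fun x => by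
    simp only [df, qf, sub_mul, Finset.sum_mul, inner_sub_left, mul_assoc]
    ring
  have i3 : ∀ i, Integrable fun x => ∑ j, w i * w j * (|⟪p i - p j, x⟫| * gs x) := fun i =>
    integrable_finsetSum _ fun j _ => (int_inner _).const_mul _
  have i4 := integrable_finsetSum Finset.univ fun i _ => i3 i
  have i5 : Integrable fun x => (∑ i, w i) ^ 2 / 2 * (sf K x * gs x + sf K (-x) * gs x) :=
    (i1.add i2).const_mul _
  have e2 : ∫ x, sf K (-x) * gs x = ∫ x, sf K x * gs x := by
    rw [← integral_neg_eq_self]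
    simp [gs]
  simp only [e]
  refine ⟨i5.sub i4, ?_⟩
  rw [integral_sub i5 i4, integral_const_mul, integral_add i1 i2, e2,
    integral_finsetSum _ fun i _ => i3 i, mul_sub, mK, qf, Finset.mul_sum (a := π)]
  congr 1
  · ring
  · refine Finset.sum_congr rfl fun i _ => ?_
    rw [integral_finsetSum _ fun j _ => (int_inner _).const_mul _, Finset.mul_sum]
    refine Finset.sum_congr rfl fun j _ => ?_
    rw [integral_const_mul, ← crofton]
    ring

omit [FiniteDimensional ℝ E] [MeasurableSpace E] [BorelSpace E] in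
theorem df_nonneg (hK : IsCompact K) (hne : K.Nonempty) {ι : Type} [Fintype ι] {p : ι → E}
    (hp : ∀ i, p i ∈ K) (w : ι → ℝ) (x : E) : 0 ≤ df K p w x := by
  have := line w (width_nonneg hK hne x) (fun i => between hK (hp i) x) (g := fun _ => 0)
    (ψ := fun _ => 0) measurable_const (c := 0) (l := 1) (by simp) (by simp) one_pos
  have h2 := (abs_nonneg _).trans this
  rw [df]
  linarith

theorem bd_mean (hK : IsCompact K) (hne : K.Nonempty) : Bd K (mK K) := by
  intro ι _ p w hp
  have h1 : 0 ≤ ∫ x, df K p w x * gs x :=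
    integral_nonneg fun x => mul_nonneg (df_nonneg hK hne hp w x) (gs_pos x).le
  have h2 := mul_nonneg pi_pos.le h1
  rw [(int_df hK hne p w).2] at h2
  linarith

theorem approx (hK : IsCompact K) (hne : K.Nonempty) (h : ∀ M, Bd K M → mK K ≤ M) {η : ℝ}
    (hη : 0 < η) : ∃ (ι : Type) (_ : Fintype ι) (p : ι → E) (w : ι → ℝ), (∀ i, p i ∈ K) ∧
      ∑ i, w i = 1 ∧ ∫ x, df K p w x * gs x ≤ η := by
  have h1 : ¬ Bd K (mK K - π * η) := fun hb => by
    have := h _ hb
    have := mul_pos pi_pos hη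
    linarith
  simp only [Bd, not_forall, not_le] at h1
  obtain ⟨ι, _, p, w, hp, h2⟩ := h1
  have h3 := bd_mean hK hne ι p w hp
  have hs : ∑ i, w i ≠ 0 := fun e => by
    rw [e] at h2 h3
    linarith
  have e1 : ∑ i, w i / ∑ i, w i = 1 := by rw [← Finset.sum_div, div_self hs]
  refine ⟨ι, _, p, fun i => w i / ∑ i, w i, hp, e1, le_of_mul_le_mul_left ?_ pi_pos⟩
  have e2 : (qf (fun i => w i / ∑ i, w i) fun i j => ‖p i - p j‖) =
      (qf w fun i j => ‖p i - p j‖) / (∑ i, w i) ^ 2 := by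
    simp only [qf, Finset.sum_div]
    exact Finset.sum_congr rfl fun i _ => Finset.sum_congr rfl fun j _ => by field_simp
  rw [(int_df hK hne p _).2, e1, e2]
  have := (lt_div_iff₀ (by positivity)).2 h2
  linarith

theorem closed_lim {V : Type} [AddCommGroup V] [Module ℝ V] [FiniteDimensional ℝ V]
    (T : V →ₗ[ℝ] E → ℝ) (hc : ∀ v, Continuous (T v)) (hi : ∀ v, Integrable fun x => T v x * gs x)
    {f : E → ℝ} (hf : Continuous f) (hfi : Integrable fun x => f x * gs x)
    (h : ∀ ε > 0, ∃ v, ∫ x, |T v x - f x| * gs x ≤ ε) : ∃ v, ∀ x, T v x = f x := by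
  let S : V →ₗ[ℝ] E →₁[volume] ℝ :=
    { toFun := fun v => (hi v).toL1 _
      map_add' := fun v w => by
        rw [← Integrable.toL1_add, Integrable.toL1_eq_toL1_iff]
        exact Eventually.of_forall fun x => by simp [add_mul]
      map_smul' := fun a v => by
        rw [← Integrable.toL1_smul', Integrable.toL1_eq_toL1_iff]
        exact Eventually.of_forall fun x => by simp [mul_assoc] }
  have h1 : hfi.toL1 _ ∈ closure (LinearMap.range S : Set (E →₁[volume] ℝ)) := by
    refine Metric.mem_closure_iff.2 fun ε hε => ?_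
    obtain ⟨v, hv⟩ := h (ε / 2) (half_pos hε)
    refine ⟨S v, ⟨v, rfl⟩, lt_of_le_of_lt (le_of_eq_of_le ?_ hv) (half_lt_self hε)⟩
    rw [L1.dist_eq_integral_dist]
    refine integral_congr_ae ?_
    filter_upwards [hfi.coeFn_toL1, (hi v).coeFn_toL1] with x e1 e2
    rw [e1, show S v x = T v x * gs x from e2, Real.dist_eq, ← sub_mul, abs_mul,
      abs_of_pos (gs_pos x), abs_sub_comm]
  rw [(LinearMap.range S).closed_of_finiteDimensional.closure_eq] at h1
  obtain ⟨v, hv⟩ := h1
  have h2 := (Integrable.toL1_eq_toL1_iff _ _ (hi v) hfi).1 hv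
  have h3 := hc v
  rw [Continuous.ae_eq_iff_eq volume (by fun_prop) (by fun_prop)] at h2
  exact ⟨v, fun x => mul_right_cancel₀ (gs_pos x).ne' (congrFun h2 x)⟩

theorem small (hK : IsCompact K) (hne : K.Nonempty) (h : ∀ M, Bd K M → mK K ≤ M) {C : ℝ}
    (hC : 0 ≤ C) (k : ℕ) {ε : ℝ} (hε : 0 < ε) : ∃ (ι : Type) (_ : Fintype ι) (p : ι → E)
      (w : ι → ℝ) (l : ℝ), (∀ i, p i ∈ K) ∧ ∑ i, w i = 1 ∧ 0 < l ∧ ∀ u : E → ℝ,
        (∀ x, |u x| ≤ l * (C * ‖x‖ ^ k) + df K p w x / (4 * l)) → ∫ x, |u x| * gs x ≤ ε := by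
  have i1 : Integrable fun x : E => C * ‖x‖ ^ k * gs x :=
    int_pow (by fun_prop) hC k fun x => (abs_of_nonneg (by positivity)).le
  set J := ∫ x : E, C * ‖x‖ ^ k * gs x
  have hJ : 0 ≤ J := integral_nonneg fun x => mul_nonneg (by positivity) (gs_pos x).le
  set l := ε / (2 * (J + 1)) with hl
  have l0 : 0 < l := by positivity
  obtain ⟨ι, _, p, w, hp, hw, hd⟩ := approx hK hne h (η := 2 * l * ε) (by positivity)
  refine ⟨ι, _, p, w, l, hp, hw, l0, fun u hu => ?_⟩
  have i2 := (int_df hK hne p w).1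
  have h1 : ∫ x, |u x| * gs x ≤
      ∫ x, (l * (C * ‖x‖ ^ k * gs x) + (4 * l)⁻¹ * (df K p w x * gs x)) :=
    integral_mono_of_nonneg
      (Eventually.of_forall fun x => mul_nonneg (abs_nonneg _) (gs_pos x).le)
      ((i1.const_mul _).add (i2.const_mul _)) (Eventually.of_forall fun x =>
        (mul_le_mul_of_nonneg_right (hu x) (gs_pos x).le).trans (le_of_eq (by ring)))
  rw [integral_add (i1.const_mul _) (i2.const_mul _), integral_const_mul,
    integral_const_mul] at h1
  have h2 := mul_le_mul_of_nonneg_left hd (by positivity : 0 ≤ (4 * l)⁻¹)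
  have h3 : (4 * l)⁻¹ * (2 * l * ε) = ε / 2 := by field_simp; norm_num
  have h4 : l * (J + 1) = ε / 2 := by rw [hl]; field_simp
  change _ ≤ l * J + _ at h1
  nlinarith

theorem lin_part (hK : IsCompact K) (hne : K.Nonempty) (h : ∀ M, Bd K M → mK K ≤ M) :
    ∃ c : E, ∀ x, ⟪c, x⟫ = (-sf K (-x) + sf K x) / 2 := by
  obtain ⟨R, hR0, hR⟩ := hK.isBounded.exists_pos_norm_le
  have hc := continuous_sf hK
  have hb := abs_sf_le hK hne hR
  refine closed_lim (V := E) ⟨⟨fun v x => ⟪v, x⟫, fun v w => funext fun x => inner_add_left _ _ _⟩,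
    fun a v => funext fun x => real_inner_smul_left _ _ _⟩ (fun v => ?_) (fun v => ?_)
    (by fun_prop) ?_ fun ε hε => ?_
  · exact continuous_const.inner continuous_id
  · exact int_pow (continuous_const.inner continuous_id) (norm_nonneg v) 1 fun x => by
      simpa using abs_real_inner_le_norm v x
  · refine int_pow (by fun_prop) hR0.le 1 fun x => ?_
    have h1 := abs_le.1 (hb x)
    have h2 := abs_le.1 (hb (-x))
    rw [norm_neg] at h2
    rw [pow_one, abs_le]
    constructor <;> linarith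
  · obtain ⟨ι, _, p, w, l, hp, hw, hl, hu⟩ := small hK hne h hR0.le 1 hε
    refine ⟨∑ i, w i • p i, hu _ fun x => ?_⟩
    have h0 := line w (width_nonneg hK hne x) (fun i => between hK (hp i) x) (g := fun _ => 1)
      (ψ := fun s => s) measurable_const (c := 1) (by simp) (by simp) hl
    have h1 := abs_le.1 (hb x)
    have h2 := abs_le.1 (hb (-x))
    rw [norm_neg] at h2
    rw [hw, mul_one] at h0
    change |⟪∑ i, w i • p i, x⟫ - _| ≤ _
    simp only [sum_inner, real_inner_smul_left]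
    refine h0.trans ?_
    rw [df, hw]
    nlinarith

theorem quad_part (hK : IsCompact K) (hne : K.Nonempty) (h : ∀ M, Bd K M → mK K ≤ M) :
    ∃ A : E →L[ℝ] E, ∀ x, ⟪A x, x⟫ = ((-sf K (-x)) ^ 2 + sf K x ^ 2) / 2 := by
  obtain ⟨R, hR0, hR⟩ := hK.isBounded.exists_pos_norm_le
  have hc := continuous_sf hK
  have hb := abs_sf_le hK hne hR
  refine closed_lim (V := E →L[ℝ] E) ⟨⟨fun A x => ⟪A x, x⟫, fun v w => funext fun x =>
    inner_add_left _ _ _⟩, fun a v => funext fun x => real_inner_smul_left _ _ _⟩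
    (fun v => ?_) (fun v => ?_) (by fun_prop) ?_ fun ε hε => ?_
  · exact v.continuous.inner continuous_id
  · refine int_pow (v.continuous.inner continuous_id) (norm_nonneg v) 2 fun x =>
      (abs_real_inner_le_norm _ x).trans ?_
    rw [sq, ← mul_assoc]
    exact mul_le_mul_of_nonneg_right (v.le_opNorm x) (norm_nonneg x)
  · refine int_pow (by fun_prop) (sq_nonneg R) 2 fun x => ?_
    have h1 := pow_le_pow_left₀ (abs_nonneg _) (hb x) 2
    have h2 := pow_le_pow_left₀ (abs_nonneg _) (hb (-x)) 2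
    rw [sq_abs, mul_pow] at h1 h2
    rw [norm_neg] at h2
    rw [abs_of_nonneg (by positivity), neg_sq]
    linarith
  · obtain ⟨ι, _, p, w, l, hp, hw, hl, hu⟩ := small hK hne h (C := 4 * R ^ 3) (by positivity) 3 hε
    refine ⟨∑ i, w i • InnerProductSpace.rankOne ℝ (p i) (p i), hu _ fun x => ?_⟩
    have h1 := abs_le.1 (hb x)
    have h2 := abs_le.1 (hb (-x))
    rw [norm_neg] at h2
    have h0 := line w (width_nonneg hK hne x) (fun i => between hK (hp i) x)
      (g := fun s => 2 * s) (ψ := fun s => s ^ 2) (by fun_prop) (c := 2 * (R * ‖x‖))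
      (fun r hr => abs_le.2 ⟨by linarith [hr.1], by linarith [hr.2]⟩) (fun a b => by
        rw [intervalIntegral.integral_const_mul, integral_id]
        ring) hl
    rw [hw, mul_one] at h0
    change |⟪(∑ i, w i • InnerProductSpace.rankOne ℝ (p i) (p i)) x, x⟫ - _| ≤ _
    simp only [sum_apply, smul_apply,
      InnerProductSpace.rankOne_apply, sum_inner, real_inner_smul_left, ← sq]
    refine h0.trans ?_
    rw [df, hw]
    have h3 : 0 ≤ l * (2 * (R * ‖x‖)) ^ 2 := by positivity
    have h4 := mul_le_mul_of_nonneg_left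
      (show sf K x - -sf K (-x) ≤ 2 * (R * ‖x‖) by linarith) h3
    nlinarith

omit [MeasurableSpace E] [BorelSpace E] in
theorem exists_root {B : E →ₗ[ℝ] E} (hB : B.IsSymmetric) (h : ∀ x, 0 ≤ ⟪B x, x⟫) :
    ∃ S : E →ₗ[ℝ] E, ∀ x, ‖S x‖ ^ 2 = ⟪B x, x⟫ := by
  set b := hB.eigenvectorBasis rfl
  set e := hB.eigenvalues rfl
  have hb : ∀ i, B (b i) = e i • b i := hB.apply_eigenvectorBasis rfl
  have he : ∀ i, 0 ≤ e i := fun i => by
    have := h (b i)
    rwa [hb, real_inner_smul_left, real_inner_self_eq_norm_sq, b.orthonormal.1, one_pow,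
      mul_one] at this
  refine ⟨∑ i, √(e i) • (innerₗ E (b i)).smulRight (b i), fun x => ?_⟩
  rw [← b.sum_sq_inner_right, ← b.sum_inner_mul_inner]
  refine Finset.sum_congr rfl fun j _ => ?_
  simp only [LinearMap.sum_apply, LinearMap.smul_apply, LinearMap.smulRight_apply, smul_smul,
    innerₗ_apply_apply]
  rw [b.orthonormal.inner_right_fintype, hB, hb, real_inner_smul_right, mul_pow, sq_sqrt (he j),
    real_inner_comm (b j) x]
  ring

/-- Images of the unit ball under affine maps. -/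
def Ell (K : Set E) : Prop :=
  ∃ (c : E) (T : E →ₗ[ℝ] E), K = (fun y => c + T y) '' closedBall 0 1

omit [MeasurableSpace E] [BorelSpace E] in
theorem ell_compact (c : E) (T : E →ₗ[ℝ] E) :
    IsCompact ((fun y => c + T y) '' closedBall (0 : E) 1) :=
  (isCompact_closedBall 0 1).image (continuous_const.add T.continuous_of_finiteDimensional)

omit [MeasurableSpace E] [BorelSpace E] in
theorem sf_ell (c : E) (T : E →ₗ[ℝ] E) (x : E) :
    sf ((fun y => c + T y) '' closedBall 0 1) x = ⟪c, x⟫ + ‖LinearMap.adjoint T x‖ := by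
  have key : ∀ y, ⟪c + T y, x⟫ = ⟪c, x⟫ + ⟪y, LinearMap.adjoint T x⟫ := fun y => by
    rw [inner_add_left, LinearMap.adjoint_inner_right]
  refine le_antisymm ?_ ?_
  · obtain ⟨_, ⟨y, hy, rfl⟩, e⟩ := sf_attained (ell_compact c T)
      ((nonempty_closedBall.2 one_pos.le).image _) x
    rw [e, key]
    have h1 := real_inner_le_norm y (LinearMap.adjoint T x)
    have h2 := mul_le_of_le_one_left (norm_nonneg (LinearMap.adjoint T x))
      (mem_closedBall_zero_iff.1 hy)
    linarith
  · set z := LinearMap.adjoint T x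
    have hz : ‖z‖⁻¹ • z ∈ closedBall (0 : E) 1 := by
      rw [mem_closedBall_zero_iff, norm_smul, norm_inv, norm_norm]
      exact inv_mul_le_one
    refine le_of_eq_of_le ?_ (le_sf (ell_compact c T) (mem_image_of_mem _ hz) x)
    rw [key, real_inner_smul_left, real_inner_self_eq_norm_sq, sq, ← mul_assoc, inv_mul_mul_self]

omit [MeasurableSpace E] [BorelSpace E] in
theorem subset_of_sf {L : Set E} (hK : IsCompact K) (hne : K.Nonempty) (hc : Convex ℝ K)
    (hL : IsCompact L) (h : ∀ x, sf L x ≤ sf K x) : L ⊆ K := by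
  intro a ha
  by_contra hn
  obtain ⟨f, u, h1, h2⟩ := geometric_hahn_banach_closed_point hc hK.isClosed hn
  set x := (InnerProductSpace.toDual ℝ E).symm f
  have e : ∀ y, ⟪y, x⟫ = f y := fun y => by
    rw [real_inner_comm, InnerProductSpace.toDual_symm_apply]
  obtain ⟨b, hb, e1⟩ := sf_attained hK hne x
  have h3 := (le_sf hL ha x).trans (h x)
  rw [e1, e, e] at h3
  linarith [h1 b hb]

theorem ell_of_sharp (hK : IsCompact K) (hne : K.Nonempty) (hc : Convex ℝ K)
    (h : ∀ M, Bd K M → mK K ≤ M) : Ell K := by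
  obtain ⟨c, h1⟩ := lin_part hK hne h
  obtain ⟨A, h2⟩ := quad_part hK hne h
  set B : E →ₗ[ℝ] E := (1 / 2 : ℝ) • ((A : E →ₗ[ℝ] E) + LinearMap.adjoint (A : E →ₗ[ℝ] E)) -
    (innerₗ E c).smulRight c with hB
  have e : ∀ x y, ⟪B x, y⟫ = (⟪A x, y⟫ + ⟪x, A y⟫) / 2 - ⟪c, x⟫ * ⟪c, y⟫ := fun x y => by
    simp only [hB, LinearMap.sub_apply, LinearMap.smul_apply, LinearMap.add_apply,
      LinearMap.smulRight_apply, innerₗ_apply_apply, inner_sub_left, real_inner_smul_left,
      inner_add_left, LinearMap.adjoint_inner_left, ContinuousLinearMap.coe_coe]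
    ring
  have e1 : ∀ x, ⟪B x, x⟫ = ((sf K x - -sf K (-x)) / 2) ^ 2 := fun x => by
    rw [e, real_inner_comm (A x) x, h1, h2]
    ring
  obtain ⟨S, hS⟩ := exists_root (B := B) (fun x y => by
    rw [real_inner_comm (B y) x, e, e, real_inner_comm (A y) x, real_inner_comm (A x) y]
    ring) fun x => by rw [e1]; positivity
  have e2 : ∀ x, sf ((fun y => c + LinearMap.adjoint S y) '' closedBall 0 1) x = sf K x := by
    intro x
    have h3 := hS x
    rw [e1, sq_eq_sq₀ (norm_nonneg _) (by linarith [width_nonneg hK hne x])] at h3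
    rw [sf_ell, LinearMap.adjoint_adjoint, h1, h3]
    ring
  refine ⟨c, LinearMap.adjoint S, Subset.antisymm ?_
    (subset_of_sf hK hne hc (ell_compact _ _) fun x => (e2 x).le)⟩
  refine subset_of_sf (ell_compact _ _) ((nonempty_closedBall.2 one_pos.le).image _) ?_ hK
    fun x => (e2 x).ge
  have := ((convex_closedBall (0 : E) 1).linear_image (LinearMap.adjoint S)).translate c
  rwa [image_image] at this

end Pool.Agent.Lib.MP_7c9f8e_gt.Sl
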