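import Pool.Agent.Lib.MP_7c9f8e_gt.SlopeD

/-!
For an ellipsoid the slope of the magnitude function at zero is half the first intrinsic volume.
-/

open MeasureTheory Set Real Metric Filter Topology
open scoped RealInnerProductSpace Pointwise

namespace Pool.Agent.Lib.MP_7c9f8e_gt.Sl

/-- Radial profiles. -/
noncomputable def be (k : ℕ) (τ : ℝ) : ℝ := max (1 - τ) 0 ^ (k + 1)

@[fun_prop]
theorem continuous_be (k : ℕ) : Continuous (be k) := by unfold be; fun_prop

theorem be_zero (k : ℕ) {τ : ℝ} (h : 1 ≤ τ) : be k τ = 0 := by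
  rw [be, max_eq_right (by linarith), zero_pow k.succ_ne_zero]

theorem cs {F : Type} [NormedAddCommGroup F] [ProperSpace F] {f : F → ℝ}
    (h : ∀ x, 1 ≤ ‖x‖ ^ 2 → f x = 0) : HasCompactSupport f :=
  HasCompactSupport.intro (isCompact_closedBall 0 1) fun x hx =>
    h x (one_le_pow₀ (not_le.1 (mt mem_closedBall_zero_iff.2 hx)).le)

/-- The mass of a profile in the hyperplane. -/
noncomputable def bk (d k : ℕ) : ℝ := ∫ z : EuclideanSpace ℝ (Fin d), be k (‖z‖ ^ 2)

theorem bk_pos (d k : ℕ) : 0 < bk d k :=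
  Continuous.integral_pos_of_hasCompactSupport_nonneg_nonzero (x := 0) (by fun_prop)
    (cs fun _ hx => be_zero k hx) (fun _ => pow_nonneg (le_max_right _ _) _) (by simp [be])

/-- The weight on the line. -/
noncomputable def Wt (d : ℕ) (s : ℝ) : ℝ := max (1 - s ^ 2) 0 * √(1 - s ^ 2) ^ d

@[fun_prop]
theorem continuous_Wt (d : ℕ) : Continuous (Wt d) := by unfold Wt; fun_prop

theorem Wt_nonneg (d : ℕ) (s : ℝ) : 0 ≤ Wt d s :=
  mul_nonneg (le_max_right _ _) (pow_nonneg (sqrt_nonneg _) _)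

theorem Wt_zero (d : ℕ) {s : ℝ} (h : 1 ≤ s ^ 2) : Wt d s = 0 := by
  rw [Wt, max_eq_right (by linarith), zero_mul]

theorem Wt_pos (d : ℕ) {s : ℝ} (h : s ^ 2 < 1) : 0 < Wt d s :=
  mul_pos (lt_max_of_lt_left (by linarith)) (pow_pos (sqrt_pos.2 (by linarith)) _)

theorem int_Wt (d : ℕ) {f : ℝ → ℝ} (hf : Continuous f) : Integrable fun s => f s * Wt d s :=
  Continuous.integrable_of_hasCompactSupport (by fun_prop)
    (cs fun s hs => by rw [Wt_zero d (by simpa using hs), mul_zero])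

theorem fibre (d k : ℕ) (s : ℝ) : ∫ z : EuclideanSpace ℝ (Fin d), be k (s ^ 2 + ‖z‖ ^ 2) =
    bk d k * ((1 - s ^ 2) ^ k * Wt d s) := by
  rcases le_or_gt 1 (s ^ 2) with h | h
  · rw [Wt_zero d h, mul_zero, mul_zero]
    simp only [fun z : EuclideanSpace ℝ (Fin d) =>
      be_zero k (h.trans (le_add_of_nonneg_right (sq_nonneg ‖z‖))), integral_zero]
  · have h0 : 0 < 1 - s ^ 2 := by linarith
    have ha := sqrt_pos.2 h0
    have h1 := Measure.integral_comp_smul volume
      (fun z : EuclideanSpace ℝ (Fin d) => be k (s ^ 2 + ‖z‖ ^ 2)) √(1 - s ^ 2)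
    have h2 : ∀ z : EuclideanSpace ℝ (Fin d), be k (s ^ 2 + ‖√(1 - s ^ 2) • z‖ ^ 2) =
        (1 - s ^ 2) ^ (k + 1) * be k (‖z‖ ^ 2) := fun z => by
      rw [norm_smul, mul_pow, norm_eq_abs, sq_abs, sq_sqrt h0.le, be, be, ← mul_pow,
        mul_max_of_nonneg _ _ h0.le, mul_zero]
      congr 2
      ring
    simp only [h2] at h1
    rw [integral_const_mul, finrank_euclideanSpace_fin, abs_of_pos (by positivity), smul_eq_mul,
      eq_inv_mul_iff_mul_eq₀ (by positivity)] at h1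
    rw [← h1, Wt, max_eq_left h0.le, bk]
    ring

/-- Even moments of the weight. -/
noncomputable def Zm (d N : ℕ) : ℝ := ∫ s, (s ^ 2) ^ N * Wt d s

theorem exists_ratio (d : ℕ) {θ : ℝ} (h0 : 0 < θ) (h1 : θ < 1) :
    ∃ N, 0 < Zm d N ∧ θ * Zm d N ≤ Zm d (N + 1) := by
  obtain ⟨θ', h2, h3⟩ := exists_between h1
  obtain ⟨σ, h4, h5⟩ := exists_between h3
  have hθ' : 0 < θ' := h0.trans h2
  set c := ∫ s, max (s ^ 2 - θ') 0 * Wt d s
  have hσ : √σ ^ 2 = σ := sq_sqrt (by linarith)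
  have hc : 0 < c := Continuous.integral_pos_of_hasCompactSupport_nonneg_nonzero (x := √σ)
    (by fun_prop) (cs fun s hs => by rw [Wt_zero d (by simpa using hs), mul_zero])
    (fun s => mul_nonneg (le_max_right _ _) (Wt_nonneg d s))
    (mul_pos (lt_max_of_lt_left (by linarith)) (Wt_pos d (by linarith))).ne'
  have lo : ∀ N, θ' ^ N * c ≤ Zm d N := fun N => by
    rw [← integral_const_mul]
    refine integral_mono ((int_Wt d (by fun_prop)).const_mul _) (int_Wt d (by fun_prop))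
      fun s => ?_
    rcases le_or_gt 1 (s ^ 2) with h | h
    · simp [Wt_zero d h]
    · rw [← mul_assoc]
      refine mul_le_mul_of_nonneg_right ?_ (Wt_nonneg d s)
      rcases le_total (s ^ 2) θ' with h' | h'
      · rw [max_eq_right (by linarith), mul_zero]
        positivity
      · exact (mul_le_of_le_one_right (by positivity) (max_le (by linarith) one_pos.le)).trans
          (pow_le_pow_left₀ hθ'.le h' N)
  have pos : ∀ N, 0 < Zm d N := fun N => lt_of_lt_of_le (by positivity) (lo N)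
  by_contra hn
  simp only [not_exists, not_and, not_le] at hn
  have up : ∀ N, Zm d N ≤ θ ^ N * Zm d 0 := fun N => by
    induction N with
    | zero => simp
    | succ N ih =>
      have := mul_le_mul_of_nonneg_left ih h0.le
      rw [pow_succ]
      linarith [hn N (pos N)]
  obtain ⟨N, hN⟩ := exists_pow_lt_of_lt_one (div_pos hc (pos 0)) ((div_lt_one hθ').2 h2)
  rw [div_pow, div_lt_div_iff₀ (by positivity) (pos 0)] at hN
  linarith [lo N, up N]

variable {E : Type} [NormedAddCommGroup E] [InnerProductSpace ℝ E] [FiniteDimensional ℝ E]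
  [MeasurableSpace E] [BorelSpace E]

theorem int_be (k : ℕ) {f : E → ℝ} (hf : Continuous f) :
    Integrable fun y => f y * be k (‖y‖ ^ 2) :=
  haveI := FiniteDimensional.proper_real E
  Continuous.integrable_of_hasCompactSupport (by fun_prop)
    (cs fun s hs => by rw [be_zero k hs, mul_zero])

theorem marg {d : ℕ} (hd : Module.finrank ℝ E = d + 1) (N : ℕ) : ∃ ρ : E → ℝ, Continuous ρ ∧
    Integrable ρ ∧ (∀ y, ρ y ≠ 0 → ‖y‖ ≤ 1) ∧ ∀ u : E, ‖u‖ = 1 → ∀ f : ℝ → ℝ, Continuous f →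
      ∫ y, f ⟪u, y⟫ * ρ y = ∫ s, f s * (s ^ 2) ^ N * Wt d s := by
  refine ⟨fun y => ∑ k ∈ Finset.range (N + 1),
    (-1) ^ k * (N.choose k) / bk d k * be k (‖y‖ ^ 2), by fun_prop,
    integrable_finsetSum _ fun k _ => int_be k continuous_const, fun y hy => ?_,
    fun u hu f hf => ?_⟩
  · by_contra h
    exact hy (Finset.sum_eq_zero fun k _ => by
      rw [be_zero k (one_le_pow₀ (not_le.1 h).le), mul_zero])
  · have e : ∀ s : ℝ, f s * (s ^ 2) ^ N * Wt d s = ∑ k ∈ Finset.range (N + 1),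
        (-1) ^ k * (N.choose k) * f s * (1 - s ^ 2) ^ k * Wt d s := fun s => by
      rw [← Finset.sum_mul, show s ^ 2 = -(1 - s ^ 2) + 1 by ring, add_pow, Finset.mul_sum]
      congr 1
      refine Finset.sum_congr rfl fun k _ => ?_
      rw [neg_pow]
      ring
    simp only [e, Finset.mul_sum, ← mul_assoc]
    rw [integral_finsetSum _ fun k _ => int_be k (by fun_prop),
      integral_finsetSum _ fun k _ => int_Wt d (by fun_prop)]
    refine Finset.sum_congr rfl fun k _ => ?_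
    rw [slice hd hu (fun s τ => f s * ((-1) ^ k * (N.choose k) / bk d k) * be k τ)
      (int_be k (by fun_prop))]
    refine integral_congr_ae (Eventually.of_forall fun s => ?_)
    have := (bk_pos d k).ne'
    simp only
    rw [integral_const_mul, fibre]
    field_simp

theorem int2 {ρ : E → ℝ} (hi : Integrable ρ) (hs : ∀ y, ρ y ≠ 0 → ‖y‖ ≤ 1) {k : E × E → ℝ}
    (hk : Continuous k) (C : ℝ) (hb : ∀ q : E × E, ‖q.1 - q.2‖ ≤ 2 → |k q| ≤ C) :
    Integrable (fun q : E × E => ρ q.1 * ρ q.2 * k q) (volume.prod volume) ∧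
      ∀ q : E × E, |ρ q.1 * ρ q.2 * k q| ≤ |ρ q.1 * ρ q.2| * C := by
  have h : ∀ q : E × E, |ρ q.1 * ρ q.2 * k q| ≤ |ρ q.1 * ρ q.2| * C := fun q => by
    by_cases h0 : ρ q.1 * ρ q.2 = 0
    · simp [h0]
    · rw [abs_mul]
      refine mul_le_mul_of_nonneg_left (hb q ((norm_sub_le _ _).trans ?_)) (abs_nonneg _)
      linarith [hs _ (left_ne_zero_of_mul h0), hs _ (right_ne_zero_of_mul h0)]
  exact ⟨((hi.mul_prod hi).abs.mul_const C).mono'
    ((hi.mul_prod hi).1.mul hk.aestronglyMeasurable) (Eventually.of_forall h), h⟩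

omit [FiniteDimensional ℝ E] [MeasurableSpace E] [BorelSpace E] in
theorem inner_bd (z : E) (q : E × E) (h : ‖q.1 - q.2‖ ≤ 2) : |(|⟪q.1 - q.2, z⟫|)| ≤ 2 * ‖z‖ := by
  rw [abs_abs]
  exact (abs_real_inner_le_norm _ _).trans (mul_le_mul_of_nonneg_right h (norm_nonneg _))

theorem exists_rho [Nontrivial E] {θ : ℝ} (h0 : 0 < θ) (h1 : θ < 1) : ∃ ρ : E → ℝ,
    Integrable ρ ∧ (∀ y, ρ y ≠ 0 → ‖y‖ ≤ 1) ∧ ∫ y, ρ y = 1 ∧ ∀ z : E, θ * ‖z‖ ≤
      ∫ q : E × E, ρ q.1 * ρ q.2 * |⟪q.1 - q.2, z⟫| ∂(volume.prod volume) := by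
  obtain ⟨d, hd⟩ : ∃ d, Module.finrank ℝ E = d + 1 :=
    ⟨_, (Nat.succ_pred_eq_of_pos Module.finrank_pos).symm⟩
  obtain ⟨N, hZ, hN⟩ := exists_ratio d h0 h1
  obtain ⟨ρ, c1, i1, s1, m1⟩ := marg hd N
  set a := (Zm d N)⁻¹ with ha
  have a0 : 0 < a := inv_pos.2 hZ
  have a1 : a * Zm d N = 1 := inv_mul_cancel₀ hZ.ne'
  have i2 := i1.const_mul a
  have s2 : ∀ y, a * ρ y ≠ 0 → ‖y‖ ≤ 1 := fun y h => s1 y (right_ne_zero_of_mul h)
  refine ⟨fun y => a * ρ y, i2, s2, ?_, fun z => ?_⟩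
  · obtain ⟨u, hu⟩ := exists_norm_eq E one_pos.le
    have := m1 u hu (fun _ => 1) continuous_const
    simp only [one_mul] at this
    rw [integral_const_mul, this]
    exact a1
  rcases eq_or_ne z 0 with rfl | hz
  · simp
  have hn : 0 < ‖z‖ := norm_pos_iff.2 hz
  set u := ‖z‖⁻¹ • z with hu'
  have hu : ‖u‖ = 1 := norm_smul_inv_norm (𝕜 := ℝ) hz
  set G : ℝ → ℝ := fun r => ∫ s, |r - s| * (s ^ 2) ^ N * Wt d s with hG
  have iG : ∀ r : ℝ, Integrable fun s => |r - s| * (s ^ 2) ^ N * Wt d s := fun r =>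
    int_Wt d (by fun_prop)
  have iZ : ∀ N, Integrable fun s : ℝ => (s ^ 2) ^ N * Wt d s := fun N => int_Wt d (by fun_prop)
  have nn : ∀ s : ℝ, 0 ≤ (s ^ 2) ^ N * Wt d s := fun s =>
    mul_nonneg (by positivity) (Wt_nonneg d s)
  have cG : Continuous G := by
    refine (LipschitzWith.of_le_add_mul' (Zm d N) fun x y => ?_).continuous
    rw [hG, mul_comm, Zm, ← integral_const_mul, ← integral_add (iG y) ((iZ N).const_mul _)]
    refine integral_mono (iG x) ((iG y).add ((iZ N).const_mul _)) fun s => ?_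
    have := mul_le_mul_of_nonneg_right (abs_sub_le x y s) (nn s)
    rw [Real.dist_eq]
    linarith
  have lG : ∀ r, Zm d (N + 1) ≤ G r := fun r => by
    have i3 : Integrable fun s => |r + s| * (s ^ 2) ^ N * Wt d s := int_Wt d (by fun_prop)
    have e : G r = ∫ s, |r + s| * (s ^ 2) ^ N * Wt d s := by
      rw [hG, ← integral_neg_eq_self]
      simp [Wt, sub_eq_add_neg]
    have h2 : 2 * Zm d (N + 1) ≤ G r + G r := by
      nth_rewrite 2 [e]
      rw [hG, Zm, ← integral_const_mul, ← integral_add (iG r) i3]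
      refine integral_mono ((iZ _).const_mul _) ((iG r).add i3) fun s => ?_
      rcases le_or_gt 1 (s ^ 2) with h | h
      · simp [Wt_zero d h]
      · have h3 : |s| ≤ 1 := (sq_le_one_iff_abs_le_one s).1 h.le
        have h4 : s ^ 2 ≤ |s| := by rw [← sq_abs]; nlinarith [abs_nonneg s]
        have h5 : 2 * |s| ≤ |r - s| + |r + s| := by
          have := abs_sub (r + s) (r - s)
          rw [show r + s - (r - s) = 2 * s by ring, abs_mul, abs_two] at this
          linarith
        have := mul_le_mul_of_nonneg_right (show 2 * s ^ 2 ≤ |r - s| + |r + s| by linarith) (nn s)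
        rw [pow_succ]
        linarith
    linarith
  rw [integral_prod _ (int2 i2 s2 (by fun_prop) _ (inner_bd z)).1]
  have e1 : ∀ y, ∫ y', a * ρ y * (a * ρ y') * |⟪y - y', z⟫| =
      a ^ 2 * ‖z‖ * (G ⟪u, y⟫ * ρ y) := fun y => by
    rw [hG]
    simp only
    rw [← m1 u hu (fun s => |⟪u, y⟫ - s|) (by fun_prop), ← integral_mul_const,
      ← integral_const_mul]
    refine integral_congr_ae (Eventually.of_forall fun y' => ?_)
    simp only
    rw [← inner_sub_right, hu', real_inner_smul_left, abs_mul, abs_of_pos (inv_pos.2 hn),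
      real_inner_comm]
    field_simp
  simp only [e1]
  rw [integral_const_mul, m1 u hu G cG]
  have h6 : Zm d (N + 1) * Zm d N ≤ ∫ s, G s * (s ^ 2) ^ N * Wt d s := by
    rw [Zm.eq_1 d N, ← integral_const_mul]
    refine integral_mono ((iZ N).const_mul _) (int_Wt d (by fun_prop)) fun s => ?_
    simp only [mul_assoc]
    exact mul_le_mul_of_nonneg_right (lG s) (nn s)
  have h7 := (mul_le_mul_of_nonneg_right hN hZ.le).trans h6
  refine le_of_eq_of_le ?_ (mul_le_mul_of_nonneg_left h7 (by positivity))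
  rw [ha]
  field_simp

theorem abs_exp_neg {x : ℝ} (hx : 0 ≤ x) : |exp (-x) - (1 - x)| ≤ x ^ 2 := by
  have h1 := add_one_le_exp (-x)
  have h2 := add_one_le_exp x
  have h3 : exp (-x) * exp x = 1 := by rw [← exp_add]; simp
  have h4 := exp_pos (-x)
  rw [abs_of_nonneg (by linarith)]
  have h5 : exp (-x) * (x + 1) ≤ 1 := by nlinarith
  nlinarith [mul_nonneg hx (sub_nonneg.2 h1)]

theorem ell_lower [Nontrivial E] (c : E) (T : E →ₗ[ℝ] E) {θ : ℝ} (h0 : 0 < θ) (h1 : θ < 1) :
    ∃ C : ℝ, ∀ t : ℝ, 0 < t → 1 + t * (θ * mK ((fun y => c + T y) '' closedBall 0 1)) - C * t ^ 2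
      ≤ magnitude (t • (fun y => c + T y) '' closedBall 0 1) := by
  set K := (fun y => c + T y) '' closedBall (0 : E) 1 with hKd
  have hK : IsCompact K := ell_compact c T
  have hne : K.Nonempty := (nonempty_closedBall.2 one_pos.le).image _
  obtain ⟨ρ, i1, s1, m1, l1⟩ := exists_rho (E := E) h0 h1
  have cT := T.continuous_of_finiteDimensional
  have cA := (LinearMap.adjoint T).continuous_of_finiteDimensional
  obtain ⟨D, D0, hD⟩ := SemilinearMapClass.bound_of_continuous T cT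
  obtain ⟨D', D0', hD'⟩ := SemilinearMapClass.bound_of_continuous (LinearMap.adjoint T) cA
  have bT : ∀ q : E × E, ‖q.1 - q.2‖ ≤ 2 → ‖T (q.1 - q.2)‖ ≤ D * 2 := fun q hq =>
    (hD _).trans (mul_le_mul_of_nonneg_left hq D0.le)
  have i2 := i1.mul_prod i1
  have i3 := (int2 i1 s1 (k := fun q => ‖T (q.1 - q.2)‖) (by fun_prop) (D * 2) fun q hq => by
    rw [abs_norm]
    exact bT q hq).1
  have iA : Integrable fun x => ‖LinearMap.adjoint T x‖ * gs x :=
    int_pow (by fun_prop) D0'.le 1 fun x => by simpa using hD' x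
  have eK : mK K = π * ∫ x, ‖LinearMap.adjoint T x‖ * gs x := by
    have ic : Integrable fun x => ⟪c, x⟫ * gs x := int_pow (by fun_prop) (norm_nonneg c) 1
      fun x => by simpa using abs_real_inner_le_norm c x
    have e0 : ∫ x, ⟪c, x⟫ * gs x = -∫ x, ⟪c, x⟫ * gs x := by
      rw [← integral_neg, ← integral_neg_eq_self]
      simp [gs]
    simp only [mK, hKd, sf_ell, add_mul]
    rw [integral_add ic iA, show ∫ x, ⟪c, x⟫ * gs x = 0 by linarith, zero_add]
  have i4 : Integrable (Function.uncurry fun (q : E × E) (x : E) =>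
      ρ q.1 * ρ q.2 * |⟪q.1 - q.2, LinearMap.adjoint T x⟫| * gs x)
      ((volume.prod volume).prod volume) := by
    refine ((i2.abs.mul_const 2).mul_prod iA).mono' (((i2.1.comp_fst).mul
      (Continuous.aestronglyMeasurable (by fun_prop))).mul
      (Continuous.aestronglyMeasurable (by fun_prop))) (Eventually.of_forall fun z => ?_)
    have := mul_le_mul_of_nonneg_right ((int2 i1 s1 (by fun_prop) _
      (inner_bd (LinearMap.adjoint T z.2))).2 z.1) (gs_pos z.2).le
    rw [Function.uncurry_def, norm_eq_abs]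
    simp only
    rw [abs_mul, abs_of_pos (gs_pos _)]
    linarith
  have lI : θ * mK K ≤ ∫ q : E × E, ρ q.1 * ρ q.2 * ‖T (q.1 - q.2)‖ ∂(volume.prod volume) := by
    have e1 : ∀ q : E × E, ρ q.1 * ρ q.2 * ‖T (q.1 - q.2)‖ =
        π * ∫ x, ρ q.1 * ρ q.2 * |⟪q.1 - q.2, LinearMap.adjoint T x⟫| * gs x := fun q => by
      simp only [LinearMap.adjoint_inner_right, mul_assoc (ρ q.1 * ρ q.2)]
      rw [integral_const_mul, ← crofton]
      ring
    simp only [e1]
    rw [integral_const_mul, integral_integral_swap i4, eK, mul_left_comm, ← integral_const_mul θ]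
    refine mul_le_mul_of_nonneg_left (integral_mono (iA.const_mul θ) i4.integral_prod_right
      fun x => ?_) pi_pos.le
    simp only
    rw [integral_mul_const, ← mul_assoc]
    exact mul_le_mul_of_nonneg_right (l1 _) (gs_pos x).le
  refine ⟨(∫ q : E × E, |ρ q.1 * ρ q.2| ∂(volume.prod volume)) * (D * 2) ^ 2, fun t ht => ?_⟩
  have h2 := le_magnitude (μ := volume) (p := fun y => t • (c + T y)) i1 (by fun_prop)
    (hK.smul t) hne.smul_set
    (fun y hy => smul_mem_smul_set (mem_image_of_mem _ (mem_closedBall_zero_iff.2 (s1 y hy))))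
    (mag_le (bd_mean hK hne) ht).1
  obtain ⟨i5, b5⟩ := int2 i1 s1
    (k := fun q => exp (-(t * ‖T (q.1 - q.2)‖)) - (1 - t * ‖T (q.1 - q.2)‖)) (by fun_prop)
    ((t * (D * 2)) ^ 2) fun q hq => (abs_exp_neg (by positivity)).trans
      (pow_le_pow_left₀ (by positivity) (mul_le_mul_of_nonneg_left (bT q hq) ht.le) 2)
  have e2 : ∀ q : E × E, ρ q.1 * ρ q.2 * Z (t • (c + T q.1) - t • (c + T q.2)) =
      ρ q.1 * ρ q.2 * (exp (-(t * ‖T (q.1 - q.2)‖)) - (1 - t * ‖T (q.1 - q.2)‖)) +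
        (ρ q.1 * ρ q.2 - t * (ρ q.1 * ρ q.2 * ‖T (q.1 - q.2)‖)) := fun q => by
    rw [Z, ← smul_sub, add_sub_add_left_eq_sub, ← map_sub, norm_smul, norm_eq_abs, abs_of_pos ht]
    ring
  have i6 : Integrable (fun q : E × E => ρ q.1 * ρ q.2 - t * (ρ q.1 * ρ q.2 * ‖T (q.1 - q.2)‖))
      (volume.prod volume) := i2.sub (i3.const_mul t)
  have i7 : Integrable (fun q : E × E => ρ q.1 * ρ q.2 * Z (t • (c + T q.1) - t • (c + T q.2)))
      (volume.prod volume) := by
    simp only [e2]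
    exact i5.add i6
  rw [En, ← integral_prod _ i7] at h2
  simp only [e2] at h2
  rw [integral_add i5 i6, integral_sub i2 (i3.const_mul t), integral_prod_mul, integral_const_mul,
    m1] at h2
  have h3 := integral_mono i5 (i2.abs.mul_const ((t * (D * 2)) ^ 2)) fun q =>
    (le_abs_self _).trans (b5 q)
  rw [integral_mul_const] at h3
  nlinarith [mul_le_mul_of_nonneg_left lI ht.le]

theorem exp_slope (M : ℝ) : Tendsto (fun t : ℝ => (exp (t * M) - 1) / t) (𝓝[>] 0) (𝓝 M) := by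
  have h : HasDerivAt (fun t : ℝ => exp (t * M)) M 0 := by
    simpa using (hasDerivAt_mul_const (x := (0 : ℝ)) M).exp
  simpa [div_eq_inv_mul] using h.tendsto_slope_zero_right

theorem slope_iff [Nontrivial E] {K : Set E} (hK : IsCompact K) (hne : K.Nonempty)
    (hc : Convex ℝ K) :
    Tendsto (fun t : ℝ => (magnitude (t • K) - 1) / t) (𝓝[>] 0) (𝓝 (mK K)) ↔ Ell K := by
  have up : ∀ M, Bd K M → ∀ᶠ t in 𝓝[>] (0 : ℝ),
      (magnitude (t • K) - 1) / t ≤ (exp (t * M) - 1) / t := fun M h => by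
    filter_upwards [self_mem_nhdsWithin] with t ht
    exact div_le_div_of_nonneg_right (sub_le_sub_right (mag_le h ht).2 1) (le_of_lt ht)
  refine ⟨fun h => ell_of_sharp hK hne hc fun M hM =>
    le_of_tendsto_of_tendsto h (exp_slope M) (up M hM), ?_⟩
  rintro ⟨c, T, rfl⟩
  refine tendsto_order.2 ⟨fun a ha => ?_, fun a ha => ?_⟩
  · set m := mK ((fun y => c + T y) '' closedBall (0 : E) 1)
    have h1 : Tendsto (fun θ : ℝ => θ * m) (𝓝[<] 1) (𝓝 (1 * m)) :=
      ((continuous_mul_const m).tendsto 1).mono_left nhdsWithin_le_nhds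
    rw [one_mul] at h1
    obtain ⟨θ, h2, h3⟩ := ((h1.eventually (lt_mem_nhds ha)).and (Ioo_mem_nhdsLT one_pos)).exists
    obtain ⟨C, hC⟩ := ell_lower c T h3.1 h3.2
    have h4 : Tendsto (fun t : ℝ => θ * m - C * t) (𝓝[>] 0) (𝓝 (θ * m - C * 0)) :=
      ((by fun_prop : Continuous fun t : ℝ => θ * m - C * t).tendsto 0).mono_left
        nhdsWithin_le_nhds
    rw [mul_zero, sub_zero] at h4
    filter_upwards [h4.eventually (lt_mem_nhds h2), self_mem_nhdsWithin] with t h5 ht
    refine h5.trans_le ((le_div_iff₀ ht).2 ?_)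
    linarith [hC t ht]
  · filter_upwards [up _ (bd_mean hK hne), (exp_slope _).eventually (gt_mem_nhds ha)] with t h1 h2
    exact h1.trans_lt h2

end Pool.Agent.Lib.MP_7c9f8e_gt.Sl
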