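import Pool.Agent.Lib.MP_7c9f8e_gt.SlopeE

/-!
The slope of the magnitude function at zero exists and is the supremum of the energies.
-/

open MeasureTheory Set Real Metric Filter Topology
open scoped RealInnerProductSpace Pointwise

namespace Pool.Agent.Lib.MP_7c9f8e_gt.Sl

variable {E : Type} [NormedAddCommGroup E] [InnerProductSpace ℝ E] [FiniteDimensional ℝ E]
  [MeasurableSpace E] [BorelSpace E] {K : Set E}

theorem fin_lower (hK : IsCompact K) (hne : K.Nonempty) {ι : Type} [Fintype ι] {p : ι → E}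
    (hp : ∀ i, p i ∈ K) {w : ι → ℝ} (hw : ∑ i, w i = 1) : ∃ C : ℝ, ∀ t : ℝ, 0 < t →
      1 + t * (qf w fun i j => ‖p i - p j‖) - C * t ^ 2 ≤ magnitude (t • K) := by
  let _ : MeasurableSpace ι := ⊤
  refine ⟨∑ i, ∑ j, |w i * w j| * ‖p i - p j‖ ^ 2, fun t ht => ?_⟩
  have h := le_magnitude (μ := Measure.count) (f := w) (p := fun i => t • p i) Integrable.of_finite
    measurable_from_top (hK.smul t) hne.smul_set (fun i _ => smul_mem_smul_set (hp i))
    (mag_le (bd_mean hK hne) ht).1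
  simp only [En, integral_count, hw] at h
  have h1 := qf_lin w 1 (-t) fun i j => ‖p i - p j‖
  rw [hw] at h1
  have h2 : ∑ i, ∑ j, w i * w j * Z (t • p i - t • p j) ≤
      (qf w fun i j => 1 + -t * ‖p i - p j‖) +
        (∑ i, ∑ j, |w i * w j| * ‖p i - p j‖ ^ 2) * t ^ 2 := by
    simp only [qf, Finset.sum_mul, ← Finset.sum_add_distrib]
    refine Finset.sum_le_sum fun i _ => Finset.sum_le_sum fun j _ => ?_
    have h3 := mul_le_mul_of_nonneg_left
      (abs_exp_neg (x := t * ‖p i - p j‖) (by positivity)) (abs_nonneg (w i * w j))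
    rw [← abs_mul] at h3
    rw [Z, ← smul_sub, norm_smul, norm_eq_abs, abs_of_pos ht]
    linarith [le_abs_self (w i * w j * (exp (-(t * ‖p i - p j‖)) - (1 - t * ‖p i - p j‖)))]
  linarith

theorem slope_exists (hK : IsCompact K) (hne : K.Nonempty) : ∃ L ≤ mK K,
    Tendsto (fun t : ℝ => (magnitude (t • K) - 1) / t) (𝓝[>] 0) (𝓝 L) := by
  have hb : BddBelow {M | Bd K M} := ⟨0, fun M hM => by
    obtain ⟨a, ha⟩ := hne
    simpa [qf] using hM Unit (fun _ => a) (fun _ => 1) fun _ => ha⟩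
  have hm := bd_mean hK hne
  set L := sInf {M | Bd K M}
  have hL : Bd K L := fun ι _ p w hp => by
    rcases eq_or_ne (∑ i, w i) 0 with h | h
    · simpa [h] using hm ι p w hp
    · rw [← div_le_iff₀ (by positivity)]
      exact le_csInf ⟨_, hm⟩ fun M hM => (div_le_iff₀ (by positivity)).2 (hM ι p w hp)
  refine ⟨L, csInf_le hb hm, tendsto_order.2 ⟨fun a ha => ?_, fun a ha => ?_⟩⟩
  · have h1 : ¬ Bd K a := fun h => (csInf_le hb h).not_gt ha
    simp only [Bd, not_forall, not_le] at h1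
    obtain ⟨ι, _, p, w, hp, h2⟩ := h1
    have hs : ∑ i, w i ≠ 0 := fun e => by
      have h3 := hm ι p w hp
      rw [e] at h2 h3
      linarith
    have e1 : ∑ i, w i / ∑ i, w i = 1 := by rw [← Finset.sum_div, div_self hs]
    have e2 : (qf (fun i => w i / ∑ i, w i) fun i j => ‖p i - p j‖) =
        (qf w fun i j => ‖p i - p j‖) / (∑ i, w i) ^ 2 := by
      simp only [qf, Finset.sum_div]
      exact Finset.sum_congr rfl fun i _ => Finset.sum_congr rfl fun j _ => by field_simp
    obtain ⟨C, hC⟩ := fin_lower hK hne hp e1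
    rw [e2] at hC
    have h3 := (lt_div_iff₀ (by positivity)).2 h2
    set m := (qf w fun i j => ‖p i - p j‖) / (∑ i, w i) ^ 2
    have h4 : Tendsto (fun t : ℝ => m - C * t) (𝓝[>] 0) (𝓝 (m - C * 0)) :=
      ((by fun_prop : Continuous fun t : ℝ => m - C * t).tendsto 0).mono_left nhdsWithin_le_nhds
    rw [mul_zero, sub_zero] at h4
    filter_upwards [h4.eventually (lt_mem_nhds h3), self_mem_nhdsWithin] with t h5 ht
    refine h5.trans_le ((le_div_iff₀ ht).2 ?_)
    linarith [hC t ht]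
  · filter_upwards [self_mem_nhdsWithin, (exp_slope _).eventually (gt_mem_nhds ha)] with t ht h2
    exact (div_le_div_of_nonneg_right (sub_le_sub_right (mag_le hL ht).2 1) (le_of_lt ht)).trans_lt
      h2

omit [MeasurableSpace E] [BorelSpace E] in
theorem ell_iff (hi : (interior K).Nonempty) : Ell K ↔
    ∃ (c : E) (T : E ≃ₗ[ℝ] E), K = (fun y => c + T y) '' closedBall 0 1 := by
  refine ⟨?_, fun ⟨c, T, h⟩ => ⟨c, T, h⟩⟩
  rintro ⟨c, T, rfl⟩
  have h1 : LinearMap.range T = ⊤ := by
    refine Submodule.eq_top_of_nonempty_interior' _ ?_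
    have h2 : (fun y => c + T y) '' closedBall (0 : E) 1 ⊆
        Homeomorph.addLeft c '' (LinearMap.range T : Set E) := by
      rintro _ ⟨y, -, rfl⟩
      exact ⟨T y, ⟨y, rfl⟩, rfl⟩
    have h3 := hi.mono (interior_mono h2)
    rw [← Homeomorph.image_interior] at h3
    exact h3.of_image
  have h2 := LinearMap.range_eq_top.1 h1
  exact ⟨c, LinearEquiv.ofBijective T ⟨LinearMap.injective_iff_surjective.2 h2, h2⟩, rfl⟩

end Pool.Agent.Lib.MP_7c9f8e_gt.Sl
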