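import Pool.Agent.Lib.MP_7c9f8e_gt.OneDim

/-!
Gaussian integrals: slicing along a unit vector, the Crofton formula and the Wills functional.
-/

open MeasureTheory Set Real Metric Filter Topology
open scoped RealInnerProductSpace Pointwise

namespace Pool.Agent.Lib.MP_7c9f8e_gt.Sl

variable {E : Type} [NormedAddCommGroup E] [InnerProductSpace ℝ E] [FiniteDimensional ℝ E]
  [MeasurableSpace E] [BorelSpace E]

/-- The Gaussian weight of mass one. -/
noncomputable def gs (x : E) : ℝ := exp (-π * ‖x‖ ^ 2)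

omit [InnerProductSpace ℝ E] [FiniteDimensional ℝ E] [MeasurableSpace E] [BorelSpace E] in
theorem gs_pos (x : E) : 0 < gs x := exp_pos _

omit [InnerProductSpace ℝ E] [FiniteDimensional ℝ E] [MeasurableSpace E] [BorelSpace E] in
@[fun_prop]
theorem continuous_gs : Continuous (gs : E → ℝ) := by unfold gs; fun_prop

theorem integral_gs : ∫ x : E, gs x = 1 := by
  have := GaussianFourier.integral_rexp_neg_mul_sq_norm (V := E) (b := π) pi_pos
  rw [div_self pi_pos.ne', one_rpow] at this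
  exact this

theorem int_exp {f : E → ℝ} (hf : Continuous f) (C c : ℝ) (h : ∀ x, |f x| ≤ C * exp (c * ‖x‖)) :
    Integrable fun x => f x * gs x := by
  have h1 := (integrable_gauss E (b := π - 1) (by linarith [pi_gt_three])).const_mul
    (C * exp (c ^ 2 / 4))
  refine h1.mono' (by fun_prop : Continuous fun x => f x * gs x).aestronglyMeasurable
    (Eventually.of_forall fun x => ?_)
  have hC : 0 ≤ C := by
    have := (abs_nonneg _).trans (h 0)
    simpa using this
  rw [norm_mul, norm_eq_abs, norm_eq_abs, abs_of_pos (gs_pos x)]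
  refine (mul_le_mul_of_nonneg_right (h x) (gs_pos x).le).trans ?_
  rw [mul_assoc, mul_assoc, gs, ← exp_add, ← exp_add]
  refine mul_le_mul_of_nonneg_left (exp_le_exp.2 ?_) hC
  nlinarith [sq_nonneg (‖x‖ - c / 2)]

theorem pow_le_exp {r : ℝ} (hr : 0 ≤ r) (k : ℕ) : r ^ k ≤ exp (k * r) := by
  rw [exp_nat_mul]
  exact pow_le_pow_left₀ hr (by linarith [add_one_le_exp r]) k

theorem int_pow {f : E → ℝ} (hf : Continuous f) {C : ℝ} (hC : 0 ≤ C) (k : ℕ)
    (h : ∀ x, |f x| ≤ C * ‖x‖ ^ k) : Integrable fun x => f x * gs x :=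
  int_exp hf C k fun x => (h x).trans
    (mul_le_mul_of_nonneg_left (pow_le_exp (norm_nonneg x) k) hC)

theorem int_gs : Integrable (gs : E → ℝ) := by
  simpa using int_pow (E := E) (f := fun _ => 1) continuous_const one_pos.le 0 (by simp)

theorem slice {d : ℕ} (hd : Module.finrank ℝ E = d + 1) {u : E} (hu : ‖u‖ = 1) (Φ : ℝ → ℝ → ℝ)
    (hi : Integrable fun y : E => Φ ⟪u, y⟫ (‖y‖ ^ 2)) :
    ∫ y : E, Φ ⟪u, y⟫ (‖y‖ ^ 2) =
      ∫ s : ℝ, ∫ z : EuclideanSpace ℝ (Fin d), Φ s (s ^ 2 + ‖z‖ ^ 2) := by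
  set F := EuclideanSpace ℝ (Fin d)
  have hr : Module.finrank ℝ (WithLp 2 (ℝ × F)) = Module.finrank ℝ E := by
    rw [hd, (WithLp.linearEquiv 2 ℝ (ℝ × F)).finrank_eq, Module.finrank_prod,
      Module.finrank_self, finrank_euclideanSpace_fin, add_comm]
  set e₀ : WithLp 2 (ℝ × F) ≃ₗᵢ[ℝ] E :=
    (stdOrthonormalBasis ℝ _).equiv (stdOrthonormalBasis ℝ E) (finCongr hr)
  set p₀ : WithLp 2 (ℝ × F) := WithLp.toLp 2 (1, 0)
  have hp : ‖e₀ p₀‖ = ‖u‖ := by
    rw [e₀.norm_map, hu, ← sq_eq_sq₀ (norm_nonneg _) one_pos.le, WithLp.prod_norm_sq_eq_of_L2]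
    simp [p₀]
  set e := e₀.trans (Submodule.reflection (ℝ ∙ (e₀ p₀ - u))ᗮ)
  have he : e p₀ = u := Submodule.reflection_sub hp
  have hm : MeasurePreserving (e.toMeasurableEquiv ∘ MeasurableEquiv.toLp 2 (ℝ × F)) :=
    e.measurePreserving.comp (WithLp.volume_preserving_toLp ℝ F)
  have hemb : MeasurableEmbedding (e.toMeasurableEquiv ∘ MeasurableEquiv.toLp 2 (ℝ × F)) :=
    e.toMeasurableEquiv.measurableEmbedding.comp (MeasurableEquiv.measurableEmbedding _)
  have hval : ∀ p : ℝ × F, Φ ⟪u, e (WithLp.toLp 2 p)⟫ (‖e (WithLp.toLp 2 p)‖ ^ 2) =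
      Φ p.1 (p.1 ^ 2 + ‖p.2‖ ^ 2) := by
    intro p
    rw [← he, e.inner_map_map, e.norm_map, WithLp.prod_norm_sq_eq_of_L2]
    simp [p₀]
  have h1 := hm.integral_comp hemb fun y : E => Φ ⟪u, y⟫ (‖y‖ ^ 2)
  have h2 := hm.integrable_comp_of_integrable hi
  have h3 : Integrable (fun p : ℝ × F => Φ p.1 (p.1 ^ 2 + ‖p.2‖ ^ 2)) (volume.prod volume) :=
    h2.congr (Eventually.of_forall hval)
  rw [← h1, ← integral_prod _ h3]
  exact integral_congr_ae (Eventually.of_forall hval)

omit [FiniteDimensional ℝ E] [MeasurableSpace E] [BorelSpace E] in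
theorem abs_inner_le (v x : E) : |(|⟪v, x⟫|)| ≤ ‖v‖ * ‖x‖ ^ 1 := by
  rw [abs_abs, pow_one]
  exact abs_real_inner_le_norm v x

theorem int_inner (v : E) : Integrable fun x => |⟪v, x⟫| * gs x :=
  int_pow (by fun_prop) (norm_nonneg v) 1 (abs_inner_le v)

theorem one_dim : ∫ s : ℝ, |s| * exp (-π * s ^ 2) = π⁻¹ := by
  have h1 := integral_comp_abs (f := fun s : ℝ => s * exp (-π * s ^ 2))
  simp only [sq_abs] at h1
  have h2 := integral_mul_cexp_neg_mul_sq (b := (π : ℂ)) (by simpa using pi_pos)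
  have h3 : ∫ s in Ioi (0 : ℝ), s * exp (-π * s ^ 2) = (2 * π)⁻¹ := by
    apply Complex.ofReal_injective
    rw [← integral_complex_ofReal]
    push_cast
    exact h2
  rw [h1, h3]
  field_simp

theorem crofton (v : E) : π * ∫ x, |⟪v, x⟫| * gs x = ‖v‖ := by
  rcases eq_or_ne v 0 with rfl | hv
  · simp
  have : Nontrivial E := ⟨⟨v, 0, hv⟩⟩
  obtain ⟨d, hd⟩ : ∃ d, Module.finrank ℝ E = d + 1 :=
    ⟨_, (Nat.succ_pred_eq_of_pos Module.finrank_pos).symm⟩
  have hn : 0 < ‖v‖ := norm_pos_iff.2 hv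
  have hu : ‖‖v‖⁻¹ • v‖ = 1 := norm_smul_inv_norm (𝕜 := ℝ) hv
  have h1 := slice hd hu (fun s τ => |s| * exp (-π * τ)) (int_inner _)
  have h2 : ∀ s : ℝ, ∫ z : EuclideanSpace ℝ (Fin d), |s| * exp (-π * (s ^ 2 + ‖z‖ ^ 2)) =
      |s| * exp (-π * s ^ 2) := by
    intro s
    simp only [mul_add, exp_add, ← mul_assoc]
    rw [integral_const_mul]
    exact mul_right_eq_self₀.2 (Or.inl integral_gs)
  simp only [h2, one_dim] at h1
  have h3 : ∀ x, |⟪v, x⟫| * gs x = ‖v‖ * (|⟪‖v‖⁻¹ • v, x⟫| * exp (-π * ‖x‖ ^ 2)) := by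
    intro x
    rw [real_inner_smul_left, abs_mul, abs_of_pos (inv_pos.2 hn), gs]
    field_simp
  simp only [h3]
  rw [integral_const_mul, h1]
  field_simp

/-- The volume of the unit ball. -/
noncomputable def omg (k : ℕ) : ℝ :=
  (volume (closedBall (0 : EuclideanSpace ℝ (Fin k)) 1)).toReal

/-- The radius of a level set of the Gaussian. -/
noncomputable def rr (τ : ℝ) : ℝ := √(-log τ / π)

theorem rr_nonneg (τ : ℝ) : 0 ≤ rr τ := sqrt_nonneg _

omit [InnerProductSpace ℝ E] [FiniteDimensional ℝ E] [MeasurableSpace E] [BorelSpace E] in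
theorem level [NormedSpace ℝ E] {A : Set E} (hA : IsCompact A) (hne : A.Nonempty) {τ : ℝ}
    (hτ : 0 < τ) : {x | τ ≤ exp (-π * infDist x A ^ 2)} =
      if τ ≤ 1 then A + rr τ • closedBall 0 1 else ∅ := by
  ext x
  have hd := infDist_nonneg (x := x) (s := A)
  rw [mem_ofPred_eq, ← log_le_iff_le_exp hτ]
  split_ifs with h
  · have h1 : log τ ≤ -π * infDist x A ^ 2 ↔ infDist x A ≤ rr τ := by
      rw [rr, le_sqrt hd (div_nonneg (by linarith [log_nonpos hτ.le h]) pi_pos.le),
        le_div_iff₀ pi_pos]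
      constructor <;> intro h <;> linarith
    rw [h1, smul_unitClosedBall_of_nonneg (rr_nonneg _)]
    constructor
    · intro h2
      obtain ⟨a, ha, e⟩ := hA.exists_infDist_eq_dist hne x
      exact ⟨a, ha, x - a, by rwa [mem_closedBall_zero_iff, ← dist_eq_norm, ← e], by simp⟩
    · rintro ⟨a, ha, y, hy, rfl⟩
      refine (infDist_le_dist_of_mem ha).trans ?_
      simpa using hy
  · have := log_pos (not_le.1 h)
    have h2 : 0 ≤ π * infDist x A ^ 2 := by positivity
    simp only [mem_empty_iff_false, iff_false, not_le]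
    linarith

theorem cake {A : Set E} (hA : IsCompact A) (hne : A.Nonempty)
    (hi : Integrable fun x => exp (-π * infDist x A ^ 2)) :
    ∫ x, exp (-π * infDist x A ^ 2) = ∫ τ in Ioi (0 : ℝ),
      if τ ≤ 1 then (volume (A + rr τ • closedBall (0 : E) 1)).toReal else 0 := by
  rw [hi.integral_eq_integral_meas_le (Eventually.of_forall fun x => (exp_pos _).le)]
  refine setIntegral_congr_fun measurableSet_Ioi fun τ hτ => ?_
  simp only [Measure.real]
  rw [level hA hne hτ]
  split_ifs <;> simp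

theorem kap (k : ℕ) : ∫ τ in Ioi (0 : ℝ), (if τ ≤ 1 then omg k * rr τ ^ k else 0) = 1 := by
  have h := cake (E := EuclideanSpace ℝ (Fin k)) (A := {0}) isCompact_singleton
    (singleton_nonempty _) (by
      simp only [infDist_singleton, dist_zero_right]
      exact int_gs)
  simp only [infDist_singleton, dist_zero_right] at h
  refine Eq.trans ?_ (h.symm.trans integral_gs)
  refine setIntegral_congr_fun measurableSet_Ioi fun τ _ => ?_
  split_ifs
  · rw [singleton_zero, zero_add, Measure.addHaar_smul, ENNReal.toReal_mul,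
      ENNReal.toReal_ofReal (abs_nonneg _), finrank_euclideanSpace_fin,
      abs_of_nonneg (pow_nonneg (rr_nonneg _) _), omg, mul_comm]
  · rfl

theorem wills {n : ℕ} (hn : Module.finrank ℝ E = n) {K : Set E} (hK : IsCompact K)
    (hne : K.Nonempty) {V : ℕ → ℝ} (hV : ∀ r : ℝ, 0 ≤ r →
      (volume (K + r • closedBall (0 : E) 1)).toReal =
        ∑ i ∈ Finset.range (n + 1), omg (n - i) * V i * r ^ (n - i)) {ε : ℝ} (hε : 0 < ε)
    (hi : Integrable fun x => exp (-π * infDist x (ε • K) ^ 2)) :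
    ∫ x, exp (-π * infDist x (ε • K) ^ 2) = ∑ i ∈ Finset.range (n + 1), V i * ε ^ i := by
  rw [cake (hK.smul ε) hne.smul_set hi]
  have h1 : ∀ τ : ℝ, (if τ ≤ 1 then (volume (ε • K + rr τ • closedBall (0 : E) 1)).toReal else 0)
      = ∑ i ∈ Finset.range (n + 1),
        V i * ε ^ i * if τ ≤ 1 then omg (n - i) * rr τ ^ (n - i) else 0 := by
    intro τ
    split_ifs
    · have e : ε • K + rr τ • closedBall (0 : E) 1 =
          ε • (K + (rr τ / ε) • closedBall (0 : E) 1) := by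
        rw [smul_add, smul_smul, mul_div_cancel₀ _ hε.ne']
      rw [e, Measure.addHaar_smul, ENNReal.toReal_mul, ENNReal.toReal_ofReal (abs_nonneg _),
        hV _ (div_nonneg (rr_nonneg _) hε.le), hn, abs_of_pos (pow_pos hε _), Finset.mul_sum]
      refine Finset.sum_congr rfl fun i hi => ?_
      have : n = i + (n - i) := by have := Finset.mem_range.1 hi; omega
      rw [show ε ^ n = ε ^ i * ε ^ (n - i) by rw [← pow_add, ← this], div_pow]
      field_simp
    · simp
  simp only [h1]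
  rw [integral_finsetSum _ fun i _ => (Integrable.of_integral_ne_zero (by
    rw [kap]; exact one_ne_zero)).const_mul _]
  refine Finset.sum_congr rfl fun i _ => ?_
  rw [integral_const_mul, kap, mul_one]

/-- The support function. -/
noncomputable def sf (K : Set E) (x : E) : ℝ := sSup ((fun a => ⟪a, x⟫) '' K)

section sf

omit [FiniteDimensional ℝ E] [MeasurableSpace E] [BorelSpace E]

variable {K : Set E}

theorem sf_attained (hK : IsCompact K) (hne : K.Nonempty) (x : E) : ∃ a ∈ K, sf K x = ⟪a, x⟫ :=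
  hK.exists_sSup_image_eq hne (by fun_prop)

theorem le_sf (hK : IsCompact K) {a : E} (ha : a ∈ K) (x : E) : ⟪a, x⟫ ≤ sf K x :=
  le_csSup (hK.image (by fun_prop)).bddAbove (mem_image_of_mem _ ha)

theorem continuous_sf (hK : IsCompact K) : Continuous (sf K) :=
  hK.continuous_sSup (f := fun x a => ⟪a, x⟫)
    (continuous_inner.comp (continuous_snd.prodMk continuous_fst))

theorem abs_sf_le (hK : IsCompact K) (hne : K.Nonempty) {R : ℝ} (hR : ∀ a ∈ K, ‖a‖ ≤ R) (x : E) :
    |sf K x| ≤ R * ‖x‖ := by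
  obtain ⟨a, ha, e⟩ := sf_attained hK hne x
  rw [e]
  exact (abs_real_inner_le_norm a x).trans
    (mul_le_mul_of_nonneg_right (hR a ha) (norm_nonneg _))

theorem dist_bounds (hK : IsCompact K) (hne : K.Nonempty) {R : ℝ} (hR : ∀ a ∈ K, ‖a‖ ≤ R)
    {ε : ℝ} (hε : 0 < ε) (x : E) : ‖x‖ ^ 2 - 2 * ε * sf K x ≤ infDist x (ε • K) ^ 2 ∧
      infDist x (ε • K) ^ 2 ≤ ‖x‖ ^ 2 - 2 * ε * sf K x + ε ^ 2 * R ^ 2 := by
  have key : ∀ a : E, dist x (ε • a) ^ 2 = ‖x‖ ^ 2 - 2 * ε * ⟪a, x⟫ + ε ^ 2 * ‖a‖ ^ 2 := by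
    intro a
    rw [dist_eq_norm, norm_sub_sq_real, real_inner_smul_right, norm_smul, real_inner_comm,
      mul_pow, norm_eq_abs, sq_abs]
    ring
  constructor
  · obtain ⟨_, ⟨a, ha, rfl⟩, e⟩ := (hK.smul ε).exists_infDist_eq_dist hne.smul_set x
    rw [e, key]
    nlinarith [mul_le_mul_of_nonneg_left (le_sf hK ha x) hε.le, sq_nonneg (ε * ‖a‖)]
  · obtain ⟨a, ha, e⟩ := sf_attained hK hne x
    have h1 := pow_le_pow_left₀ infDist_nonneg
      (infDist_le_dist_of_mem (x := x) (smul_mem_smul_set (a := ε) ha)) 2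
    have h2 := pow_le_pow_left₀ (norm_nonneg a) (hR a ha) 2
    rw [key, ← e] at h1
    nlinarith [mul_le_mul_of_nonneg_left h2 (sq_nonneg ε)]

end sf

theorem exp_le_quad (y : ℝ) : exp y ≤ 1 + y + y ^ 2 * exp |y| := by
  have h1 := add_one_le_exp (-y)
  have h2 : exp y * exp (-y) = 1 := by rw [← exp_add]; simp
  have h3 := exp_pos y
  have h4 : exp y ≤ exp |y| := exp_le_exp.2 (le_abs_self y)
  have h5 : exp y ≤ 1 + y * exp y := by nlinarith
  rcases le_total 0 y with h | h
  · nlinarith [mul_le_mul_of_nonneg_left h5 h, mul_le_mul_of_nonneg_left h4 (sq_nonneg y)]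
  · have h6 := add_one_le_exp y
    have h7 : 1 ≤ exp |y| := one_le_exp (abs_nonneg y)
    nlinarith [mul_le_mul_of_nonpos_left h6 h, mul_le_mul_of_nonneg_left h7 (sq_nonneg y)]

theorem coeff_zero {a b C : ℝ} {Q : ℝ → ℝ} (hQ : Continuous Q)
    (h : ∀ ε : ℝ, 0 < ε → ε ≤ 1 → |a + b * ε + ε ^ 2 * Q ε| ≤ C * ε ^ 2) : b = 0 := by
  have ev : ∀ᶠ ε in 𝓝[>] (0 : ℝ), 0 < ε ∧ ε ≤ 1 := by
    filter_upwards [Ioc_mem_nhdsGT one_pos] with ε hε using hε
  have lim : ∀ {f : ℝ → ℝ}, Continuous f → Tendsto f (𝓝[>] 0) (𝓝 (f 0)) := fun hf =>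
    (hf.tendsto 0).mono_left nhdsWithin_le_nhds
  have h1 := le_of_tendsto_of_tendsto
    (lim (f := fun ε => |a + b * ε + ε ^ 2 * Q ε|) (by fun_prop))
    (lim (f := fun ε => C * ε ^ 2) (by fun_prop)) (ev.mono fun ε hε => h ε hε.1 hε.2)
  have ha : a = 0 := by simpa using h1
  have h2 := le_of_tendsto_of_tendsto (lim (f := fun ε => |b + ε * Q ε|) (by fun_prop))
    (lim (f := fun ε => C * ε) (by fun_prop)) (ev.mono fun ε hε => by
      have h3 := h ε hε.1 hε.2
      rw [ha, show 0 + b * ε + ε ^ 2 * Q ε = ε * (b + ε * Q ε) by ring, abs_mul,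
        abs_of_pos hε.1] at h3
      exact le_of_mul_le_mul_left (by linarith) hε.1)
  simpa using h2

theorem V_one {n : ℕ} (hn : Module.finrank ℝ E = n + 1) {K : Set E} (hK : IsCompact K)
    (hne : K.Nonempty) {V : ℕ → ℝ} (hV : ∀ r : ℝ, 0 ≤ r →
      (volume (K + r • closedBall (0 : E) 1)).toReal =
        ∑ i ∈ Finset.range (n + 1 + 1), omg (n + 1 - i) * V i * r ^ (n + 1 - i)) :
    V 1 = 2 * π * ∫ x, sf K x * gs x := by
  obtain ⟨R, hR0, hR⟩ := hK.isBounded.exists_pos_norm_le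
  have hc := continuous_sf hK
  have hb := abs_sf_le hK hne hR
  set c := 2 * π * R with hcd
  have hc0 : 0 < c := by positivity
  have i0 : Integrable fun x => sf K x * gs x := int_pow hc hR0.le 1 (by simpa using hb)
  have i1 : Integrable fun x : E => (c * ‖x‖) ^ 2 * exp (c * ‖x‖) * gs x := by
    refine int_exp (by fun_prop) (c ^ 2) (2 + c) fun x => ?_
    rw [abs_of_nonneg (by positivity), add_mul, exp_add, mul_pow, mul_assoc]
    have := pow_le_exp (norm_nonneg x) 2
    gcongr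
    exact_mod_cast this
  set m := 2 * π * ∫ x, sf K x * gs x with hm
  set C := ∫ x : E, (c * ‖x‖) ^ 2 * exp (c * ‖x‖) * gs x
  have hC : 0 ≤ C := integral_nonneg fun x => mul_nonneg (by positivity) (gs_pos x).le
  have main : ∀ ε : ℝ, 0 < ε → ε ≤ 1 →
      |∑ i ∈ Finset.range (n + 1 + 1), V i * ε ^ i - (1 + m * ε)| ≤
        (C + π * R ^ 2 * (1 + |m| + C)) * ε ^ 2 := by
    intro ε h0 h1
    have hy : ∀ x, |2 * π * ε * sf K x| ≤ ε * (c * ‖x‖) := fun x => by
      rw [abs_mul, abs_of_pos (by positivity)]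
      have := mul_le_mul_of_nonneg_left (hb x) (by positivity : 0 ≤ 2 * π * ε)
      rw [hcd]
      linarith
    have hy' : ∀ x, |2 * π * ε * sf K x| ≤ c * ‖x‖ := fun x =>
      (hy x).trans (mul_le_of_le_one_left (by positivity) h1)
    have i2 : Integrable fun x => exp (2 * π * ε * sf K x) * gs x :=
      int_exp (by fun_prop) 1 c fun x => by
        rw [abs_of_pos (exp_pos _), one_mul]
        exact exp_le_exp.2 ((le_abs_self _).trans (hy' x))
    have up : ∀ x, exp (-π * infDist x (ε • K) ^ 2) ≤ exp (2 * π * ε * sf K x) * gs x := by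
      intro x
      rw [gs, ← exp_add, exp_le_exp]
      nlinarith [mul_le_mul_of_nonneg_left (dist_bounds hK hne hR h0 x).1 pi_pos.le]
    have lo : ∀ x, exp (-(π * R ^ 2 * ε ^ 2)) * (exp (2 * π * ε * sf K x) * gs x) ≤
        exp (-π * infDist x (ε • K) ^ 2) := by
      intro x
      rw [gs, ← exp_add, ← exp_add, exp_le_exp]
      nlinarith [mul_le_mul_of_nonneg_left (dist_bounds hK hne hR h0 x).2 pi_pos.le]
    have i3 : Integrable fun x => exp (-π * infDist x (ε • K) ^ 2) :=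
      i2.mono' (by
        have := continuous_infDist_pt (ε • K)
        fun_prop) (Eventually.of_forall fun x => by
          rw [norm_eq_abs, abs_of_pos (exp_pos _)]
          exact up x)
    rw [← wills hn hK hne hV h0 i3]
    have u1 := integral_mono i3 i2 up
    have l1 := integral_mono (i2.const_mul _) i3 lo
    rw [integral_const_mul] at l1
    have i4 : Integrable fun x => gs x + 2 * π * ε * (sf K x * gs x) :=
      int_gs.add (i0.const_mul _)
    have e4 : ∫ x, (gs x + 2 * π * ε * (sf K x * gs x)) = 1 + m * ε := by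
      rw [integral_add int_gs (i0.const_mul _), integral_gs, integral_const_mul, hm]
      ring
    have l2 : 1 + m * ε ≤ ∫ x, exp (2 * π * ε * sf K x) * gs x := by
      rw [← e4]
      refine integral_mono i4 i2 fun x => ?_
      nlinarith [mul_le_mul_of_nonneg_right (add_one_le_exp (2 * π * ε * sf K x)) (gs_pos x).le]
    have u2 : ∫ x, exp (2 * π * ε * sf K x) * gs x ≤ 1 + m * ε + ε ^ 2 * C := by
      rw [← e4, ← integral_const_mul, ← integral_add i4 (i1.const_mul _)]
      refine integral_mono i2 (i4.add (i1.const_mul _)) fun x => ?_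
      have h2 := exp_le_quad (2 * π * ε * sf K x)
      have h3 : (2 * π * ε * sf K x) ^ 2 * exp |2 * π * ε * sf K x| ≤
          ε ^ 2 * ((c * ‖x‖) ^ 2 * exp (c * ‖x‖)) := by
        rw [← mul_assoc, ← mul_pow, ← sq_abs]
        gcongr
        exacts [hy x, hy' x]
      nlinarith [mul_le_mul_of_nonneg_right (h2.trans (add_le_add_right h3 _)) (gs_pos x).le]
    set G := ∫ x, exp (2 * π * ε * sf K x) * gs x
    have hG : 0 ≤ G := integral_nonneg fun x => mul_nonneg (exp_pos _).le (gs_pos x).le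
    have h5 := mul_le_mul_of_nonneg_right (add_one_le_exp (-(π * R ^ 2 * ε ^ 2))) hG
    have h6 : G ≤ 1 + |m| + C := by
      have a1 : m * ε ≤ |m| := (mul_le_mul_of_nonneg_right (le_abs_self m) h0.le).trans
        (mul_le_of_le_one_right (abs_nonneg m) h1)
      have a2 : ε ^ 2 * C ≤ C := mul_le_of_le_one_left hC (pow_le_one₀ h0.le h1)
      linarith
    have h7 := mul_le_mul_of_nonneg_left h6 (by positivity : 0 ≤ π * R ^ 2 * ε ^ 2)
    have h8 : 0 ≤ C * ε ^ 2 := by positivity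
    have h9 : 0 ≤ π * R ^ 2 * ε ^ 2 * (1 + |m| + C) := by positivity
    rw [abs_le]
    constructor <;> nlinarith
  have := coeff_zero (a := V 0 - 1) (b := V 1 - m)
    (Q := fun ε => ∑ i ∈ Finset.range n, V (i + 1 + 1) * ε ^ i) (by fun_prop) fun ε h0 h1 => by
      refine le_of_eq_of_le ?_ (main ε h0 h1)
      rw [Finset.sum_range_succ', Finset.sum_range_succ', Finset.mul_sum]
      congr 1
      rw [Finset.sum_congr rfl fun i _ =>
        show ε ^ 2 * (V (i + 1 + 1) * ε ^ i) = V (i + 1 + 1) * ε ^ (i + 1 + 1) by ring]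
      ring
  linarith

end Pool.Agent.Lib.MP_7c9f8e_gt.Sl
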