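import Pool.Agent.Lib.MP_7c9f8e_gt.SlopeC

/-!
An ellipse is determined by its area and its perimeter, hence by its magnitude function.
-/

open MeasureTheory Set Real Metric Filter Topology
open scoped RealInnerProductSpace Pointwise

namespace Pool.Agent.Lib.MP_7c9f8e_gt.Sl

variable {E : Type} [NormedAddCommGroup E] [InnerProductSpace ℝ E] [FiniteDimensional ℝ E]
  [MeasurableSpace E] [BorelSpace E] {K : Set E}

/-- A diagonal map. -/
noncomputable def Dg (b : OrthonormalBasis (Fin 2) ℝ E) (a : Fin 2 → ℝ) : E →ₗ[ℝ] E :=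
  Matrix.toLin b.toBasis b.toBasis (Matrix.diagonal a)

omit [MeasurableSpace E] [BorelSpace E] [FiniteDimensional ℝ E] in
theorem Dg_basis (b : OrthonormalBasis (Fin 2) ℝ E) (a : Fin 2 → ℝ) (i : Fin 2) :
    Dg b a (b i) = a i • b i := by
  have := Matrix.toLin_self b.toBasis b.toBasis (Matrix.diagonal a) i
  simp only [OrthonormalBasis.coe_toBasis] at this
  rw [Dg, this, Finset.sum_eq_single i (fun j _ h => by simp [Matrix.diagonal_apply_ne _ h])
    (by simp), Matrix.diagonal_apply_eq]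

omit [MeasurableSpace E] [BorelSpace E] in
theorem Dg_norm (b : OrthonormalBasis (Fin 2) ℝ E) (a : Fin 2 → ℝ) (x : E) :
    ‖LinearMap.adjoint (Dg b a) x‖ =
      √(a 0 ^ 2 * ⟪b 0, x⟫ ^ 2 + a 1 ^ 2 * ⟪b 1, x⟫ ^ 2) := by
  rw [← sqrt_sq (norm_nonneg _), ← b.sum_sq_inner_right]
  simp only [Fin.sum_univ_two, LinearMap.adjoint_inner_right, Dg_basis, real_inner_smul_left,
    mul_pow]

omit [MeasurableSpace E] [BorelSpace E] [FiniteDimensional ℝ E] in
theorem ell_convex (c : E) (T : E →ₗ[ℝ] E) :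
    Convex ℝ ((fun y => c + T y) '' closedBall (0 : E) 1) := by
  have := ((convex_closedBall (0 : E) 1).linear_image T).translate c
  rwa [image_image] at this

omit [MeasurableSpace E] [BorelSpace E] in
theorem normal_form (hd : Module.finrank ℝ E = 2) (h : Ell K) :
    ∃ (c : E) (b : OrthonormalBasis (Fin 2) ℝ E) (a : Fin 2 → ℝ), 0 ≤ a 1 ∧ a 1 ≤ a 0 ∧
      K = (fun y => c + Dg b a y) '' closedBall 0 1 := by
  obtain ⟨c, T, rfl⟩ := h
  have hB : (T ∘ₗ LinearMap.adjoint T).IsSymmetric :=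
    (LinearMap.isPositive_self_comp_adjoint T).isSymmetric
  set b := hB.eigenvectorBasis hd
  set e := hB.eigenvalues hd
  have hb : ∀ i, T (LinearMap.adjoint T (b i)) = e i • b i := hB.apply_eigenvectorBasis hd
  have he : ∀ i, 0 ≤ e i := fun i => by
    have h1 : ⟪T (LinearMap.adjoint T (b i)), b i⟫ = ‖LinearMap.adjoint T (b i)‖ ^ 2 := by
      rw [← LinearMap.adjoint_inner_right, real_inner_self_eq_norm_sq]
    rw [hb, real_inner_smul_left, real_inner_self_eq_norm_sq, b.orthonormal.1, one_pow,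
      mul_one] at h1
    rw [h1]
    positivity
  have key : ∀ x, sf ((fun y => c + T y) '' closedBall 0 1) x =
      sf ((fun y => c + Dg b (fun i => √(e i)) y) '' closedBall 0 1) x := fun x => by
    rw [sf_ell, sf_ell, Dg_norm, sq_sqrt (he 0), sq_sqrt (he 1), ← sqrt_sq (norm_nonneg _),
      ← real_inner_self_eq_norm_sq, LinearMap.adjoint_inner_left, ← b.sum_inner_mul_inner x,
      Fin.sum_univ_two]
    have h1 : ∀ i, ⟪b i, T (LinearMap.adjoint T x)⟫ = e i * ⟪b i, x⟫ := fun i => by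
      rw [← LinearMap.adjoint_inner_left, LinearMap.adjoint_inner_right, hb, real_inner_smul_left]
    rw [h1, h1, real_inner_comm (b 0) x, real_inner_comm (b 1) x]
    congr 2
    ring
  have hne := nonempty_closedBall (x := (0 : E)).2 one_pos.le
  exact ⟨c, b, fun i => √(e i), sqrt_nonneg _,
    sqrt_le_sqrt (hB.eigenvalues_antitone hd (by decide)), Subset.antisymm
    (subset_of_sf (ell_compact _ _) (hne.image _) (ell_convex _ _) (ell_compact _ _)
      fun x => (key x).le)
    (subset_of_sf (ell_compact _ _) (hne.image _) (ell_convex _ _) (ell_compact _ _)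
      fun x => (key x).ge)⟩

theorem vol_ell (c : E) (b : OrthonormalBasis (Fin 2) ℝ E) (a : Fin 2 → ℝ) :
    volume.real ((fun y => c + Dg b a y) '' closedBall 0 1) =
      |a 0 * a 1| * volume.real (closedBall (0 : E) 1) := by
  rw [← image_image (fun x => c + x) (Dg b a), Measure.real, image_add_left, measure_preimage_add,
    Measure.addHaar_image_linearMap, Dg, LinearMap.det_toLin, Matrix.det_diagonal,
    Fin.prod_univ_two, ENNReal.toReal_mul, ENNReal.toReal_ofReal (abs_nonneg _), Measure.real]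

/-- The integrand of the perimeter. -/
noncomputable def pw (b : OrthonormalBasis (Fin 2) ℝ E) (α β : ℝ) (x : E) : ℝ :=
  √(α * ⟪b 0, x⟫ ^ 2 + β * ⟪b 1, x⟫ ^ 2)

omit [FiniteDimensional ℝ E] [MeasurableSpace E] [BorelSpace E] in
@[fun_prop]
theorem continuous_pw (b : OrthonormalBasis (Fin 2) ℝ E) (α β : ℝ) : Continuous (pw b α β) := by
  unfold pw
  fun_prop

theorem int_pw (b : OrthonormalBasis (Fin 2) ℝ E) (α β : ℝ) :
    Integrable fun x => pw b α β x * gs x := by
  refine int_pow (by fun_prop) (sqrt_nonneg (|α| + |β|)) 1 fun x => ?_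
  have h := b.sum_sq_inner_right x
  rw [Fin.sum_univ_two] at h
  rw [pw, abs_of_nonneg (sqrt_nonneg _), pow_one, ← sqrt_sq (norm_nonneg x),
    ← sqrt_mul (by positivity), ← h]
  refine sqrt_le_sqrt ?_
  nlinarith [mul_le_mul_of_nonneg_right (le_abs_self α) (sq_nonneg ⟪b 0, x⟫),
    mul_le_mul_of_nonneg_right (le_abs_self β) (sq_nonneg ⟪b 1, x⟫),
    mul_nonneg (abs_nonneg α) (sq_nonneg ⟪b 1, x⟫), mul_nonneg (abs_nonneg β) (sq_nonneg ⟪b 0, x⟫)]

theorem mK_ell (c : E) (b : OrthonormalBasis (Fin 2) ℝ E) (a : Fin 2 → ℝ) :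
    mK ((fun y => c + Dg b a y) '' closedBall 0 1) =
      π * ∫ x, pw b (a 0 ^ 2) (a 1 ^ 2) x * gs x := by
  simp only [mK, sf_ell, Dg_norm, add_mul, ← pw.eq_1]
  rw [integral_add (int_lin c).1 (int_pw b _ _), (int_lin c).2, zero_add]

theorem pw_basis (b b' : OrthonormalBasis (Fin 2) ℝ E) (α β : ℝ) :
    ∫ x, pw b' α β x * gs x = ∫ x, pw b α β x * gs x := by
  set R := b.equiv b' (Equiv.refl _)
  have hR : ∀ i, b' i = R (b i) := fun i => by simp [R]
  rw [← R.measurePreserving.integral_comp R.toMeasurableEquiv.measurableEmbedding]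
  simp only [pw, gs, hR, R.inner_map_map, R.norm_map]

theorem pw_swap (b : OrthonormalBasis (Fin 2) ℝ E) (α β : ℝ) :
    ∫ x, pw b β α x * gs x = ∫ x, pw b α β x * gs x := by
  rw [← pw_basis b (b.reindex (Equiv.swap 0 1)) α β]
  simp [pw, add_comm]

theorem root_sum {α β α' β' u v : ℝ} (hα : 0 ≤ α) (hβ : 0 ≤ β) (hα' : 0 ≤ α') (hβ' : 0 ≤ β')
    (hu : 0 ≤ u) (hv : 0 ≤ v) (hp : α * β = α' * β') (hs : α + β < α' + β') :
    √(α * u + β * v) + √(β * u + α * v) ≤ √(α' * u + β' * v) + √(β' * u + α' * v) ∧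
      (0 < u + v →
        √(α * u + β * v) + √(β * u + α * v) < √(α' * u + β' * v) + √(β' * u + α' * v)) := by
  have e : ∀ A B : ℝ, 0 ≤ A → 0 ≤ B → (√A + √B) ^ 2 = A + B + 2 * √(A * B) := fun A B hA hB => by
    rw [add_sq, sq_sqrt hA, sq_sqrt hB, sqrt_mul hA]
    ring
  have e1 := e (α * u + β * v) (β * u + α * v) (by positivity) (by positivity)
  have e2 := e (α' * u + β' * v) (β' * u + α' * v) (by positivity) (by positivity)
  have h1 : √((α * u + β * v) * (β * u + α * v)) ≤ √((α' * u + β' * v) * (β' * u + α' * v)) := by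
    refine sqrt_le_sqrt ?_
    have h2 := pow_le_pow_left₀ (by positivity) hs.le 2
    have h3 := mul_le_mul_of_nonneg_right h2 (mul_nonneg hu hv)
    have h4 : α * β * (u - v) ^ 2 = α' * β' * (u - v) ^ 2 := by rw [hp]
    nlinarith
  refine ⟨le_of_pow_le_pow_left₀ two_ne_zero (by positivity) ?_, fun h => lt_of_pow_lt_pow_left₀ 2
    (by positivity) ?_⟩
  · nlinarith [mul_le_mul_of_nonneg_right hs.le (add_nonneg hu hv)]
  · nlinarith [mul_lt_mul_of_pos_right hs h]

theorem pw_lt (b : OrthonormalBasis (Fin 2) ℝ E) {α β α' β' : ℝ} (hα : 0 ≤ α) (hβ : 0 ≤ β)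
    (hα' : 0 ≤ α') (hβ' : 0 ≤ β') (hp : α * β = α' * β') (hs : α + β < α' + β') :
    ∫ x, pw b α β x * gs x < ∫ x, pw b α' β' x * gs x := by
  have i1 : Integrable fun x => pw b α' β' x * gs x + pw b β' α' x * gs x :=
    (int_pw b α' β').add (int_pw b β' α')
  have i2 : Integrable fun x => pw b α β x * gs x + pw b β α x * gs x :=
    (int_pw b α β).add (int_pw b β α)
  have key := fun x => root_sum hα hβ hα' hβ' (sq_nonneg ⟪b 0, x⟫) (sq_nonneg ⟪b 1, x⟫) hp hs
  have h := integral_pos_of_integrable_nonneg_nonzero (x := b 0) (μ := volume)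
    (f := fun x => (pw b α' β' x * gs x + pw b β' α' x * gs x) -
      (pw b α β x * gs x + pw b β α x * gs x)) (by fun_prop) (i1.sub i2)
    (fun x => by
      have := mul_le_mul_of_nonneg_right (key x).1 (gs_pos x).le
      simp only [pw, Pi.zero_apply]
      linarith)
    (by
      have := mul_lt_mul_of_pos_right ((key (b 0)).2 (by
        have : ⟪b 0, b 0⟫ = 1 := by simp
        rw [this]
        positivity)) (gs_pos (b 0))
      simp only [pw]
      linarith)
  rw [integral_sub i1 i2, integral_add (int_pw _ _ _) (int_pw _ _ _),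
    integral_add (int_pw _ _ _) (int_pw _ _ _), pw_swap b α β, pw_swap b α' β'] at h
  linarith

theorem ell_congr (hd : Module.finrank ℝ E = 2) {A B : Set E} (hA : Ell A) (hB : Ell B)
    (hv : volume.real A = volume.real B) (hm : mK A = mK B) : ∃ f : E ≃ᵢ E, f '' A = B := by
  obtain ⟨c, b, a, a1, a2, rfl⟩ := normal_form hd hA
  obtain ⟨c', b', a', a1', a2', rfl⟩ := normal_form hd hB
  have a0 := a1.trans a2
  have a0' := a1'.trans a2'
  rw [vol_ell, vol_ell, abs_of_nonneg (mul_nonneg a0 a1), abs_of_nonneg (mul_nonneg a0' a1')] at hv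
  have hp := mul_right_cancel₀ (ENNReal.toReal_pos (measure_closedBall_pos volume (0 : E)
    one_pos).ne' measure_closedBall_lt_top.ne).ne' hv
  rw [mK_ell, mK_ell, pw_basis b b'] at hm
  have h1 := mul_left_cancel₀ pi_pos.ne' hm
  have hp2 : a 0 ^ 2 * a 1 ^ 2 = a' 0 ^ 2 * a' 1 ^ 2 := by rw [← mul_pow, ← mul_pow, hp]
  have hs : a 0 ^ 2 + a 1 ^ 2 = a' 0 ^ 2 + a' 1 ^ 2 := le_antisymm
    (not_lt.1 fun h => (pw_lt b (sq_nonneg _) (sq_nonneg _) (sq_nonneg _) (sq_nonneg _)
      hp2.symm h).ne' h1)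
    (not_lt.1 fun h => (pw_lt b (sq_nonneg _) (sq_nonneg _) (sq_nonneg _) (sq_nonneg _)
      hp2 h).ne h1)
  have s1 : a 0 + a 1 = a' 0 + a' 1 :=
    (sq_eq_sq₀ (by positivity) (by positivity)).1 (by linarith)
  have s2 : a 0 - a 1 = a' 0 - a' 1 :=
    (sq_eq_sq₀ (by linarith) (by linarith)).1 (by linarith)
  have ea : ∀ i, a i = a' i := Fin.forall_fin_two.2 ⟨by linarith, by linarith⟩
  set R := b.equiv b' (Equiv.refl _)
  have hR : ∀ i, R (b i) = b' i := fun i => by simp [R]
  have hD : ∀ y, R (Dg b a y) = Dg b' a' (R y) := fun y => by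
    have : (R.toLinearEquiv : E →ₗ[ℝ] E) ∘ₗ Dg b a = Dg b' a' ∘ₗ (R.toLinearEquiv : E →ₗ[ℝ] E) :=
      b.toBasis.ext fun i => by simp [Dg_basis, hR, ea]
    exact LinearMap.congr_fun this y
  refine ⟨((IsometryEquiv.addLeft (-c)).trans R.toIsometryEquiv).trans (IsometryEquiv.addLeft c'),
    ?_⟩
  have hball : R '' closedBall (0 : E) 1 = closedBall 0 1 := by
    rw [R.image_closedBall, map_zero]
  rw [image_image]
  nth_rewrite 2 [← hball]
  rw [image_image]
  refine image_congr fun y _ => ?_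
  simp [hD]

theorem ellipse_rigid (hd : Module.finrank ℝ E = 2) {A B : Set E} (hA : Ell A)
    (iA : (interior A).Nonempty) (hB : IsCompact B) (cB : Convex ℝ B) (iB : (interior B).Nonempty)
    (h : ∀ t : ℝ, 0 < t → magnitude (t • A) = magnitude (t • B)) : ∃ f : E ≃ᵢ E, f '' A = B := by
  have : Nontrivial E := Module.nontrivial_of_finrank_pos (R := ℝ) (by omega)
  have kA : IsCompact A := by
    obtain ⟨c, T, rfl⟩ := hA
    exact ell_compact c T
  have cA : Convex ℝ A := by
    obtain ⟨c, T, rfl⟩ := hA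
    exact ell_convex c T
  obtain ⟨h1, h2⟩ := plane_inv hd kA cA iA hB cB iB h
  have h3 := (slope_iff kA (iA.mono interior_subset) cA).2 hA
  rw [h2] at h3
  refine ell_congr hd hA ((slope_iff hB (iB.mono interior_subset) cB).1 (h3.congr' ?_)) h1 h2
  filter_upwards [self_mem_nhdsWithin] with t ht
  rw [h t ht]

end Pool.Agent.Lib.MP_7c9f8e_gt.Sl
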